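import Mathlib
import Pool.Agent.Helper2.NewtonCover

set_option autoImplicit false

/-!
# Translates of the interior and the Newton covering number
-/

open Set Metric
open Pool.Agent.Helper2.NewtonCover

namespace Pool.Agent.Run7.h533.AC

/-- The Newton covering number is at most the number of translates of the interior. -/
theorem newton_le {d : ℕ} {C : Set (E d)} {T : Finset (E d)}
    (h : C ⊆ ⋃ t ∈ T, (fun x => t + x) '' interior C) : newton C ≤ T.card := by
  apply Nat.sInf_le
  refine ⟨fun i => IsometryEquiv.addLeft ((T.equivFin.symm i : T) : E d),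
    ⋃ t ∈ T, (fun x => t + x) '' interior C, ?_, h, ?_⟩
  · exact isOpen_biUnion fun t _ => (Homeomorph.addLeft t).isOpenMap _ isOpen_interior
  · refine Set.iUnion₂_subset fun t ht => ?_
    rintro _ ⟨y, hy, rfl⟩
    refine Set.mem_iUnion.2 ⟨T.equivFin ⟨t, ht⟩, y, interior_subset hy, ?_⟩
    simp

end Pool.Agent.Run7.h533.AC
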