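import Mathlib

set_option autoImplicit false

/-!
# Dyadic sums of random points are dominated by the uniform distribution
-/

open MeasureTheory Module Finset
open scoped Pointwise ENNReal

namespace Pool.Agent.Run7.h533.AC

section Dom

variable {E : Type*} [NormedAddCommGroup E] [NormedSpace ℝ E] [FiniteDimensional ℝ E]
  [MeasurableSpace E] [BorelSpace E] (μ : Measure E) [μ.IsAddHaarMeasure]

/-- up to the mass `b`, the measure `ν` has a density which is at most `Λ` and lives on `S` -/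
def Dom (ν : Measure E) (Λ : ℝ≥0∞) (S : Set E) (b : ℝ≥0∞) : Prop :=
  ∃ g : E → ℝ≥0∞, Measurable g ∧ (∀ z, g z ≤ Λ) ∧ (∀ z, g z ≠ 0 → z ∈ S) ∧
    ∫⁻ z, g z ∂μ ≤ 1 ∧ ∀ F : E → ℝ≥0∞, Measurable F → (∀ z, F z ≤ 1) →
      ∫⁻ z, F z ∂ν ≤ ∫⁻ z, F z * g z ∂μ + b

/-- the distribution of `(a + s) / 2` for a random `a ∈ A` and a random `s` with distribution
`ν` -/
noncomputable def st (A : Finset E) (ν : Measure E) : Measure E :=
  (A.card : ℝ≥0∞)⁻¹ • ∑ a ∈ A, ν.map (fun s => (1 / 2 : ℝ) • (a + s))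

omit [FiniteDimensional ℝ E] in
theorem meas_half [SecondCountableTopology E] (a : E) :
    Measurable (fun s : E => (1 / 2 : ℝ) • (a + s)) :=
  (continuous_const.smul (continuous_const.add continuous_id)).measurable

theorem lintegral_st (A : Finset E) (ν : Measure E) (F : E → ℝ≥0∞) (hF : Measurable F) :
    ∫⁻ z, F z ∂(st A ν) = (A.card : ℝ≥0∞)⁻¹ * ∑ a ∈ A, ∫⁻ s, F ((1 / 2 : ℝ) • (a + s)) ∂ν := by
  have : SecondCountableTopology E := by
    have := FiniteDimensional.proper_real E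
    infer_instance
  unfold st
  rw [lintegral_smul_measure, lintegral_finsetSum_measure, smul_eq_mul]
  congr 1
  refine Finset.sum_congr rfl fun a _ => ?_
  rw [lintegral_map hF (meas_half a)]

theorem two_cov (H : E → ℝ≥0∞) (hH : Measurable H) :
    (2 : ℝ≥0∞) ^ finrank ℝ E * ∫⁻ z, H ((2 : ℝ) • z) ∂μ = ∫⁻ z, H z ∂μ := by
  have h1 : ∫⁻ z, H ((2 : ℝ) • z) ∂μ = ∫⁻ z, H z ∂(Measure.map (fun z : E => (2 : ℝ) • z) μ) := by
    rw [lintegral_map hH (measurable_const_smul (2 : ℝ))]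
  rw [h1, Measure.map_addHaar_smul μ (by norm_num : (2 : ℝ) ≠ 0), lintegral_smul_measure,
    smul_eq_mul, ← mul_assoc]
  have h2 : (2 : ℝ≥0∞) ^ finrank ℝ E * ENNReal.ofReal |((2 : ℝ) ^ finrank ℝ E)⁻¹| = 1 := by
    rw [abs_of_pos (by positivity), ENNReal.ofReal_inv_of_pos (by positivity),
      ENNReal.ofReal_pow (by norm_num), ENNReal.ofReal_ofNat]
    exact ENNReal.mul_inv_cancel (by positivity) (ENNReal.pow_ne_top (by norm_num))
  rw [h2, one_mul]

theorem cov_pair (F g : E → ℝ≥0∞) (hF : Measurable F) (hg : Measurable g) (a : E) :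
    (2 : ℝ≥0∞) ^ finrank ℝ E * ∫⁻ z, F z * g ((2 : ℝ) • z - a) ∂μ
      = ∫⁻ s, F ((1 / 2 : ℝ) • (a + s)) * g s ∂μ := by
  have : SecondCountableTopology E := by
    have := FiniteDimensional.proper_real E
    infer_instance
  have hH : Measurable (fun w : E => F ((1 / 2 : ℝ) • w) * g (w - a)) := by
    refine (hF.comp (measurable_const_smul (1 / 2 : ℝ))).mul (hg.comp ?_)
    exact measurable_id.sub_const a
  have h1 := two_cov μ _ hH
  have e1 : ∀ z : E, F ((1 / 2 : ℝ) • ((2 : ℝ) • z)) * g ((2 : ℝ) • z - a)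
      = F z * g ((2 : ℝ) • z - a) := by
    intro z
    rw [smul_smul]
    norm_num
  simp only [e1] at h1
  rw [h1]
  have h2 := lintegral_sub_right_eq_self (μ := μ)
    (fun s : E => F ((1 / 2 : ℝ) • (a + s)) * g s) a
  rw [← h2]
  refine lintegral_congr fun w => ?_
  rw [add_sub_cancel]

/-- the density after one step -/
noncomputable def nx (A : Finset E) (g : E → ℝ≥0∞) (z : E) : ℝ≥0∞ :=
  (A.card : ℝ≥0∞)⁻¹ * ∑ a ∈ A, (2 : ℝ≥0∞) ^ finrank ℝ E * g ((2 : ℝ) • z - a)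

theorem nx_meas (A : Finset E) {g : E → ℝ≥0∞} (hg : Measurable g) : Measurable (nx A g) := by
  have : SecondCountableTopology E := by
    have := FiniteDimensional.proper_real E
    infer_instance
  unfold nx
  refine Measurable.const_mul (Finset.measurable_sum _ fun a _ => ?_) _
  refine Measurable.const_mul (hg.comp ?_) _
  exact (measurable_const_smul (2 : ℝ)).sub_const a

theorem nx_int (A : Finset E) {F g : E → ℝ≥0∞} (hF : Measurable F) (hg : Measurable g) :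
    ∫⁻ z, F z * nx A g z ∂μ
      = (A.card : ℝ≥0∞)⁻¹ * ∑ a ∈ A, ∫⁻ s, F ((1 / 2 : ℝ) • (a + s)) * g s ∂μ := by
  have : SecondCountableTopology E := by
    have := FiniteDimensional.proper_real E
    infer_instance
  have hm : ∀ a : E, Measurable (fun z : E => F z * g ((2 : ℝ) • z - a)) := fun a =>
    hF.mul (hg.comp ((measurable_const_smul (2 : ℝ)).sub_const a))
  have e1 : ∀ z, F z * nx A g z = (A.card : ℝ≥0∞)⁻¹ *
      ∑ a ∈ A, (2 : ℝ≥0∞) ^ finrank ℝ E * (F z * g ((2 : ℝ) • z - a)) := by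
    intro z
    unfold nx
    rw [mul_left_comm, Finset.mul_sum]
    congr 1
    refine Finset.sum_congr rfl fun a _ => ?_
    rw [mul_left_comm]
  simp only [e1]
  rw [lintegral_const_mul _ (Finset.measurable_sum _ fun a _ => (hm a).const_mul _),
    lintegral_finsetSum _ (fun a _ => (hm a).const_mul _)]
  congr 1
  refine Finset.sum_congr rfl fun a _ => ?_
  rw [lintegral_const_mul _ (hm a), cov_pair μ F g hF hg a]

theorem nx_sq (A : Finset E) (hA : A.Nonempty) {g : E → ℝ≥0∞} (hg : Measurable g) {Λ q : ℝ≥0∞}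
    {S : Set E} (hΛ : ∀ z, g z ≤ Λ) (hS : ∀ z, g z ≠ 0 → z ∈ S) (hg1 : ∫⁻ z, g z ∂μ ≤ 1)
    (hq : ∀ t : E, (open Classical in ((A.filter fun x => x - t ∈ S).card : ℝ≥0∞))
      ≤ q * A.card) :
    ∫⁻ z, nx A g z * nx A g z ∂μ ≤ (2 : ℝ≥0∞) ^ finrank ℝ E * q * Λ := by
  classical
  have : SecondCountableTopology E := by
    have := FiniteDimensional.proper_real E
    infer_instance
  have hN0 : (A.card : ℝ≥0∞) ≠ 0 := by
    have := hA.card_pos
    exact_mod_cast this.ne'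
  have hNt : (A.card : ℝ≥0∞) ≠ ⊤ := ENNReal.natCast_ne_top _
  rw [nx_int μ A (nx_meas A hg) hg]
  have e1 : ∑ b ∈ A, ∫⁻ s, nx A g ((1 / 2 : ℝ) • (b + s)) * g s ∂μ
      = ∫⁻ s, (∑ b ∈ A, nx A g ((1 / 2 : ℝ) • (b + s))) * g s ∂μ := by
    rw [← lintegral_finsetSum]
    · refine lintegral_congr fun s => ?_
      rw [Finset.sum_mul]
    · intro b _
      exact ((nx_meas A hg).comp (meas_half b)).mul hg
  rw [e1]
  have h2 : ∀ s, ∑ b ∈ A, nx A g ((1 / 2 : ℝ) • (b + s))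
      ≤ (2 : ℝ≥0∞) ^ finrank ℝ E * (Λ * (q * A.card)) := by
    intro s
    have e2 : ∀ b : E, nx A g ((1 / 2 : ℝ) • (b + s)) = (A.card : ℝ≥0∞)⁻¹ *
        ∑ a ∈ A, (2 : ℝ≥0∞) ^ finrank ℝ E * g (b - (a - s)) := by
      intro b
      unfold nx
      congr 1
      refine Finset.sum_congr rfl fun a _ => ?_
      congr 2
      rw [smul_smul]
      norm_num
      abel
    simp only [e2]
    rw [← Finset.mul_sum, Finset.sum_comm]
    have h3 : ∀ a ∈ A, ∑ b ∈ A, (2 : ℝ≥0∞) ^ finrank ℝ E * g (b - (a - s))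
        ≤ (2 : ℝ≥0∞) ^ finrank ℝ E * (Λ * (q * A.card)) := by
      intro a _
      rw [← Finset.mul_sum]
      gcongr
      calc ∑ b ∈ A, g (b - (a - s)) ≤ ∑ b ∈ A, (if b - (a - s) ∈ S then Λ else 0) := by
            refine Finset.sum_le_sum fun b _ => ?_
            split_ifs with h
            · exact hΛ _
            · have : g (b - (a - s)) = 0 := by
                by_contra hne
                exact h (hS _ hne)
              rw [this]
        _ = Λ * ((A.filter fun x => x - (a - s) ∈ S).card : ℝ≥0∞) := by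
            rw [Finset.sum_ite, Finset.sum_const_zero, add_zero, Finset.sum_const, nsmul_eq_mul,
              mul_comm]
        _ ≤ Λ * (q * A.card) := by
            gcongr
            exact hq _
    calc (A.card : ℝ≥0∞)⁻¹ * ∑ a ∈ A, ∑ b ∈ A, (2 : ℝ≥0∞) ^ finrank ℝ E * g (b - (a - s))
        ≤ (A.card : ℝ≥0∞)⁻¹ * ∑ _a ∈ A, (2 : ℝ≥0∞) ^ finrank ℝ E * (Λ * (q * A.card)) := by
          gcongr with a ha
          exact h3 a ha
      _ = (A.card : ℝ≥0∞)⁻¹ * A.card * ((2 : ℝ≥0∞) ^ finrank ℝ E * (Λ * (q * A.card))) := by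
          rw [Finset.sum_const, nsmul_eq_mul, mul_assoc]
      _ = _ := by rw [ENNReal.inv_mul_cancel hN0 hNt, one_mul]
  calc (A.card : ℝ≥0∞)⁻¹ * ∫⁻ s, (∑ b ∈ A, nx A g ((1 / 2 : ℝ) • (b + s))) * g s ∂μ
      ≤ (A.card : ℝ≥0∞)⁻¹ * ∫⁻ s, ((2 : ℝ≥0∞) ^ finrank ℝ E * (Λ * (q * A.card))) * g s ∂μ := by
        gcongr with s
        exact h2 s
    _ = (A.card : ℝ≥0∞)⁻¹ * (((2 : ℝ≥0∞) ^ finrank ℝ E * (Λ * (q * A.card))) *
          ∫⁻ s, g s ∂μ) := by rw [lintegral_const_mul _ hg]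
    _ ≤ (A.card : ℝ≥0∞)⁻¹ * (((2 : ℝ≥0∞) ^ finrank ℝ E * (Λ * (q * A.card))) * 1) := by gcongr
    _ = (A.card : ℝ≥0∞)⁻¹ * A.card * ((2 : ℝ≥0∞) ^ finrank ℝ E * q * Λ) := by ring
    _ = _ := by rw [ENNReal.inv_mul_cancel hN0 hNt, one_mul]

/-- **One step.** -/
theorem Dom.step {ν : Measure E} {Λ : ℝ≥0∞} {S S' : Set E} {b C q : ℝ≥0∞}
    (h : Dom μ ν Λ S b) (A : Finset E) (hA : A.Nonempty)
    (hSS : ∀ a ∈ A, ∀ s ∈ S, (1 / 2 : ℝ) • (a + s) ∈ S')
    (hq : ∀ t : E, (open Classical in ((A.filter fun x => x - t ∈ S).card : ℝ≥0∞))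
      ≤ q * A.card)
    (hΛ0 : Λ ≠ 0) (hΛt : Λ ≠ ⊤) (hq0 : q ≠ 0) (hqt : q ≠ ⊤) (hC0 : C ≠ 0) (hCt : C ≠ ⊤) :
    Dom μ (st A ν) (C * ((2 : ℝ≥0∞) ^ finrank ℝ E * q) * Λ) S' (b + C⁻¹) := by
  classical
  have : SecondCountableTopology E := by
    have := FiniteDimensional.proper_real E
    infer_instance
  obtain ⟨g, hgm, hgΛ, hgS, hg1, hdom⟩ := h
  have hN0 : (A.card : ℝ≥0∞) ≠ 0 := by
    have := hA.card_pos
    exact_mod_cast this.ne'
  have hNt : (A.card : ℝ≥0∞) ≠ ⊤ := ENNReal.natCast_ne_top _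
  set κ : ℝ≥0∞ := (2 : ℝ≥0∞) ^ finrank ℝ E * q * Λ with hκ
  have hp0 : (2 : ℝ≥0∞) ^ finrank ℝ E ≠ 0 := pow_ne_zero _ (by norm_num)
  have hpt : (2 : ℝ≥0∞) ^ finrank ℝ E ≠ ⊤ := ENNReal.pow_ne_top (by norm_num)
  have hκ0 : κ ≠ 0 := mul_ne_zero (mul_ne_zero hp0 hq0) hΛ0
  have hκt : κ ≠ ⊤ := ENNReal.mul_ne_top (ENNReal.mul_ne_top hpt hqt) hΛt
  set Λ' : ℝ≥0∞ := C * κ with hΛ'
  have hΛ'e : C * ((2 : ℝ≥0∞) ^ finrank ℝ E * q) * Λ = Λ' := by rw [hΛ', hκ]; ring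
  have hΛ'0 : Λ' ≠ 0 := mul_ne_zero hC0 hκ0
  have hΛ't : Λ' ≠ ⊤ := ENNReal.mul_ne_top hCt hκt
  rw [hΛ'e]
  set h := nx A g with hh
  have hhm : Measurable h := nx_meas A hgm
  set T : Set E := {z | h z ≤ Λ'} with hT
  have hTm : MeasurableSet T := measurableSet_le hhm measurable_const
  refine ⟨T.indicator h, hhm.indicator hTm, ?_, ?_, ?_, ?_⟩
  · intro z
    by_cases hz : z ∈ T
    · rw [Set.indicator_of_mem hz]; exact hz
    · rw [Set.indicator_of_notMem hz]; exact zero_le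
  · intro z hz
    have hz1 : h z ≠ 0 := fun h0 => hz (by
      by_cases hzT : z ∈ T
      · rw [Set.indicator_of_mem hzT, h0]
      · rw [Set.indicator_of_notMem hzT])
    have hz2 : ∑ a ∈ A, (2 : ℝ≥0∞) ^ finrank ℝ E * g ((2 : ℝ) • z - a) ≠ 0 := by
      intro h0
      apply hz1
      rw [hh]
      unfold nx
      rw [h0, mul_zero]
    obtain ⟨a, ha, hga⟩ := Finset.exists_ne_zero_of_sum_ne_zero hz2
    have hgs := hgS _ (right_ne_zero_of_mul hga)
    have := hSS a ha _ hgs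
    rw [add_sub_cancel, smul_smul] at this
    norm_num at this
    exact this
  · calc ∫⁻ z, T.indicator h z ∂μ ≤ ∫⁻ z, h z ∂μ :=
          lintegral_mono fun z => Set.indicator_le_self _ _ _
      _ = ∫⁻ z, (fun _ => (1 : ℝ≥0∞)) z * h z ∂μ := by simp
      _ = (A.card : ℝ≥0∞)⁻¹ * ∑ a ∈ A, ∫⁻ s, (1 : ℝ≥0∞) * g s ∂μ :=
          nx_int μ A measurable_const hgm
      _ ≤ (A.card : ℝ≥0∞)⁻¹ * ∑ a ∈ A, 1 := by
          gcongr
          simpa using hg1
      _ = 1 := by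
          rw [Finset.sum_const, nsmul_eq_mul, mul_one, ENNReal.inv_mul_cancel hN0 hNt]
  · intro F hF hF1
    rw [lintegral_st A ν F hF]
    have h1 : ∀ a ∈ A, ∫⁻ s, F ((1 / 2 : ℝ) • (a + s)) ∂ν
        ≤ ∫⁻ s, F ((1 / 2 : ℝ) • (a + s)) * g s ∂μ + b := fun a _ =>
      hdom _ (hF.comp (meas_half a)) fun z => hF1 _
    have h2 : (A.card : ℝ≥0∞)⁻¹ * ∑ a ∈ A, ∫⁻ s, F ((1 / 2 : ℝ) • (a + s)) ∂ν
        ≤ ∫⁻ z, F z * h z ∂μ + b := by
      calc (A.card : ℝ≥0∞)⁻¹ * ∑ a ∈ A, ∫⁻ s, F ((1 / 2 : ℝ) • (a + s)) ∂ν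
          ≤ (A.card : ℝ≥0∞)⁻¹ * ∑ a ∈ A, (∫⁻ s, F ((1 / 2 : ℝ) • (a + s)) * g s ∂μ + b) := by
            gcongr with a ha
            exact h1 a ha
        _ = ∫⁻ z, F z * h z ∂μ + (A.card : ℝ≥0∞)⁻¹ * A.card * b := by
            rw [Finset.sum_add_distrib, mul_add, nx_int μ A hF hgm, Finset.sum_const,
              nsmul_eq_mul, mul_assoc]
        _ = _ := by rw [ENNReal.inv_mul_cancel hN0 hNt, one_mul]
    refine h2.trans ?_
    -- truncation
    have h3 : ∫⁻ z, F z * h z ∂μ ≤ ∫⁻ z, F z * T.indicator h z ∂μ + C⁻¹ := by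
      have h4 : ∀ z, F z * h z ≤ F z * T.indicator h z + Λ'⁻¹ * (h z * h z) := by
        intro z
        by_cases hz : z ∈ T
        · rw [Set.indicator_of_mem hz]
          exact le_self_add
        · rw [Set.indicator_of_notMem hz, mul_zero, zero_add]
          have hz' : Λ' ≤ h z := (not_le.1 hz).le
          calc F z * h z ≤ 1 * h z := by gcongr; exact hF1 z
            _ = Λ'⁻¹ * Λ' * h z := by rw [ENNReal.inv_mul_cancel hΛ'0 hΛ't]
            _ = Λ'⁻¹ * (Λ' * h z) := by rw [mul_assoc]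
            _ ≤ Λ'⁻¹ * (h z * h z) := by gcongr
      calc ∫⁻ z, F z * h z ∂μ ≤ ∫⁻ z, (F z * T.indicator h z + Λ'⁻¹ * (h z * h z)) ∂μ :=
            lintegral_mono h4
        _ = ∫⁻ z, F z * T.indicator h z ∂μ + Λ'⁻¹ * ∫⁻ z, h z * h z ∂μ := by
            rw [lintegral_add_left (f := fun z => F z * T.indicator h z)
              (hF.mul (hhm.indicator hTm)),
              lintegral_const_mul (f := fun z => h z * h z) _ (hhm.mul hhm)]
        _ ≤ ∫⁻ z, F z * T.indicator h z ∂μ + Λ'⁻¹ * κ := by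
            gcongr
            exact nx_sq μ A hA hgm hgΛ hgS hg1 hq
        _ = ∫⁻ z, F z * T.indicator h z ∂μ + C⁻¹ := by
            congr 1
            rw [hΛ', ENNReal.mul_inv (Or.inl hC0) (Or.inl hCt), mul_assoc,
              ENNReal.inv_mul_cancel hκ0 hκt, mul_one]
    calc ∫⁻ z, F z * h z ∂μ + b ≤ ∫⁻ z, F z * T.indicator h z ∂μ + C⁻¹ + b := by gcongr
      _ = _ := by rw [add_assoc, add_comm C⁻¹ b]

end Dom

end Pool.Agent.Run7.h533.AC
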