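import Mathlib
import Pool.Agent.Run7.h533.AC.Dom

set_option autoImplicit false

/-!
# Several steps
-/

open MeasureTheory Module Finset
open scoped Pointwise ENNReal

namespace Pool.Agent.Run7.h533.AC

section Iter

variable {E : Type*} [NormedAddCommGroup E] [NormedSpace ℝ E] [FiniteDimensional ℝ E]
  [MeasurableSpace E] [BorelSpace E] (μ : Measure E) [μ.IsAddHaarMeasure]

/-- `m` steps -/
noncomputable def itn (A : Finset E) (ν : Measure E) : ℕ → Measure E
  | 0 => ν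
  | m + 1 => st A (itn A ν m)

/-- the factor after `m` steps -/
noncomputable def lv (l : ℝ) (m : ℕ) : ℝ := 1 - (1 - l) / 2 ^ m

theorem lv_zero (l : ℝ) : lv l 0 = l := by simp [lv]

theorem lv_succ (l : ℝ) (m : ℕ) : lv l (m + 1) = (1 + lv l m) / 2 := by
  unfold lv
  rw [pow_succ]
  field_simp
  ring

theorem lv_add (l : ℝ) (m k : ℕ) : lv l (m + k) = lv (lv l m) k := by
  unfold lv
  rw [pow_add]
  field_simp
  ring

theorem lv_nonneg {l : ℝ} (h0 : 0 ≤ l) (h1 : l ≤ 1) (m : ℕ) : 0 ≤ lv l m := by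
  unfold lv
  have h2 : (1 : ℝ) ≤ 2 ^ m := one_le_pow₀ (by norm_num)
  have h3 : (1 - l) / 2 ^ m ≤ (1 - l) / 1 := by
    apply div_le_div_of_nonneg_left (by linarith) (by norm_num) h2
  linarith

theorem lv_le_one {l : ℝ} (h1 : l ≤ 1) (m : ℕ) : lv l m ≤ 1 := by
  unfold lv
  have : 0 ≤ (1 - l) / 2 ^ m := div_nonneg (by linarith) (by positivity)
  linarith

omit [FiniteDimensional ℝ E] [MeasurableSpace E] [BorelSpace E] in
theorem smul_mono {K : Set E} (hK : Convex ℝ K) (h0 : (0 : E) ∈ K) {l l' : ℝ} (hl : 0 ≤ l)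
    (hll : l ≤ l') : l • K ⊆ l' • K := by
  rintro _ ⟨k, hk, rfl⟩
  rcases eq_or_lt_of_le (hl.trans hll) with h | h
  · have : l = 0 := le_antisymm (h ▸ hll) hl
    subst this
    refine ⟨k, hk, ?_⟩
    simp [← h]
  · refine ⟨(l / l') • k, ?_, ?_⟩
    · have h1 := hK h0 hk (show (0 : ℝ) ≤ 1 - l / l' by
        rw [sub_nonneg, div_le_one h]; exact hll) (show (0 : ℝ) ≤ l / l' by positivity) (by ring)
      simpa using h1
    · simp only [smul_smul]
      rw [mul_div_cancel₀ _ h.ne']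

omit [FiniteDimensional ℝ E] [MeasurableSpace E] [BorelSpace E] in
theorem half_mem {K : Set E} (hK : Convex ℝ K) {l : ℝ} (hl : 0 ≤ l) {a s : E} (ha : a ∈ K)
    (hs : s ∈ l • K) : (1 / 2 : ℝ) • (a + s) ∈ ((1 + l) / 2) • K := by
  obtain ⟨k, hk, rfl⟩ := hs
  have h1 : (0 : ℝ) < 1 + l := by linarith
  refine ⟨(1 / (1 + l)) • a + (l / (1 + l)) • k,
    hK ha hk (by positivity) (by positivity) (by field_simp), ?_⟩
  simp only [smul_add, smul_smul]
  congr 1
  · congr 1
    field_simp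
  · congr 1
    field_simp

theorem Dom.iter {ν : Measure E} {Λ : ℝ≥0∞} {b C q : ℝ≥0∞} {K : Set E} (hK : Convex ℝ K)
    (h0 : (0 : E) ∈ K) {l l' : ℝ} (hl : 0 ≤ l) (hl1 : l ≤ 1)
    (h : Dom μ ν Λ (l • K) b) (A : Finset E) (hA : A.Nonempty) (hAK : ∀ a ∈ A, a ∈ K)
    (hq : ∀ t : E, (open Classical in ((A.filter fun x => x - t ∈ l' • K).card : ℝ≥0∞))
      ≤ q * A.card)
    (hΛ0 : Λ ≠ 0) (hΛt : Λ ≠ ⊤) (hq0 : q ≠ 0) (hqt : q ≠ ⊤) (hC0 : C ≠ 0) (hCt : C ≠ ⊤)
    (m : ℕ) (hm : ∀ j < m, lv l j ≤ l') :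
    Dom μ (itn A ν m) ((C * ((2 : ℝ≥0∞) ^ finrank ℝ E * q)) ^ m * Λ) (lv l m • K)
      (b + m * C⁻¹) := by
  classical
  induction m with
  | zero =>
    simpa [itn, lv_zero] using h
  | succ m ih =>
    have h1 := ih (fun j hj => hm j (by omega))
    have hD0 : C * ((2 : ℝ≥0∞) ^ finrank ℝ E * q) ≠ 0 :=
      mul_ne_zero hC0 (mul_ne_zero (pow_ne_zero _ (by norm_num)) hq0)
    have hDt : C * ((2 : ℝ≥0∞) ^ finrank ℝ E * q) ≠ ⊤ :=
      ENNReal.mul_ne_top hCt (ENNReal.mul_ne_top (ENNReal.pow_ne_top (by norm_num)) hqt)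
    have h2 := h1.step μ A hA (S' := lv l (m + 1) • K)
      (fun a ha s hs => by
        rw [lv_succ]
        exact half_mem hK (lv_nonneg hl hl1 m) (hAK a ha) hs)
      (fun t => by
        refine le_trans ?_ (hq t)
        have : (A.filter fun x => x - t ∈ lv l m • K).card
            ≤ (A.filter fun x => x - t ∈ l' • K).card := by
          refine Finset.card_le_card fun x hx => ?_
          rw [Finset.mem_filter] at hx ⊢
          exact ⟨hx.1, smul_mono hK h0 (lv_nonneg hl hl1 m) (hm m (by omega)) hx.2⟩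
        exact_mod_cast this)
      (mul_ne_zero (pow_ne_zero _ hD0) hΛ0) (ENNReal.mul_ne_top (ENNReal.pow_ne_top hDt) hΛt)
      hq0 hqt hC0 hCt
    have e1 : C * ((2 : ℝ≥0∞) ^ finrank ℝ E * q) *
        ((C * ((2 : ℝ≥0∞) ^ finrank ℝ E * q)) ^ m * Λ)
        = (C * ((2 : ℝ≥0∞) ^ finrank ℝ E * q)) ^ (m + 1) * Λ := by
      rw [pow_succ]; ring
    have e2 : b + m * C⁻¹ + C⁻¹ = b + ((m + 1 : ℕ) : ℝ≥0∞) * C⁻¹ := by
      push_cast
      ring
    rw [e1, e2] at h2
    exact h2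

/-- the dyadic sum `x_1 / 2 + x_2 / 4 + ...` -/
noncomputable def dy : (m : ℕ) → (Fin m → E) → E
  | 0, _ => 0
  | m + 1, x => (1 / 2 : ℝ) • (x 0 + dy m (fun i => x i.succ))

theorem lintegral_itn (A : Finset E) (ν : Measure E) (m : ℕ) (F : E → ℝ≥0∞) (hF : Measurable F) :
    ∫⁻ z, F z ∂(itn A ν m) = ((A.card : ℝ≥0∞)⁻¹) ^ m *
      ∑ x : Fin m → A, ∫⁻ s, F (dy m (fun i => (x i : E)) + (1 / 2 : ℝ) ^ m • s) ∂ν := by
  have : SecondCountableTopology E := by
    have := FiniteDimensional.proper_real E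
    infer_instance
  induction m generalizing F with
  | zero => simp [itn, dy]
  | succ m ih =>
    have e0 : ∫⁻ z, F z ∂(itn A ν (m + 1)) = ∫⁻ z, F z ∂(st A (itn A ν m)) := rfl
    rw [e0, lintegral_st A _ F hF, pow_succ', mul_assoc]
    congr 1
    rw [← Finset.sum_coe_sort A (fun a => ∫⁻ s, F ((1 / 2 : ℝ) • (a + s)) ∂(itn A ν m))]
    rw [← (Fin.consEquiv (fun _ : Fin (m + 1) => A)).sum_comp, Fintype.sum_prod_type,
      Finset.mul_sum]
    refine Finset.sum_congr rfl fun a _ => ?_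
    rw [ih (fun s => F ((1 / 2 : ℝ) • ((a : E) + s))) (hF.comp (meas_half (a : E)))]
    congr 1
    refine Finset.sum_congr rfl fun x _ => ?_
    refine lintegral_congr fun s => ?_
    congr 1
    simp only [Fin.consEquiv_apply, dy, Fin.cons_zero, Fin.cons_succ]
    rw [pow_succ', ← smul_smul, ← smul_add, add_assoc]

omit [FiniteDimensional ℝ E] [MeasurableSpace E] [BorelSpace E] in
theorem dy_mem {K : Set E} (hK : Convex ℝ K) (hne : K.Nonempty) (m : ℕ) (x : Fin m → E)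
    (hx : ∀ i, x i ∈ K) : dy m x ∈ (1 - (1 / 2 : ℝ) ^ m) • K := by
  induction m with
  | zero =>
    obtain ⟨k, hk⟩ := hne
    exact ⟨k, hk, by simp [dy]⟩
  | succ m ih =>
    have h1 := ih (fun i => x i.succ) (fun i => hx _)
    have h2 : (1 / 2 : ℝ) ^ m ≤ 1 := pow_le_one₀ (by norm_num) (by norm_num)
    have h3 := half_mem hK (by linarith) (hx 0) h1
    have e : (1 + (1 - (1 / 2 : ℝ) ^ m)) / 2 = 1 - (1 / 2 : ℝ) ^ (m + 1) := by
      rw [pow_succ]; ring
    rw [e] at h3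
    exact h3

/-- the uniform distribution on `l K` -/
noncomputable def un (S : Set E) : Measure E := (μ S)⁻¹ • μ.restrict S

theorem un_dom (S : Set E) (hS : MeasurableSet S) (h0 : μ S ≠ 0) (ht : μ S ≠ ⊤) :
    Dom μ (un μ S) (μ S)⁻¹ S 0 := by
  refine ⟨S.indicator (fun _ => (μ S)⁻¹), measurable_const.indicator hS, ?_, ?_, ?_, ?_⟩
  · intro z
    exact Set.indicator_le_self _ _ z
  · intro z hz
    by_contra h
    exact hz (Set.indicator_of_notMem h _)
  · rw [lintegral_indicator_const hS, ENNReal.inv_mul_cancel h0 ht]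
  · intro F hF _
    rw [un, lintegral_smul_measure, add_zero, smul_eq_mul, ← lintegral_indicator hS,
      ← lintegral_const_mul _ (hF.indicator hS)]
    refine le_of_eq (lintegral_congr fun z => ?_)
    by_cases h : z ∈ S
    · rw [Set.indicator_of_mem h, Set.indicator_of_mem h, mul_comm]
    · rw [Set.indicator_of_notMem h, Set.indicator_of_notMem h, mul_zero, mul_zero]

theorem un_prob (S : Set E) (h0 : μ S ≠ 0) (ht : μ S ≠ ⊤) : un μ S Set.univ = 1 := by
  rw [un, Measure.smul_apply, Measure.restrict_apply_univ, smul_eq_mul,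
    ENNReal.inv_mul_cancel h0 ht]

theorem st_prob (A : Finset E) (hA : A.Nonempty) (ν : Measure E) (hν : ν Set.univ = 1) :
    st A ν Set.univ = 1 := by
  have hN0 : (A.card : ℝ≥0∞) ≠ 0 := by
    have := hA.card_pos
    exact_mod_cast this.ne'
  have h := lintegral_st A ν (fun _ => 1) measurable_const
  simp only [lintegral_const, one_mul, hν, Finset.sum_const, nsmul_eq_mul, mul_one] at h
  rw [h, ENNReal.inv_mul_cancel hN0 (ENNReal.natCast_ne_top _)]

theorem itn_prob (A : Finset E) (hA : A.Nonempty) (ν : Measure E) (hν : ν Set.univ = 1) (m : ℕ) :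
    itn A ν m Set.univ = 1 := by
  induction m with
  | zero => exact hν
  | succ m ih => exact st_prob A hA _ ih

end Iter

end Pool.Agent.Run7.h533.AC
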