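import Mathlib
import Pool.Agent.TH591.Ns.Cover
import Pool.Agent.Run7.h533.AC.Iter

set_option autoImplicit false

/-!
# Supporting caps of small volume
-/

open MeasureTheory Module Finset
open scoped Pointwise ENNReal

namespace Pool.Agent.Run7.h533.AC

open Pool.Agent.TH591.Ns (IsG IsP isG_gauge ball_eq mem_smul_iff isP_sup)

section General

variable {E : Type*} [NormedAddCommGroup E] [NormedSpace ℝ E] [FiniteDimensional ℝ E]
  [MeasurableSpace E] [BorelSpace E] (μ : Measure E) [μ.IsAddHaarMeasure]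

omit [BorelSpace E] [FiniteDimensional ℝ E] [μ.IsAddHaarMeasure] [NormedSpace ℝ E] in
theorem Dom.set {ν : Measure E} {Λ : ℝ≥0∞} {S K : Set E} {b : ℝ≥0∞} (h : Dom μ ν Λ S b)
    (hSK : S ⊆ K) (hK : MeasurableSet K) (B : Set E) (hB : MeasurableSet B) :
    ν B ≤ Λ * μ (B ∩ K) + b := by
  obtain ⟨g, hgm, hgΛ, hgS, hg1, hdom⟩ := h
  have h1 := hdom (B.indicator (fun _ => (1 : ℝ≥0∞))) (measurable_const.indicator hB)
    (fun z => Set.indicator_le_self' (fun _ _ => zero_le) z)
  rw [lintegral_indicator_const hB, one_mul] at h1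
  refine h1.trans ?_
  gcongr
  have hBK : MeasurableSet (B ∩ K) := hB.inter hK
  calc ∫⁻ z, B.indicator (fun _ => (1 : ℝ≥0∞)) z * g z ∂μ
      ≤ ∫⁻ z, (B ∩ K).indicator (fun _ => Λ) z ∂μ := by
        refine lintegral_mono fun z => ?_
        by_cases hz : z ∈ B
        · rw [Set.indicator_of_mem hz, one_mul]
          by_cases hg0 : g z = 0
          · rw [hg0]; exact zero_le
          · rw [Set.indicator_of_mem (show z ∈ B ∩ K from ⟨hz, hSK (hgS z hg0)⟩)]
            exact hgΛ z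
        · rw [Set.indicator_of_notMem hz, zero_mul]
          exact zero_le
    _ = Λ * μ (B ∩ K) := lintegral_indicator_const hBK Λ

theorem itn_apply (A : Finset E) (ν : Measure E) (m : ℕ) (B : Set E) (hB : MeasurableSet B) :
    itn A ν m B = ((A.card : ℝ≥0∞)⁻¹) ^ m *
      ∑ x : Fin m → A, ν ((fun s => dy m (fun i => (x i : E)) + (1 / 2 : ℝ) ^ m • s) ⁻¹' B) := by
  have h := lintegral_itn A ν m (B.indicator (fun _ => (1 : ℝ≥0∞))) (measurable_const.indicator hB)
  rw [lintegral_indicator_const hB, one_mul] at h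
  rw [h]
  congr 1
  refine Finset.sum_congr rfl fun x _ => ?_
  have hsc : SecondCountableTopology E := by
    have := FiniteDimensional.proper_real E
    infer_instance
  have hm : Measurable (fun s : E => dy m (fun i => (x i : E)) + (1 / 2 : ℝ) ^ m • s) :=
    (continuous_const.add (continuous_const.smul continuous_id)).measurable
  have e : ∀ s : E, B.indicator (fun _ => (1 : ℝ≥0∞))
      (dy m (fun i => (x i : E)) + (1 / 2 : ℝ) ^ m • s)
      = ((fun s => dy m (fun i => (x i : E)) + (1 / 2 : ℝ) ^ m • s) ⁻¹' B).indicator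
        (fun _ => (1 : ℝ≥0∞)) s := fun s => rfl
  simp only [e]
  rw [lintegral_indicator_const (hm hB), one_mul]

omit [NormedSpace ℝ E] [FiniteDimensional ℝ E] [BorelSpace E] [μ.IsAddHaarMeasure] in
theorem un_apply (S B : Set E) (hB : MeasurableSet B) : un μ S B = (μ S)⁻¹ * μ (B ∩ S) := by
  rw [un, Measure.smul_apply, smul_eq_mul, Measure.restrict_apply hB]

/-- half of the mass of `l K` is in the halfspace `φ ≥ -1` -/
theorem half_un {K : Set E} (hKc : IsCompact K) (hμ0 : μ K ≠ 0) {l : ℝ} (hl0 : 0 < l)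
    (hl1 : l ≤ 1) (φ : E →L[ℝ] ℝ) (hφ : (1 / 2 : ℝ≥0∞) * μ K ≤ μ {y | y ∈ K ∧ -1 ≤ φ y}) :
    (1 / 2 : ℝ≥0∞) ≤ un μ (l • K) {y | -1 ≤ φ y} := by
  have hB : MeasurableSet {y : E | -1 ≤ φ y} :=
    (isClosed_le continuous_const φ.continuous).measurableSet
  rw [un_apply μ _ _ hB]
  have hLt : μ (l • K) ≠ ⊤ := (hKc.smul l).measure_lt_top.ne
  have hofr : ENNReal.ofReal (l ^ finrank ℝ E) ≠ 0 := by simpa using pow_pos hl0 _
  have hL : μ (l • K) = ENNReal.ofReal (l ^ finrank ℝ E) * μ K := by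
    rw [Measure.addHaar_smul, abs_of_pos (by positivity)]
  have hL0 : μ (l • K) ≠ 0 := by rw [hL]; exact mul_ne_zero hofr hμ0
  have hsub : l • {y | y ∈ K ∧ -1 ≤ φ y} ⊆ {y | -1 ≤ φ y} ∩ l • K := by
    rintro _ ⟨z, ⟨hz1, hz2⟩, rfl⟩
    refine ⟨?_, ⟨z, hz1, rfl⟩⟩
    simp only [Set.mem_ofPred_eq, map_smul, smul_eq_mul]
    nlinarith
  have h1 : (1 / 2 : ℝ≥0∞) * μ (l • K) ≤ μ ({y | -1 ≤ φ y} ∩ l • K) := by
    calc (1 / 2 : ℝ≥0∞) * μ (l • K)
        = ENNReal.ofReal (l ^ finrank ℝ E) * ((1 / 2 : ℝ≥0∞) * μ K) := by rw [hL]; ring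
      _ ≤ ENNReal.ofReal (l ^ finrank ℝ E) * μ {y | y ∈ K ∧ -1 ≤ φ y} := by gcongr
      _ = μ (l • {y | y ∈ K ∧ -1 ≤ φ y}) := by
          rw [Measure.addHaar_smul, abs_of_pos (by positivity)]
      _ ≤ _ := measure_mono hsub
  calc (1 / 2 : ℝ≥0∞) = (μ (l • K))⁻¹ * ((1 / 2 : ℝ≥0∞) * μ (l • K)) := by
        rw [mul_left_comm, ENNReal.inv_mul_cancel hL0 hLt, mul_one]
    _ ≤ _ := by gcongr

/-- many dyadic sums in the cap of a functional -/
theorem count_cap (A : Finset E) (ν : Measure E) (m : ℕ) (φ : E →L[ℝ] ℝ)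
    {s r : ℝ} (hν : (1 / 2 : ℝ≥0∞) ≤ ν {y | -1 ≤ φ y}) (hrs : s ≤ r - (1 / 2 : ℝ) ^ m) :
    ((A.card : ℝ≥0∞)⁻¹) ^ m *
      (((univ.filter fun x : Fin m → A => r ≤ φ (dy m (fun i => (x i : E)))).card : ℝ≥0∞)
        * (1 / 2)) ≤ itn A ν m {z | s ≤ φ z} := by
  have hB : MeasurableSet {z : E | s ≤ φ z} :=
    (isClosed_le continuous_const φ.continuous).measurableSet
  rw [itn_apply A ν m _ hB]
  gcongr
  rw [Finset.card_filter, Nat.cast_sum, Finset.sum_mul]
  refine Finset.sum_le_sum fun x _ => ?_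
  split_ifs with h
  · rw [Nat.cast_one, one_mul]
    refine hν.trans (measure_mono ?_)
    intro y hy
    simp only [Set.mem_ofPred_eq, Set.mem_preimage, map_add, map_smul, smul_eq_mul] at hy ⊢
    have hc : (0 : ℝ) ≤ (1 / 2 : ℝ) ^ m := by positivity
    nlinarith
  · rw [Nat.cast_zero, zero_mul]
    exact zero_le

end General

section Caps

variable {d : ℕ} {K : Set (EuclideanSpace ℝ (Fin d))}

/-- **Escape.** -/
theorem escape_dy (hK : Convex ℝ K) (hKc : IsCompact K) (hK0 : K ∈ nhds 0)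
    {P : EuclideanSpace ℝ (Fin d) → ℝ} (hP : IsP (gauge K) P)
    (Φ : Set (EuclideanSpace ℝ (Fin d) →L[ℝ] ℝ))
    (hmax : ∀ x : EuclideanSpace ℝ (Fin d), ∀ η : ℝ, 0 < η → ∃ φ ∈ Φ, P x - η ≤ φ x)
    (hle : ∀ φ ∈ Φ, ∀ y, φ y ≤ gauge K y)
    (A : Finset (EuclideanSpace ℝ (Fin d))) (hAK : ∀ a ∈ A, a ∈ K) (m : ℕ)
    {l κ t : ℝ} (hl0 : 0 < l) (hl1 : l ≤ 1) (hκ : 0 < κ) (ht : 0 < t)
    (hct : (1 / 2 : ℝ) ^ m * t ≤ 1) {p : ℝ≥0∞}
    (hp : ∀ φ ∈ Φ, ((univ.filter fun x : Fin m → A =>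
      1 - (1 / 2 : ℝ) ^ m - (κ * 2 ^ m + κ) / t ≤ φ (dy m (fun i =>
        (x i : EuclideanSpace ℝ (Fin d))))).card : ℝ≥0∞) ≤ p) :
    itn A (un volume (l • K)) m {z | 1 - κ < P z} ≤
      ((A.card : ℝ≥0∞)⁻¹) ^ m * ((volume (l • K))⁻¹ * (p * volume ((1 + t) • K))) := by
  classical
  have hg := isG_gauge hK hK0
  have h0K : (0 : EuclideanSpace ℝ (Fin d)) ∈ K := mem_of_mem_nhds hK0
  have hB : MeasurableSet {z : EuclideanSpace ℝ (Fin d) | 1 - κ < P z} :=
    (isOpen_lt continuous_const hP.cont).measurableSet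
  rw [itn_apply A _ m _ hB]
  set c : ℝ := (1 / 2 : ℝ) ^ m with hc
  have hc0 : 0 < c := by positivity
  have hc1 : c ≤ 1 := pow_le_one₀ (by norm_num) (by norm_num)
  have hc2 : c * 2 ^ m = 1 := by rw [hc, ← mul_pow]; norm_num
  refine mul_le_mul' le_rfl ?_
  set v : (Fin m → A) → EuclideanSpace ℝ (Fin d) :=
    fun x => dy m (fun i => (x i : EuclideanSpace ℝ (Fin d))) with hv
  have hvK : ∀ x, gauge K (v x) ≤ 1 - c := by
    intro x
    have h1 := dy_mem hK ⟨0, h0K⟩ m (fun i => (x i : EuclideanSpace ℝ (Fin d)))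
      (fun i => hAK _ (x i).2)
    obtain ⟨k, hk, hkx⟩ := h1
    simp only at hkx
    rw [hv]
    simp only
    rw [← hkx, hg.smul _ (by linarith)]
    have : gauge K k ≤ 1 := gauge_le_one_of_mem hk
    nlinarith
  have hmaff : ∀ u : EuclideanSpace ℝ (Fin d),
      Measurable (fun s : EuclideanSpace ℝ (Fin d) => u + c • s) := fun u =>
    (by fun_prop : Continuous fun s : EuclideanSpace ℝ (Fin d) => u + c • s).measurable
  set G : (Fin m → A) → Set (EuclideanSpace ℝ (Fin d)) :=
    fun x => ((fun s => v x + c • s) ⁻¹' {z | 1 - κ < P z}) ∩ (l • K) with hG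
  have hLm : MeasurableSet (l • K) := (hKc.smul l).isClosed.measurableSet
  have hGm : ∀ x, MeasurableSet (G x) := fun x => ((hmaff (v x)) hB).inter hLm
  have e1 : ∀ x : Fin m → A,
      un volume (l • K) ((fun s => v x + c • s) ⁻¹' {z | 1 - κ < P z})
      = (volume (l • K))⁻¹ * volume (G x) := fun x => un_apply volume _ _ ((hmaff (v x)) hB)
  have e1' : ∑ x : Fin m → A, un volume (l • K)
      ((fun s => dy m (fun i => (x i : EuclideanSpace ℝ (Fin d))) + c • s) ⁻¹' {z | 1 - κ < P z})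
      = (volume (l • K))⁻¹ * ∑ x : Fin m → A, volume (G x) := by
    rw [Finset.mul_sum]
    exact Finset.sum_congr rfl fun x _ => e1 x
  rw [e1']
  refine mul_le_mul' le_rfl ?_
  set W : (Fin m → A) → Set (EuclideanSpace ℝ (Fin d)) :=
    fun x => (fun w => w + (-(t • v x))) ⁻¹' G x with hW
  have hWm : ∀ x, MeasurableSet (W x) := fun x => (hGm x).preimage (measurable_add_const _)
  have hvol : ∀ x, volume (G x) = volume (W x) := fun x =>
    (measure_preimage_add_right volume (-(t • v x)) (G x)).symm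
  have hTm : MeasurableSet ((1 + t) • K) := (hKc.smul _).isClosed.measurableSet
  have hpt : ∀ w, ∑ x, (W x).indicator (1 : EuclideanSpace ℝ (Fin d) → ℝ≥0∞) w
      ≤ ((1 + t) • K).indicator (fun _ => p) w := by
    intro w
    -- facts for `w ∈ W x`
    have hfact : ∀ x, w ∈ W x → gauge K (w + -(t • v x)) ≤ 1 ∧
        1 + t * (1 - c) - κ * 2 ^ m < P w := by
      intro x hx
      obtain ⟨h1, h2⟩ := hx
      have h3 : gauge K (w + -(t • v x)) ≤ l := (mem_smul_iff hK hKc hK0 l hl0 _).1 h2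
      refine ⟨h3.trans hl1, ?_⟩
      have h4 : 1 - κ < P (v x + c • (w + -(t • v x))) := h1
      have e : v x + c • (w + -(t • v x)) = c • w + (1 - c * t) • v x := by
        rw [smul_add, smul_neg, smul_smul, sub_smul, one_smul]
        abel
      have h5 : P (v x + c • (w + -(t • v x))) ≤ c * P w + (1 - c * t) * (1 - c) := by
        rw [e]
        refine (hP.add _ _).trans ?_
        rw [hP.smul _ hc0.le, hP.smul _ (by linarith)]
        have h6 : P (v x) ≤ 1 - c := (hP.le _).trans (hvK x)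
        have h7 : (1 - c * t) * P (v x) ≤ (1 - c * t) * (1 - c) :=
          mul_le_mul_of_nonneg_left h6 (by linarith)
        linarith
      have h8 : c * (1 + t * (1 - c) - κ * 2 ^ m) < c * P w := by
        have : c * (1 + t * (1 - c) - κ * 2 ^ m) = c + c * t * (1 - c) - κ * (c * 2 ^ m) := by ring
        rw [this, hc2]
        nlinarith
      exact lt_of_mul_lt_mul_left h8 hc0.le
    by_cases hex : ∃ x, w ∈ W x
    · obtain ⟨x₀, hx₀⟩ := hex
      have hpw : w ∈ (1 + t) • K := by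
        rw [mem_smul_iff hK hKc hK0 (1 + t) (by linarith)]
        obtain ⟨h1, _⟩ := hfact x₀ hx₀
        calc gauge K w = gauge K ((w + -(t • v x₀)) + t • v x₀) := by congr 1; abel
          _ ≤ gauge K (w + -(t • v x₀)) + gauge K (t • v x₀) := hg.add _ _
          _ = gauge K (w + -(t • v x₀)) + t * gauge K (v x₀) := by rw [hg.smul _ ht.le]
          _ ≤ 1 + t * 1 := by
              have := hvK x₀
              gcongr
              linarith
          _ = 1 + t := by ring
      rw [Set.indicator_of_mem hpw]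
      obtain ⟨φ, hφΦ, hφ2⟩ := hmax w κ hκ
      refine le_trans ?_ (hp φ hφΦ)
      rw [Finset.card_filter, Nat.cast_sum]
      refine Finset.sum_le_sum fun x _ => ?_
      by_cases hx : w ∈ W x
      · rw [Set.indicator_of_mem hx, if_pos, Nat.cast_one]
        · exact le_rfl
        · obtain ⟨h1, h2⟩ := hfact x hx
          have h4 : φ w ≤ 1 + t * φ (v x) := by
            have e : w = (w + -(t • v x)) + t • v x := by abel
            calc φ w = φ ((w + -(t • v x)) + t • v x) := by rw [← e]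
              _ = φ (w + -(t • v x)) + t * φ (v x) := by
                rw [map_add, map_smul, smul_eq_mul]
              _ ≤ _ := by
                gcongr
                exact (hle φ hφΦ _).trans h1
          have h5 : t * (1 - c) - (κ * 2 ^ m + κ) ≤ t * φ (v x) := by linarith
          have h6 : t * (1 - c - (κ * 2 ^ m + κ) / t) = t * (1 - c) - (κ * 2 ^ m + κ) := by
            field_simp
          rw [← h6] at h5
          exact le_of_mul_le_mul_left h5 ht
      · rw [Set.indicator_of_notMem hx]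
        exact zero_le
    · push Not at hex
      rw [Finset.sum_eq_zero (fun x _ => Set.indicator_of_notMem (hex x) _)]
      exact zero_le
  calc ∑ x, volume (G x) = ∑ x, ∫⁻ w, (W x).indicator 1 w := by
        refine Finset.sum_congr rfl fun x _ => ?_
        rw [hvol, lintegral_indicator_one (hWm x)]
    _ = ∫⁻ w, ∑ x, (W x).indicator 1 w := by
        rw [lintegral_finsetSum]
        intro x _
        exact measurable_one.indicator (hWm x)
    _ ≤ ∫⁻ w, ((1 + t) • K).indicator (fun _ => p) w := lintegral_mono hpt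
    _ = p * volume ((1 + t) • K) := lintegral_indicator_const hTm p

end Caps

end Pool.Agent.Run7.h533.AC
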