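import Mathlib
import Pool.Agent.Run7.h533.AC.Caps

set_option autoImplicit false

/-!
# The share of a translate for bodies with small supporting caps
-/

open MeasureTheory Module Finset
open scoped Pointwise ENNReal

namespace Pool.Agent.Run7.h533.AC

open Pool.Agent.TH591.Ns (IsG IsP isG_gauge ball_eq mem_smul_iff isP_sup drop)

variable {d : ℕ} {K : Set (EuclideanSpace ℝ (Fin d))}

theorem half_pow_le {d : ℕ} (hd : 2 ≤ d) : (1 - 1 / (d : ℝ)) ^ d ≤ 1 / 2 := by
  have hd' : (2 : ℝ) ≤ d := by exact_mod_cast hd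
  have h0 : 0 ≤ 1 - 1 / (d : ℝ) := by
    rw [sub_nonneg, div_le_one (by linarith)]; linarith
  have h1 : 1 - 1 / (d : ℝ) ≤ Real.exp (-(1 / d)) := by
    have := Real.add_one_le_exp (-(1 / (d : ℝ)))
    linarith
  calc (1 - 1 / (d : ℝ)) ^ d ≤ (Real.exp (-(1 / d))) ^ d := pow_le_pow_left₀ h0 h1 d
    _ = Real.exp (-1) := by
        rw [← Real.exp_nat_mul]
        congr 1
        field_simp
    _ ≤ 1 / 2 := by
        rw [Real.exp_neg, inv_le_comm₀ (Real.exp_pos _) (by norm_num)]
        have := Real.add_one_le_exp (1 : ℝ)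
        norm_num at this ⊢
        linarith

/-- **Core inequality for caps.** -/
theorem cap_core (hd : 2 ≤ d) (hK : Convex ℝ K) (hKc : IsCompact K) (hK0 : K ∈ nhds 0)
    {P : EuclideanSpace ℝ (Fin d) → ℝ} (hP : IsP (gauge K) P)
    (Φ : Set (EuclideanSpace ℝ (Fin d) →L[ℝ] ℝ))
    (hmax : ∀ x : EuclideanSpace ℝ (Fin d), ∀ η : ℝ, 0 < η → ∃ φ ∈ Φ, P x - η ≤ φ x)
    (hle : ∀ φ ∈ Φ, ∀ y, φ y ≤ gauge K y)
    (hhalf : ∀ φ ∈ Φ, (1 / 2 : ℝ≥0∞) * volume K ≤ volume {y | y ∈ K ∧ -1 ≤ φ y})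
    {δ τ β : ℝ} (hδ0 : 0 < δ) (hτ : 0 < τ) (hβ0 : 0 ≤ β) (hβ1 : β ≤ 1)
    (hthin : ∀ φ ∈ Φ, volume ({y | 1 - δ ≤ φ y} ∩ K) ≤ ENNReal.ofReal τ * volume K)
    (hS : ENNReal.ofReal β * volume {y : EuclideanSpace ℝ (Fin d) | gauge K y ≤ 1}
      ≤ volume {z : EuclideanSpace ℝ (Fin d) | gauge K z ≤ 1 ∧ gauge K z ≤ P z})
    (A : Finset (EuclideanSpace ℝ (Fin d))) (hA : A.Nonempty) (hAK : ∀ a ∈ A, a ∈ K) (m k : ℕ)
    (hm : 1 ≤ m) (hk : 1 ≤ k) (hmδ : (1 / 2 : ℝ) ^ m ≤ δ / 4) (hkd : 4 * (k : ℝ) ≤ δ * d)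
    {q : ℝ} (hq0 : 0 < q)
    (hq : ∀ t : EuclideanSpace ℝ (Fin d), (open Classical in
      ((A.filter fun x => x - t ∈ (1 - 1 / (2 * d) / 2 ^ m : ℝ) • K).card : ℝ)) ≤ q * A.card) :
    1 ≤ (16 * m * (2 ^ d * q)) ^ m * (32 * max (Real.exp (-(β * k / 2)))
      (Real.exp (2 * k * (2 ^ m + 1) / δ * (m + 1)) * τ)) := by
  classical
  have hd' : (2 : ℝ) ≤ d := by exact_mod_cast hd
  have hd0 : (0 : ℝ) < d := by linarith
  have hm' : (1 : ℝ) ≤ m := by exact_mod_cast hm
  have hk' : (1 : ℝ) ≤ k := by exact_mod_cast hk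
  have hfr : finrank ℝ (EuclideanSpace ℝ (Fin d)) = d := finrank_euclideanSpace_fin
  have h0K : (0 : EuclideanSpace ℝ (Fin d)) ∈ K := mem_of_mem_nhds hK0
  have hV0 : volume K ≠ 0 := (Measure.measure_pos_of_mem_nhds volume hK0).ne'
  have hVt : volume K ≠ ⊤ := hKc.measure_lt_top.ne
  have hKm : MeasurableSet K := hKc.isClosed.measurableSet
  have hball := ball_eq hK hKc hK0
  set V : ℝ := (volume K).toReal with hVdef
  have hVpos : 0 < V := ENNReal.toReal_pos hV0 hVt
  have hVE : volume K = ENNReal.ofReal V := (ENNReal.ofReal_toReal hVt).symm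
  set c : ℝ := (1 / 2 : ℝ) ^ m with hc
  have hc0 : 0 < c := by positivity
  have hc2 : c * 2 ^ m = 1 := by rw [hc, ← mul_pow]; norm_num
  set l : ℝ := 1 - 1 / (2 * d) with hl
  have hl0 : 0 < l := by
    rw [hl]
    have : 1 / (2 * (d : ℝ)) ≤ 1 / 2 := by
      apply div_le_div_of_nonneg_left (by norm_num) (by norm_num); linarith
    linarith
  have hl1 : l ≤ 1 := by
    rw [hl]
    have : 0 ≤ 1 / (2 * (d : ℝ)) := by positivity
    linarith
  have e1l : 1 - l = 1 / (2 * d) := by rw [hl]; ring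
  have hlp : 1 / 2 ≤ l ^ d := by
    have hd1 : (1 : ℝ) ≤ d := by linarith
    have h1 : (-2 : ℝ) ≤ -(1 / (2 * d)) := by
      have : 1 / (2 * (d : ℝ)) ≤ 1 := by
        rw [div_le_one (by positivity)]; linarith
      linarith
    have h2 := one_add_mul_le_pow h1 d
    have h3 : (d : ℝ) * -(1 / (2 * d)) = -(1 / 2) := by field_simp
    rw [h3] at h2
    rw [hl, sub_eq_add_neg]
    linarith
  set κ : ℝ := k / d with hκ
  have hκ0 : 0 < κ := by positivity
  set t : ℝ := 2 * κ * (2 ^ m + 1) / δ with ht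
  have ht0 : 0 < t := by positivity
  set a : ℝ := 2 * k * (2 ^ m + 1) / δ with ha
  have ha0 : 0 ≤ a := by positivity
  have htd : t * d = a := by rw [ht, ha, hκ]; field_simp
  have hκδ : 4 * κ ≤ δ := by
    rw [hκ, mul_div_assoc', div_le_iff₀ hd0]; exact hkd
  have hct : c * t ≤ 1 := by
    have e : c * t = 2 * κ * (c * 2 ^ m + c) / δ := by rw [ht]; ring
    rw [e, hc2, div_le_one hδ0]
    have hc1 : c ≤ 1 := pow_le_one₀ (by norm_num) (by norm_num)
    nlinarith
  have heta : (κ * 2 ^ m + κ) / t = δ / 2 := by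
    rw [ht]
    field_simp
  set L : Set (EuclideanSpace ℝ (Fin d)) := l • K with hL
  have hLμ : volume L = ENNReal.ofReal (l ^ d * V) := by
    rw [hL, Measure.addHaar_smul, hfr, abs_of_pos (by positivity), hVE,
      ← ENNReal.ofReal_mul (by positivity)]
  have hlV : 0 < l ^ d * V := by positivity
  have hL0 : volume L ≠ 0 := by rw [hLμ]; simpa using hlV
  have hLt : volume L ≠ ⊤ := by rw [hLμ]; exact ENNReal.ofReal_ne_top
  have hLm : MeasurableSet L := (hKc.smul l).isClosed.measurableSet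
  have hLinv : (volume L)⁻¹ = ENNReal.ofReal ((l ^ d * V)⁻¹) := by
    rw [hLμ, ENNReal.ofReal_inv_of_pos hlV]
  have hLi0 : (volume L)⁻¹ ≠ 0 := ENNReal.inv_ne_zero.2 hLt
  have hLit : (volume L)⁻¹ ≠ ⊤ := ENNReal.inv_ne_top.2 hL0
  have hAc : 0 < (A.card : ℝ) := by exact_mod_cast hA.card_pos
  obtain ⟨N, hN0, hNE⟩ : ∃ N : ℝ, 0 < N ∧ ((A.card : ℝ≥0∞)⁻¹) ^ m = ENNReal.ofReal N⁻¹ := by
    refine ⟨(A.card : ℝ) ^ m, pow_pos hAc m, ?_⟩
    rw [← inv_pow, ENNReal.ofReal_pow (inv_nonneg.2 hAc.le), ENNReal.ofReal_inv_of_pos hAc,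
      ENNReal.ofReal_natCast]
  set ν₁ : Measure (EuclideanSpace ℝ (Fin d)) := itn A (un volume L) m with hν₁
  have hp1 : ν₁ Set.univ = 1 := itn_prob A hA _ (un_prob volume L hL0 hLt) m
  -- domination with a parameter
  have hdomC : ∀ C : ℝ, 0 < C → ∀ B : Set (EuclideanSpace ℝ (Fin d)), MeasurableSet B →
      ∀ r : ℝ, 0 ≤ r → volume (B ∩ K) ≤ ENNReal.ofReal (r * V) →
      ν₁ B ≤ ENNReal.ofReal ((C * (2 ^ d * q)) ^ m * (2 * r) + m / C) := by
    intro C hC B hB r hr hvol
    have hCE0 : ENNReal.ofReal C ≠ 0 := by simpa using hC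
    have hqE0 : ENNReal.ofReal q ≠ 0 := by simpa using hq0
    have h1 := (un_dom volume L hLm hL0 hLt).iter volume hK h0K hl0.le hl1
      (l' := 1 - 1 / (2 * d) / 2 ^ m) (q := ENNReal.ofReal q) (C := ENNReal.ofReal C) A hA hAK
      (fun t => by
        have h2 := hq t
        have h4 : ENNReal.ofReal
            (((A.filter fun x => x - t ∈ (1 - 1 / (2 * d) / 2 ^ m : ℝ) • K).card : ℝ))
            ≤ ENNReal.ofReal (q * A.card) := ENNReal.ofReal_le_ofReal h2
        rw [ENNReal.ofReal_natCast, ENNReal.ofReal_mul hq0.le, ENNReal.ofReal_natCast] at h4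
        exact h4)
      hLi0 hLit hqE0 ENNReal.ofReal_ne_top hCE0 ENNReal.ofReal_ne_top m
      (fun j hj => by
        unfold lv
        rw [e1l]
        have h1 : (2 : ℝ) ^ j ≤ 2 ^ m := pow_le_pow_right₀ (by norm_num) hj.le
        have h2 : 1 / (2 * (d : ℝ)) / 2 ^ m ≤ 1 / (2 * d) / 2 ^ j :=
          div_le_div_of_nonneg_left (by positivity) (by positivity) h1
        linarith)
    have hsub : lv l m • K ⊆ K := by
      have := smul_mono hK h0K (lv_nonneg hl0.le hl1 m) (lv_le_one hl1 m)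
      rwa [one_smul] at this
    have h2 := h1.set volume hsub hKm B hB
    rw [hfr] at h2
    refine h2.trans ?_
    have e1 : (ENNReal.ofReal C * ((2 : ℝ≥0∞) ^ d * ENNReal.ofReal q)) ^ m
        = ENNReal.ofReal ((C * (2 ^ d * q)) ^ m) := by
      rw [ENNReal.ofReal_pow (by positivity), ENNReal.ofReal_mul hC.le,
        ENNReal.ofReal_mul (by positivity), ENNReal.ofReal_pow (by norm_num), ENNReal.ofReal_ofNat]
    have e2 : (m : ℝ≥0∞) * (ENNReal.ofReal C)⁻¹ = ENNReal.ofReal (m / C) := by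
      rw [← ENNReal.ofReal_inv_of_pos hC, ← ENNReal.ofReal_natCast,
        ← ENNReal.ofReal_mul (by positivity), div_eq_mul_inv]
    rw [e1, zero_add, e2, hLinv]
    calc ENNReal.ofReal ((C * (2 ^ d * q)) ^ m) * ENNReal.ofReal ((l ^ d * V)⁻¹) * volume (B ∩ K)
          + ENNReal.ofReal (m / C)
        ≤ ENNReal.ofReal ((C * (2 ^ d * q)) ^ m) * ENNReal.ofReal ((l ^ d * V)⁻¹)
          * ENNReal.ofReal (r * V) + ENNReal.ofReal (m / C) := by gcongr
      _ = ENNReal.ofReal ((C * (2 ^ d * q)) ^ m * (l ^ d * V)⁻¹ * (r * V) + m / C) := by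
          rw [← ENNReal.ofReal_mul (by positivity), ← ENNReal.ofReal_mul (by positivity),
            ← ENNReal.ofReal_add (by positivity) (by positivity)]
      _ ≤ _ := by
          apply ENNReal.ofReal_le_ofReal
          have h3 : (l ^ d * V)⁻¹ * (r * V) ≤ 2 * r := by
            have e : (l ^ d * V)⁻¹ * (r * V) = r / l ^ d := by field_simp
            rw [e, div_le_iff₀ (by positivity)]
            nlinarith
          have h4 : (C * (2 ^ d * q)) ^ m * (l ^ d * V)⁻¹ * (r * V)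
              ≤ (C * (2 ^ d * q)) ^ m * (2 * r) := by
            rw [mul_assoc]
            exact mul_le_mul_of_nonneg_left h3 (by positivity)
          linarith
  set X : ℝ := (16 * m * (2 ^ d * q)) ^ m with hX
  have hX0 : 0 < X := by positivity
  -- first case
  by_cases hcase : 1 / 4 < (4 * m * (2 ^ d * q)) ^ m * (2 * Real.exp (-(β * k / 2)))
  · have h1 : (4 * m * (2 ^ d * q)) ^ m ≤ X := by
      rw [hX]
      have : 0 < 2 ^ d * q := by positivity
      refine pow_le_pow_left₀ (by positivity) ?_ m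
      nlinarith
    have h2 : (4 * m * (2 ^ d * q)) ^ m * (2 * Real.exp (-(β * k / 2)))
        ≤ X * (2 * Real.exp (-(β * k / 2))) := mul_le_mul_of_nonneg_right h1 (by positivity)
    have h3 : Real.exp (-(β * k / 2)) ≤ max (Real.exp (-(β * k / 2)))
      (Real.exp (a * (m + 1)) * τ) := le_max_left _ _
    have h4 : X * (32 * Real.exp (-(β * k / 2))) ≤ X * (32 * max (Real.exp (-(β * k / 2)))
      (Real.exp (a * (m + 1)) * τ)) := by gcongr
    have h5 : 0 < X * Real.exp (-(β * k / 2)) := by positivity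
    nlinarith
  · push Not at hcase
    -- step A
    have hBm : MeasurableSet {z : EuclideanSpace ℝ (Fin d) | P z ≤ 1 - k / d} :=
      (isClosed_le hP.cont continuous_const).measurableSet
    have hdrop := drop (by omega : 1 < d) (isG_gauge hK hK0) hP (by rw [hball]; exact hVt) β hβ0 hβ1
      hS k
    have hdrop2 : volume ({z : EuclideanSpace ℝ (Fin d) | P z ≤ 1 - k / d} ∩ K)
        ≤ ENNReal.ofReal (Real.exp (-(β * k / 2)) * V) := by
      have e : {z : EuclideanSpace ℝ (Fin d) | P z ≤ 1 - k / d} ∩ K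
          ⊆ {z : EuclideanSpace ℝ (Fin d) | gauge K z ≤ 1 ∧ P z ≤ 1 - k / d} := by
        rintro z ⟨h1, h2⟩
        exact ⟨gauge_le_one_of_mem h2, h1⟩
      refine (measure_mono e).trans (hdrop.trans ?_)
      rw [hball, hVE, ← ENNReal.ofReal_mul]
      · apply ENNReal.ofReal_le_ofReal
        gcongr
        have h1 := half_pow_le hd
        have h0 : 0 ≤ (1 - 1 / (d : ℝ)) ^ d := by
          refine pow_nonneg ?_ d
          rw [sub_nonneg, div_le_one hd0]; linarith
        have h2 : 1 - β * (1 - (1 - 1 / (d : ℝ)) ^ d) ≤ Real.exp (-(β / 2)) := by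
          have h3 := Real.add_one_le_exp (-(β / 2))
          nlinarith
        have h4 : 0 ≤ 1 - β * (1 - (1 - 1 / (d : ℝ)) ^ d) := by nlinarith
        calc (1 - β * (1 - (1 - 1 / (d : ℝ)) ^ d)) ^ k ≤ (Real.exp (-(β / 2))) ^ k :=
              pow_le_pow_left₀ h4 h2 k
          _ = Real.exp (-(β * k / 2)) := by
              rw [← Real.exp_nat_mul]
              congr 1
              ring
      · refine pow_nonneg ?_ k
        have h1 := half_pow_le hd
        have h0 : 0 ≤ (1 - 1 / (d : ℝ)) ^ d := by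
          refine pow_nonneg ?_ d
          rw [sub_nonneg, div_le_one hd0]; linarith
        nlinarith
    have hA1 := hdomC (4 * m) (by positivity) _ hBm _ (Real.exp_pos _).le hdrop2
    have hA2 : ν₁ {z | P z ≤ 1 - k / d} ≤ ENNReal.ofReal (1 / 2) := by
      refine hA1.trans (ENNReal.ofReal_le_ofReal ?_)
      have : (m : ℝ) / (4 * m) = 1 / 4 := by field_simp
      rw [this]
      linarith
    have hcompl : {z : EuclideanSpace ℝ (Fin d) | 1 - κ < P z}
        = {z : EuclideanSpace ℝ (Fin d) | P z ≤ 1 - k / d}ᶜ := by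
      ext z
      simp [hκ]
    have hA3 : ENNReal.ofReal (1 / 2) ≤ ν₁ {z | 1 - κ < P z} := by
      rw [hcompl]
      have h1 : ν₁ {z | P z ≤ 1 - k / d} + ν₁ {z | P z ≤ 1 - k / d}ᶜ = 1 := by
        rw [measure_add_measure_compl hBm, hp1]
      have h2 : (1 : ℝ≥0∞) = ENNReal.ofReal (1 / 2) + ENNReal.ofReal (1 / 2) := by
        rw [← ENNReal.ofReal_add (by norm_num) (by norm_num)]
        norm_num
      rw [h2] at h1
      by_contra hcon
      push Not at hcon
      have h3 : ν₁ {z | P z ≤ 1 - k / d} + ν₁ {z | P z ≤ 1 - k / d}ᶜ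
          < ENNReal.ofReal (1 / 2) + ENNReal.ofReal (1 / 2) :=
        ENNReal.add_lt_add_of_le_of_lt (ne_top_of_le_ne_top ENNReal.ofReal_ne_top hA2) hA2 hcon
      exact absurd h1 h3.ne
    -- step B
    set C2 : ℝ := 16 * m * Real.exp a with hC2
    have hC20 : 0 < C2 := by positivity
    set pr : ℝ := 2 * ((C2 * (2 ^ d * q)) ^ m * (2 * τ) + m / C2) with hpr
    have hpr0 : 0 < pr := by positivity
    have hcount : ∀ φ ∈ Φ, ((univ.filter fun x : Fin m → A =>
        1 - (1 / 2 : ℝ) ^ m - (κ * 2 ^ m + κ) / t ≤ φ (dy m (fun i =>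
          (x i : EuclideanSpace ℝ (Fin d))))).card : ℝ≥0∞) ≤ ENNReal.ofReal (pr * N) := by
      intro φ hφ
      have hB2 : MeasurableSet {y : EuclideanSpace ℝ (Fin d) | 1 - δ ≤ φ y} :=
        (isClosed_le continuous_const φ.continuous).measurableSet
      have h1 := hdomC C2 hC20 _ hB2 τ hτ.le (by
        rw [ENNReal.ofReal_mul hτ.le, ← hVE]
        exact hthin φ hφ)
      have h2 := count_cap A (un volume L) m φ (s := 1 - δ)
        (r := 1 - (1 / 2 : ℝ) ^ m - (κ * 2 ^ m + κ) / t)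
        (half_un volume hKc hV0 hl0 hl1 φ (hhalf φ hφ)) (by
          rw [heta]
          linarith)
      have h3 := h2.trans h1
      rw [hNE] at h3
      generalize (univ.filter fun x : Fin m → A =>
        1 - (1 / 2 : ℝ) ^ m - (κ * 2 ^ m + κ) / t ≤ φ (dy m (fun i =>
          (x i : EuclideanSpace ℝ (Fin d))))).card = cnt at h3 ⊢
      have h4 : ENNReal.ofReal (N⁻¹ * (cnt * (1 / 2)))
          ≤ ENNReal.ofReal ((C2 * (2 ^ d * q)) ^ m * (2 * τ) + m / C2) := by
        rw [ENNReal.ofReal_mul (by positivity), ENNReal.ofReal_mul (by positivity),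
          ENNReal.ofReal_natCast]
        refine le_trans (le_of_eq ?_) h3
        congr 2
        rw [ENNReal.ofReal_div_of_pos (by norm_num), ENNReal.ofReal_one, ENNReal.ofReal_ofNat]
      rw [ENNReal.ofReal_le_ofReal_iff (by positivity)] at h4
      rw [← ENNReal.ofReal_natCast]
      apply ENNReal.ofReal_le_ofReal
      rw [inv_mul_le_iff₀ hN0] at h4
      rw [hpr]
      linarith
    have hesc := escape_dy hK hKc hK0 hP Φ hmax hle A hAK m hl0 hl1 hκ0 ht0 hct hcount
    have hvolT : volume ((1 + t) • K) = ENNReal.ofReal ((1 + t) ^ d * V) := by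
      rw [Measure.addHaar_smul, hfr, abs_of_pos (by positivity), hVE,
        ← ENNReal.ofReal_mul (by positivity)]
    rw [hNE, hvolT, ← ENNReal.ofReal_mul (by positivity), hLinv, ← ENNReal.ofReal_mul
      (by positivity), ← ENNReal.ofReal_mul (by positivity)] at hesc
    have h5 := hA3.trans hesc
    rw [ENNReal.ofReal_le_ofReal_iff (by positivity)] at h5
    have h6 : N⁻¹ * ((l ^ d * V)⁻¹ * (pr * N * ((1 + t) ^ d * V))) ≤ 2 * pr * Real.exp a := by
      have e : N⁻¹ * ((l ^ d * V)⁻¹ * (pr * N * ((1 + t) ^ d * V)))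
          = pr * ((1 + t) ^ d / l ^ d) := by field_simp
      rw [e]
      have h7 : (1 + t) ^ d ≤ Real.exp a := by
        calc (1 + t) ^ d ≤ (Real.exp t) ^ d := by
              refine pow_le_pow_left₀ (by linarith) ?_ d
              have := Real.add_one_le_exp t
              linarith
          _ = Real.exp a := by
              rw [← Real.exp_nat_mul, ← htd]
              congr 1
              ring
      have h8 : (1 + t) ^ d / l ^ d ≤ 2 * Real.exp a := by
        rw [div_le_iff₀ (by positivity)]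
        have := Real.exp_pos a
        nlinarith
      calc pr * ((1 + t) ^ d / l ^ d) ≤ pr * (2 * Real.exp a) := by gcongr
        _ = _ := by ring
    have h9 := h5.trans h6
    have h10 : (C2 * (2 ^ d * q)) ^ m = X * Real.exp a ^ m := by
      rw [hX, hC2, ← mul_pow]
      congr 1
      ring
    have h11 : (m : ℝ) / C2 * Real.exp a = 1 / 16 := by
      rw [hC2]
      field_simp
    have h12 : 2 * pr * Real.exp a = 8 * X * (Real.exp a ^ m * Real.exp a * τ) + 1 / 4 := by
      rw [hpr, h10]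
      have : 2 * (2 * (X * Real.exp a ^ m * (2 * τ) + m / C2)) * Real.exp a
          = 8 * X * (Real.exp a ^ m * Real.exp a * τ) + 4 * (m / C2 * Real.exp a) := by ring
      rw [this, h11]
      norm_num
    have h13 : Real.exp a ^ m * Real.exp a = Real.exp (a * (m + 1)) := by
      rw [← Real.exp_nat_mul, ← Real.exp_add]
      congr 1
      ring
    rw [h12, h13] at h9
    have h14 : Real.exp (a * (m + 1)) * τ ≤ max (Real.exp (-(β * k / 2)))
      (Real.exp (a * (m + 1)) * τ) := le_max_right _ _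
    have h15 : X * (32 * (Real.exp (a * (m + 1)) * τ)) ≤ X * (32 * max (Real.exp (-(β * k / 2)))
      (Real.exp (a * (m + 1)) * τ)) := by gcongr
    linarith

end Pool.Agent.Run7.h533.AC
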