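import Mathlib
import Pool.Agent.Run7.h533.AC.Iter

set_option autoImplicit false

/-!
# Pairs of dyadic sums
-/

open MeasureTheory Module Finset
open scoped Pointwise ENNReal

namespace Pool.Agent.Run7.h533.AC

section Pair

variable {E : Type*} [NormedAddCommGroup E] [NormedSpace ℝ E] [FiniteDimensional ℝ E]
  [MeasurableSpace E] [BorelSpace E] (μ : Measure E) [μ.IsAddHaarMeasure]

theorem pair_dom {ν : Measure E} {Λ : ℝ≥0∞} {S K : Set E} {b : ℝ≥0∞} (h : Dom μ ν Λ S b)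
    (hν : ν Set.univ = 1) (hSK : S ⊆ K) (hK : MeasurableSet K) (B : Set (E × E))
    (hB : MeasurableSet B) :
    ∫⁻ s, ∫⁻ s', B.indicator (fun _ => (1 : ℝ≥0∞)) (s, s') ∂ν ∂ν
      ≤ Λ ^ 2 * (μ.prod μ) (B ∩ K ×ˢ K) + 2 * b := by
  classical
  have hsc : SecondCountableTopology E := by
    have := FiniteDimensional.proper_real E
    infer_instance
  obtain ⟨g, hgm, hgΛ, hgS, hg1, hdom⟩ := h
  have hfm : Measurable (B.indicator (fun _ => (1 : ℝ≥0∞))) := measurable_const.indicator hB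
  have hf1 : ∀ p, B.indicator (fun _ => (1 : ℝ≥0∞)) p ≤ 1 := fun p =>
    Set.indicator_le_self' (fun _ _ => zero_le) p
  set f : E × E → ℝ≥0∞ := B.indicator (fun _ => (1 : ℝ≥0∞)) with hf
  have hfs : ∀ s, Measurable (fun s' => f (s, s')) := fun s =>
    hfm.comp measurable_prodMk_left
  set G : E → ℝ≥0∞ := fun s => ∫⁻ s', f (s, s') * g s' ∂μ with hG
  have hGm : Measurable G := by
    have h1 : Measurable (fun p : E × E => f p * g p.2) := hfm.mul (hgm.comp measurable_snd)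
    exact h1.lintegral_prod_right'
  have hG1 : ∀ s, G s ≤ 1 := by
    intro s
    refine le_trans (lintegral_mono fun s' => ?_) hg1
    calc f (s, s') * g s' ≤ 1 * g s' := by gcongr; exact hf1 _
      _ = g s' := one_mul _
  have h1 : ∫⁻ s, ∫⁻ s', f (s, s') ∂ν ∂ν ≤ ∫⁻ s, (G s + b) ∂ν :=
    lintegral_mono fun s => hdom _ (hfs s) fun s' => hf1 _
  have h2 : ∫⁻ s, (G s + b) ∂ν = ∫⁻ s, G s ∂ν + b := by
    rw [lintegral_add_left hGm, lintegral_const, hν, mul_one]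
  have h3 := hdom G hGm hG1
  have h4 : ∫⁻ s, G s * g s ∂μ ≤ Λ ^ 2 * (μ.prod μ) (B ∩ K ×ˢ K) := by
    have e1 : ∫⁻ s, G s * g s ∂μ = ∫⁻ s, ∫⁻ s', f (s, s') * g s' * g s ∂μ ∂μ := by
      refine lintegral_congr fun s => ?_
      rw [hG]
      simp only
      rw [← lintegral_mul_const (g s) (f := fun s' => f (s, s') * g s') ((hfs s).mul hgm)]
    rw [e1]
    have hBK : MeasurableSet (B ∩ K ×ˢ K) := hB.inter (hK.prod hK)
    have e2 : Λ ^ 2 * (μ.prod μ) (B ∩ K ×ˢ K)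
        = ∫⁻ s, ∫⁻ s', Λ ^ 2 * (B ∩ K ×ˢ K).indicator (fun _ => (1 : ℝ≥0∞)) (s, s') ∂μ ∂μ := by
      rw [lintegral_lintegral (f := fun s s' => Λ ^ 2 *
        (B ∩ K ×ˢ K).indicator (fun _ => (1 : ℝ≥0∞)) (s, s'))]
      · rw [lintegral_const_mul _ (measurable_const.indicator hBK)]
        congr 1
        rw [lintegral_indicator_const hBK, one_mul]
      · exact ((measurable_const.indicator hBK).const_mul _).aemeasurable
    rw [e2]
    refine lintegral_mono fun s => lintegral_mono fun s' => ?_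
    by_cases hs : g s = 0
    · simp only [hs, mul_zero]; exact zero_le
    by_cases hs' : g s' = 0
    · simp only [hs', mul_zero, zero_mul]; exact zero_le
    by_cases hb : (s, s') ∈ B
    · have hmem : (s, s') ∈ B ∩ K ×ˢ K := ⟨hb, hSK (hgS s hs), hSK (hgS s' hs')⟩
      simp only [hf]
      rw [Set.indicator_of_mem hmem, Set.indicator_of_mem hb, one_mul, mul_one, sq]
      exact mul_le_mul' (hgΛ _) (hgΛ _)
    · simp only [hf]
      rw [Set.indicator_of_notMem hb, zero_mul, zero_mul]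
      exact zero_le
  calc ∫⁻ s, ∫⁻ s', f (s, s') ∂ν ∂ν ≤ ∫⁻ s, G s ∂ν + b := h2 ▸ h1
    _ ≤ (∫⁻ s, G s * g s ∂μ + b) + b := by gcongr
    _ ≤ (Λ ^ 2 * (μ.prod μ) (B ∩ K ×ˢ K) + b) + b := by gcongr
    _ = _ := by rw [add_assoc, two_mul]

/-- the pairs with the midpoint outside of `H` -/
def bad (H : Set E) : Set (E × E) := {p | (1 / 2 : ℝ) • (p.1 + p.2) ∉ H}

theorem bad_meas {H : Set E} (hH : IsClosed H) : MeasurableSet (bad H) := by
  have hsc : SecondCountableTopology E := by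
    have := FiniteDimensional.proper_real E
    infer_instance
  have h2 : IsClosed {p : E × E | (1 / 2 : ℝ) • (p.1 + p.2) ∈ H} :=
    hH.preimage (by fun_prop)
  exact h2.measurableSet.compl

omit [FiniteDimensional ℝ E] [MeasurableSpace E] [BorelSpace E] in
/-- the geometric step -/
theorem deep {K H : Set E} {v y s' : E} {c : ℝ} (hv : v ∈ (1 - c) • K)
    (h : (1 / 2 : ℝ) • ((v + c • y) + s') ∈ H) :
    v + c • s' ∈ (fun z => -((c ^ 2) • y) + z) '' ((2 * c) • H + ((1 - c) ^ 2) • K) := by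
  obtain ⟨k1, hk1, rfl⟩ := hv
  simp only at h ⊢
  refine ⟨(2 * c) • ((1 / 2 : ℝ) • (((1 - c) • k1 + c • y) + s')) + ((1 - c) ^ 2) • k1,
    Set.add_mem_add (Set.smul_mem_smul_set h) (Set.smul_mem_smul_set hk1), ?_⟩
  simp only
  module

theorem exists_le_prob {ν : Measure E} (hν : ν Set.univ = 1) {f : E → ℝ≥0∞}
    (hf : Measurable f) : ∃ y, f y ≤ ∫⁻ z, f z ∂ν := by
  have : IsProbabilityMeasure ν := ⟨hν⟩
  exact exists_le_lintegral hf.aemeasurable

/-- **Core inequality.** -/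
theorem core {K H : Set E} (hK : Convex ℝ K) (hKc : IsCompact K) (h0 : (0 : E) ∈ K)
    (hμ0 : μ K ≠ 0) (hH : IsCompact H) (A : Finset E) (hA : A.Nonempty)
    (hAK : ∀ a ∈ A, a ∈ K) (m : ℕ) {l : ℝ} (hl0 : 0 < l) (hl1 : l ≤ 1)
    {C q : ℝ≥0∞}
    (hq : ∀ t : E, (open Classical in
      ((A.filter fun x => x - t ∈ (1 - (1 - l) / 4 ^ m : ℝ) • K).card : ℝ≥0∞)) ≤ q * A.card)
    (hq0 : q ≠ 0) (hqt : q ≠ ⊤) (hC0 : C ≠ 0) (hCt : C ≠ ⊤) :
    1 ≤ (C * ((2 : ℝ≥0∞) ^ finrank ℝ E * q)) ^ (2 * m) *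
        ((μ (l • K))⁻¹ * μ ((2 * (1 / 2 : ℝ) ^ m) • H + ((1 - (1 / 2 : ℝ) ^ m) ^ 2) • K)
          + ((μ (l • K))⁻¹) ^ 2 * (μ.prod μ) (bad H ∩ K ×ˢ K)) + 4 * m * C⁻¹ := by
  classical
  have hsc : SecondCountableTopology E := by
    have := FiniteDimensional.proper_real E
    infer_instance
  set c : ℝ := (1 / 2 : ℝ) ^ m with hc
  set L : Set E := l • K with hL
  have hLm : MeasurableSet L := (hKc.smul l).isClosed.measurableSet
  have hLt : μ L ≠ ⊤ := (hKc.smul l).measure_lt_top.ne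
  have hL0 : μ L ≠ 0 := by
    rw [hL, Measure.addHaar_smul]
    refine mul_ne_zero ?_ hμ0
    rw [abs_of_pos (by positivity)]
    simpa using pow_pos hl0 _
  set Λ : ℝ≥0∞ := (μ L)⁻¹ with hΛ
  have hΛ0 : Λ ≠ 0 := ENNReal.inv_ne_zero.2 hLt
  have hΛt : Λ ≠ ⊤ := ENNReal.inv_ne_top.2 hL0
  set D : ℝ≥0∞ := C * ((2 : ℝ≥0∞) ^ finrank ℝ E * q) with hD
  have hD0 : D ≠ 0 := mul_ne_zero hC0 (mul_ne_zero (pow_ne_zero _ (by norm_num)) hq0)
  have hDt : D ≠ ⊤ :=
    ENNReal.mul_ne_top hCt (ENNReal.mul_ne_top (ENNReal.pow_ne_top (by norm_num)) hqt)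
  set l' : ℝ := 1 - (1 - l) / 4 ^ m with hl'
  have hlv : ∀ j, j ≤ 2 * m → lv l j ≤ l' := by
    intro j hj
    unfold lv
    rw [hl']
    have h1 : (2 : ℝ) ^ j ≤ 4 ^ m := by
      calc (2 : ℝ) ^ j ≤ 2 ^ (2 * m) := pow_le_pow_right₀ (by norm_num) hj
        _ = 4 ^ m := by rw [pow_mul]; norm_num
    have h2 : (1 - l) / 4 ^ m ≤ (1 - l) / 2 ^ j :=
      div_le_div_of_nonneg_left (by linarith) (by positivity) h1
    linarith
  -- stage 1
  set ν₀ : Measure E := un μ L with hν₀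
  set ν₁ : Measure E := itn A ν₀ m with hν₁
  set ν₂ : Measure E := itn A ν₁ m with hν₂
  have hp0 : ν₀ Set.univ = 1 := un_prob μ L hL0 hLt
  have hp1 : ν₁ Set.univ = 1 := itn_prob A hA ν₀ hp0 m
  have hp2 : ν₂ Set.univ = 1 := itn_prob A hA ν₁ hp1 m
  have hdom0 : Dom μ ν₀ Λ (l • K) 0 := un_dom μ L hLm hL0 hLt
  have hdom1 := hdom0.iter μ hK h0 hl0.le hl1 A hA hAK hq hΛ0 hΛt hq0 hqt hC0 hCt m
    (fun j hj => hlv j (by omega))
  have hdom2 := hdom1.iter μ hK h0 (lv_nonneg hl0.le hl1 m) (lv_le_one hl1 m) A hA hAK hq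
    (mul_ne_zero (pow_ne_zero _ hD0) hΛ0) (ENNReal.mul_ne_top (ENNReal.pow_ne_top hDt) hΛt)
    hq0 hqt hC0 hCt m (fun j hj => by rw [← lv_add]; exact hlv _ (by omega))
  -- pairs
  have hBm := bad_meas (E := E) hH.isClosed
  have hsub1 : lv l m • K ⊆ K := by
    have := smul_mono hK h0 (lv_nonneg hl0.le hl1 m) (lv_le_one hl1 m)
    rwa [one_smul] at this
  have hpair := pair_dom μ hdom1 hp1 hsub1 hKc.isClosed.measurableSet (bad H) hBm
  -- choice of y
  have hind : Measurable ((bad H).indicator (fun _ => (1 : ℝ≥0∞))) :=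
    measurable_const.indicator hBm
  set G : E → ℝ≥0∞ := fun s => ∫⁻ s', (bad H).indicator (fun _ => (1 : ℝ≥0∞)) (s, s') ∂ν₁
    with hG
  have hfin1 : IsFiniteMeasure ν₁ := ⟨by rw [hp1]; exact ENNReal.one_lt_top⟩
  have hGm : Measurable G := hind.lintegral_prod_right'
  set Φ : E → ℝ≥0∞ := fun y => ((A.card : ℝ≥0∞)⁻¹) ^ m *
      ∑ x : Fin m → A, G (dy m (fun i => (x i : E)) + c • y) with hΦ
  have hmaff : ∀ v : E, Measurable (fun y : E => v + c • y) := fun v =>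
    (continuous_const.add (continuous_const.smul continuous_id)).measurable
  have hΦm : Measurable Φ := by
    refine Measurable.const_mul (Finset.measurable_sum _ fun x _ => ?_) _
    exact hGm.comp (hmaff _)
  have hΦint : ∫⁻ y, Φ y ∂ν₀ = ∫⁻ s, G s ∂ν₁ := by
    have e3 : ∀ x : Fin m → A, Measurable
        (fun y : E => G (dy m (fun i => (x i : E)) + c • y)) := fun x => hGm.comp (hmaff _)
    rw [hν₁, lintegral_itn A ν₀ m G hGm, ← lintegral_finsetSum _ (fun x _ => e3 x),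
      ← lintegral_const_mul _ (Finset.measurable_sum _ fun x _ => e3 x)]
  obtain ⟨y, hy⟩ := exists_le_prob hp0 hΦm
  rw [hΦint] at hy
  -- the test set
  set U : Set E := (2 * c) • H + ((1 - c) ^ 2) • K with hU
  have hUc : IsCompact U := (hH.smul _).add (hKc.smul _)
  set T : Set E := (fun z => -((c ^ 2) • y) + z) '' U with hT
  have hTc : IsClosed T := (hUc.image (by fun_prop)).isClosed
  have hTm : MeasurableSet T := hTc.measurableSet
  have hTμ : μ T = μ U := by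
    rw [hT, Set.image_add_left, measure_preimage_add]
  -- the complement
  have hcompl : ν₂ Tᶜ ≤ Φ y := by
    have h1 : ν₂ Tᶜ = ∫⁻ z, Tᶜ.indicator (fun _ => (1 : ℝ≥0∞)) z ∂ν₂ := by
      rw [lintegral_indicator_const hTm.compl, one_mul]
    rw [h1, hν₂, lintegral_itn A ν₁ m _ (measurable_const.indicator hTm.compl)]
    refine mul_le_mul' le_rfl (Finset.sum_le_sum fun x _ => ?_)
    rw [hG]
    refine lintegral_mono fun s' => ?_
    by_cases hb : (dy m (fun i => (x i : E)) + c • y, s') ∈ bad H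
    · rw [Set.indicator_of_mem hb]
      exact Set.indicator_le_self' (fun _ _ => zero_le) _
    · have hgood : (1 / 2 : ℝ) • ((dy m (fun i => (x i : E)) + c • y) + s') ∈ H := by
        by_contra hcon
        exact hb hcon
      have hv := dy_mem hK ⟨0, h0⟩ m (fun i => (x i : E)) (fun i => hAK _ (x i).2)
      have hin : dy m (fun i => (x i : E)) + c • s' ∈ T := deep hv hgood
      have hnot : dy m (fun i => (x i : E)) + c • s' ∉ Tᶜ := fun h => h hin
      rw [Set.indicator_of_notMem hnot]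
      exact zero_le
  -- the set itself
  have hset : ν₂ T ≤ D ^ m * (D ^ m * Λ) * μ U + (0 + m * C⁻¹ + m * C⁻¹) := by
    obtain ⟨g, hgm, hgΛ, hgS, hg1, hdom⟩ := hdom2
    have h1 := hdom (T.indicator (fun _ => (1 : ℝ≥0∞))) (measurable_const.indicator hTm)
      (fun z => Set.indicator_le_self' (fun _ _ => zero_le) z)
    rw [lintegral_indicator_const hTm, one_mul] at h1
    refine h1.trans ?_
    gcongr
    calc ∫⁻ z, T.indicator (fun _ => (1 : ℝ≥0∞)) z * g z ∂μ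
        ≤ ∫⁻ z, T.indicator (fun _ => (1 : ℝ≥0∞)) z * (D ^ m * (D ^ m * Λ)) ∂μ := by
          gcongr with z
          exact hgΛ z
      _ = D ^ m * (D ^ m * Λ) * μ U := by
          rw [lintegral_mul_const _ (measurable_const.indicator hTm),
            lintegral_indicator_const hTm, one_mul, hTμ, mul_comm]
  have htot : (1 : ℝ≥0∞) = ν₂ T + ν₂ Tᶜ := by
    rw [measure_add_measure_compl hTm, hp2]
  rw [htot]
  calc ν₂ T + ν₂ Tᶜ ≤ (D ^ m * (D ^ m * Λ) * μ U + (0 + m * C⁻¹ + m * C⁻¹)) +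
        ((D ^ m * Λ) ^ 2 * (μ.prod μ) (bad H ∩ K ×ˢ K) + 2 * (0 + m * C⁻¹)) :=
        add_le_add hset (hcompl.trans (hy.trans hpair))
    _ = D ^ (2 * m) * (Λ * μ U + Λ ^ 2 * (μ.prod μ) (bad H ∩ K ×ˢ K))
        + 4 * m * C⁻¹ := by
      have : D ^ (2 * m) = D ^ m * D ^ m := by rw [two_mul, pow_add]
      rw [this]
      ring

end Pair

end Pool.Agent.Run7.h533.AC
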