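import Mathlib
import Pool.Agent.H2R2.Cov2
import Pool.Agent.Run7.h533.AC.Pair

set_option autoImplicit false

/-!
# The share of a translate, and the covering
-/

open MeasureTheory Module Finset
open scoped Pointwise ENNReal

namespace Pool.Agent.Run7.h533.AC

section Share

variable {E : Type*} [NormedAddCommGroup E] [NormedSpace ℝ E] [FiniteDimensional ℝ E]

/-- the covering theorem if in each finite subset of `K` some translate of `l K` has a share of at
least `θ` -/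
theorem cover_of_share (K : Set E) (hK : Convex ℝ K) (hKc : IsCompact K)
    (hKi : (interior K).Nonempty) (hd : 1 ≤ finrank ℝ E) (l η θ : ℝ) (hl : 0 < l) (hη : 0 < η)
    (hρ : l + η + η * finrank ℝ E < 1) (hθ : 0 < θ)
    (hshare : ∀ A : Finset E, A.Nonempty → (∀ a ∈ A, a ∈ K) →
      ∃ t : E, θ * A.card ≤ (open Classical in ((A.filter fun x => x - t ∈ l • K).card : ℝ))) :
    ∃ T : Finset E, K ⊆ ⋃ t ∈ T, (fun x => t + x) '' interior K ∧
      (T.card : ℝ) ≤ 1 + finrank ℝ E * Real.log (1 + 1 / η) / θ := by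
  classical
  set d := finrank ℝ E with hdd
  have hd0 : (0 : ℝ) < d := by exact_mod_cast hd
  have hθ1 : θ ≤ 1 := by
    obtain ⟨x, hx⟩ := hKi
    obtain ⟨t, ht⟩ := hshare {x} (Finset.singleton_nonempty x)
      (fun a ha => by rw [Finset.mem_singleton.1 ha]; exact interior_subset hx)
    have h1 : ((({x} : Finset E).filter fun y => y - t ∈ l • K).card : ℝ) ≤ 1 := by
      have := Finset.card_filter_le ({x} : Finset E) (fun y => y - t ∈ l • K)
      rw [Finset.card_singleton] at this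
      exact_mod_cast this
    rw [Finset.card_singleton, Nat.cast_one, mul_one] at ht
    exact ht.trans h1
  obtain ⟨c, hc⟩ := Pool.Agent.H2R2.Cov.exists_reflect K hK hKc hKi hd
  obtain ⟨S, hSK, hSnet, hScard⟩ := Pool.Agent.H2R2.Cov.exists_net K hK hKc hKi η hη
  have hgreedy := Pool.Agent.H815R2.Had.greedy_cover (S := S) (E := E)
    (fun t s => (s : E) - t ∈ l • K) θ hθ hθ1
    (by
      intro A hA
      obtain ⟨t, ht⟩ := hshare (A.map (Function.Embedding.subtype _)) (hA.map)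
        (by
          intro x hx
          rw [Finset.mem_map] at hx
          obtain ⟨a, _, rfl⟩ := hx
          exact hSK _ a.2)
      refine ⟨t, ?_⟩
      rw [Finset.card_map] at ht
      refine ht.trans (le_of_eq ?_)
      rw [Finset.filter_map, Finset.card_map]
      norm_cast)
    ((1 + 1 / η) ^ d) (by
      rw [Fintype.card_coe]; exact hScard) (one_le_pow₀ (by
        have : 0 < 1 / η := by positivity
        linarith))
  obtain ⟨Y, hYcard, hY⟩ := hgreedy
  obtain ⟨z₀, hz₀⟩ := hKi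
  set ρ := l + η + η * d with hρdef
  have hρ0 : 0 < ρ := by positivity
  refine ⟨Y.image (fun t => t - (η * (d + 1)) • c - (1 - ρ) • z₀), ?_, ?_⟩
  · intro y hy
    obtain ⟨x, hxS, k, hk, k', hk', hyx⟩ := hSnet y hy
    obtain ⟨t, htY, ht⟩ := hY ⟨x, hxS⟩
    obtain ⟨k₁, hk₁, hk₁'⟩ := ht
    obtain ⟨k₂, hk₂, hk₂'⟩ := hc k' hk'
    simp only at hk₁'
    -- convex combination
    have hcomb : (l / ρ) • k₁ + (η / ρ) • k + (η * d / ρ) • k₂ ∈ K := by
      have h1 := hK.sum_mem (t := (Finset.univ : Finset (Fin 3)))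
        (w := ![l / ρ, η / ρ, η * d / ρ]) (z := ![k₁, k, k₂])
        (by intro i _; fin_cases i <;> simp <;> positivity)
        (by
          simp [Fin.sum_univ_three]
          field_simp
          rw [hρdef])
        (by intro i _; fin_cases i <;> simp [hk₁, hk, hk₂])
      simpa [Fin.sum_univ_three] using h1
    set k₃ := (l / ρ) • k₁ + (η / ρ) • k + (η * d / ρ) • k₂ with hk₃
    have hρk₃ : ρ • k₃ = l • k₁ + η • k + (η * d) • k₂ := by
      rw [hk₃]
      simp only [smul_add, smul_smul]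
      rw [mul_div_cancel₀ _ hρ0.ne', mul_div_cancel₀ _ hρ0.ne', mul_div_cancel₀ _ hρ0.ne']
    have hint : (1 - ρ) • z₀ + ρ • k₃ ∈ interior K := by
      refine hK.combo_interior_self_subset_interior (a := 1 - ρ) (b := ρ) (by linarith) hρ0.le
        (by ring) ?_
      exact Set.add_mem_add (Set.smul_mem_smul_set hz₀) (Set.smul_mem_smul_set hcomb)
    rw [Set.mem_iUnion₂]
    refine ⟨t - (η * (d + 1)) • c - (1 - ρ) • z₀, Finset.mem_image_of_mem _ htY,
      (1 - ρ) • z₀ + ρ • k₃, hint, ?_⟩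
    simp only
    have hx : x = t + l • k₁ := by rw [hk₁']; abel
    have hk'' : -(η • k') = (η * d) • k₂ - (η * (d + 1)) • c := by
      rw [← smul_neg, hk₂', smul_sub, smul_smul, smul_smul]
    rw [hyx, hx, hρk₃, smul_sub, sub_eq_add_neg (η • k), hk'']
    abel
  · refine le_trans (b := (Y.card : ℝ)) (by exact_mod_cast Finset.card_image_le) ?_
    refine hYcard.trans (le_of_eq ?_)
    rw [Real.log_pow, add_comm]

/-- a numerical inequality -/
theorem l_pow {d : ℕ} (hd : 1 ≤ d) : 1 / 2 ≤ (1 - 1 / (2 * d) : ℝ) ^ d := by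
  have hd' : (1 : ℝ) ≤ d := by exact_mod_cast hd
  have h1 : (-2 : ℝ) ≤ -(1 / (2 * d)) := by
    have : 1 / (2 * (d : ℝ)) ≤ 1 := by
      rw [div_le_one (by positivity)]; linarith
    linarith
  have h2 := one_add_mul_le_pow h1 d
  have h3 : (d : ℝ) * -(1 / (2 * d)) = -(1 / 2) := by field_simp
  rw [h3] at h2
  rw [sub_eq_add_neg]
  linarith

variable [MeasurableSpace E] [BorelSpace E] (μ : Measure E) [μ.IsAddHaarMeasure]

/-- **The share of a translate.** -/
theorem share {K H : Set E} (hK : Convex ℝ K) (hKc : IsCompact K) (h0 : (0 : E) ∈ K)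
    (hμ0 : μ K ≠ 0) (hH : IsCompact H) (hd : 1 ≤ finrank ℝ E) (m : ℕ) (hm : 1 ≤ m) {β ε : ℝ}
    (hβ : μ.real ((2 * (1 / 2 : ℝ) ^ m) • H + ((1 - (1 / 2 : ℝ) ^ m) ^ 2) • K) ≤ β * μ.real K)
    (hε : (μ.prod μ).real (bad H ∩ K ×ˢ K) ≤ ε * μ.real K ^ 2) :
    0 < β + ε ∧ ∀ A : Finset E, A.Nonempty → (∀ a ∈ A, a ∈ K) →
      ∃ t : E, ((8 * m * 2 ^ finrank ℝ E * (9 * (β + ε)) ^ (1 / (2 * m : ℝ)))⁻¹ : ℝ) * A.card ≤
        (open Classical in ((A.filter fun x =>
          x - t ∈ (1 - 1 / (2 * finrank ℝ E) / 4 ^ m : ℝ) • K).card : ℝ)) := by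
  classical
  set d := finrank ℝ E with hdd
  have hd' : (1 : ℝ) ≤ d := by exact_mod_cast hd
  have hm' : (1 : ℝ) ≤ m := by exact_mod_cast hm
  have hKt : μ K ≠ ⊤ := hKc.measure_lt_top.ne
  have hV : 0 < μ.real K := ENNReal.toReal_pos hμ0 hKt
  set V := μ.real K with hVdef
  set U : Set E := (2 * (1 / 2 : ℝ) ^ m) • H + ((1 - (1 / 2 : ℝ) ^ m) ^ 2) • K with hU
  have hUc : IsCompact U := (hH.smul _).add (hKc.smul _)
  have hUt : μ U ≠ ⊤ := hUc.measure_lt_top.ne
  have hBt : (μ.prod μ) (bad H ∩ K ×ˢ K) ≠ ⊤ := by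
    refine ne_top_of_le_ne_top ?_ (measure_mono Set.inter_subset_right)
    rw [Measure.prod_prod]
    exact ENNReal.mul_ne_top hKt hKt
  have hβ0 : 0 ≤ β := by
    by_contra h
    push Not at h
    have h1 : β * V < 0 := mul_neg_of_neg_of_pos h hV
    have h2 : 0 ≤ μ.real U := measureReal_nonneg
    linarith
  have hε0 : 0 ≤ ε := by
    by_contra h
    push Not at h
    have h1 : ε * V ^ 2 < 0 := mul_neg_of_neg_of_pos h (by positivity)
    have h2 : 0 ≤ (μ.prod μ).real (bad H ∩ K ×ˢ K) := measureReal_nonneg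
    linarith
  set l : ℝ := 1 - 1 / (2 * d) with hl
  have hl0 : 0 < l := by
    rw [hl]
    have : 1 / (2 * (d : ℝ)) ≤ 1 / 2 := by
      apply div_le_div_of_nonneg_left (by norm_num) (by norm_num); linarith
    linarith
  have hl1 : l ≤ 1 := by
    rw [hl]
    have : 0 ≤ 1 / (2 * (d : ℝ)) := by positivity
    linarith
  have e1l : 1 - l = 1 / (2 * d) := by rw [hl]; ring
  have hlp : 1 / 2 ≤ l ^ d := l_pow hd
  have hlp0 : 0 < l ^ d := by positivity
  have hμL : (μ (l • K)).toReal = l ^ d * V := by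
    rw [Measure.addHaar_smul, abs_of_pos (by positivity), ENNReal.toReal_mul,
      ENNReal.toReal_ofReal (by positivity)]
    rfl
  have hLt : μ (l • K) ≠ ⊤ := (hKc.smul l).measure_lt_top.ne
  have hL0 : μ (l • K) ≠ 0 := by
    intro h
    rw [h, ENNReal.toReal_zero] at hμL
    have : 0 < l ^ d * V := by positivity
    linarith
  -- the real form of the core inequality
  have main : ∀ A : Finset E, A.Nonempty → (∀ a ∈ A, a ∈ K) → ∀ q : ℝ, 0 < q →
      (∀ t : E, ((A.filter fun x => x - t ∈ (1 - 1 / (2 * d) / 4 ^ m : ℝ) • K).card : ℝ)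
        ≤ q * A.card) →
      1 / 2 ≤ (8 * m * (2 ^ d * q)) ^ (2 * m) * (4 * (β + ε)) := by
    intro A hA hAK q hq hcount
    have hC0 : (8 * m : ℝ≥0∞) ≠ 0 := by
      have : (m : ℝ≥0∞) ≠ 0 := by exact_mod_cast (by omega : m ≠ 0)
      exact mul_ne_zero (by norm_num) this
    have hCt : (8 * m : ℝ≥0∞) ≠ ⊤ := ENNReal.mul_ne_top (by norm_num) (ENNReal.natCast_ne_top _)
    have hqE0 : ENNReal.ofReal q ≠ 0 := by
      rw [Ne, ENNReal.ofReal_eq_zero, not_le]; exact hq
    have h1 := core μ hK hKc h0 hμ0 hH A hA hAK m hl0 hl1 (C := 8 * m) (q := ENNReal.ofReal q)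
      (fun t => by
        have h2 := hcount t
        have h3 : (1 - (1 - l) / 4 ^ m : ℝ) = 1 - 1 / (2 * d) / 4 ^ m := by rw [e1l]
        rw [h3]
        have h4 : ENNReal.ofReal
            (((A.filter fun x => x - t ∈ (1 - 1 / (2 * d) / 4 ^ m : ℝ) • K).card : ℝ))
            ≤ ENNReal.ofReal (q * A.card) := ENNReal.ofReal_le_ofReal h2
        rw [ENNReal.ofReal_natCast, ENNReal.ofReal_mul hq.le, ENNReal.ofReal_natCast] at h4
        exact h4)
      hqE0 ENNReal.ofReal_ne_top hC0 hCt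
    -- take real parts
    have hfin : (8 * m * ((2 : ℝ≥0∞) ^ d * ENNReal.ofReal q)) ^ (2 * m) *
        ((μ (l • K))⁻¹ * μ U + ((μ (l • K))⁻¹) ^ 2 * (μ.prod μ) (bad H ∩ K ×ˢ K))
          + 4 * (m : ℝ≥0∞) * (8 * (m : ℝ≥0∞))⁻¹ ≠ ⊤ := by
      refine ENNReal.add_ne_top.2 ⟨ENNReal.mul_ne_top (ENNReal.pow_ne_top (ENNReal.mul_ne_top hCt
        (ENNReal.mul_ne_top (ENNReal.pow_ne_top (by norm_num)) ENNReal.ofReal_ne_top)))
        (ENNReal.add_ne_top.2 ⟨ENNReal.mul_ne_top (ENNReal.inv_ne_top.2 hL0) hUt,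
          ENNReal.mul_ne_top (ENNReal.pow_ne_top (ENNReal.inv_ne_top.2 hL0)) hBt⟩),
        ENNReal.mul_ne_top (ENNReal.mul_ne_top (by norm_num) (ENNReal.natCast_ne_top _))
          (ENNReal.inv_ne_top.2 hC0)⟩
    have h2 := ENNReal.toReal_mono hfin h1
    rw [ENNReal.toReal_add (fun h => hfin (by rw [h, top_add])) (fun h => hfin (by rw [h, add_top])),
      ENNReal.toReal_mul, ENNReal.toReal_add
        (ENNReal.mul_ne_top (ENNReal.inv_ne_top.2 hL0) hUt)
        (ENNReal.mul_ne_top (ENNReal.pow_ne_top (ENNReal.inv_ne_top.2 hL0)) hBt)] at h2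
    simp only [ENNReal.toReal_mul, ENNReal.toReal_pow, ENNReal.toReal_inv, hμL,
      ENNReal.toReal_ofReal hq.le, ENNReal.toReal_ofNat, ENNReal.toReal_natCast,
      ENNReal.toReal_one] at h2
    have e2 : (4 * m * (8 * m : ℝ)⁻¹ : ℝ) = 1 / 2 := by field_simp; norm_num
    rw [e2] at h2
    have h3 : (l ^ d * V)⁻¹ * (μ U).toReal ≤ 4 * β := by
      have h4 : (μ U).toReal ≤ β * V := hβ
      rw [inv_mul_le_iff₀ (by positivity)]
      have h5 : β * V ≤ l ^ d * V * (4 * β) := by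
        have : 1 ≤ 4 * l ^ d := by linarith
        nlinarith [mul_nonneg hβ0 hV.le]
      linarith
    have h3' : ((l ^ d * V)⁻¹) ^ 2 * ((μ.prod μ) (bad H ∩ K ×ˢ K)).toReal ≤ 4 * ε := by
      have h4 : ((μ.prod μ) (bad H ∩ K ×ˢ K)).toReal ≤ ε * V ^ 2 := hε
      rw [inv_pow, inv_mul_le_iff₀ (by positivity)]
      have h5 : ε * V ^ 2 ≤ (l ^ d * V) ^ 2 * (4 * ε) := by
        have h6 : 1 ≤ 4 * (l ^ d) ^ 2 := by nlinarith
        have h7 : 0 ≤ ε * V ^ 2 := by positivity
        nlinarith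
      linarith
    have h6 : (0 : ℝ) ≤ (8 * m * (2 ^ d * q)) ^ (2 * m) := by positivity
    have h7 : (8 * m * (2 ^ d * q)) ^ (2 * m) *
        ((l ^ d * V)⁻¹ * (μ U).toReal + ((l ^ d * V)⁻¹) ^ 2 *
          ((μ.prod μ) (bad H ∩ K ×ˢ K)).toReal)
        ≤ (8 * m * (2 ^ d * q)) ^ (2 * m) * (4 * (β + ε)) := by
      refine mul_le_mul_of_nonneg_left ?_ h6
      linarith
    linarith
  -- positivity
  have hpos : 0 < β + ε := by
    by_contra h
    push Not at h
    have h1 : β + ε = 0 := le_antisymm h (by linarith)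
    have h2 := main {0} (Finset.singleton_nonempty 0)
      (fun a ha => by rw [Finset.mem_singleton.1 ha]; exact h0) 1 one_pos (fun t => by
        rw [one_mul]
        exact_mod_cast Finset.card_filter_le _ _)
    rw [h1, mul_zero, mul_zero] at h2
    norm_num at h2
  refine ⟨hpos, fun A hA hAK => ?_⟩
  set R : ℝ := (9 * (β + ε)) ^ (1 / (2 * m : ℝ)) with hR
  have hR0 : 0 < R := Real.rpow_pos_of_pos (by positivity) _
  have hRp : R ^ (2 * m) = 9 * (β + ε) := by
    rw [hR, ← Real.rpow_natCast, ← Real.rpow_mul (by positivity)]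
    have : (1 / (2 * m : ℝ)) * ((2 * m : ℕ) : ℝ) = 1 := by
      push_cast
      field_simp
    rw [this, Real.rpow_one]
  by_contra hcon
  push Not at hcon
  have h1 := main A hA hAK ((8 * m * 2 ^ d * R)⁻¹) (by positivity) (fun t => (hcon t).le)
  have e1 : 8 * m * (2 ^ d * (8 * m * 2 ^ d * R)⁻¹) = R⁻¹ := by field_simp
  rw [e1, inv_pow, hRp] at h1
  have e2 : (9 * (β + ε))⁻¹ * (4 * (β + ε)) = 4 / 9 := by field_simp
  rw [e2] at h1
  norm_num at h1

end Share

end Pool.Agent.Run7.h533.AC
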