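import Mathlib
import Pool.Agent.Run7.h533.AC.CapCore
import Pool.Agent.Run7.h533.AC.Share

set_option autoImplicit false

/-!
# The covering theorem for bodies with small supporting caps
-/

open MeasureTheory Module Finset
open scoped Pointwise ENNReal

namespace Pool.Agent.Run7.h533.AC

open Pool.Agent.TH591.Ns (IsG IsP isG_gauge ball_eq mem_smul_iff isP_sup drop)

variable {d : ℕ} {K : Set (EuclideanSpace ℝ (Fin d))}

/-- the covering with parameters -/
theorem cap_cover (hd : 2 ≤ d) (hK : Convex ℝ K) (hKc : IsCompact K) (hK0 : K ∈ nhds 0)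
    {P : EuclideanSpace ℝ (Fin d) → ℝ} (hP : IsP (gauge K) P)
    (Φ : Set (EuclideanSpace ℝ (Fin d) →L[ℝ] ℝ))
    (hmax : ∀ x : EuclideanSpace ℝ (Fin d), ∀ η : ℝ, 0 < η → ∃ φ ∈ Φ, P x - η ≤ φ x)
    (hle : ∀ φ ∈ Φ, ∀ y, φ y ≤ gauge K y)
    (hhalf : ∀ φ ∈ Φ, (1 / 2 : ℝ≥0∞) * volume K ≤ volume {y | y ∈ K ∧ -1 ≤ φ y})
    {δ τ β : ℝ} (hδ0 : 0 < δ) (hτ : 0 < τ) (hβ0 : 0 ≤ β) (hβ1 : β ≤ 1)
    (hthin : ∀ φ ∈ Φ, volume ({y | 1 - δ ≤ φ y} ∩ K) ≤ ENNReal.ofReal τ * volume K)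
    (hS : ENNReal.ofReal β * volume {y : EuclideanSpace ℝ (Fin d) | gauge K y ≤ 1}
      ≤ volume {z : EuclideanSpace ℝ (Fin d) | gauge K z ≤ 1 ∧ gauge K z ≤ P z})
    (m k : ℕ) (hm : 1 ≤ m) (hk : 1 ≤ k) (hmδ : (1 / 2 : ℝ) ^ m ≤ δ / 4)
    (hkd : 4 * (k : ℝ) ≤ δ * d) :
    ∃ T : Finset (EuclideanSpace ℝ (Fin d)), K ⊆ ⋃ t ∈ T, (fun x => t + x) '' interior K ∧
      (T.card : ℝ) ≤ 1 + d * Real.log (1 + 2 ^ (m + 2) * d * (d + 1)) *
        (16 * m * 2 ^ d * (33 * max (Real.exp (-(β * k / 2)))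
          (Real.exp (2 * k * (2 ^ m + 1) / δ * (m + 1)) * τ)) ^ (1 / m : ℝ)) := by
  classical
  have hd' : (2 : ℝ) ≤ d := by exact_mod_cast hd
  have hd0 : (0 : ℝ) < d := by linarith
  have hm' : (1 : ℝ) ≤ m := by exact_mod_cast hm
  have hfr : finrank ℝ (EuclideanSpace ℝ (Fin d)) = d := finrank_euclideanSpace_fin
  set x : ℝ := max (Real.exp (-(β * k / 2)))
    (Real.exp (2 * k * (2 ^ m + 1) / δ * (m + 1)) * τ) with hx
  have hx0 : 0 < x := lt_of_lt_of_le (Real.exp_pos _) (le_max_left _ _)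
  set R : ℝ := (33 * x) ^ (1 / m : ℝ) with hR
  have hR0 : 0 < R := Real.rpow_pos_of_pos (by positivity) _
  have hRp : R ^ m = 33 * x := by
    rw [hR, ← Real.rpow_natCast, ← Real.rpow_mul (by positivity)]
    have : (1 / m : ℝ) * (m : ℝ) = 1 := by field_simp
    rw [this, Real.rpow_one]
  set θ : ℝ := (16 * m * 2 ^ d * R)⁻¹ with hθ
  have hθ0 : 0 < θ := by positivity
  have hKi : (interior K).Nonempty := ⟨0, mem_interior_iff_mem_nhds.2 hK0⟩
  obtain ⟨T, hT, hTc⟩ := cover_of_share K hK hKc hKi (by rw [hfr]; omega)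
    (1 - 1 / (2 * d) / 2 ^ m) (1 / (2 ^ (m + 2) * d * (d + 1))) θ
    (by
      have h1 : 1 / (2 * (d : ℝ)) / 2 ^ m ≤ 1 / 2 := by
        rw [div_div, div_le_div_iff₀ (by positivity) (by norm_num)]
        have : (1 : ℝ) ≤ 2 ^ m := one_le_pow₀ (by norm_num)
        nlinarith
      linarith)
    (by positivity)
    (by
      rw [hfr]
      have h1 : 1 / (2 ^ (m + 2) * (d : ℝ) * (d + 1)) + 1 / (2 ^ (m + 2) * (d : ℝ) * (d + 1)) * d
          = 1 / (2 ^ (m + 2) * d) := by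
        field_simp
        ring
      have h2 : 1 / (2 * (d : ℝ)) / 2 ^ m = 1 / (2 ^ (m + 1) * d) := by
        rw [div_div, pow_succ]
        congr 1
        ring
      have h3 : 1 / (2 ^ (m + 2) * (d : ℝ)) < 1 / (2 ^ (m + 1) * d) := by
        apply div_lt_div_of_pos_left one_pos (by positivity)
        have : (2 : ℝ) ^ (m + 2) = 2 * 2 ^ (m + 1) := by ring
        rw [this]
        have : 0 < (2 : ℝ) ^ (m + 1) * d := by positivity
        nlinarith
      rw [h2]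
      linarith)
    hθ0
    (by
      intro A hA hAK
      by_contra hcon
      push Not at hcon
      have h1 := cap_core hd hK hKc hK0 hP Φ hmax hle hhalf hδ0 hτ hβ0 hβ1 hthin hS A hA hAK m k
        hm hk hmδ hkd hθ0 (fun t => (hcon t).le)
      rw [← hx] at h1
      have e1 : 16 * m * (2 ^ d * θ) = R⁻¹ := by rw [hθ]; field_simp
      rw [e1, inv_pow, hRp] at h1
      have e2 : (33 * x)⁻¹ * (32 * x) = 32 / 33 := by field_simp
      rw [e2] at h1
      norm_num at h1)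
  refine ⟨T, hT, hTc.trans (le_of_eq ?_)⟩
  rw [hfr, one_div_one_div, hθ, div_inv_eq_mul]

/-- for a body with barycentre `0`, at least half of it is in the halfspace `φ ≥ -1` if
`φ ≤ 1` on it -/
theorem half_of_bary (hKc : IsCompact K) (hbar : ∫ x in K, x = 0)
    (φ : EuclideanSpace ℝ (Fin d) →L[ℝ] ℝ) (hφ : ∀ x ∈ K, φ x ≤ 1) :
    (1 / 2 : ℝ≥0∞) * volume K ≤ volume {y | y ∈ K ∧ -1 ≤ φ y} := by
  have hVt : volume K ≠ ⊤ := hKc.measure_lt_top.ne
  have hKm : MeasurableSet K := hKc.isClosed.measurableSet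
  have hint : IntegrableOn (fun x : EuclideanSpace ℝ (Fin d) => x) K volume :=
    continuousOn_id.integrableOn_compact hKc
  have hφint : IntegrableOn (fun x => φ x) K volume :=
    φ.continuous.continuousOn.integrableOn_compact hKc
  have h1 : ∫ x in K, φ x = 0 := by
    have := φ.integral_comp_comm hint
    rw [hbar, map_zero] at this
    exact this
  have h2 : ∫ x in K, (1 - φ x) = (volume K).toReal := by
    rw [integral_sub (integrable_const_iff.2 (Or.inr ⟨by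
      rw [Measure.restrict_apply_univ]; exact hVt.lt_top⟩)) hφint, h1, sub_zero]
    simp [Measure.real]
  have hB : MeasurableSet {y : EuclideanSpace ℝ (Fin d) | φ y < -1} :=
    (isOpen_lt φ.continuous continuous_const).measurableSet
  have h3 : 2 * (volume ({y | φ y < -1} ∩ K)).toReal ≤ (volume K).toReal := by
    have h4 : ∫ x in {y | φ y < -1} ∩ K, (2 : ℝ) ≤ ∫ x in {y | φ y < -1} ∩ K, (1 - φ x) := by
      refine setIntegral_mono_on ?_ ?_ (hB.inter hKm) ?_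
      · exact integrableOn_const (ne_top_of_le_ne_top hVt (measure_mono Set.inter_subset_right))
      · exact ((integrable_const_iff.2 (Or.inr ⟨by
          rw [Measure.restrict_apply_univ]; exact hVt.lt_top⟩)).sub hφint).mono_measure
          (Measure.restrict_mono Set.inter_subset_right le_rfl)
      · rintro x ⟨hx, _⟩
        rw [Set.mem_ofPred_eq] at hx
        linarith
    have h5 : ∫ x in {y | φ y < -1} ∩ K, (1 - φ x) ≤ ∫ x in K, (1 - φ x) := by
      refine setIntegral_mono_set ?_ ?_ ?_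
      · exact (integrable_const_iff.2 (Or.inr ⟨by
          rw [Measure.restrict_apply_univ]; exact hVt.lt_top⟩)).sub hφint
      · refine (ae_restrict_iff' hKm).2 (Filter.Eventually.of_forall fun x hx => ?_)
        have := hφ x hx
        simp only [Pi.zero_apply]
        linarith
      · exact (LE.le.eventuallyLE Set.inter_subset_right)
    rw [h2] at h5
    have h6 : ∫ x in {y | φ y < -1} ∩ K, (2 : ℝ) = 2 * (volume ({y | φ y < -1} ∩ K)).toReal := by
      rw [setIntegral_const, smul_eq_mul, mul_comm]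
      rfl
    linarith
  have hsplit : volume ({y | φ y < -1} ∩ K) + volume {y | y ∈ K ∧ -1 ≤ φ y} = volume K := by
    have e : {y | y ∈ K ∧ -1 ≤ φ y} = K \ {y | φ y < -1} := by
      ext y
      simp only [Set.mem_ofPred_eq, Set.mem_sdiff, not_lt]
    have e2 : {y | φ y < -1} ∩ K = K ∩ {y | φ y < -1} := Set.inter_comm _ _
    rw [e, e2]
    exact measure_inter_add_sdiff K hB
  have hg : volume {y | y ∈ K ∧ -1 ≤ φ y} ≠ ⊤ :=
    ne_top_of_le_ne_top hVt (measure_mono fun y hy => hy.1)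
  have hb : volume ({y | φ y < -1} ∩ K) ≠ ⊤ :=
    ne_top_of_le_ne_top hVt (measure_mono Set.inter_subset_right)
  have h7 : (volume ({y | φ y < -1} ∩ K)).toReal + (volume {y | y ∈ K ∧ -1 ≤ φ y}).toReal
      = (volume K).toReal := by
    rw [← ENNReal.toReal_add hb hg, hsplit]
  rw [← ENNReal.toReal_le_toReal (ENNReal.mul_ne_top (by norm_num) hVt) hg, ENNReal.toReal_mul]
  have : ((1 / 2 : ℝ≥0∞)).toReal = 1 / 2 := by simp
  rw [this]
  linarith

/-- the covering theorem in terms of the points which are supported by small caps -/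
theorem cap_cover' (hd : 2 ≤ d) (hK : Convex ℝ K) (hKc : IsCompact K) (hK0 : K ∈ nhds 0)
    (hbar : ∫ x in K, x = 0) {δ τ β : ℝ} (hδ0 : 0 < δ) (hτ : 0 < τ) (hβ0 : 0 < β) (hβ1 : β ≤ 1)
    (hS : ENNReal.ofReal β * volume K ≤ volume {z : EuclideanSpace ℝ (Fin d) | z ∈ K ∧
      ∃ φ : EuclideanSpace ℝ (Fin d) →L[ℝ] ℝ, ((∀ x ∈ K, φ x ≤ 1) ∧
        volume ({y | 1 - δ ≤ φ y} ∩ K) ≤ ENNReal.ofReal τ * volume K) ∧ φ z = gauge K z})
    (m k : ℕ) (hm : 1 ≤ m) (hk : 1 ≤ k) (hmδ : (1 / 2 : ℝ) ^ m ≤ δ / 4)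
    (hkd : 4 * (k : ℝ) ≤ δ * d) :
    ∃ T : Finset (EuclideanSpace ℝ (Fin d)), K ⊆ ⋃ t ∈ T, (fun x => t + x) '' interior K ∧
      (T.card : ℝ) ≤ 1 + d * Real.log (1 + 2 ^ (m + 2) * d * (d + 1)) *
        (16 * m * 2 ^ d * (33 * max (Real.exp (-(β * k / 2)))
          (Real.exp (2 * k * (2 ^ m + 1) / δ * (m + 1)) * τ)) ^ (1 / m : ℝ)) := by
  classical
  have hV0 : volume K ≠ 0 := (Measure.measure_pos_of_mem_nhds volume hK0).ne'
  have hg := isG_gauge hK hK0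
  have hball := ball_eq hK hKc hK0
  let Φ : Set (EuclideanSpace ℝ (Fin d) →L[ℝ] ℝ) := {φ | (∀ x ∈ K, φ x ≤ 1) ∧
        volume ({y | 1 - δ ≤ φ y} ∩ K) ≤ ENNReal.ofReal τ * volume K}
  have hle : ∀ φ ∈ Φ, ∀ y, φ y ≤ gauge K y := by
    intro φ hφ y
    -- `y ∈ (gauge K y + s) K` for all `s > 0`
    refine le_of_forall_pos_le_add fun s hs => ?_
    have hpos : 0 < gauge K y + s := by
      have := gauge_nonneg (s := K) y
      linarith
    have h1 : y ∈ (gauge K y + s) • K := by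
      rw [mem_smul_iff hK hKc hK0 _ hpos]
      linarith
    obtain ⟨z, hz, hzy⟩ := h1
    simp only at hzy
    rw [← hzy, map_smul, smul_eq_mul]
    have := hφ.1 z hz
    rw [hzy]
    nlinarith
  have hne : Nonempty Φ := by
    have h1 : volume {z : EuclideanSpace ℝ (Fin d) | z ∈ K ∧
      ∃ φ : EuclideanSpace ℝ (Fin d) →L[ℝ] ℝ, ((∀ x ∈ K, φ x ≤ 1) ∧
        volume ({y | 1 - δ ≤ φ y} ∩ K) ≤ ENNReal.ofReal τ * volume K) ∧ φ z = gauge K z} ≠ 0 := by
      intro h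
      rw [h] at hS
      exact mul_ne_zero (ENNReal.ofReal_pos.mpr hβ0).ne' hV0 (le_antisymm hS zero_le)
    obtain ⟨z, -, φ, hφ, -⟩ := MeasureTheory.nonempty_of_measure_ne_zero h1
    exact ⟨φ, hφ⟩
  have hP := isP_sup hg Φ hne hle
  have hbx : ∀ x, BddAbove (Set.range fun φ : Φ =>
      (φ : EuclideanSpace ℝ (Fin d) →L[ℝ] ℝ) x) := by
    intro x
    refine ⟨gauge K x, ?_⟩
    rintro _ ⟨φ, rfl⟩
    exact hle _ φ.2 x
  refine cap_cover hd hK hKc hK0 hP Φ ?_ hle (fun φ hφ => half_of_bary hKc hbar φ hφ.1) hδ0 hτ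
    hβ0.le hβ1 (fun φ hφ => hφ.2) ?_ m k hm hk hmδ hkd
  · intro x η hη
    have h1 : (⨆ φ : Φ, (φ : EuclideanSpace ℝ (Fin d) →L[ℝ] ℝ) x) - η
        < ⨆ φ : Φ, (φ : EuclideanSpace ℝ (Fin d) →L[ℝ] ℝ) x := by linarith
    obtain ⟨φ, hφ⟩ := exists_lt_of_lt_ciSup h1
    exact ⟨φ, φ.2, hφ.le⟩
  · rw [hball]
    refine hS.trans (measure_mono ?_)
    rintro z ⟨hz1, φ, hφ, hφz⟩
    refine ⟨gauge_le_one_of_mem hz1, ?_⟩
    rw [← hφz]
    exact le_ciSup (hbx z) (⟨φ, hφ⟩ : Φ)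

end Pool.Agent.Run7.h533.AC
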