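import Mathlib
import Pool.Agent.Run7.h533.AC.CapMain
import Pool.Agent.Results.MP_eba1ef_gt.AllConvexBodies

set_option autoImplicit false

/-!
# The covering theorem for bodies with small supporting caps: the final bound
-/

open MeasureTheory Module Finset
open scoped Pointwise ENNReal

namespace Pool.Agent.Run7.h533.AC

/-- the numerical estimates for given `m` -/
theorem num_bound {d m : ℕ} (hd : 2 ≤ d) (hm : 2 ≤ m) {δ τ β A : ℝ} (hδ0 : 0 < δ) (hδ1 : δ ≤ 1)
    (hτ0 : 0 < τ) (hτ1 : τ ≤ 1) (hβ0 : 0 < β) (hβ1 : β ≤ 1)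
    (hA : A = 2 * (2 ^ m + 1) * (m + 1) / δ) (k : ℕ)
    (hk1 : (k : ℝ) ≤ Real.log (1 / τ) / (2 * A)) (hk2 : Real.log (1 / τ) / (2 * A) ≤ k + 1) :
    (33 * max (Real.exp (-(β * k / 2)))
          (Real.exp (2 * k * (2 ^ m + 1) / δ * (m + 1)) * τ)) ^ (1 / m : ℝ)
      ≤ 9 * τ ^ (β / (4 * A * m)) := by
  have hm' : (2 : ℝ) ≤ m := by exact_mod_cast hm
  have hA0 : 0 < A := by rw [hA]; positivity
  have hA1 : 1 ≤ A := by
    rw [hA, le_div_iff₀ hδ0, one_mul]
    have : (1 : ℝ) ≤ 2 ^ m := one_le_pow₀ (by norm_num)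
    nlinarith
  set l : ℝ := Real.log (1 / τ) with hl
  have hl0 : 0 ≤ l := Real.log_nonneg (by rw [le_div_iff₀ hτ0]; linarith)
  have hτl : τ = Real.exp (-l) := by
    rw [hl, one_div, Real.log_inv, neg_neg, Real.exp_log hτ0]
  have hx : max (Real.exp (-(β * k / 2))) (Real.exp (2 * k * (2 ^ m + 1) / δ * (m + 1)) * τ)
      ≤ 2 * Real.exp (-(β * l / (4 * A))) := by
    apply max_le
    · have h1 : -(β * k / 2) ≤ 1 / 2 + -(β * l / (4 * A)) := by
        have h2 : l / (4 * A) = l / (2 * A) / 2 := by field_simp; ring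
        have h3 : β * l / (4 * A) = β * (l / (2 * A) / 2) := by rw [← h2]; ring
        rw [h3]
        nlinarith
      calc Real.exp (-(β * k / 2)) ≤ Real.exp (1 / 2 + -(β * l / (4 * A))) := Real.exp_le_exp.2 h1
        _ = Real.exp (1 / 2) * Real.exp (-(β * l / (4 * A))) := Real.exp_add _ _
        _ ≤ 2 * Real.exp (-(β * l / (4 * A))) := by
          have h4 : Real.exp (1 / 2) ≤ 2 := by
            have h5 : Real.exp (1 / 2) * Real.exp (1 / 2) = Real.exp 1 := by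
              rw [← Real.exp_add]; norm_num
            have h6 := Real.exp_one_lt_d9
            have h7 := Real.exp_pos (1 / 2)
            nlinarith
          gcongr
    · rw [hτl, ← Real.exp_add]
      have h1 : 2 * (k : ℝ) * (2 ^ m + 1) / δ * (m + 1) = k * A := by
        rw [hA]; ring
      have h2 : (k : ℝ) * A ≤ l / 2 := by
        rw [le_div_iff₀ (by positivity)] at hk1
        linarith
      have h3 : β * l / (4 * A) ≤ l / 2 := by
        rw [div_le_div_iff₀ (by positivity) (by norm_num)]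
        have : β * l ≤ l := by nlinarith
        nlinarith
      calc Real.exp (2 * k * (2 ^ m + 1) / δ * (m + 1) + -l)
          ≤ Real.exp (-(β * l / (4 * A))) := by
            apply Real.exp_le_exp.2
            rw [h1]
            linarith
        _ ≤ 2 * Real.exp (-(β * l / (4 * A))) := by
            have := Real.exp_pos (-(β * l / (4 * A)))
            linarith
  calc (33 * max (Real.exp (-(β * k / 2)))
          (Real.exp (2 * k * (2 ^ m + 1) / δ * (m + 1)) * τ)) ^ (1 / m : ℝ)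
      ≤ (81 * Real.exp (-(β * l / (4 * A)))) ^ (1 / m : ℝ) := by
        apply Real.rpow_le_rpow (by positivity) _ (by positivity)
        have := Real.exp_pos (-(β * l / (4 * A)))
        linarith
    _ = 81 ^ (1 / m : ℝ) * Real.exp (-(β * l / (4 * A))) ^ (1 / m : ℝ) :=
        Real.mul_rpow (by norm_num) (Real.exp_pos _).le
    _ = 81 ^ (1 / m : ℝ) * τ ^ (β / (4 * A * m)) := by
        congr 1
        rw [← Real.exp_mul, hτl, ← Real.exp_mul]
        congr 1
        field_simp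
    _ ≤ 9 * τ ^ (β / (4 * A * m)) := by
        have h1 : (81 : ℝ) ^ (1 / m : ℝ) ≤ 81 ^ (1 / 2 : ℝ) := by
          apply Real.rpow_le_rpow_of_exponent_le (by norm_num)
          apply one_div_le_one_div_of_le (by norm_num) hm'
        have h2 : (81 : ℝ) ^ (1 / 2 : ℝ) = 9 := by
          rw [← Real.sqrt_eq_rpow, show (81 : ℝ) = 9 ^ 2 by norm_num, Real.sqrt_sq (by norm_num)]
        have h3 : 0 ≤ τ ^ (β / (4 * A * m)) := Real.rpow_nonneg hτ0.le _
        rw [h2] at h1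
        gcongr

theorem log_poly {d : ℕ} (hd : 2 ≤ d) (m : ℕ) :
    Real.log (1 + 2 ^ (m + 2) * d * (d + 1)) ≤ (m + 4) * Real.log (d + 1) := by
  have hd' : (2 : ℝ) ≤ d := by exact_mod_cast hd
  have h1 : (1 : ℝ) + 2 ^ (m + 2) * d * (d + 1) ≤ (d + 1) ^ (m + 4) := by
    have h2 : (2 : ℝ) ^ (m + 2) ≤ (d + 1) ^ (m + 2) := by
      apply pow_le_pow_left₀ (by norm_num)
      linarith
    have h3 : (1 : ℝ) ≤ 2 ^ (m + 2) := one_le_pow₀ (by norm_num)
    calc (1 : ℝ) + 2 ^ (m + 2) * d * (d + 1) ≤ 2 ^ (m + 2) * (d + 1) ^ 2 := by nlinarith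
      _ ≤ (d + 1) ^ (m + 2) * (d + 1) ^ 2 := by gcongr
      _ = (d + 1) ^ (m + 4) := by ring
  calc Real.log (1 + 2 ^ (m + 2) * d * (d + 1)) ≤ Real.log ((d + 1) ^ (m + 4)) :=
        Real.log_le_log (by positivity) h1
    _ = (m + 4) * Real.log (d + 1) := by
        rw [Real.log_pow]
        push_cast
        ring

theorem log_three_le {d : ℕ} (hd : 2 ≤ d) : 1 ≤ Real.log ((d : ℝ) + 1) := by
  have hd' : (2 : ℝ) ≤ d := by exact_mod_cast hd
  rw [Real.le_log_iff_exp_le (by positivity)]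
  have := Real.exp_one_lt_d9
  linarith

variable {d : ℕ} {K : Set (EuclideanSpace ℝ (Fin d))}

/-- the covering theorem for `e^(-d) ≤ τ ≤ 1` -/
theorem cap_final (hd : 2 ≤ d) (hK : Convex ℝ K) (hKc : IsCompact K) (hK0 : K ∈ nhds 0)
    (hbar : ∫ x in K, x = 0) {δ τ β : ℝ} (hδ0 : 0 < δ) (hδ1 : δ ≤ 1)
    (hτ0 : Real.exp (-d) ≤ τ) (hτ1 : τ ≤ 1) (hβ0 : 0 < β) (hβ1 : β ≤ 1)
    (hS : ENNReal.ofReal β * volume K ≤ volume {z : EuclideanSpace ℝ (Fin d) | z ∈ K ∧
      ∃ φ : EuclideanSpace ℝ (Fin d) →L[ℝ] ℝ, ((∀ x ∈ K, φ x ≤ 1) ∧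
        volume ({y | 1 - δ ≤ φ y} ∩ K) ≤ ENNReal.ofReal τ * volume K) ∧ φ z = gauge K z}) :
    ∃ T : Finset (EuclideanSpace ℝ (Fin d)), K ⊆ ⋃ t ∈ T, (fun x => t + x) '' interior K ∧
      (T.card : ℝ) ≤ 300 * Real.logb 2 (16 / δ) ^ 2 * d * Real.log (d + 1) * 2 ^ d
        * τ ^ (β * δ ^ 2 / (72 * Real.logb 2 (16 / δ) ^ 2)) := by
  classical
  have hd' : (2 : ℝ) ≤ d := by exact_mod_cast hd
  have hτp : 0 < τ := (Real.exp_pos _).trans_le hτ0
  set L : ℝ := Real.logb 2 (16 / δ) with hL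
  have hL4 : 4 ≤ L := by
    rw [hL, Real.le_logb_iff_rpow_le (by norm_num) (by positivity)]
    rw [le_div_iff₀ hδ0]
    norm_num
    linarith
  -- the number `m`
  set m : ℕ := ⌈Real.logb 2 (4 / δ)⌉₊ with hm
  have hlog4 : 2 ≤ Real.logb 2 (4 / δ) := by
    rw [Real.le_logb_iff_rpow_le (by norm_num) (by positivity), le_div_iff₀ hδ0]
    norm_num
    linarith
  have hm2 : 2 ≤ m := by
    rw [hm]
    have h1 : (2 : ℝ) ≤ (⌈Real.logb 2 (4 / δ)⌉₊ : ℝ) := hlog4.trans (Nat.le_ceil _)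
    exact_mod_cast h1
  have hm2' : (2 : ℝ) ≤ m := by exact_mod_cast hm2
  have hmL : (m : ℝ) + 1 ≤ L := by
    have h1 : (m : ℝ) < Real.logb 2 (4 / δ) + 1 := Nat.ceil_lt_add_one (by linarith)
    have h2 : L = Real.logb 2 (4 / δ) + 2 := by
      have h3 : (16 : ℝ) / δ = 4 / δ * 4 := by ring
      rw [hL, h3, Real.logb_mul (by positivity) (by norm_num)]
      have h4 : Real.logb 2 4 = 2 := by
        rw [show (4 : ℝ) = 2 ^ (2 : ℝ) by norm_num, Real.logb_rpow (by norm_num) (by norm_num)]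
      rw [h4]
    linarith
  have hpm1 : 4 / δ ≤ (2 : ℝ) ^ m := by
    have h1 : Real.logb 2 (4 / δ) ≤ (m : ℝ) := Nat.le_ceil _
    rw [Real.logb_le_iff_le_rpow (by norm_num) (by positivity), Real.rpow_natCast] at h1
    exact h1
  have hpm2 : (2 : ℝ) ^ m ≤ 8 / δ := by
    have h1 : (m : ℝ) ≤ Real.logb 2 (8 / δ) := by
      have h2 : L = Real.logb 2 (8 / δ) + 1 := by
        have h3 : (16 : ℝ) / δ = 8 / δ * 2 := by ring
        rw [hL, h3, Real.logb_mul (by positivity) (by norm_num)]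
        have h4 : Real.logb 2 2 = 1 := by
          exact Real.logb_self_eq_one (by norm_num)
        rw [h4]
      linarith
    rw [Real.le_logb_iff_rpow_le (by norm_num) (by positivity), Real.rpow_natCast] at h1
    exact h1
  have hmδ : (1 / 2 : ℝ) ^ m ≤ δ / 4 := by
    rw [div_pow, one_pow, div_le_div_iff₀ (by positivity) (by norm_num)]
    rw [div_le_iff₀ hδ0] at hpm1
    linarith
  -- the exponent
  set A : ℝ := 2 * (2 ^ m + 1) * (m + 1) / δ with hA
  have hA0 : 0 < A := by positivity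
  have hA1 : 1 ≤ A := by
    rw [hA, le_div_iff₀ hδ0, one_mul]
    have : (1 : ℝ) ≤ 2 ^ m := one_le_pow₀ (by norm_num)
    nlinarith
  have hA2 : A ≤ 18 * L / δ ^ 2 := by
    have h1 : (2 : ℝ) ^ m + 1 ≤ 9 / δ := by
      have : 1 ≤ 1 / δ := by rw [le_div_iff₀ hδ0]; linarith
      have h2 : 9 / δ = 8 / δ + 1 / δ := by ring
      linarith
    calc A = 2 * (2 ^ m + 1) * (m + 1) / δ := hA
      _ ≤ 2 * (9 / δ) * L / δ := by gcongr
      _ = 18 * L / δ ^ 2 := by field_simp; ring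
  have hex : β * δ ^ 2 / (72 * L ^ 2) ≤ β / (4 * A * m) := by
    rw [div_le_div_iff₀ (by positivity) (by positivity)]
    have h1 : A * δ ^ 2 ≤ 18 * L := by
      rw [le_div_iff₀ (by positivity)] at hA2
      exact hA2
    have h2 : A * δ ^ 2 * m ≤ 18 * L * L := by
      apply mul_le_mul h1 (by linarith) (by positivity) (by positivity)
    calc β * δ ^ 2 * (4 * A * m) = 4 * β * (A * δ ^ 2 * m) := by ring
      _ ≤ 4 * β * (18 * L * L) := by gcongr
      _ = β * (72 * L ^ 2) := by ring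
  have hpow : τ ^ (β / (4 * A * m)) ≤ τ ^ (β * δ ^ 2 / (72 * L ^ 2)) :=
    Real.rpow_le_rpow_of_exponent_ge hτp hτ1 hex
  set ψ : ℝ := τ ^ (β * δ ^ 2 / (72 * L ^ 2)) with hψ
  have hψ0 : 0 < ψ := Real.rpow_pos_of_pos hτp _
  set l : ℝ := Real.log (1 / τ) with hl
  have hl0 : 0 ≤ l := Real.log_nonneg (by rw [le_div_iff₀ hτp]; linarith)
  have hτl : τ = Real.exp (-l) := by
    rw [hl, one_div, Real.log_inv, neg_neg, Real.exp_log hτp]
  have hld : l ≤ d := by
    rw [hτl, Real.exp_le_exp] at hτ0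
    linarith
  have hc1 : β * δ ^ 2 / (72 * L ^ 2) ≤ 1 / 4 := by
    rw [div_le_div_iff₀ (by positivity) (by norm_num)]
    have h1 : δ ^ 2 ≤ 1 := by nlinarith
    have h2 : β * δ ^ 2 ≤ 1 := by nlinarith [sq_nonneg δ]
    nlinarith
  have hlogd := log_three_le hd
  have hL2 : 16 ≤ L ^ 2 := by nlinarith
  have hc0 : 0 ≤ β * δ ^ 2 / (72 * L ^ 2) := by positivity
  by_cases hk : 1 ≤ ⌊l / (2 * A)⌋₊
  · set k : ℕ := ⌊l / (2 * A)⌋₊ with hkdef
    have hk1 : (k : ℝ) ≤ l / (2 * A) := Nat.floor_le (by positivity)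
    have hk2 : l / (2 * A) ≤ k + 1 := (Nat.lt_floor_add_one _).le
    have hkd : 4 * (k : ℝ) ≤ δ * d := by
      have h1 : (k : ℝ) ≤ d / (2 * A) := hk1.trans (by gcongr)
      rw [le_div_iff₀ (by positivity)] at h1
      have h2 : 4 ≤ A * δ := by
        rw [hA, div_mul_cancel₀ _ hδ0.ne']
        have : (1 : ℝ) ≤ 2 ^ m := one_le_pow₀ (by norm_num)
        nlinarith
      have h3 : (k : ℝ) * 4 ≤ k * (A * δ) := by gcongr
      have h4 : (k : ℝ) * (2 * A) * δ ≤ d * δ := by gcongr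
      nlinarith
    obtain ⟨T, hT, hTc⟩ := cap_cover' hd hK hKc hK0 hbar hδ0 hτp hβ0 hβ1 hS m k (by omega) hk
      hmδ hkd
    refine ⟨T, hT, hTc.trans ?_⟩
    have h1 := num_bound hd hm2 hδ0 hδ1 hτp hτ1 hβ0 hβ1 hA k hk1 hk2
    have h2 := log_poly hd m
    have h3 : 1 ≤ 2 ^ d * ψ := by
      have h4 : ψ = Real.exp (-(l * (β * δ ^ 2 / (72 * L ^ 2)))) := by
        rw [hψ, hτl, ← Real.exp_mul]
        congr 1
        ring
      have h5 : (2 : ℝ) ^ d = Real.exp (Real.log 2 * d) := by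
        rw [Real.exp_mul, Real.exp_log (by norm_num), Real.rpow_natCast]
      rw [h4, h5, ← Real.exp_add, Real.one_le_exp_iff]
      have h6 : l * (β * δ ^ 2 / (72 * L ^ 2)) ≤ d * (1 / 4) := by gcongr
      have h7 := Real.log_two_gt_d9
      nlinarith
    have hLm : (m : ℝ) * (m + 4) ≤ 2 * L ^ 2 := by nlinarith
    have hlogpos : 0 ≤ Real.log ((d : ℝ) + 1) := by linarith
    calc 1 + (d : ℝ) * Real.log (1 + 2 ^ (m + 2) * d * (d + 1)) *
        (16 * m * 2 ^ d * (33 * max (Real.exp (-(β * k / 2)))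
          (Real.exp (2 * k * (2 ^ m + 1) / δ * (m + 1)) * τ)) ^ (1 / m : ℝ))
        ≤ 1 + (d : ℝ) * ((m + 4) * Real.log (d + 1)) * (16 * m * 2 ^ d * (9 * ψ)) := by
          have h9 := h1.trans (mul_le_mul_of_nonneg_left hpow (by norm_num : (0 : ℝ) ≤ 9))
          gcongr
      _ = 1 + 144 * (m * (m + 4)) * (d * Real.log (d + 1)) * (2 ^ d * ψ) := by ring
      _ ≤ 1 + 144 * (2 * L ^ 2) * (d * Real.log (d + 1)) * (2 ^ d * ψ) := by gcongr
      _ ≤ 300 * L ^ 2 * (d * Real.log (d + 1)) * (2 ^ d * ψ) := by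
          have h10 : 1 ≤ (d : ℝ) * Real.log (d + 1) := by nlinarith
          have h11 : 1 ≤ (d : ℝ) * Real.log (d + 1) * (2 ^ d * ψ) := by
            calc (1 : ℝ) = 1 * 1 := by ring
              _ ≤ (d : ℝ) * Real.log (d + 1) * (2 ^ d * ψ) := by gcongr
          nlinarith
      _ = 300 * L ^ 2 * d * Real.log (d + 1) * 2 ^ d * ψ := by ring
  · have hk' : l / (2 * A) < 1 := by
      rw [not_le, Nat.floor_lt (by positivity)] at hk
      exact_mod_cast hk
    have hψ1 : 1 / 2 ≤ ψ := by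
      have h4 : τ ^ (β / (4 * A * m)) = Real.exp (-(l * (β / (4 * A * m)))) := by
        rw [hτl, ← Real.exp_mul]
        congr 1
        ring
      rw [h4] at hpow
      refine le_trans ?_ hpow
      have h5 : l * (β / (4 * A * m)) ≤ 1 / 4 := by
        rw [div_lt_one (by positivity)] at hk'
        rw [mul_div_assoc', div_le_div_iff₀ (by positivity) (by norm_num)]
        have : l * β ≤ 2 * A := by nlinarith
        nlinarith
      have h6 := Real.add_one_le_exp (-(l * (β / (4 * A * m))))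
      linarith
    obtain ⟨T, hT, hTc⟩ := Pool.Agent.Results.MP_eba1ef_gt.AllConvexBodies.result d hd K hK hKc
      ⟨0, mem_interior_iff_mem_nhds.2 hK0⟩
    refine ⟨T, hT, hTc.trans ?_⟩
    have h2 : Real.log (2 * (d : ℝ) ^ 2 + 2 * d + 1) ≤ 3 * Real.log (d + 1) := by
      have h3 : (3 : ℝ) * Real.log (d + 1) = Real.log ((d + 1) ^ 3) := by
        rw [Real.log_pow]
        norm_num
      rw [h3]
      apply Real.log_le_log (by positivity)
      nlinarith
    have hlogpos : 0 ≤ Real.log ((d : ℝ) + 1) := by linarith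
    calc 3 * 2 ^ d * ((d : ℝ) * Real.log (2 * d ^ 2 + 2 * d + 1))
        ≤ 3 * 2 ^ d * ((d : ℝ) * (3 * Real.log (d + 1))) := by gcongr
      _ = 9 * (d * Real.log (d + 1) * 2 ^ d) := by ring
      _ ≤ 300 * L ^ 2 * ψ * (d * Real.log (d + 1) * 2 ^ d) := by
          gcongr
          nlinarith
      _ = 300 * L ^ 2 * d * Real.log (d + 1) * 2 ^ d * ψ := by ring

end Pool.Agent.Run7.h533.AC
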