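import Mathlib
import Pool.Agent.Run7.h533.AC.Share
import Pool.Agent.Run7.h533.AC.CapAsym

set_option autoImplicit false

/-!
# The covering theorem in terms of the midpoints of random pairs
-/

open MeasureTheory Module Finset
open scoped Pointwise ENNReal

namespace Pool.Agent.Run7.h533.AC

theorem log_poly' {d : ℕ} (hd : 2 ≤ d) (m : ℕ) :
    Real.log (1 + 4 ^ (m + 1) * d * (d + 1)) ≤ (2 * m + 4) * Real.log (d + 1) := by
  have hd' : (2 : ℝ) ≤ d := by exact_mod_cast hd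
  have h1 : (1 : ℝ) + 4 ^ (m + 1) * d * (d + 1) ≤ (d + 1) ^ (2 * m + 4) := by
    have h2 : (2 : ℝ) ^ (2 * m + 2) ≤ (d + 1) ^ (2 * m + 2) := by
      apply pow_le_pow_left₀ (by norm_num)
      linarith
    have h3 : (1 : ℝ) ≤ 2 ^ (2 * m + 2) := one_le_pow₀ (by norm_num)
    have h4 : (4 : ℝ) ^ (m + 1) = 2 ^ (2 * m + 2) := by
      rw [show 2 * m + 2 = 2 * (m + 1) by ring, pow_mul]
      norm_num
    rw [h4]
    calc (1 : ℝ) + 2 ^ (2 * m + 2) * d * (d + 1) ≤ 2 ^ (2 * m + 2) * (d + 1) ^ 2 := by nlinarith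
      _ ≤ (d + 1) ^ (2 * m + 2) * (d + 1) ^ 2 := by gcongr
      _ = (d + 1) ^ (2 * m + 4) := by ring
  calc Real.log (1 + 4 ^ (m + 1) * d * (d + 1)) ≤ Real.log ((d + 1) ^ (2 * m + 4)) :=
        Real.log_le_log (by positivity) h1
    _ = (2 * m + 4) * Real.log (d + 1) := by
        rw [Real.log_pow]
        push_cast
        ring

variable {d : ℕ} {K : Set (EuclideanSpace ℝ (Fin d))}

/-- the covering theorem for pairs -/
theorem pair_final (hd : 2 ≤ d) (hK : Convex ℝ K) (hKc : IsCompact K)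
    (hKi : (interior K).Nonempty) (h0 : (0 : EuclideanSpace ℝ (Fin d)) ∈ K)
    (t : EuclideanSpace ℝ (Fin d)) {δ ε : ℝ} (hδ0 : 0 < δ) (hδ1 : δ ≤ 1) (hε1 : ε ≤ 1)
    (hbad : ((volume : Measure (EuclideanSpace ℝ (Fin d))).prod volume).real
      (bad ((fun z => t + z) '' ((1 - δ) • K)) ∩ K ×ˢ K) ≤ ε * volume.real K ^ 2) :
    ∃ T : Finset (EuclideanSpace ℝ (Fin d)), K ⊆ ⋃ t ∈ T, (fun x => t + x) '' interior K ∧
      (T.card : ℝ) ≤ 250 * Real.logb 2 (2 / δ) ^ 2 * d * Real.log (d + 1) * 2 ^ d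
        * (max ε (Real.exp (-(δ ^ 2 * d / 2)))) ^ (1 / (2 * Real.logb 2 (2 / δ))) := by
  classical
  have hd' : (2 : ℝ) ≤ d := by exact_mod_cast hd
  have hfr : finrank ℝ (EuclideanSpace ℝ (Fin d)) = d := finrank_euclideanSpace_fin
  have hμ0 : volume K ≠ 0 := by
    have h1 : 0 < volume (interior K) := isOpen_interior.measure_pos _ hKi
    exact (h1.trans_le (measure_mono interior_subset)).ne'
  set M : ℝ := Real.logb 2 (2 / δ) with hM
  have hM1 : 1 ≤ M := by
    rw [hM, Real.le_logb_iff_rpow_le (by norm_num) (by positivity), le_div_iff₀ hδ0]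
    norm_num
    linarith
  have hMl : M = Real.logb 2 (1 / δ) + 1 := by
    have h3 : (2 : ℝ) / δ = 1 / δ * 2 := by ring
    rw [hM, h3, Real.logb_mul (by positivity) (by norm_num), Real.logb_self_eq_one (by norm_num)]
  set m : ℕ := max 1 ⌈Real.logb 2 (1 / δ)⌉₊ with hm
  have hm1 : 1 ≤ m := le_max_left _ _
  have hm1' : (1 : ℝ) ≤ m := by exact_mod_cast hm1
  have hmM : (m : ℝ) ≤ M := by
    rw [hm, Nat.cast_max]
    apply max_le
    · rw [Nat.cast_one]; exact hM1
    · have h1 : (⌈Real.logb 2 (1 / δ)⌉₊ : ℝ) < Real.logb 2 (1 / δ) + 1 :=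
        Nat.ceil_lt_add_one (by linarith)
      linarith
  set c : ℝ := (1 / 2 : ℝ) ^ m with hc
  have hc0 : 0 < c := by positivity
  have hpm1 : 1 / δ ≤ (2 : ℝ) ^ m := by
    have h1 : Real.logb 2 (1 / δ) ≤ (m : ℝ) := by
      refine (Nat.le_ceil _).trans ?_
      exact_mod_cast le_max_right _ _
    rw [Real.logb_le_iff_le_rpow (by norm_num) (by positivity), Real.rpow_natCast] at h1
    exact h1
  have hpm2 : (2 : ℝ) ^ m ≤ 2 / δ := by
    rw [hM, Real.le_logb_iff_rpow_le (by norm_num) (by positivity), Real.rpow_natCast] at hmM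
    exact hmM
  have hcδ : c ≤ δ := by
    rw [hc, div_pow, one_pow, div_le_iff₀ (by positivity)]
    rw [div_le_iff₀ hδ0] at hpm1
    linarith
  have hδc : δ / 2 ≤ c := by
    rw [hc, div_pow, one_pow, div_le_div_iff₀ (by norm_num) (by positivity)]
    rw [le_div_iff₀ hδ0] at hpm2
    linarith
  have hc1 : c ≤ 1 := hcδ.trans hδ1
  have hc2 : c ≤ 1 / 2 := by
    calc c = (1 / 2 : ℝ) ^ m := hc
      _ ≤ (1 / 2 : ℝ) ^ 1 := pow_le_pow_of_le_one (by norm_num) (by norm_num) hm1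
      _ = 1 / 2 := pow_one _
  have hs : 0 < 1 + c ^ 2 - 2 * c * δ := by
    have h1 : c * δ ≤ c * 1 := mul_le_mul_of_nonneg_left hδ1 hc0.le
    nlinarith
  -- the sets
  set H : Set (EuclideanSpace ℝ (Fin d)) := (fun z => t + z) '' ((1 - δ) • K) with hH
  have hHc : IsCompact H := (hKc.smul _).image (by fun_prop)
  set β : ℝ := Real.exp (-(δ ^ 2 * d / 2)) with hβ
  have hV0 : 0 ≤ volume.real K := measureReal_nonneg
  have hβV : volume.real ((2 * (1 / 2 : ℝ) ^ m) • H + ((1 - (1 / 2 : ℝ) ^ m) ^ 2) • K)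
      ≤ β * volume.real K := by
    rw [← hc]
    have hset : (2 * c) • H + ((1 - c) ^ 2) • K
        ⊆ (fun z => (2 * c) • t + z) '' ((1 + c ^ 2 - 2 * c * δ) • K) := by
      rintro _ ⟨_, ⟨_, ⟨_, ⟨k1, hk1, rfl⟩, rfl⟩, rfl⟩, _, ⟨k2, hk2, rfl⟩, rfl⟩
      refine ⟨(1 + c ^ 2 - 2 * c * δ) • ((2 * c * (1 - δ) / (1 + c ^ 2 - 2 * c * δ)) • k1
        + ((1 - c) ^ 2 / (1 + c ^ 2 - 2 * c * δ)) • k2), ?_, ?_⟩
      · refine Set.smul_mem_smul_set (hK hk1 hk2 ?_ ?_ ?_)
        · have : 0 ≤ 1 - δ := by linarith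
          positivity
        · positivity
        · field_simp
          ring
      · simp only [smul_add, smul_smul]
        rw [mul_div_cancel₀ _ hs.ne', mul_div_cancel₀ _ hs.ne']
        module
    have h1 : volume.real ((fun z => (2 * c) • t + z) '' ((1 + c ^ 2 - 2 * c * δ) • K))
        = (1 + c ^ 2 - 2 * c * δ) ^ d * volume.real K := by
      rw [Measure.real, Set.image_add_left, measure_preimage_add, Measure.addHaar_smul, hfr,
        abs_of_pos (by positivity), ENNReal.toReal_mul, ENNReal.toReal_ofReal (by positivity)]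
      rfl
    have h2 : volume ((fun z => (2 * c) • t + z) '' ((1 + c ^ 2 - 2 * c * δ) • K)) ≠ ⊤ :=
      ((hKc.smul _).image (by fun_prop)).measure_lt_top.ne
    refine (measureReal_mono hset h2).trans ?_
    rw [h1]
    refine mul_le_mul_of_nonneg_right ?_ hV0
    have h3 : 0 ≤ 1 + c ^ 2 - 2 * c * δ := hs.le
    have h4 : 1 + c ^ 2 - 2 * c * δ ≤ Real.exp (-(δ ^ 2 / 2)) := by
      have h5 := Real.add_one_le_exp (-(δ ^ 2 / 2))
      have h6 : 0 ≤ (c - δ / 2) * (3 * δ / 2 - c) :=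
        mul_nonneg (by linarith) (by linarith)
      nlinarith
    calc (1 + c ^ 2 - 2 * c * δ) ^ d ≤ Real.exp (-(δ ^ 2 / 2)) ^ d := pow_le_pow_left₀ h3 h4 d
      _ = β := by
        rw [← Real.exp_nat_mul, hβ]
        congr 1
        ring
  obtain ⟨hpos, hsh⟩ := share volume hK hKc h0 hμ0 hHc (by rw [hfr]; omega) m hm1 hβV hbad
  rw [hfr] at hsh
  set R : ℝ := (9 * (β + ε)) ^ (1 / (2 * m : ℝ)) with hR
  have hR0 : 0 < R := Real.rpow_pos_of_pos (by positivity) _
  have hx1 : 1 / (2 * (d : ℝ)) / 4 ^ m ≤ 1 / 2 := by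
    rw [div_div, div_le_div_iff₀ (by positivity) (by norm_num)]
    have : (1 : ℝ) ≤ 4 ^ m := one_le_pow₀ (by norm_num)
    nlinarith
  obtain ⟨T, hT, hTc⟩ := cover_of_share K hK hKc hKi (by rw [hfr]; omega)
    (1 - 1 / (2 * d) / 4 ^ m) (1 / (4 ^ (m + 1) * d * (d + 1))) ((8 * m * 2 ^ d * R)⁻¹)
    (by linarith)
    (by positivity)
    (by
      rw [hfr]
      have h1 : 1 / (4 ^ (m + 1) * (d : ℝ) * (d + 1)) + 1 / (4 ^ (m + 1) * (d : ℝ) * (d + 1)) * d
          = 1 / (4 ^ (m + 1) * d) := by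
        field_simp
        ring
      have h2 : 1 / (2 * (d : ℝ)) / 4 ^ m = 1 / (2 * d * 4 ^ m) := by
        rw [div_div]
      have h3 : 1 / (4 ^ (m + 1) * (d : ℝ)) < 1 / (2 * d * 4 ^ m) := by
        apply div_lt_div_of_pos_left one_pos (by positivity)
        rw [pow_succ]
        have : 0 < (4 : ℝ) ^ m * d := by positivity
        nlinarith
      rw [h2]
      linarith)
    (by positivity)
    (by
      intro A hA hAK
      exact hsh A hA hAK)
  refine ⟨T, hT, hTc.trans ?_⟩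
  rw [hfr, one_div_one_div, div_inv_eq_mul]
  -- the numbers
  set x : ℝ := max ε β with hx
  have hβ0 : 0 < β := Real.exp_pos _
  have hβ1 : β ≤ 1 := by
    rw [hβ, Real.exp_le_one_iff]
    have : 0 ≤ δ ^ 2 * d / 2 := by positivity
    linarith
  have hx0 : 0 < x := lt_of_lt_of_le hβ0 (le_max_right _ _)
  have hx1' : x ≤ 1 := max_le hε1 hβ1
  have hRle : R ≤ 5 * x ^ (1 / (2 * M)) := by
    have h1 : 9 * (β + ε) ≤ 18 * x := by
      have h2 : ε ≤ x := le_max_left _ _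
      have h3 : β ≤ x := le_max_right _ _
      linarith
    calc R ≤ (18 * x) ^ (1 / (2 * m : ℝ)) := Real.rpow_le_rpow (by positivity) h1 (by positivity)
      _ = 18 ^ (1 / (2 * m : ℝ)) * x ^ (1 / (2 * m : ℝ)) :=
          Real.mul_rpow (by norm_num) hx0.le
      _ ≤ 5 * x ^ (1 / (2 * M)) := by
          have h2 : (18 : ℝ) ^ (1 / (2 * m : ℝ)) ≤ 5 := by
            calc (18 : ℝ) ^ (1 / (2 * m : ℝ)) ≤ 25 ^ (1 / (2 * m : ℝ)) :=
                  Real.rpow_le_rpow (by norm_num) (by norm_num) (by positivity)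
              _ ≤ 25 ^ (1 / 2 : ℝ) := by
                  apply Real.rpow_le_rpow_of_exponent_le (by norm_num)
                  apply one_div_le_one_div_of_le (by norm_num)
                  linarith
              _ = 5 := by
                  rw [← Real.sqrt_eq_rpow, show (25 : ℝ) = 5 ^ 2 by norm_num,
                    Real.sqrt_sq (by norm_num)]
          have h3 : x ^ (1 / (2 * m : ℝ)) ≤ x ^ (1 / (2 * M)) := by
            apply Real.rpow_le_rpow_of_exponent_ge hx0 hx1'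
            apply one_div_le_one_div_of_le (by positivity)
            linarith
          have h4 : 0 ≤ x ^ (1 / (2 * m : ℝ)) := Real.rpow_nonneg hx0.le _
          exact mul_le_mul h2 h3 h4 (by norm_num)
  set ψ : ℝ := x ^ (1 / (2 * M)) with hψ
  have hψ0 : 0 < ψ := Real.rpow_pos_of_pos hx0 _
  have hlogd := log_three_le hd
  have hψd : 1 ≤ 2 ^ d * ψ := by
    have h1 : Real.exp (-(d / 2)) ≤ x := by
      refine le_trans ?_ (le_max_right _ _)
      rw [hβ, Real.exp_le_exp]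
      have : δ ^ 2 ≤ 1 := by nlinarith
      nlinarith
    have h2 : Real.exp (-(d / 2)) ^ (1 / (2 * M)) ≤ ψ :=
      Real.rpow_le_rpow (Real.exp_pos _).le h1 (by positivity)
    have h5 : (2 : ℝ) ^ d = Real.exp (Real.log 2 * d) := by
      rw [Real.exp_mul, Real.exp_log (by norm_num), Real.rpow_natCast]
    rw [← Real.exp_mul] at h2
    have h6 : (1 : ℝ) ≤ 2 ^ d * Real.exp (-(d / 2) * (1 / (2 * M))) := by
      rw [h5, ← Real.exp_add, Real.one_le_exp_iff]
      have h7 := Real.log_two_gt_d9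
      have h8 : 1 / (2 * M) ≤ 1 / 2 := by
        apply one_div_le_one_div_of_le (by norm_num)
        linarith
      nlinarith
    refine h6.trans ?_
    gcongr
  have hlog := log_poly' hd m
  have hlogpos : 0 ≤ Real.log ((d : ℝ) + 1) := by linarith
  have hmm : (m : ℝ) * (m + 2) ≤ 3 * M ^ 2 := by nlinarith
  calc 1 + (d : ℝ) * Real.log (1 + 4 ^ (m + 1) * d * (d + 1)) * (8 * m * 2 ^ d * R)
      ≤ 1 + (d : ℝ) * ((2 * m + 4) * Real.log (d + 1)) * (8 * m * 2 ^ d * (5 * ψ)) := by gcongr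
    _ = 1 + 80 * (m * (m + 2)) * (d * Real.log (d + 1)) * (2 ^ d * ψ) := by ring
    _ ≤ 1 + 80 * (3 * M ^ 2) * (d * Real.log (d + 1)) * (2 ^ d * ψ) := by gcongr
    _ ≤ 250 * M ^ 2 * (d * Real.log (d + 1)) * (2 ^ d * ψ) := by
        have h10 : 1 ≤ (d : ℝ) * Real.log (d + 1) := by nlinarith
        have h11 : 1 ≤ (d : ℝ) * Real.log (d + 1) * (2 ^ d * ψ) := by
          calc (1 : ℝ) = 1 * 1 := by ring
            _ ≤ (d : ℝ) * Real.log (d + 1) * (2 ^ d * ψ) := by gcongr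
        have h12 : 1 ≤ M ^ 2 := by nlinarith
        nlinarith
    _ = 250 * M ^ 2 * d * Real.log (d + 1) * 2 ^ d * ψ := by ring

end Pool.Agent.Run7.h533.AC
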