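import Mathlib
import Pool.Agent.Run7.h533.AC.PairAsym
import Pool.Agent.Run7.h533.CW.Balls

set_option autoImplicit false

/-!
# Applications: rotund points, curved points, intersections of balls
-/

open MeasureTheory Module Finset Metric
open scoped Pointwise ENNReal RealInnerProductSpace

namespace Pool.Agent.Run7.h533.AC

open Pool.Agent.TH591.Ns (IsG IsP isG_gauge ball_eq mem_smul_iff isP_sup drop)

variable {d : ℕ}

/-- adding a summand -/
theorem cover_add {A B : Set (EuclideanSpace ℝ (Fin d))} {T : Finset (EuclideanSpace ℝ (Fin d))}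
    (hT : A ⊆ ⋃ t ∈ T, (fun x => t + x) '' interior A) :
    A + B ⊆ ⋃ t ∈ T, (fun x => t + x) '' interior (A + B) := by
  have hopen : IsOpen (interior A + B) := isOpen_interior.add_right
  have hsub : interior A + B ⊆ A + B := Set.add_subset_add_right interior_subset
  have hint : interior A + B ⊆ interior (A + B) := interior_maximal hsub hopen
  rintro _ ⟨a, ha, b, hb, rfl⟩
  obtain ⟨t, ht, x, hx, hxa⟩ := Set.mem_iUnion₂.1 (hT ha)
  simp only at hxa
  refine Set.mem_iUnion₂.2 ⟨t, ht, x + b, hint (Set.add_mem_add hx hb), ?_⟩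
  simp only
  rw [← hxa, add_assoc]

/-- the barycentre is an interior point -/
theorem bary_mem {K : Set (EuclideanSpace ℝ (Fin d))} (hK : Convex ℝ K) (hKc : IsCompact K)
    (hKi : (interior K).Nonempty) : (⨍ x in K, x) ∈ interior K := by
  obtain ⟨o, ho⟩ := hKi
  obtain ⟨ρ, hρ0, hρ⟩ := Metric.isOpen_iff.1 isOpen_interior o ho
  set W : Set (EuclideanSpace ℝ (Fin d)) := closedBall o (ρ / 2) with hW
  have hWi : W ⊆ interior K := fun x hx => hρ (by
    rw [mem_ball]
    rw [hW, mem_closedBall] at hx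
    linarith)
  have hWK : W ⊆ K := hWi.trans interior_subset
  have hWc : IsCompact W := isCompact_closedBall _ _
  have hμW : volume W ≠ 0 := (measure_closedBall_pos volume o (by positivity)).ne'
  have hr : (volume.restrict K).restrict W = volume.restrict W := by
    rw [Measure.restrict_restrict hWc.isClosed.measurableSet, Set.inter_eq_left.2 hWK]
  have hfin : IsFiniteMeasure (volume.restrict K) := ⟨by
    rw [Measure.restrict_apply_univ]; exact hKc.measure_lt_top⟩
  refine Convex.average_mem_interior_of_set (μ := volume.restrict K) (t := W)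
    (f := fun x => x) hK ?_ ?_ ?_ ?_
  · rw [Measure.restrict_apply hWc.isClosed.measurableSet, Set.inter_eq_left.2 hWK]
    exact hμW
  · exact ae_restrict_mem hKc.isClosed.measurableSet
  · exact continuousOn_id.integrableOn_compact hKc
  · rw [hr]
    refine hWi ?_
    exact (convex_closedBall o (ρ / 2)).set_average_mem isClosed_closedBall hμW
      hWc.measure_lt_top.ne (ae_restrict_mem hWc.isClosed.measurableSet)
      (continuousOn_id.integrableOn_compact hWc)

/-- translating the barycentre to the origin -/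
theorem bary_zero {K : Set (EuclideanSpace ℝ (Fin d))} (hKc : IsCompact K)
    (hKi : (interior K).Nonempty) {b : EuclideanSpace ℝ (Fin d)} (hb : b = ⨍ x in K, x) :
    ∫ x in (fun x => -b + x) '' K, x = 0 := by
  have hV0 : volume K ≠ 0 := by
    have h1 : 0 < volume (interior K) := isOpen_interior.measure_pos _ hKi
    exact (h1.trans_le (measure_mono interior_subset)).ne'
  have hVt : volume K ≠ ⊤ := hKc.measure_lt_top.ne
  have hVr : volume.real K ≠ 0 := (ENNReal.toReal_pos hV0 hVt).ne'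
  have h1 : ∫ x in (fun x => -b + x) '' K, x = ∫ x in K, (-b + x) := by
    have h2 := (measurePreserving_add_left (volume : Measure (EuclideanSpace ℝ (Fin d)))
      (-b)).setIntegral_image_emb (MeasurableEquiv.addLeft (-b)).measurableEmbedding
      (fun x => x) K
    exact h2
  have hint : IntegrableOn (fun x : EuclideanSpace ℝ (Fin d) => x) K volume :=
    continuousOn_id.integrableOn_compact hKc
  have hcon : IntegrableOn (fun _ : EuclideanSpace ℝ (Fin d) => -b) K volume :=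
    integrableOn_const hVt
  have h3 : ∫ x in K, (-b + x) = (∫ _ in K, -b) + ∫ x in K, x :=
    integral_add (μ := volume.restrict K) hcon hint
  rw [h1, h3, setIntegral_const, hb, setAverage_eq,
    smul_neg, smul_smul, mul_inv_cancel₀ hVr, one_smul, neg_add_cancel]

section Point

variable {K : Set (EuclideanSpace ℝ (Fin d))}

/-- the boundary point -/
theorem bd_point (hK : Convex ℝ K) (hKc : IsCompact K) (hK0 : K ∈ nhds 0)
    {z : EuclideanSpace ℝ (Fin d)} (hz : z ≠ 0) :
    0 < gauge K z ∧ gauge K ((gauge K z)⁻¹ • z) = 1 ∧ (gauge K z)⁻¹ • z ∈ K ∧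
      (gauge K z)⁻¹ • z ∉ interior K := by
  have hg := isG_gauge hK hK0
  have hball := ball_eq hK hKc hK0
  have hpos : 0 < gauge K z := by
    have h1 : Absorbent ℝ K := absorbent_nhds_zero hK0
    have h2 : Bornology.IsVonNBounded ℝ K :=
      NormedSpace.isVonNBounded_iff ℝ |>.2 hKc.isBounded
    exact (gauge_pos h1 h2).2 hz
  have h1 : gauge K ((gauge K z)⁻¹ • z) = 1 := by
    rw [gauge_smul_of_nonneg (by positivity), smul_eq_mul, inv_mul_cancel₀ hpos.ne']
  refine ⟨hpos, h1, ?_, ?_⟩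
  · have h5 : (gauge K z)⁻¹ • z ∈ {y | gauge K y ≤ 1} := h1.le
    rw [hball] at h5
    exact h5
  · intro h2
    have h3 := interior_subset_gauge_lt_one K h2
    rw [Set.mem_ofPred_eq, h1] at h3
    exact lt_irrefl _ h3

/-- the supporting functional -/
theorem bd_functional (hK : Convex ℝ K) (hKc : IsCompact K) (hK0 : K ∈ nhds 0)
    {x : EuclideanSpace ℝ (Fin d)} (hx : x ∉ interior K) :
    ∃ φ : EuclideanSpace ℝ (Fin d) →L[ℝ] ℝ, (∀ y ∈ K, φ y ≤ 1) ∧ φ x = 1 := by
  have h0 : (0 : EuclideanSpace ℝ (Fin d)) ∈ interior K := mem_interior_iff_mem_nhds.2 hK0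
  obtain ⟨f, hf⟩ := geometric_hahn_banach_open_point hK.interior isOpen_interior hx
  have hfx : 0 < f x := by
    have := hf 0 h0
    rwa [map_zero] at this
  have hfK : ∀ y ∈ K, f y ≤ f x := by
    intro y hy
    have hcl : closure (interior K) = K := by
      rw [hK.closure_interior_eq_closure_of_nonempty_interior ⟨0, h0⟩, hKc.isClosed.closure_eq]
    have h1 : y ∈ closure (interior K) := by rw [hcl]; exact hy
    have h2 : closure (interior K) ⊆ {y | f y ≤ f x} :=
      closure_minimal (fun a ha => (hf a ha).le) (isClosed_le f.continuous continuous_const)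
    exact h2 h1
  refine ⟨(f x)⁻¹ • f, fun y hy => ?_, ?_⟩
  · rw [smul_apply, smul_eq_mul, inv_mul_le_iff₀ hfx, mul_one]
    exact hfK y hy
  · rw [smul_apply, smul_eq_mul, inv_mul_cancel₀ hfx.ne']

/-- a point whose segments to most points of `K` have their midpoints in `(1-δ) K` -/
theorem rotund_thin (hK : Convex ℝ K) (hKc : IsCompact K) (hK0 : K ∈ nhds 0)
    {δ : ℝ} (hδ0 : 0 < δ) (hδ1 : δ ≤ 1) {z : EuclideanSpace ℝ (Fin d)} (hz : z ≠ 0)
    {τ : ℝ≥0∞} (h : volume {y | y ∈ K ∧ (1 / 2 : ℝ) • ((gauge K z)⁻¹ • z + y) ∉ (1 - δ) • K} ≤ τ) :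
    ∃ φ : EuclideanSpace ℝ (Fin d) →L[ℝ] ℝ, ((∀ x ∈ K, φ x ≤ 1) ∧
        volume ({y | 1 - δ ≤ φ y} ∩ K) ≤ τ) ∧ φ z = gauge K z := by
  obtain ⟨hpos, h1, hxK, hxi⟩ := bd_point hK hKc hK0 hz
  obtain ⟨φ, hφ, hφx⟩ := bd_functional hK hKc hK0 hxi
  refine ⟨φ, ⟨hφ, (measure_mono ?_).trans h⟩, ?_⟩
  · rintro y ⟨hy1, hy2⟩
    refine ⟨hy2, ?_⟩
    rintro ⟨k, hk, hky⟩
    simp only at hky
    have h2 : φ ((1 - δ) • k) = φ ((1 / 2 : ℝ) • ((gauge K z)⁻¹ • z + y)) := by rw [hky]
    rw [map_smul, map_smul, map_add, hφx, smul_eq_mul, smul_eq_mul] at h2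
    have h3 := hφ k hk
    rw [Set.mem_ofPred_eq] at hy1
    have h4 : (1 - δ) * φ k ≤ (1 - δ) * 1 := mul_le_mul_of_nonneg_left h3 (by linarith)
    linarith
  · have h2 : φ ((gauge K z)⁻¹ • z) = (gauge K z)⁻¹ * φ z := by rw [map_smul, smul_eq_mul]
    rw [h2] at hφx
    field_simp at hφx
    exact hφx

/-- a point on the sphere of a ball of radius `R` containing `K` -/
theorem curved_thin (hK : Convex ℝ K) (hKc : IsCompact K) (hK0 : K ∈ nhds 0)
    {κ R : ℝ} (hκ : 0 < κ) (hR : 0 < R) {o : EuclideanSpace ℝ (Fin d)}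
    (hball : closedBall o (κ * R) ⊆ K) {z c : EuclideanSpace ℝ (Fin d)} (hz : z ≠ 0)
    (hKR : K ⊆ closedBall c R) (hzc : ‖(gauge K z)⁻¹ • z - c‖ = R) :
    ∃ φ : EuclideanSpace ℝ (Fin d) →L[ℝ] ℝ, ((∀ x ∈ K, φ x ≤ 1) ∧
        volume ({y | 1 - κ ^ 2 / 16 ≤ φ y} ∩ K) ≤ ENNReal.ofReal ((1 / 2) ^ d) * volume K) ∧
        φ z = gauge K z := by
  obtain ⟨hpos, h1, hxK, hxi⟩ := bd_point hK hKc hK0 hz
  set x : EuclideanSpace ℝ (Fin d) := (gauge K z)⁻¹ • z with hx
  have hx0 : x ≠ 0 := smul_ne_zero (inv_ne_zero hpos.ne') hz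
  -- the basic inequality
  have key : ∀ y ∈ K, ⟪x - c, y⟫ ≤ ⟪x - c, x⟫ - ‖y - x‖ ^ 2 / 2 := by
    intro y hy
    have h2 : ‖y - c‖ ≤ R := by
      have := hKR hy
      rwa [mem_closedBall, dist_eq_norm] at this
    have h3 : ‖y - c‖ ^ 2 ≤ ‖x - c‖ ^ 2 := by
      rw [hzc]
      exact pow_le_pow_left₀ (norm_nonneg _) h2 2
    have h4 : y - c = (y - x) + (x - c) := by abel
    rw [h4, norm_add_sq_real] at h3
    have h5 : ⟪y - x, x - c⟫ = ⟪x - c, y⟫ - ⟪x - c, x⟫ := by
      rw [real_inner_comm, inner_sub_right]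
    rw [h5] at h3
    linarith
  have hN : 0 < ⟪x - c, x⟫ := by
    have h2 := key 0 (mem_of_mem_nhds hK0)
    rw [inner_zero_right, zero_sub, norm_neg] at h2
    have h3 : 0 < ‖x‖ := norm_pos_iff.2 hx0
    have h4 : 0 < ‖x‖ ^ 2 := by positivity
    linarith
  set N : ℝ := ⟪x - c, x⟫ with hNdef
  set φ : EuclideanSpace ℝ (Fin d) →L[ℝ] ℝ := N⁻¹ • innerSL ℝ (x - c) with hφ
  have hφa : ∀ y, φ y = N⁻¹ * ⟪x - c, y⟫ := by
    intro y
    rw [hφ, smul_apply, innerSL_apply_apply, smul_eq_mul]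
  have hφx : φ x = 1 := by
    rw [hφa, ← hNdef, inv_mul_cancel₀ hN.ne']
  refine ⟨φ, ⟨fun y hy => ?_, ?_⟩, ?_⟩
  · rw [hφa, inv_mul_le_iff₀ hN, mul_one]
    have h2 := key y hy
    have h3 : 0 ≤ ‖y - x‖ ^ 2 / 2 := by positivity
    linarith
  · have hsub : {y | 1 - κ ^ 2 / 16 ≤ φ y} ∩ K ⊆ closedBall x (κ * R / 2) := by
      rintro y ⟨hy1, hy2⟩
      rw [Set.mem_ofPred_eq, hφa, le_inv_mul_iff₀ hN] at hy1
      have h2 := key y hy2
      have hxR : ‖x‖ ≤ 2 * R := by
        have h3 : ‖(0 : EuclideanSpace ℝ (Fin d)) - c‖ ≤ R := by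
          have := hKR (mem_of_mem_nhds hK0)
          rwa [mem_closedBall, dist_eq_norm] at this
        calc ‖x‖ = ‖(x - c) - (0 - c)‖ := by congr 1; abel
          _ ≤ ‖x - c‖ + ‖(0 : EuclideanSpace ℝ (Fin d)) - c‖ := norm_sub_le _ _
          _ ≤ 2 * R := by rw [hzc]; linarith
      have hNR : N ≤ 2 * R ^ 2 := by
        calc N ≤ ‖x - c‖ * ‖x‖ := real_inner_le_norm _ _
          _ ≤ R * (2 * R) := by rw [hzc]; gcongr
          _ = 2 * R ^ 2 := by ring
      have h3 : ‖y - x‖ ^ 2 ≤ (κ * R / 2) ^ 2 := by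
        have h4 : κ ^ 2 / 16 * N ≤ κ ^ 2 / 16 * (2 * R ^ 2) := by gcongr
        nlinarith
      rw [mem_closedBall, dist_eq_norm]
      exact le_of_sq_le_sq h3 (by positivity)
    refine (measure_mono hsub).trans ?_
    have hfr : finrank ℝ (EuclideanSpace ℝ (Fin d)) = d := finrank_euclideanSpace_fin
    have h2 : volume (closedBall x (κ * R / 2))
        = ENNReal.ofReal ((1 / 2) ^ d) * volume (closedBall o (κ * R)) := by
      rw [Measure.addHaar_closedBall _ _ (by positivity),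
        Measure.addHaar_closedBall _ _ (by positivity), hfr, ← mul_assoc,
        ← ENNReal.ofReal_mul (by positivity)]
      congr 2
      rw [← mul_pow]
      congr 1
      ring
    rw [h2]
    gcongr
  · have h2 : φ x = (gauge K z)⁻¹ * φ z := by rw [hx, map_smul, smul_eq_mul]
    rw [h2] at hφx
    field_simp at hφx
    exact hφx

end Point

end Pool.Agent.Run7.h533.AC
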