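import Mathlib

set_option autoImplicit false

/-!
# The size of the bounds
-/

open Filter Topology

namespace Pool.Agent.Run7.h533.AC

theorem log_le_self' (d : ℕ) : Real.log ((d : ℝ) + 1) ≤ d := by
  have h := Real.log_le_sub_one_of_pos (show (0 : ℝ) < (d : ℝ) + 1 by positivity)
  linarith

theorem num_exp {C c a θ : ℝ} (hC : 0 < C) (hc : 0 < c) (ha : 0 < a) (hθ0 : 0 ≤ θ) (hθ1 : θ < 1) :
    ∃ q : ℝ, 0 < q ∧ q < 2 ∧ ∃ N : ℕ, ∀ d : ℕ, N ≤ d →
      C * d * Real.log (d + 1) * 2 ^ d * (max (θ ^ d) (Real.exp (-(a * d)))) ^ c ≤ q ^ d := by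
  set r : ℝ := max θ (Real.exp (-a)) with hr
  have hr0 : 0 < r := lt_of_lt_of_le (Real.exp_pos _) (le_max_right _ _)
  have hr1 : r < 1 := max_lt hθ1 (by rw [Real.exp_lt_one_iff]; linarith)
  set s : ℝ := r ^ (c / 2) with hs
  have hs0 : 0 < s := Real.rpow_pos_of_pos hr0 _
  have hs1 : s < 1 := Real.rpow_lt_one hr0.le hr1 (by positivity)
  refine ⟨2 * s, by positivity, by linarith, ?_⟩
  have ht := tendsto_pow_const_mul_const_pow_of_abs_lt_one 2 (r := s)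
    (by rw [abs_of_pos hs0]; exact hs1)
  have hev : ∀ᶠ d : ℕ in atTop, (d : ℝ) ^ 2 * s ^ d < 1 / C :=
    ht.eventually (gt_mem_nhds (by positivity))
  obtain ⟨N, hN⟩ := eventually_atTop.1 hev
  refine ⟨N, fun d hd => ?_⟩
  have h1 := hN d hd
  have h2 : max (θ ^ d) (Real.exp (-(a * d))) ≤ r ^ d := by
    apply max_le
    · exact pow_le_pow_left₀ hθ0 (le_max_left _ _) d
    · have : Real.exp (-(a * d)) = Real.exp (-a) ^ d := by
        rw [← Real.exp_nat_mul]; congr 1; ring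
      rw [this]
      exact pow_le_pow_left₀ (Real.exp_pos _).le (le_max_right _ _) d
  have h3 : (max (θ ^ d) (Real.exp (-(a * d)))) ^ c ≤ s ^ d * s ^ d := by
    calc (max (θ ^ d) (Real.exp (-(a * d)))) ^ c ≤ (r ^ d) ^ c :=
          Real.rpow_le_rpow (le_trans (Real.exp_pos _).le (le_max_right _ _)) h2 hc.le
      _ = s ^ d * s ^ d := by
          rw [hs, ← Real.rpow_natCast, ← Real.rpow_natCast, ← Real.rpow_mul hr0.le,
            ← Real.rpow_mul hr0.le, ← Real.rpow_add hr0]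
          congr 1
          ring
  have h4 := log_le_self' d
  have h5 : 0 ≤ Real.log ((d : ℝ) + 1) := Real.log_nonneg (by
    have : (0 : ℝ) ≤ d := Nat.cast_nonneg d
    linarith)
  have h6 : C * ((d : ℝ) ^ 2 * s ^ d) ≤ 1 := by
    rw [lt_div_iff₀ hC] at h1
    linarith
  calc C * d * Real.log (d + 1) * 2 ^ d * (max (θ ^ d) (Real.exp (-(a * d)))) ^ c
      ≤ C * d * d * 2 ^ d * (s ^ d * s ^ d) := by gcongr
    _ = C * ((d : ℝ) ^ 2 * s ^ d) * (2 ^ d * s ^ d) := by ring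
    _ ≤ 1 * (2 ^ d * s ^ d) := by gcongr
    _ = (2 * s) ^ d := by rw [one_mul, mul_pow]

theorem num_poly {C c a : ℝ} (hC : 0 < C) (hc : 0 < c) (ha : 0 < a) :
    ∃ N d₀ : ℕ, ∀ d : ℕ, d₀ ≤ d →
      C * d * Real.log (d + 1) * 2 ^ d *
        (max (1 / (d : ℝ) ^ N) (Real.exp (-(a * d)))) ^ c < 2 ^ d := by
  set N : ℕ := ⌈3 / c⌉₊ with hN
  have hNc : 3 ≤ (N : ℝ) * c := by
    have h1 : 3 / c ≤ (N : ℝ) := Nat.le_ceil _
    rw [div_le_iff₀ hc] at h1
    exact h1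
  have hr0 : 0 < Real.exp (-a) := Real.exp_pos _
  have hr1 : Real.exp (-a) < 1 := by rw [Real.exp_lt_one_iff]; linarith
  have ht := tendsto_pow_const_mul_const_pow_of_abs_lt_one N (r := Real.exp (-a))
    (by rw [abs_of_pos hr0]; exact hr1)
  have hev : ∀ᶠ d : ℕ in atTop, (d : ℝ) ^ N * Real.exp (-a) ^ d < 1 :=
    ht.eventually (gt_mem_nhds one_pos)
  obtain ⟨N1, hN1⟩ := eventually_atTop.1 hev
  refine ⟨N, max N1 (⌈C⌉₊ + 1), fun d hd => ?_⟩
  have hd1 : N1 ≤ d := (le_max_left _ _).trans hd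
  have hd2 : ⌈C⌉₊ + 1 ≤ d := (le_max_right _ _).trans hd
  have hdC : C < d := by
    have h1 : C ≤ (⌈C⌉₊ : ℝ) := Nat.le_ceil _
    have h2 : ((⌈C⌉₊ : ℝ)) + 1 ≤ d := by exact_mod_cast hd2
    linarith
  have hd0 : (0 : ℝ) < d := hC.trans hdC
  have hd1' : (1 : ℝ) ≤ d := by
    have : 1 ≤ d := by omega
    exact_mod_cast this
  have h1 := hN1 d hd1
  have h2 : max (1 / (d : ℝ) ^ N) (Real.exp (-(a * d))) = 1 / (d : ℝ) ^ N := by
    apply max_eq_left
    have : Real.exp (-(a * d)) = Real.exp (-a) ^ d := by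
      rw [← Real.exp_nat_mul]; congr 1; ring
    rw [this, le_div_iff₀ (by positivity)]
    linarith
  have h3 : (1 / (d : ℝ) ^ N) ^ c ≤ 1 / (d : ℝ) ^ 3 := by
    rw [one_div, one_div, Real.inv_rpow (by positivity)]
    apply inv_anti₀ (by positivity)
    rw [← Real.rpow_natCast (d : ℝ) N, ← Real.rpow_mul hd0.le, ← Real.rpow_natCast (d : ℝ) 3]
    apply Real.rpow_le_rpow_of_exponent_le hd1'
    push_cast
    exact hNc
  have h4 := log_le_self' d
  rw [h2]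
  have h5 : 0 ≤ Real.log ((d : ℝ) + 1) := Real.log_nonneg (by linarith)
  calc C * d * Real.log (d + 1) * 2 ^ d * (1 / (d : ℝ) ^ N) ^ c
      ≤ C * d * d * 2 ^ d * (1 / (d : ℝ) ^ 3) := by gcongr
    _ = C / d * 2 ^ d := by field_simp
    _ < 1 * 2 ^ d := by
        apply mul_lt_mul_of_pos_right _ (by positivity)
        rw [div_lt_one hd0]
        exact hdC
    _ = 2 ^ d := one_mul _

end Pool.Agent.Run7.h533.AC
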