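import Mathlib

set_option autoImplicit false

/-!
# The law of large numbers in spaces without almost isometric copies of `ℓ₁ⁿ`
-/

open Module Finset
open scoped Pointwise

namespace Pool.Agent.Run7.h533.AC

/-- the sign of a truth value -/
def sg (b : Bool) : ℝ := cond b 1 (-1)

theorem sg_abs (b : Bool) : |sg b| = 1 := by
  cases b <;> simp [sg]

theorem sg_true : sg true = 1 := rfl

theorem sg_false : sg false = -1 := rfl

theorem marg {ι Ω M : Type*} [Fintype ι] [DecidableEq ι] [Fintype Ω] [AddCommMonoid M] (i : ι)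
    (f : Ω → M) : ∑ y : ι → Ω, f (y i)
      = (Fintype.card Ω) ^ (Fintype.card ι - 1) • ∑ a, f a := by
  classical
  rw [← (Equiv.funSplitAt i Ω).symm.sum_comp, Fintype.sum_prod_type]
  have h : ∀ (a : Ω) (y : {j // j ≠ i} → Ω), f ((Equiv.funSplitAt i Ω).symm (a, y) i) = f a := by
    intro a y
    simp [Equiv.funSplitAt]
  simp only [h, Finset.sum_const, Finset.card_univ, Fintype.card_fun]
  rw [← Finset.smul_sum]
  congr 2
  simp

section Semi

variable {E : Type*} [AddCommGroup E] [Module ℝ E]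

/-- every `n` vectors of the unit ball have a signed sum of norm at most `(1-δ) n` -/
def BC (p : Seminorm ℝ E) (n : ℕ) (δ : ℝ) : Prop :=
  ∀ x : Fin n → E, (∀ i, p (x i) ≤ 1) → ∃ b : Fin n → Bool, p (∑ i, sg (b i) • x i) ≤ (1 - δ) * n

theorem p_sg (p : Seminorm ℝ E) (b : Bool) (x : E) : p (sg b • x) = p x := by
  rw [map_smul_eq_mul, Real.norm_eq_abs, sg_abs, one_mul]

theorem p_sum_sg (p : Seminorm ℝ E) {n : ℕ} (b : Fin n → Bool) (x : Fin n → E) :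
    p (∑ i, sg (b i) • x i) ≤ ∑ i, p (x i) := by
  refine (Finset.le_sum_of_subadditive p (map_zero p).le (map_add_le_add p) _ _).trans
    (le_of_eq ?_)
  exact Finset.sum_congr rfl fun i _ => p_sg p _ _

theorem bc_min {p : Seminorm ℝ E} {n : ℕ} {δ : ℝ} (h : BC p n δ) (x : Fin n → E) {m : ℝ}
    (hm0 : 0 ≤ m) (hm : ∀ i, m ≤ p (x i)) :
    ∃ b : Fin n → Bool, p (∑ i, sg (b i) • x i) ≤ ∑ i, p (x i) - δ * (n * m) := by
  rcases eq_or_lt_of_le hm0 with h0 | h0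
  · refine ⟨fun _ => true, ?_⟩
    rw [← h0, mul_zero, mul_zero, sub_zero]
    exact p_sum_sg p _ x
  · have hpos : ∀ i, 0 < p (x i) := fun i => h0.trans_le (hm i)
    obtain ⟨b, hb⟩ := h (fun i => (p (x i))⁻¹ • x i) (fun i => by
      rw [map_smul_eq_mul, Real.norm_of_nonneg (inv_nonneg.2 (hpos i).le),
        inv_mul_cancel₀ (hpos i).ne'])
    refine ⟨b, ?_⟩
    have e : ∑ i, sg (b i) • x i = m • ∑ i, sg (b i) • ((p (x i))⁻¹ • x i)
        + ∑ i, sg (b i) • ((p (x i) - m) • ((p (x i))⁻¹ • x i)) := by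
      rw [Finset.smul_sum, ← Finset.sum_add_distrib]
      refine Finset.sum_congr rfl fun i _ => ?_
      simp only [smul_smul, ← add_smul]
      congr 1
      have := (hpos i).ne'
      field_simp
      ring
    have h1 : p (∑ i, sg (b i) • ((p (x i) - m) • ((p (x i))⁻¹ • x i))) ≤ ∑ i, (p (x i) - m) := by
      refine (p_sum_sg p b _).trans (le_of_eq ?_)
      refine Finset.sum_congr rfl fun i _ => ?_
      rw [map_smul_eq_mul, map_smul_eq_mul, Real.norm_of_nonneg (by linarith [hm i]),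
        Real.norm_of_nonneg (inv_nonneg.2 (hpos i).le), inv_mul_cancel₀ (hpos i).ne', mul_one]
    have h2 : ∑ i, (p (x i) - m) = ∑ i, p (x i) - n * m := by
      rw [Finset.sum_sub_distrib]
      simp
    rw [e]
    refine (map_add_le_add p _ _).trans ?_
    rw [map_smul_eq_mul, Real.norm_of_nonneg hm0]
    rw [h2] at h1
    have h3 : m * p (∑ i, sg (b i) • ((p (x i))⁻¹ • x i)) ≤ m * ((1 - δ) * n) :=
      mul_le_mul_of_nonneg_left hb hm0
    have h4 : m * ((1 - δ) * n) = n * m - δ * (n * m) := by ring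
    linarith

theorem bc_avg {p : Seminorm ℝ E} {n : ℕ} (hn : 1 ≤ n) {δ : ℝ} (hδ0 : 0 ≤ δ) (hδ1 : δ ≤ 1)
    (h : BC p n δ) (x : Fin n → E) :
    ∑ b : Fin n → Bool, p (∑ i, sg (b i) • x i) ^ 2
      ≤ 2 ^ n * ((1 - δ / 2 ^ (n + 2)) * n * ∑ i, p (x i) ^ 2) := by
  classical
  have hne : Nonempty (Fin n) := ⟨⟨0, by omega⟩⟩
  have hn' : (1 : ℝ) ≤ n := by exact_mod_cast hn
  obtain ⟨i₀, hi₀⟩ := Finite.exists_min (fun i => p (x i))
  set m := p (x i₀) with hm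
  have hm0 : 0 ≤ m := apply_nonneg p _
  obtain ⟨b₀, hb₀⟩ := bc_min h x hm0 hi₀
  set S := ∑ i, p (x i) with hS
  set u : ℝ := n * m with hu
  have hu0 : 0 ≤ u := by positivity
  have huS : u ≤ S := by
    have : ∑ _i : Fin n, m ≤ ∑ i, p (x i) := Finset.sum_le_sum fun i _ => hi₀ i
    simpa [hu] using this
  have hS0 : 0 ≤ S := hu0.trans huS
  -- sum over the signs
  have h1 : ∑ b : Fin n → Bool, p (∑ i, sg (b i) • x i) ^ 2 ≤ 2 ^ n * S ^ 2 - δ * u * S := by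
    have h2 : p (∑ i, sg (b₀ i) • x i) ^ 2 ≤ S ^ 2 - δ * u * S := by
      have h3 : 0 ≤ p (∑ i, sg (b₀ i) • x i) := apply_nonneg p _
      have h4 : p (∑ i, sg (b₀ i) • x i) ^ 2 ≤ (S - δ * u) ^ 2 := pow_le_pow_left₀ h3 hb₀ 2
      have h5 : δ * u ≤ S := by nlinarith
      have h6 : 0 ≤ δ * u := by positivity
      nlinarith
    rw [← Finset.add_sum_erase _ _ (Finset.mem_univ b₀)]
    have h3 : ∑ b ∈ (univ : Finset (Fin n → Bool)).erase b₀, p (∑ i, sg (b i) • x i) ^ 2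
        ≤ ∑ _b ∈ (univ : Finset (Fin n → Bool)).erase b₀, S ^ 2 :=
      Finset.sum_le_sum fun b _ => pow_le_pow_left₀ (apply_nonneg p _) (p_sum_sg p b x) 2
    have h4 : ((univ : Finset (Fin n → Bool)).erase b₀).card = 2 ^ n - 1 := by
      rw [Finset.card_erase_of_mem (Finset.mem_univ _), Finset.card_univ]
      simp
    rw [Finset.sum_const, h4, nsmul_eq_mul, Nat.cast_sub Nat.one_le_two_pow] at h3
    push_cast at h3
    linarith
  -- the squares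
  have h2 : S ^ 2 + (S - u) ^ 2 / n ≤ n * ∑ i, p (x i) ^ 2 := by
    have h3 : (m - S / n) ^ 2 ≤ ∑ i, (p (x i) - S / n) ^ 2 :=
      Finset.single_le_sum (f := fun i => (p (x i) - S / n) ^ 2) (fun i _ => sq_nonneg _)
        (Finset.mem_univ i₀)
    have h4 : ∑ i, (p (x i) - S / n) ^ 2 = ∑ i, p (x i) ^ 2 - S ^ 2 / n := by
      have e : ∀ i, (p (x i) - S / n) ^ 2 = p (x i) ^ 2 - 2 * (S / n) * p (x i) + (S / n) ^ 2 :=
        fun i => by ring
      rw [Finset.sum_congr rfl fun i _ => e i, Finset.sum_add_distrib, Finset.sum_sub_distrib,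
        ← Finset.mul_sum, ← hS]
      simp only [Finset.sum_const, Finset.card_univ, Fintype.card_fin, nsmul_eq_mul]
      field_simp
      ring
    rw [h4] at h3
    have h5 : n * (m - S / n) ^ 2 = (S - u) ^ 2 / n := by
      rw [hu]
      field_simp
      ring
    have h6 : n * (m - S / n) ^ 2 ≤ n * (∑ i, p (x i) ^ 2 - S ^ 2 / n) :=
      mul_le_mul_of_nonneg_left h3 (by linarith)
    have h7 : (n : ℝ) * (∑ i, p (x i) ^ 2 - S ^ 2 / n) = n * ∑ i, p (x i) ^ 2 - S ^ 2 := by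
      field_simp
    linarith
  have hP : (n : ℝ) + 1 ≤ 2 ^ n := by
    have : n + 1 ≤ 2 ^ n := Nat.lt_two_pow_self
    exact_mod_cast this
  have hb1 : 0 ≤ 1 - δ / 2 ^ (n + 2) := by
    have : δ / 2 ^ (n + 2) ≤ 1 := by
      rw [div_le_one (by positivity)]
      have : (1 : ℝ) ≤ 2 ^ (n + 2) := one_le_pow₀ (by norm_num)
      linarith
    linarith
  refine h1.trans ?_
  have h3 : 2 ^ n * ((1 - δ / 2 ^ (n + 2)) * (S ^ 2 + (S - u) ^ 2 / n))
      ≤ 2 ^ n * ((1 - δ / 2 ^ (n + 2)) * n * ∑ i, p (x i) ^ 2) := by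
    rw [mul_assoc (1 - δ / 2 ^ (n + 2))]
    gcongr
  refine le_trans ?_ h3
  have h4 : 2 ^ n * ((1 - δ / 2 ^ (n + 2)) * (S ^ 2 + (S - u) ^ 2 / n))
      = 2 ^ n * S ^ 2 + (2 ^ n - δ / 4) * ((S - u) ^ 2 / n) - δ / 4 * S ^ 2 := by
    rw [pow_add]
    field_simp
    ring
  rw [h4]
  rcases le_or_gt (S / 4) u with hc | hc
  · have h5 : 0 ≤ (2 ^ n - δ / 4) * ((S - u) ^ 2 / n) := by
      apply mul_nonneg
      · linarith
      · positivity
    have h6 : δ * (S / 4) * S ≤ δ * u * S := by gcongr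
    nlinarith
  · have h5 : 9 / 16 * S ^ 2 ≤ (S - u) ^ 2 := by nlinarith
    have h6 : δ / 4 * S ^ 2 ≤ (2 ^ n - δ / 4) * ((S - u) ^ 2 / n) := by
      rw [mul_div_assoc', le_div_iff₀ (by linarith)]
      have h7 : (n + 3 / 4) * (9 / 16 * S ^ 2) ≤ (2 ^ n - δ / 4) * (S - u) ^ 2 := by
        apply mul_le_mul _ h5 (by positivity) (by linarith)
        linarith
      have h8 : δ / 4 * S ^ 2 * n ≤ 1 / 4 * S ^ 2 * n := by gcongr
      nlinarith [sq_nonneg S]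
    have h7 : 0 ≤ δ * u * S := by positivity
    linarith

/-- independent symmetric variables -/
theorem bc_sum {p : Seminorm ℝ E} {n : ℕ} (hn : 1 ≤ n) {δ : ℝ} (hδ0 : 0 ≤ δ) (hδ1 : δ ≤ 1)
    (h : BC p n δ) {Ω : Type*} [Fintype Ω] (V : Ω → E) (fl : Ω → Ω) (hfl : ∀ ω, fl (fl ω) = ω)
    (hV : ∀ ω, V (fl ω) = -V ω) :
    (Fintype.card Ω : ℝ) * ∑ ω : Fin n → Ω, p (∑ i, V (ω i)) ^ 2
      ≤ (1 - δ / 2 ^ (n + 2)) * n ^ 2 * ((Fintype.card Ω : ℝ) ^ n * ∑ ω, p (V ω) ^ 2) := by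
  classical
  have hb1 : 0 ≤ 1 - δ / 2 ^ (n + 2) := by
    have : δ / 2 ^ (n + 2) ≤ 1 := by
      rw [div_le_one (by positivity)]
      have : (1 : ℝ) ≤ 2 ^ (n + 2) := one_le_pow₀ (by norm_num)
      linarith
    linarith
  -- flipping
  let F : (Fin n → Bool) → (Fin n → Ω) → (Fin n → Ω) := fun b ω i => cond (b i) (ω i) (fl (ω i))
  have hFF : ∀ b ω, F b (F b ω) = ω := by
    intro b ω
    funext i
    simp only [F]
    cases b i <;> simp [hfl]
  have hsum : ∀ b : Fin n → Bool, ∑ ω : Fin n → Ω, p (∑ i, V (ω i)) ^ 2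
      = ∑ ω : Fin n → Ω, p (∑ i, sg (b i) • V (ω i)) ^ 2 := by
    intro b
    let e : (Fin n → Ω) ≃ (Fin n → Ω) := ⟨F b, F b, hFF b, hFF b⟩
    rw [← e.sum_comp]
    refine Finset.sum_congr rfl fun ω _ => ?_
    congr 2
    refine Finset.sum_congr rfl fun i _ => ?_
    change V (cond (b i) (ω i) (fl (ω i))) = _
    cases b i
    · simp [hV, sg]
    · simp [sg]
  have h1 : (2 : ℝ) ^ n * ∑ ω : Fin n → Ω, p (∑ i, V (ω i)) ^ 2
      = ∑ ω : Fin n → Ω, ∑ b : Fin n → Bool, p (∑ i, sg (b i) • V (ω i)) ^ 2 := by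
    rw [Finset.sum_comm, ← Finset.sum_congr rfl fun b _ => hsum b]
    simp
  have h2 : (2 : ℝ) ^ n * ∑ ω : Fin n → Ω, p (∑ i, V (ω i)) ^ 2
      ≤ 2 ^ n * ((1 - δ / 2 ^ (n + 2)) * n * ∑ ω : Fin n → Ω, ∑ i, p (V (ω i)) ^ 2) := by
    rw [h1, Finset.mul_sum, Finset.mul_sum]
    exact Finset.sum_le_sum fun ω _ => bc_avg hn hδ0 hδ1 h _
  have h3 : ∑ ω : Fin n → Ω, p (∑ i, V (ω i)) ^ 2
      ≤ (1 - δ / 2 ^ (n + 2)) * n * ∑ ω : Fin n → Ω, ∑ i, p (V (ω i)) ^ 2 :=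
    le_of_mul_le_mul_left h2 (by positivity)
  have h4 : ∑ ω : Fin n → Ω, ∑ i, p (V (ω i)) ^ 2
      = n * ((Fintype.card Ω : ℝ) ^ (n - 1) * ∑ ω, p (V ω) ^ 2) := by
    rw [Finset.sum_comm]
    have : ∀ i : Fin n, ∑ ω : Fin n → Ω, p (V (ω i)) ^ 2
        = (Fintype.card Ω : ℝ) ^ (n - 1) * ∑ ω, p (V ω) ^ 2 := by
      intro i
      rw [marg i (fun ω => p (V ω) ^ 2), nsmul_eq_mul]
      simp
    simp [this]
  rw [h4] at h3
  have h5 : (Fintype.card Ω : ℝ) * (Fintype.card Ω : ℝ) ^ (n - 1) = (Fintype.card Ω : ℝ) ^ n := by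
    rw [← pow_succ']
    congr 1
    omega
  calc (Fintype.card Ω : ℝ) * ∑ ω : Fin n → Ω, p (∑ i, V (ω i)) ^ 2
      ≤ (Fintype.card Ω : ℝ) * ((1 - δ / 2 ^ (n + 2)) * n *
        (n * ((Fintype.card Ω : ℝ) ^ (n - 1) * ∑ ω, p (V ω) ^ 2))) := by gcongr
    _ = (1 - δ / 2 ^ (n + 2)) * n ^ 2 * ((Fintype.card Ω * (Fintype.card Ω : ℝ) ^ (n - 1))
        * ∑ ω, p (V ω) ^ 2) := by ring
    _ = _ := by rw [h5]

end Semi

end Pool.Agent.Run7.h533.AC
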