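import Mathlib
import Pool.Agent.Run7.h533.AC.Caps
import Pool.Agent.Run7.h533.AC.Share

set_option autoImplicit false

/-!
# Bodies with a law of large numbers: the share of a translate
-/

open MeasureTheory Module Finset
open scoped Pointwise ENNReal

namespace Pool.Agent.Run7.h533.AC

section Det

variable {E : Type*} [NormedAddCommGroup E] [NormedSpace ℝ E]

/-- if a dyadic sum is close to the hyperplane `φ = 1` then so are all its terms -/
theorem dy_top (φ : E →L[ℝ] ℝ) (k : ℕ) : ∀ (x : Fin k → E) (z : E), (∀ i, φ (x i) ≤ 1) →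
    φ z ≤ 1 → φ (dy k x + (1 / 2 : ℝ) ^ k • z) ≤ 1 ∧
      ∀ i, 1 - φ (x i) ≤ 2 ^ k * (1 - φ (dy k x + (1 / 2 : ℝ) ^ k • z)) := by
  induction k with
  | zero =>
    intro x z _ hz
    refine ⟨?_, fun i => i.elim0⟩
    simpa [dy] using hz
  | succ k ih =>
    intro x z hx hz
    obtain ⟨h1, h2⟩ := ih (fun i => x i.succ) z (fun i => hx _) hz
    have e : φ (dy (k + 1) x + (1 / 2 : ℝ) ^ (k + 1) • z)
        = 1 / 2 * φ (x 0) + 1 / 2 * φ (dy k (fun i => x i.succ) + (1 / 2 : ℝ) ^ k • z) := by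
      simp only [dy, map_add, map_smul, smul_eq_mul, pow_succ]
      ring
    rw [e]
    have h0 := hx 0
    set v := φ (dy k (fun i => x i.succ) + (1 / 2 : ℝ) ^ k • z) with hv
    refine ⟨by linarith, fun i => ?_⟩
    have hp : (1 : ℝ) ≤ 2 ^ k := one_le_pow₀ (by norm_num)
    rw [pow_succ]
    refine Fin.cases ?_ (fun j => ?_) i
    · nlinarith
    · have h3 := h2 j
      nlinarith

theorem le_gauge_of_le {K : Set E} (hK0 : K ∈ nhds (0 : E)) (φ : E →L[ℝ] ℝ)
    (hφ : ∀ x ∈ K, φ x ≤ 1) (y : E) : φ y ≤ gauge K y := by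
  refine le_of_forall_pos_le_add fun s hs => ?_
  obtain ⟨b, hb0, hb1, z, hz, hzy⟩ := exists_lt_of_gauge_lt (absorbent_nhds_zero hK0)
    (show gauge K y < gauge K y + s by linarith)
  simp only at hzy
  have h1 := hφ z hz
  rw [← hzy, map_smul, smul_eq_mul, hzy]
  nlinarith

/-- **The deterministic part.** -/
theorem det_lln {K : Set E} (hK : Convex ℝ K) (hKc : IsCompact K) (hK0 : K ∈ nhds (0 : E)) (k : ℕ)
    (hk : 1 ≤ k) (x : Fin k → E) (hx : ∀ i, x i ∈ K) (z o : E) (hz : z ∈ K) {τ : ℝ} (hτ0 : 0 < τ)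
    (hτ : 2 ^ k * τ ≤ 1 / 2)
    (hw : dy k x + (1 / 2 : ℝ) ^ k • z - τ • o ∉ (1 - τ / 2) • K) :
    1 / 4 < gauge K ((1 / k : ℝ) • ∑ i, (x i - o)) := by
  have hp : (1 : ℝ) ≤ 2 ^ k := one_le_pow₀ (by norm_num)
  have hτ1 : τ ≤ 1 / 2 := by nlinarith
  have hρ : 0 < 1 - τ / 2 := by linarith
  have hk' : (0 : ℝ) < k := by exact_mod_cast hk
  obtain ⟨f, u, hf, hu⟩ := geometric_hahn_banach_closed_point (hK.smul (1 - τ / 2))
    (hKc.smul (1 - τ / 2)).isClosed hw
  have hu0 : 0 < u := by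
    have := hf 0 ⟨0, mem_of_mem_nhds hK0, by simp⟩
    simpa using this
  set φ : E →L[ℝ] ℝ := ((1 - τ / 2) / u) • f with hφ
  have hφK : ∀ a ∈ K, φ a ≤ 1 := by
    intro a ha
    have h1 := hf ((1 - τ / 2) • a) ⟨a, ha, rfl⟩
    rw [map_smul, smul_eq_mul] at h1
    rw [hφ, smul_apply, smul_eq_mul, div_mul_eq_mul_div, div_le_one hu0]
    exact h1.le
  have hφw : 1 - τ / 2 < φ (dy k x + (1 / 2 : ℝ) ^ k • z - τ • o) := by
    rw [hφ, smul_apply, smul_eq_mul, div_mul_eq_mul_div, lt_div_iff₀ hu0]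
    exact mul_lt_mul_of_pos_left hu hρ
  rw [map_sub, map_smul, smul_eq_mul] at hφw
  obtain ⟨h1, h2⟩ := dy_top φ k x z (fun i => hφK _ (hx i)) (hφK _ hz)
  set W := φ (dy k x + (1 / 2 : ℝ) ^ k • z) with hW
  set a := 1 - φ o with ha
  have ha1 : 1 / 2 < a := by
    have h3 : τ * φ o < τ * (1 / 2) := by linarith
    have h4 : φ o < 1 / 2 := lt_of_mul_lt_mul_left h3 hτ0.le
    linarith
  have h5 : 1 - W < τ * a := by
    have : τ * a = τ - τ * φ o := by rw [ha]; ring
    rw [this]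
    linarith
  have h6 : ∀ i, a / 2 < φ (x i - o) := by
    intro i
    have h7 := h2 i
    have h8 : 2 ^ k * (1 - W) < a / 2 := by
      calc 2 ^ k * (1 - W) < 2 ^ k * (τ * a) := by
            apply mul_lt_mul_of_pos_left h5 (by positivity)
        _ = (2 ^ k * τ) * a := by ring
        _ ≤ 1 / 2 * a := by
            apply mul_le_mul_of_nonneg_right hτ (by linarith)
        _ = a / 2 := by ring
    rw [map_sub]
    linarith
  refine lt_of_lt_of_le ?_ (le_gauge_of_le hK0 φ hφK _)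
  rw [map_smul, map_sum, smul_eq_mul]
  have h9 : (k : ℝ) * (a / 2) ≤ ∑ i, φ (x i - o) := by
    have : ∑ _i : Fin k, (a / 2) ≤ ∑ i, φ (x i - o) :=
      Finset.sum_le_sum fun i _ => (h6 i).le
    simpa using this
  have h10 : (1 / k : ℝ) * ((k : ℝ) * (a / 2)) ≤ 1 / k * ∑ i, φ (x i - o) := by
    apply mul_le_mul_of_nonneg_left h9 (by positivity)
  have h11 : (1 / k : ℝ) * ((k : ℝ) * (a / 2)) = a / 2 := by field_simp
  rw [h11] at h10
  linarith

end Det

/-- For random points of `K` the mean of `k` of them is, up to the probability `1/4`, at the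
`K`-distance at most `1/4` from the expectation. -/
def Lln {E : Type*} [NormedAddCommGroup E] [NormedSpace ℝ E] (K : Set E) (k : ℕ) : Prop :=
  ∀ A : Finset E, A.Nonempty → (∀ a ∈ A, a ∈ K) → ∀ o : E, (A.card : ℝ) • o = ∑ a ∈ A, a →
    4 * ((open Classical in (univ.filter fun x : Fin k → A =>
      1 / 4 < gauge K ((1 / k : ℝ) • ∑ i, ((x i : E) - o))).card : ℝ)) ≤ (A.card : ℝ) ^ k

section Core

variable {d : ℕ} {K : Set (EuclideanSpace ℝ (Fin d))}

/-- domination for the dyadic sums -/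
theorem dom_prob (hd : 1 ≤ d) (hK : Convex ℝ K) (hKc : IsCompact K)
    (h0K : (0 : EuclideanSpace ℝ (Fin d)) ∈ K) (hV0 : volume K ≠ 0)
    (A : Finset (EuclideanSpace ℝ (Fin d))) (hA : A.Nonempty) (hAK : ∀ a ∈ A, a ∈ K) (m : ℕ)
    {q : ℝ} (hq0 : 0 < q)
    (hq : ∀ t : EuclideanSpace ℝ (Fin d), (open Classical in
      ((A.filter fun x => x - t ∈ (1 - 1 / (2 * d) / 2 ^ m : ℝ) • K).card : ℝ)) ≤ q * A.card)
    (C : ℝ) (hC : 0 < C) (B : Set (EuclideanSpace ℝ (Fin d))) (hB : MeasurableSet B) (r : ℝ)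
    (hr : 0 ≤ r) (hvol : volume (B ∩ K) ≤ ENNReal.ofReal r * volume K) :
    itn A (un volume ((1 - 1 / (2 * d) : ℝ) • K)) m B
      ≤ ENNReal.ofReal ((C * (2 ^ d * q)) ^ m * (2 * r) + m / C) := by
  classical
  have hd' : (1 : ℝ) ≤ d := by exact_mod_cast hd
  have hd0 : (0 : ℝ) < d := by linarith
  have hfr : finrank ℝ (EuclideanSpace ℝ (Fin d)) = d := finrank_euclideanSpace_fin
  have hVt : volume K ≠ ⊤ := hKc.measure_lt_top.ne
  have hKm : MeasurableSet K := hKc.isClosed.measurableSet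
  set V : ℝ := (volume K).toReal with hVdef
  have hVpos : 0 < V := ENNReal.toReal_pos hV0 hVt
  have hVE : volume K = ENNReal.ofReal V := (ENNReal.ofReal_toReal hVt).symm
  set l : ℝ := 1 - 1 / (2 * d) with hl
  have hl0 : 0 < l := by
    rw [hl]
    have : 1 / (2 * (d : ℝ)) ≤ 1 / 2 := by
      apply div_le_div_of_nonneg_left (by norm_num) (by norm_num); linarith
    linarith
  have hl1 : l ≤ 1 := by
    rw [hl]
    have : 0 ≤ 1 / (2 * (d : ℝ)) := by positivity
    linarith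
  have e1l : 1 - l = 1 / (2 * d) := by rw [hl]; ring
  have hlp : 1 / 2 ≤ l ^ d := l_pow hd
  set L : Set (EuclideanSpace ℝ (Fin d)) := l • K with hL
  have hLμ : volume L = ENNReal.ofReal (l ^ d * V) := by
    rw [hL, Measure.addHaar_smul, hfr, abs_of_pos (by positivity), hVE,
      ← ENNReal.ofReal_mul (by positivity)]
  have hlV : 0 < l ^ d * V := by positivity
  have hL0 : volume L ≠ 0 := by rw [hLμ]; simpa using hlV
  have hLt : volume L ≠ ⊤ := by rw [hLμ]; exact ENNReal.ofReal_ne_top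
  have hLm : MeasurableSet L := (hKc.smul l).isClosed.measurableSet
  have hLinv : (volume L)⁻¹ = ENNReal.ofReal ((l ^ d * V)⁻¹) := by
    rw [hLμ, ENNReal.ofReal_inv_of_pos hlV]
  have hLi0 : (volume L)⁻¹ ≠ 0 := ENNReal.inv_ne_zero.2 hLt
  have hLit : (volume L)⁻¹ ≠ ⊤ := ENNReal.inv_ne_top.2 hL0
  have hCE0 : ENNReal.ofReal C ≠ 0 := by simpa using hC
  have hqE0 : ENNReal.ofReal q ≠ 0 := by simpa using hq0
  have h1 := (un_dom volume L hLm hL0 hLt).iter volume hK h0K hl0.le hl1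
    (l' := 1 - 1 / (2 * d) / 2 ^ m) (q := ENNReal.ofReal q) (C := ENNReal.ofReal C) A hA hAK
    (fun t => by
      have h2 := hq t
      have h4 : ENNReal.ofReal
          (((A.filter fun x => x - t ∈ (1 - 1 / (2 * d) / 2 ^ m : ℝ) • K).card : ℝ))
          ≤ ENNReal.ofReal (q * A.card) := ENNReal.ofReal_le_ofReal h2
      rw [ENNReal.ofReal_natCast, ENNReal.ofReal_mul hq0.le, ENNReal.ofReal_natCast] at h4
      exact h4)
    hLi0 hLit hqE0 ENNReal.ofReal_ne_top hCE0 ENNReal.ofReal_ne_top m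
    (fun j hj => by
      unfold lv
      rw [e1l]
      have h1 : (2 : ℝ) ^ j ≤ 2 ^ m := pow_le_pow_right₀ (by norm_num) hj.le
      have h2 : 1 / (2 * (d : ℝ)) / 2 ^ m ≤ 1 / (2 * d) / 2 ^ j :=
        div_le_div_of_nonneg_left (by positivity) (by positivity) h1
      linarith)
  have hsub : lv l m • K ⊆ K := by
    have := smul_mono hK h0K (lv_nonneg hl0.le hl1 m) (lv_le_one hl1 m)
    rwa [one_smul] at this
  have h2 := h1.set volume hsub hKm B hB
  rw [hfr] at h2
  refine h2.trans ?_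
  have e1 : (ENNReal.ofReal C * ((2 : ℝ≥0∞) ^ d * ENNReal.ofReal q)) ^ m
      = ENNReal.ofReal ((C * (2 ^ d * q)) ^ m) := by
    rw [ENNReal.ofReal_pow (by positivity), ENNReal.ofReal_mul hC.le,
      ENNReal.ofReal_mul (by positivity), ENNReal.ofReal_pow (by norm_num), ENNReal.ofReal_ofNat]
  have e2 : (m : ℝ≥0∞) * (ENNReal.ofReal C)⁻¹ = ENNReal.ofReal (m / C) := by
    rw [← ENNReal.ofReal_inv_of_pos hC, ← ENNReal.ofReal_natCast,
      ← ENNReal.ofReal_mul (by positivity), div_eq_mul_inv]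
  rw [e1, zero_add, e2, hLinv]
  calc ENNReal.ofReal ((C * (2 ^ d * q)) ^ m) * ENNReal.ofReal ((l ^ d * V)⁻¹) * volume (B ∩ K)
        + ENNReal.ofReal (m / C)
      ≤ ENNReal.ofReal ((C * (2 ^ d * q)) ^ m) * ENNReal.ofReal ((l ^ d * V)⁻¹)
        * ENNReal.ofReal (r * V) + ENNReal.ofReal (m / C) := by
        have : volume (B ∩ K) ≤ ENNReal.ofReal (r * V) := by
          rw [ENNReal.ofReal_mul hr, ← hVE]
          exact hvol
        gcongr
    _ = ENNReal.ofReal ((C * (2 ^ d * q)) ^ m * (l ^ d * V)⁻¹ * (r * V) + m / C) := by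
        rw [← ENNReal.ofReal_mul (by positivity), ← ENNReal.ofReal_mul (by positivity),
          ← ENNReal.ofReal_add (by positivity) (by positivity)]
    _ ≤ _ := by
        apply ENNReal.ofReal_le_ofReal
        have h3 : (l ^ d * V)⁻¹ * (r * V) ≤ 2 * r := by
          have e : (l ^ d * V)⁻¹ * (r * V) = r / l ^ d := by field_simp
          rw [e, div_le_iff₀ (by positivity)]
          nlinarith
        have h4 : (C * (2 ^ d * q)) ^ m * (l ^ d * V)⁻¹ * (r * V)
            ≤ (C * (2 ^ d * q)) ^ m * (2 * r) := by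
          rw [mul_assoc]
          exact mul_le_mul_of_nonneg_left h3 (by positivity)
        linarith

/-- **Core inequality** for bodies with a law of large numbers -/
theorem lln_core (hd : 1 ≤ d) (hK : Convex ℝ K) (hKc : IsCompact K) (hK0 : K ∈ nhds 0)
    {k : ℕ} (hk : 1 ≤ k) (hL : Lln K k) {τ : ℝ} (hτ0 : 0 < τ) (hτ : 2 ^ k * τ ≤ 1 / 2)
    (A : Finset (EuclideanSpace ℝ (Fin d))) (hA : A.Nonempty) (hAK : ∀ a ∈ A, a ∈ K)
    {q : ℝ} (hq0 : 0 < q)
    (hq : ∀ t : EuclideanSpace ℝ (Fin d), (open Classical in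
      ((A.filter fun x => x - t ∈ (1 - 1 / (2 * d) / 2 ^ k : ℝ) • K).card : ℝ)) ≤ q * A.card) :
    1 ≤ (4 * k * (2 ^ d * q)) ^ k * (4 * (1 - τ / 2) ^ d) := by
  classical
  have hd' : (1 : ℝ) ≤ d := by exact_mod_cast hd
  have hd0 : (0 : ℝ) < d := by linarith
  have hk' : (1 : ℝ) ≤ k := by exact_mod_cast hk
  have hp : (1 : ℝ) ≤ 2 ^ k := one_le_pow₀ (by norm_num)
  have hτ1 : τ ≤ 1 / 2 := by nlinarith
  have hρ : 0 < 1 - τ / 2 := by linarith
  have hfr : finrank ℝ (EuclideanSpace ℝ (Fin d)) = d := finrank_euclideanSpace_fin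
  have h0K : (0 : EuclideanSpace ℝ (Fin d)) ∈ K := mem_of_mem_nhds hK0
  have hV0 : volume K ≠ 0 := (Measure.measure_pos_of_mem_nhds volume hK0).ne'
  have hAc : 0 < (A.card : ℝ) := by exact_mod_cast hA.card_pos
  set o : EuclideanSpace ℝ (Fin d) := (A.card : ℝ)⁻¹ • ∑ a ∈ A, a with ho
  have ho' : (A.card : ℝ) • o = ∑ a ∈ A, a := by
    rw [ho, smul_smul, mul_inv_cancel₀ hAc.ne', one_smul]
  have hcnt := hL A hA hAK o ho'
  set l : ℝ := 1 - 1 / (2 * d) with hl
  have hl0 : 0 < l := by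
    rw [hl]
    have : 1 / (2 * (d : ℝ)) ≤ 1 / 2 := by
      apply div_le_div_of_nonneg_left (by norm_num) (by norm_num); linarith
    linarith
  have hl1 : l ≤ 1 := by
    rw [hl]
    have : 0 ≤ 1 / (2 * (d : ℝ)) := by positivity
    linarith
  have hLm : MeasurableSet (l • K) := (hKc.smul l).isClosed.measurableSet
  have hLt : volume (l • K) ≠ ⊤ := (hKc.smul l).measure_lt_top.ne
  have hL0 : volume (l • K) ≠ 0 := by
    rw [Measure.addHaar_smul]
    refine mul_ne_zero ?_ hV0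
    simp only [ne_eq, ENNReal.ofReal_eq_zero, not_le]
    positivity
  have hLK : l • K ⊆ K := by
    have := smul_mono hK h0K hl0.le hl1
    rwa [one_smul] at this
  set ν₁ : Measure (EuclideanSpace ℝ (Fin d)) := itn A (un volume (l • K)) k with hν₁
  have hp1 : ν₁ Set.univ = 1 := itn_prob A hA _ (un_prob volume _ hL0 hLt) k
  -- the translate
  set B : Set (EuclideanSpace ℝ (Fin d)) := (fun w => w + (-(τ • o))) ⁻¹' ((1 - τ / 2) • K) with hB
  have hρm : MeasurableSet ((1 - τ / 2) • K) := (hKc.smul _).isClosed.measurableSet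
  have hBm : MeasurableSet B := hρm.preimage (measurable_add_const _)
  have hBv : volume B = ENNReal.ofReal ((1 - τ / 2) ^ d) * volume K := by
    rw [hB, measure_preimage_add_right, Measure.addHaar_smul, hfr, abs_of_pos (by positivity)]
  have h1 := dom_prob hd hK hKc h0K hV0 A hA hAK k hq0 hq (4 * k) (by positivity) B hBm
    ((1 - τ / 2) ^ d) (by positivity) (by
      rw [← hBv]
      exact measure_mono Set.inter_subset_left)
  -- the complement
  have h2 : ν₁ Bᶜ ≤ ENNReal.ofReal (1 / 4) := by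
    rw [hν₁, itn_apply A _ k _ hBm.compl]
    have h3 : ∀ x : Fin k → A, un volume (l • K)
        ((fun s => dy k (fun i => (x i : EuclideanSpace ℝ (Fin d))) + (1 / 2 : ℝ) ^ k • s) ⁻¹' Bᶜ)
        ≤ if 1 / 4 < gauge K ((1 / k : ℝ) • ∑ i, ((x i : EuclideanSpace ℝ (Fin d)) - o)) then 1
          else 0 := by
      intro x
      split_ifs with h
      · exact (measure_mono (Set.subset_univ _)).trans (un_prob volume _ hL0 hLt).le
      · have hm : Measurable (fun s : EuclideanSpace ℝ (Fin d) =>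
            dy k (fun i => (x i : EuclideanSpace ℝ (Fin d))) + (1 / 2 : ℝ) ^ k • s) :=
          (by fun_prop : Continuous fun s : EuclideanSpace ℝ (Fin d) =>
            dy k (fun i => (x i : EuclideanSpace ℝ (Fin d))) + (1 / 2 : ℝ) ^ k • s).measurable
        rw [un_apply volume _ _ (hm hBm.compl)]
        have hemp : ((fun s => dy k (fun i => (x i : EuclideanSpace ℝ (Fin d)))
            + (1 / 2 : ℝ) ^ k • s) ⁻¹' Bᶜ) ∩ (l • K) = ∅ := by
          rw [Set.eq_empty_iff_forall_notMem]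
          rintro s ⟨hs1, hs2⟩
          apply h
          refine det_lln hK hKc hK0 k hk (fun i => (x i : EuclideanSpace ℝ (Fin d)))
            (fun i => hAK _ (x i).2) s o (hLK hs2) hτ0 hτ ?_
          intro hcon
          apply hs1
          change _ + (-(τ • o)) ∈ (1 - τ / 2) • K
          rw [← sub_eq_add_neg]
          exact hcon
        rw [hemp, measure_empty, mul_zero]
    have h4 : (((univ : Finset (Fin k → A)).filter fun x =>
        1 / 4 < gauge K ((1 / k : ℝ) • ∑ i, ((x i : EuclideanSpace ℝ (Fin d)) - o))).card : ℝ≥0∞)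
        ≤ ENNReal.ofReal ((A.card : ℝ) ^ k / 4) := by
      rw [← ENNReal.ofReal_natCast]
      apply ENNReal.ofReal_le_ofReal
      linarith
    calc ((A.card : ℝ≥0∞)⁻¹) ^ k * ∑ x : Fin k → A, un volume (l • K)
          ((fun s => dy k (fun i => (x i : EuclideanSpace ℝ (Fin d))) + (1 / 2 : ℝ) ^ k • s) ⁻¹' Bᶜ)
        ≤ ((A.card : ℝ≥0∞)⁻¹) ^ k * ∑ x : Fin k → A, (if 1 / 4 < gauge K ((1 / k : ℝ) •
          ∑ i, ((x i : EuclideanSpace ℝ (Fin d)) - o)) then 1 else 0) := by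
          gcongr with x _
          exact h3 x
      _ = ((A.card : ℝ≥0∞)⁻¹) ^ k * (((univ : Finset (Fin k → A)).filter fun x =>
        1 / 4 < gauge K ((1 / k : ℝ) • ∑ i, ((x i : EuclideanSpace ℝ (Fin d)) - o))).card
          : ℝ≥0∞) := by
          congr 1
          rw [Finset.sum_boole]
      _ ≤ ((A.card : ℝ≥0∞)⁻¹) ^ k * ENNReal.ofReal ((A.card : ℝ) ^ k / 4) := by gcongr
      _ = ENNReal.ofReal (1 / 4) := by
          rw [← ENNReal.ofReal_natCast, ← ENNReal.ofReal_inv_of_pos hAc,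
            ← ENNReal.ofReal_pow (by positivity), ← ENNReal.ofReal_mul (by positivity)]
          congr 1
          rw [inv_pow]
          field_simp
  have h5 : (1 : ℝ≥0∞) ≤ ENNReal.ofReal ((4 * k * (2 ^ d * q)) ^ k * (2 * (1 - τ / 2) ^ d)
      + k / (4 * k)) + ENNReal.ofReal (1 / 4) := by
    rw [← hp1, ← measure_add_measure_compl hBm]
    exact add_le_add h1 h2
  rw [← ENNReal.ofReal_add (by positivity) (by norm_num), ← ENNReal.ofReal_one,
    ENNReal.ofReal_le_ofReal_iff (by positivity)] at h5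
  have h6 : (k : ℝ) / (4 * k) = 1 / 4 := by field_simp
  rw [h6] at h5
  linarith

end Core

end Pool.Agent.Run7.h533.AC
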