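import Mathlib
import Pool.Agent.Run7.h533.AC.Lln

set_option autoImplicit false

/-!
# Bodies with many translates contain approximate simplices
-/

open MeasureTheory Module Finset
open scoped Pointwise ENNReal

namespace Pool.Agent.Run7.h533.AC

section Det

variable {E : Type*} [NormedAddCommGroup E] [NormedSpace ℝ E]

/-- if a dyadic sum is close to the hyperplane `φ = h` then so are all its terms -/
theorem dy_top' (φ : E →L[ℝ] ℝ) (h : ℝ) (k : ℕ) : ∀ (x : Fin k → E) (z : E), (∀ i, φ (x i) ≤ h) →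
    φ z ≤ h → φ (dy k x + (1 / 2 : ℝ) ^ k • z) ≤ h ∧
      ∀ i, h - φ (x i) ≤ 2 ^ k * (h - φ (dy k x + (1 / 2 : ℝ) ^ k • z)) := by
  induction k with
  | zero =>
    intro x z _ hz
    refine ⟨?_, fun i => i.elim0⟩
    simpa [dy] using hz
  | succ k ih =>
    intro x z hx hz
    obtain ⟨h1, h2⟩ := ih (fun i => x i.succ) z (fun i => hx _) hz
    have e : φ (dy (k + 1) x + (1 / 2 : ℝ) ^ (k + 1) • z)
        = 1 / 2 * φ (x 0) + 1 / 2 * φ (dy k (fun i => x i.succ) + (1 / 2 : ℝ) ^ k • z) := by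
      simp only [dy, map_add, map_smul, smul_eq_mul, pow_succ]
      ring
    rw [e]
    have h0 := hx 0
    set v := φ (dy k (fun i => x i.succ) + (1 / 2 : ℝ) ^ k • z) with hv
    refine ⟨by linarith, fun i => ?_⟩
    have hp : (1 : ℝ) ≤ 2 ^ k := one_le_pow₀ (by norm_num)
    rw [pow_succ]
    refine Fin.cases ?_ (fun j => ?_) i
    · nlinarith
    · have h3 := h2 j
      nlinarith

/-- **The deterministic part**, with the centre `0`. -/
theorem det_gen {K : Set E} (hK : Convex ℝ K) (hKc : IsCompact K) (h0 : (0 : E) ∈ K) (k : ℕ)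
    (x : Fin k → E) (hx : ∀ i, x i ∈ K) (z o : E) (hz : z ∈ K) {τ σ : ℝ}
    (hρ : 0 < 1 - τ + σ)
    (hw : dy k x + (1 / 2 : ℝ) ^ k • z - τ • o ∉ (1 - τ + σ) • K) :
    ∃ (φ : E →L[ℝ] ℝ) (h : ℝ), 0 < h ∧ (∀ y ∈ K, φ y ≤ h) ∧ 0 < τ * (h - φ o) - σ * h ∧
      ∀ i, h - φ (x i) < 2 ^ k * (τ * (h - φ o) - σ * h) := by
  obtain ⟨f, u, hf, hu⟩ := geometric_hahn_banach_closed_point (hK.smul (1 - τ + σ))
    (hKc.smul (1 - τ + σ)).isClosed hw
  have hu0 : 0 < u := by
    have := hf 0 ⟨0, h0, by simp⟩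
    simpa using this
  have hfK : ∀ a ∈ K, f a ≤ u / (1 - τ + σ) := by
    intro a ha
    have h1 := hf ((1 - τ + σ) • a) ⟨a, ha, rfl⟩
    rw [map_smul, smul_eq_mul] at h1
    rw [le_div_iff₀ hρ]
    linarith
  set h := u / (1 - τ + σ) with hh
  have hhu : (1 - τ + σ) * h = u := by rw [hh]; field_simp
  rw [map_sub, map_smul, smul_eq_mul] at hu
  obtain ⟨h1, h2⟩ := dy_top' f h k x z (fun i => hfK _ (hx i)) (hfK _ hz)
  set W := f (dy k x + (1 / 2 : ℝ) ^ k • z) with hW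
  have h3 : h - W < τ * (h - f o) - σ * h := by
    have : (1 - τ + σ) * h < W - τ * f o := by rw [hhu]; exact hu
    nlinarith
  refine ⟨f, h, by positivity, hfK, by linarith, fun i => (h2 i).trans_lt ?_⟩
  have hp : (0 : ℝ) < 2 ^ k := by positivity
  exact mul_lt_mul_of_pos_left h3 hp

end Det

section Core

variable {d : ℕ} {K : Set (EuclideanSpace ℝ (Fin d))}

/-- few dyadic sums stay in a smaller translate -/
theorem count_bad (hd : 1 ≤ d) (hK : Convex ℝ K) (hKc : IsCompact K) (hK0 : K ∈ nhds 0)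
    (k : ℕ) (A : Finset (EuclideanSpace ℝ (Fin d))) (hA : A.Nonempty) (hAK : ∀ a ∈ A, a ∈ K)
    {q : ℝ} (hq0 : 0 < q)
    (hq : ∀ t : EuclideanSpace ℝ (Fin d), (open Classical in
      ((A.filter fun x => x - t ∈ (1 - 1 / (2 * d) / 2 ^ k : ℝ) • K).card : ℝ)) ≤ q * A.card)
    {C ρ : ℝ} (hC : 0 < C) (hρ : 0 < ρ) (v : EuclideanSpace ℝ (Fin d)) :
    ((open Classical in (univ.filter fun x : Fin k → A => ∀ z ∈ K,
      dy k (fun i => (x i : EuclideanSpace ℝ (Fin d))) + (1 / 2 : ℝ) ^ k • z - v ∈ ρ • K).card : ℝ))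
      ≤ (A.card : ℝ) ^ k * ((C * (2 ^ d * q)) ^ k * (2 * ρ ^ d) + k / C) := by
  classical
  have hd' : (1 : ℝ) ≤ d := by exact_mod_cast hd
  have hd0 : (0 : ℝ) < d := by linarith
  have hfr : finrank ℝ (EuclideanSpace ℝ (Fin d)) = d := finrank_euclideanSpace_fin
  have h0K : (0 : EuclideanSpace ℝ (Fin d)) ∈ K := mem_of_mem_nhds hK0
  have hV0 : volume K ≠ 0 := (Measure.measure_pos_of_mem_nhds volume hK0).ne'
  have hAc : 0 < (A.card : ℝ) := by exact_mod_cast hA.card_pos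
  set l : ℝ := 1 - 1 / (2 * d) with hl
  have hl0 : 0 < l := by
    rw [hl]
    have : 1 / (2 * (d : ℝ)) ≤ 1 / 2 := by
      apply div_le_div_of_nonneg_left (by norm_num) (by norm_num); linarith
    linarith
  have hl1 : l ≤ 1 := by
    rw [hl]
    have : 0 ≤ 1 / (2 * (d : ℝ)) := by positivity
    linarith
  have hLm : MeasurableSet (l • K) := (hKc.smul l).isClosed.measurableSet
  have hLt : volume (l • K) ≠ ⊤ := (hKc.smul l).measure_lt_top.ne
  have hL0 : volume (l • K) ≠ 0 := by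
    rw [Measure.addHaar_smul]
    refine mul_ne_zero ?_ hV0
    simp only [ne_eq, ENNReal.ofReal_eq_zero, not_le]
    positivity
  have hLK : l • K ⊆ K := by
    have := smul_mono hK h0K hl0.le hl1
    rwa [one_smul] at this
  set B : Set (EuclideanSpace ℝ (Fin d)) := (fun w => w + (-v)) ⁻¹' (ρ • K) with hB
  have hρm : MeasurableSet (ρ • K) := (hKc.smul _).isClosed.measurableSet
  have hBm : MeasurableSet B := hρm.preimage (measurable_add_const _)
  have hBv : volume B = ENNReal.ofReal (ρ ^ d) * volume K := by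
    rw [hB, measure_preimage_add_right, Measure.addHaar_smul, hfr, abs_of_pos (by positivity)]
  have h1 := dom_prob hd hK hKc h0K hV0 A hA hAK k hq0 hq C hC B hBm (ρ ^ d) (by positivity) (by
      rw [← hBv]
      exact measure_mono Set.inter_subset_left)
  rw [itn_apply A _ k _ hBm] at h1
  set F : Finset (Fin k → A) := univ.filter fun x : Fin k → A => ∀ z ∈ K,
      dy k (fun i => (x i : EuclideanSpace ℝ (Fin d))) + (1 / 2 : ℝ) ^ k • z - v ∈ ρ • K with hF
  have h3 : ∀ x : Fin k → A, (if x ∈ F then (1 : ℝ≥0∞) else 0) ≤ un volume (l • K)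
      ((fun s => dy k (fun i => (x i : EuclideanSpace ℝ (Fin d))) + (1 / 2 : ℝ) ^ k • s) ⁻¹' B) := by
    intro x
    split_ifs with h
    · rw [hF, Finset.mem_filter] at h
      have hm : Measurable (fun s : EuclideanSpace ℝ (Fin d) =>
          dy k (fun i => (x i : EuclideanSpace ℝ (Fin d))) + (1 / 2 : ℝ) ^ k • s) :=
        (by fun_prop : Continuous fun s : EuclideanSpace ℝ (Fin d) =>
          dy k (fun i => (x i : EuclideanSpace ℝ (Fin d))) + (1 / 2 : ℝ) ^ k • s).measurable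
      rw [un_apply volume _ _ (hm hBm)]
      have hall : ((fun s => dy k (fun i => (x i : EuclideanSpace ℝ (Fin d)))
          + (1 / 2 : ℝ) ^ k • s) ⁻¹' B) ∩ (l • K) = l • K := by
        rw [Set.inter_eq_right]
        intro s hs
        have h4 := h.2 s (hLK hs)
        change _ + (-v) ∈ ρ • K
        rw [← sub_eq_add_neg]
        exact h4
      rw [hall, ENNReal.inv_mul_cancel hL0 hLt]
    · exact zero_le
  have h4 : ((A.card : ℝ≥0∞)⁻¹) ^ k * (F.card : ℝ≥0∞)
      ≤ ENNReal.ofReal ((C * (2 ^ d * q)) ^ k * (2 * ρ ^ d) + k / C) := by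
    refine le_trans ?_ h1
    gcongr
    calc (F.card : ℝ≥0∞) = ∑ x : Fin k → A, (if x ∈ F then (1 : ℝ≥0∞) else 0) := by
          rw [Finset.sum_boole]
          simp
      _ ≤ _ := Finset.sum_le_sum fun x _ => h3 x
  have h5 : ((A.card : ℝ≥0∞)⁻¹) ^ k * (F.card : ℝ≥0∞)
      = ENNReal.ofReal (((A.card : ℝ) ^ k)⁻¹ * F.card) := by
    rw [← inv_pow, ENNReal.ofReal_mul (by positivity), ENNReal.ofReal_natCast,
      ENNReal.ofReal_pow (by positivity), ENNReal.ofReal_inv_of_pos hAc, ENNReal.ofReal_natCast]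
  rw [h5, ENNReal.ofReal_le_ofReal_iff (by positivity), inv_mul_le_iff₀ (by positivity)] at h4
  exact h4

/-- `n` points of `K` and `n` affine functions `ψ_j = h_j - φ_j ≥ 0` on `K` with `ψ_j(x_j) = 1`,
`ψ_j(x_i) ≤ ε` for `i ≠ j` and `θ ψ_j(o) ≤ 1` -/
def ApproxSimplex {E : Type*} [NormedAddCommGroup E] [NormedSpace ℝ E] (n : ℕ) (ε θ : ℝ) (o : E)
    (K : Set E) : Prop :=
  ∃ x : Fin n → E, (∀ j, x j ∈ K) ∧ ∀ j, ∃ (φ : E →L[ℝ] ℝ) (h : ℝ), (∀ y ∈ K, 0 ≤ h - φ y) ∧
    h - φ (x j) = 1 ∧ (∀ i, i ≠ j → h - φ (x i) ≤ ε) ∧ θ * (h - φ o) ≤ 1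

/-- **Core inequality for approximate simplices** -/
theorem simplex_core (hd : 1 ≤ d) (hK : Convex ℝ K) (hKc : IsCompact K) (hK0 : K ∈ nhds 0)
    {k : ℕ} (hk : 1 ≤ k) {ε θ : ℝ} (hε0 : 0 < ε) (hε1 : ε ≤ 1) (hθ0 : 0 ≤ θ)
    (hS : ¬ ApproxSimplex (k + 1) ε θ 0 K)
    (A : Finset (EuclideanSpace ℝ (Fin d))) (hA : A.Nonempty) (hAK : ∀ a ∈ A, a ∈ K)
    {q : ℝ} (hq0 : 0 < q)
    (hq : ∀ t : EuclideanSpace ℝ (Fin d), (open Classical in
      ((A.filter fun x => x - t ∈ (1 - 1 / (2 * d) / 2 ^ k : ℝ) • K).card : ℝ)) ≤ q * A.card) :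
    1 ≤ (4 * k * (k + 1) * (2 ^ d * q)) ^ k * (4 * (1 - ε * (1 - θ) / 2 ^ k) ^ d) := by
  classical
  have hk' : (1 : ℝ) ≤ k := by exact_mod_cast hk
  have hp1 : (2 : ℝ) ≤ 2 ^ k := by
    calc (2 : ℝ) = 2 ^ 1 := by norm_num
      _ ≤ 2 ^ k := pow_le_pow_right₀ (by norm_num) hk
  have hρ : (0 : ℝ) < 1 - ε * (1 - θ) / 2 ^ k := by
    have h2 : ε * (1 - θ) / (2 : ℝ) ^ k ≤ 1 / 2 := by
      rw [div_le_div_iff₀ (by positivity) (by norm_num)]
      nlinarith
    linarith
  set ρ := 1 - ε * (1 - θ) / 2 ^ k with hρd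
  set N : ℝ := (A.card : ℝ) with hN
  have hN0 : 0 < N := by rw [hN]; exact_mod_cast hA.card_pos
  set G : ℝ := (2 * k * (k + 1) * (2 ^ d * q)) ^ k * (2 * ρ ^ d) + k / (2 * k * (k + 1)) with hG
  -- the bad pairs
  let bad : A → (Fin k → A) → Prop := fun y x => ∀ z ∈ K,
      dy k (fun i => (x i : EuclideanSpace ℝ (Fin d))) + (1 / 2 : ℝ) ^ k • z
        - (ε / 2 ^ k) • (y : EuclideanSpace ℝ (Fin d)) ∈ ρ • K
  have hbad : ∀ y : A, (((univ : Finset (Fin k → A)).filter fun x => bad y x).card : ℝ)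
      ≤ N ^ k * G := fun y =>
    count_bad hd hK hKc hK0 k A hA hAK hq0 hq (by positivity) hρ _
  -- some tuple has no bad pair
  have key : ¬ (∀ ω : Fin (k + 1) → A, ∃ j, bad (ω j) (fun i => ω (j.succAbove i))) → False := by
    intro hcon
    push Not at hcon
    obtain ⟨ω, hω⟩ := hcon
    apply hS
    refine ⟨fun j => (ω j : EuclideanSpace ℝ (Fin d)), fun j => hAK _ (ω j).2, fun j => ?_⟩
    have h1 := hω j
    simp only [bad, not_forall] at h1
    obtain ⟨z, hz, hzw⟩ := h1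
    have hρe : (1 : ℝ) - ε / 2 ^ k + θ * ε / 2 ^ k = ρ := by rw [hρd]; ring
    obtain ⟨φ, h, hh0, hφK, ha, hx⟩ := det_gen hK hKc (mem_of_mem_nhds hK0) k
      (fun i => (ω (j.succAbove i) : EuclideanSpace ℝ (Fin d))) (fun i => hAK _ (ω _).2) z
      (ω j : EuclideanSpace ℝ (Fin d)) hz (τ := ε / 2 ^ k) (σ := θ * ε / 2 ^ k) (by
        rw [hρe]; exact hρ) (by rw [hρe]; exact hzw)
    set a := h - φ (ω j : EuclideanSpace ℝ (Fin d)) with ha'
    have hθa : θ * h < a := by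
      have e1 : ε / 2 ^ k * a - θ * ε / 2 ^ k * h = ε / 2 ^ k * (a - θ * h) := by ring
      rw [e1] at ha
      have : 0 < ε / 2 ^ k := by positivity
      have := (mul_pos_iff_of_pos_left this).1 ha
      linarith
    have hpos : 0 < a := lt_of_le_of_lt (by positivity) hθa
    refine ⟨a⁻¹ • φ, a⁻¹ * h, ?_, ?_, ?_, ?_⟩
    · intro y hy
      have h2 := hφK y hy
      simp only [smul_apply, smul_eq_mul, ← mul_sub]
      apply mul_nonneg (by positivity)
      linarith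
    · simp only [smul_apply, smul_eq_mul, ← mul_sub]
      exact inv_mul_cancel₀ hpos.ne'
    · intro i hi
      obtain ⟨i', rfl⟩ := Fin.exists_succAbove_eq hi
      have h2 := hx i'
      simp only [smul_apply, smul_eq_mul, ← mul_sub]
      rw [inv_mul_le_iff₀ hpos]
      have e1 : 2 ^ k * (ε / 2 ^ k * a - θ * ε / 2 ^ k * h) = ε * (a - θ * h) := by
        field_simp
      rw [e1] at h2
      have e2 : 0 ≤ θ * h := by positivity
      nlinarith
    · rw [map_zero, sub_zero, ← mul_assoc, mul_comm θ, mul_assoc, inv_mul_le_iff₀ hpos, mul_one]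
      exact hθa.le
  have key2 : ∀ ω : Fin (k + 1) → A, ∃ j, bad (ω j) (fun i => ω (j.succAbove i)) := by
    by_contra h
    exact key h
  -- counting
  have h1 : N ^ (k + 1) ≤ (k + 1) * (N * (N ^ k * G)) := by
    have h2 : (univ : Finset (Fin (k + 1) → A)) ⊆ (univ : Finset (Fin (k + 1))).biUnion fun j =>
        univ.filter fun ω : Fin (k + 1) → A => bad (ω j) (fun i => ω (j.succAbove i)) := by
      intro ω _
      obtain ⟨j, hj⟩ := key2 ω
      exact Finset.mem_biUnion.2 ⟨j, Finset.mem_univ _, Finset.mem_filter.2 ⟨Finset.mem_univ _, hj⟩⟩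
    have h3 := (Finset.card_le_card h2).trans Finset.card_biUnion_le
    rw [Finset.card_univ, Fintype.card_fun, Fintype.card_coe, Fintype.card_fin] at h3
    have h4 : ∀ j : Fin (k + 1), ((univ.filter fun ω : Fin (k + 1) → A =>
        bad (ω j) (fun i => ω (j.succAbove i))).card : ℝ) ≤ N * (N ^ k * G) := by
      intro j
      have h5 : ((univ.filter fun ω : Fin (k + 1) → A =>
        bad (ω j) (fun i => ω (j.succAbove i))).card : ℝ)
          = ∑ y : A, (((univ : Finset (Fin k → A)).filter fun x => bad y x).card : ℝ) := by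
        rw [Finset.card_filter]
        push_cast
        rw [← (Fin.insertNthEquiv (fun _ => A) j).sum_comp, Fintype.sum_prod_type]
        refine Finset.sum_congr rfl fun y _ => ?_
        rw [Finset.card_filter]
        push_cast
        refine Finset.sum_congr rfl fun x _ => ?_
        simp
      rw [h5]
      calc ∑ y : A, (((univ : Finset (Fin k → A)).filter fun x => bad y x).card : ℝ)
          ≤ ∑ _y : A, N ^ k * G := Finset.sum_le_sum fun y _ => hbad y
        _ = N * (N ^ k * G) := by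
            rw [Finset.sum_const, Finset.card_univ, Fintype.card_coe, nsmul_eq_mul]
    have h6 : ((A.card ^ (k + 1) : ℕ) : ℝ) ≤ ∑ j : Fin (k + 1), ((univ.filter
        fun ω : Fin (k + 1) → A => bad (ω j) (fun i => ω (j.succAbove i))).card : ℝ) := by
      exact_mod_cast h3
    push_cast at h6
    refine h6.trans ((Finset.sum_le_sum fun j _ => h4 j).trans (le_of_eq ?_))
    rw [Finset.sum_const, Finset.card_univ, Fintype.card_fin, nsmul_eq_mul]
    push_cast
    rfl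
  have h2 : 1 ≤ (k + 1) * G := by
    have e : (k + 1) * (N * (N ^ k * G)) = N ^ (k + 1) * ((k + 1) * G) := by ring
    rw [e] at h1
    have h3 : N ^ (k + 1) * 1 ≤ N ^ (k + 1) * ((k + 1) * G) := by rw [mul_one]; exact h1
    exact le_of_mul_le_mul_left h3 (by positivity)
  have h3 : ((k : ℝ) + 1) * (k / (2 * k * (k + 1))) = 1 / 2 := by
    field_simp
  have h4 : 1 / 2 ≤ ((k : ℝ) + 1) * ((2 * k * (k + 1) * (2 ^ d * q)) ^ k * (2 * ρ ^ d)) := by
    rw [hG, mul_add, h3] at h2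
    linarith
  have h5 : ((k : ℝ) + 1) ≤ 2 ^ k := by
    have : k + 1 ≤ 2 ^ k := Nat.lt_two_pow_self
    exact_mod_cast this
  have h6 : (4 * k * (k + 1) * (2 ^ d * q)) ^ k = 2 ^ k * (2 * k * (k + 1) * (2 ^ d * q)) ^ k := by
    rw [← mul_pow]
    congr 1
    ring
  have h7 : ((k : ℝ) + 1) * ((2 * k * (k + 1) * (2 ^ d * q)) ^ k * (2 * ρ ^ d))
      ≤ 2 ^ k * ((2 * k * (k + 1) * (2 ^ d * q)) ^ k * (2 * ρ ^ d)) := by
    gcongr
  rw [h6]
  linarith

end Core

end Pool.Agent.Run7.h533.AC
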