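import Mathlib
import Pool.Agent.Run7.h533.AC.Smp
import Pool.Agent.Run7.h533.AC.Lln3

set_option autoImplicit false

/-!
# Signed sums of differences, and the covering theorems
-/

open MeasureTheory Module Finset
open scoped Pointwise ENNReal

namespace Pool.Agent.Run7.h533.AC

/-- for all points `x_i, y_i` of `K` (`i < N`) some signed sum of the differences `x_i - y_i` is in
`θ N K` -/
def SignSums {E : Type*} [AddCommGroup E] [Module ℝ E] (N : ℕ) (θ : ℝ) (K : Set E) : Prop :=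
  ∀ x y : Fin N → E, (∀ i, x i ∈ K) → (∀ i, y i ∈ K) →
    ∃ b : Fin N → Bool, ∑ i, sg (b i) • (x i - y i) ∈ (θ * N) • K

section Core

variable {d : ℕ} {K : Set (EuclideanSpace ℝ (Fin d))}

/-- **Core inequality for signed sums** -/
theorem sign_core (hd : 1 ≤ d) (hK : Convex ℝ K) (hKc : IsCompact K) (hK0 : K ∈ nhds 0)
    {k : ℕ} (hk : 1 ≤ k) {θ : ℝ} (hθ0 : 0 ≤ θ)
    (hS : SignSums k θ K)
    (A : Finset (EuclideanSpace ℝ (Fin d))) (hA : A.Nonempty) (hAK : ∀ a ∈ A, a ∈ K)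
    {q : ℝ} (hq0 : 0 < q)
    (hq : ∀ t : EuclideanSpace ℝ (Fin d), (open Classical in
      ((A.filter fun x => x - t ∈ (1 - 1 / (2 * d) / 2 ^ k : ℝ) • K).card : ℝ)) ≤ q * A.card) :
    1 ≤ (4 * k * 2 ^ k * (2 ^ d * q)) ^ k * (4 * (1 - (1 - θ) / 2 ^ k) ^ d) := by
  classical
  have hk' : (1 : ℝ) ≤ k := by exact_mod_cast hk
  have hp1 : (2 : ℝ) ≤ 2 ^ k := by
    calc (2 : ℝ) = 2 ^ 1 := by norm_num
      _ ≤ 2 ^ k := pow_le_pow_right₀ (by norm_num) hk
  have hρ : (0 : ℝ) < 1 - (1 - θ) / 2 ^ k := by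
    have h2 : (1 - θ) / (2 : ℝ) ^ k ≤ 1 / 2 := by
      rw [div_le_div_iff₀ (by positivity) (by norm_num)]
      linarith
    linarith
  set ρ := 1 - (1 - θ) / 2 ^ k with hρd
  have h0K : (0 : EuclideanSpace ℝ (Fin d)) ∈ K := mem_of_mem_nhds hK0
  set N : ℝ := (A.card : ℝ) with hN
  have hN0 : 0 < N := by rw [hN]; exact_mod_cast hA.card_pos
  set G : ℝ := (2 * k * 2 ^ k * (2 ^ d * q)) ^ k * (2 * ρ ^ d) + k / (2 * k * 2 ^ k) with hG
  -- the bad pairs
  let bad : (Fin k → A) → (Fin k → A) → Prop := fun x y => ∀ z ∈ K,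
      dy k (fun i => (x i : EuclideanSpace ℝ (Fin d))) + (1 / 2 : ℝ) ^ k • z
        - (1 / 2 ^ k : ℝ) • ((1 / k : ℝ) • ∑ i, (y i : EuclideanSpace ℝ (Fin d))) ∈ ρ • K
  have hbad : ∀ y : Fin k → A, (((univ : Finset (Fin k → A)).filter fun x => bad x y).card : ℝ)
      ≤ N ^ k * G := fun y =>
    count_bad hd hK hKc hK0 k A hA hAK hq0 hq (by positivity) hρ _
  -- exchanging some of the points
  let sw : (Fin k → Bool) → (Fin k → A) × (Fin k → A) → (Fin k → A) × (Fin k → A) :=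
    fun b p => (fun i => cond (b i) (p.1 i) (p.2 i), fun i => cond (b i) (p.2 i) (p.1 i))
  have hsw : ∀ b p, sw b (sw b p) = p := by
    rintro b ⟨x, y⟩
    ext i
    · simp only [sw]
      cases b i <;> rfl
    · simp only [sw]
      cases b i <;> rfl
  let e : (Fin k → Bool) → (Fin k → A) × (Fin k → A) ≃ (Fin k → A) × (Fin k → A) :=
    fun b => ⟨sw b, sw b, hsw b, hsw b⟩
  have key2 : ∀ p : (Fin k → A) × (Fin k → A), ∃ b, bad (sw b p).1 (sw b p).2 := by
    rintro ⟨x, y⟩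
    by_contra hcon
    push Not at hcon
    obtain ⟨b, hb⟩ := hS (fun i => (x i : EuclideanSpace ℝ (Fin d)))
      (fun i => (y i : EuclideanSpace ℝ (Fin d))) (fun i => hAK _ (x i).2) (fun i => hAK _ (y i).2)
    have h1 := hcon b
    simp only [bad, not_forall] at h1
    obtain ⟨z, hz, hzw⟩ := h1
    have hρe : (1 : ℝ) - 1 / 2 ^ k + θ / 2 ^ k = ρ := by rw [hρd]; ring
    obtain ⟨φ, h, hh0, hφK, ha, hx⟩ := det_gen hK hKc h0K k
      (fun i => ((sw b (x, y)).1 i : EuclideanSpace ℝ (Fin d))) (fun i => hAK _ (Subtype.mem _)) z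
      ((1 / k : ℝ) • ∑ i, ((sw b (x, y)).2 i : EuclideanSpace ℝ (Fin d))) hz
      (τ := 1 / 2 ^ k) (σ := θ / 2 ^ k) (by rw [hρe]; exact hρ) (by rw [hρe]; exact hzw)
    set u : EuclideanSpace ℝ (Fin d) :=
      (1 / k : ℝ) • ∑ i, ((sw b (x, y)).2 i : EuclideanSpace ℝ (Fin d)) with hu
    have h2 : ∀ i, h - φ ((sw b (x, y)).1 i : EuclideanSpace ℝ (Fin d)) < (h - φ u) - θ * h := by
      intro i
      refine (hx i).trans_le (le_of_eq ?_)
      field_simp
    have h3 : ∑ i, (h - φ ((sw b (x, y)).1 i : EuclideanSpace ℝ (Fin d)))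
        < k * ((h - φ u) - θ * h) := by
      have hne : (univ : Finset (Fin k)).Nonempty := ⟨⟨0, by omega⟩, Finset.mem_univ _⟩
      have := Finset.sum_lt_sum_of_nonempty hne (fun i _ => h2 i)
      rw [Finset.sum_const, Finset.card_univ, Fintype.card_fin, nsmul_eq_mul] at this
      exact this
    have h4 : φ (∑ i, sg (b i) • ((x i : EuclideanSpace ℝ (Fin d)) - y i)) ≤ θ * k * h := by
      obtain ⟨v, hv, hvE⟩ := hb
      simp only at hvE
      rw [← hvE, map_smul, smul_eq_mul]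
      have := hφK v hv
      gcongr
    have h5 : ∑ i, sg (b i) • ((x i : EuclideanSpace ℝ (Fin d)) - y i)
        = ∑ i, (((sw b (x, y)).1 i : EuclideanSpace ℝ (Fin d)) - (sw b (x, y)).2 i) := by
      refine Finset.sum_congr rfl fun i _ => ?_
      simp only [sw]
      cases b i
      · simp [sg]
      · simp [sg]
    have h6 : (k : ℝ) * φ u = ∑ i, φ ((sw b (x, y)).2 i : EuclideanSpace ℝ (Fin d)) := by
      rw [hu, map_smul, map_sum, smul_eq_mul]
      field_simp
    rw [h5, map_sum] at h4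
    simp only [map_sub, Finset.sum_sub_distrib] at h4
    rw [Finset.sum_sub_distrib] at h3
    simp only [Finset.sum_const, Finset.card_univ, Fintype.card_fin, nsmul_eq_mul] at h3
    rw [← h6] at h4
    nlinarith
  -- counting
  have h0 : ∀ b : Fin k → Bool, (((univ : Finset ((Fin k → A) × (Fin k → A))).filter
      fun p => bad (sw b p).1 (sw b p).2).card : ℝ) ≤ N ^ k * (N ^ k * G) := by
    intro b
    have h5 : (((univ : Finset ((Fin k → A) × (Fin k → A))).filter
      fun p => bad (sw b p).1 (sw b p).2).card : ℝ)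
        = ∑ y : Fin k → A, (((univ : Finset (Fin k → A)).filter fun x => bad x y).card : ℝ) := by
      rw [Finset.card_filter]
      push_cast
      have h7 : ∑ p : (Fin k → A) × (Fin k → A), (if bad (sw b p).1 (sw b p).2 then (1 : ℝ) else 0)
          = ∑ p : (Fin k → A) × (Fin k → A), (if bad p.1 p.2 then (1 : ℝ) else 0) :=
        (e b).sum_comp (fun p => if bad p.1 p.2 then (1 : ℝ) else 0)
      rw [h7, Fintype.sum_prod_type_right]
      refine Finset.sum_congr rfl fun y _ => ?_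
      rw [Finset.card_filter]
      push_cast
      rfl
    rw [h5]
    calc ∑ y : Fin k → A, (((univ : Finset (Fin k → A)).filter fun x => bad x y).card : ℝ)
        ≤ ∑ _y : Fin k → A, N ^ k * G := Finset.sum_le_sum fun y _ => hbad y
      _ = N ^ k * (N ^ k * G) := by
          rw [Finset.sum_const, Finset.card_univ, Fintype.card_fun, Fintype.card_coe,
            Fintype.card_fin, nsmul_eq_mul]
          push_cast
          rfl
  have h1 : N ^ k * N ^ k ≤ 2 ^ k * (N ^ k * (N ^ k * G)) := by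
    have h2 : (univ : Finset ((Fin k → A) × (Fin k → A)))
        ⊆ (univ : Finset (Fin k → Bool)).biUnion fun b =>
          univ.filter fun p => bad (sw b p).1 (sw b p).2 := by
      intro p _
      obtain ⟨b, hb⟩ := key2 p
      exact Finset.mem_biUnion.2 ⟨b, Finset.mem_univ _, Finset.mem_filter.2 ⟨Finset.mem_univ _, hb⟩⟩
    have h3 := (Finset.card_le_card h2).trans Finset.card_biUnion_le
    rw [Finset.card_univ, Fintype.card_prod, Fintype.card_fun, Fintype.card_coe,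
      Fintype.card_fin] at h3
    have h6 : ((A.card ^ k * A.card ^ k : ℕ) : ℝ) ≤ ∑ b : Fin k → Bool,
        (((univ : Finset ((Fin k → A) × (Fin k → A))).filter
          fun p => bad (sw b p).1 (sw b p).2).card : ℝ) := by
      exact_mod_cast h3
    push_cast at h6
    refine h6.trans ((Finset.sum_le_sum fun b _ => h0 b).trans (le_of_eq ?_))
    rw [Finset.sum_const, Finset.card_univ, Fintype.card_fun, Fintype.card_fin,
      Fintype.card_bool, nsmul_eq_mul]
    push_cast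
    rfl
  have h2 : 1 ≤ 2 ^ k * G := by
    have e1 : 2 ^ k * (N ^ k * (N ^ k * G)) = (N ^ k * N ^ k) * (2 ^ k * G) := by ring
    rw [e1] at h1
    have h3 : (N ^ k * N ^ k) * 1 ≤ (N ^ k * N ^ k) * (2 ^ k * G) := by rw [mul_one]; exact h1
    exact le_of_mul_le_mul_left h3 (by positivity)
  have h3 : (2 : ℝ) ^ k * (k / (2 * k * 2 ^ k)) = 1 / 2 := by
    field_simp
  have h4 : 1 / 2 ≤ (2 : ℝ) ^ k * ((2 * k * 2 ^ k * (2 ^ d * q)) ^ k * (2 * ρ ^ d)) := by
    rw [hG, mul_add, h3] at h2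
    linarith
  have h6 : (4 * k * 2 ^ k * (2 ^ d * q)) ^ k = 2 ^ k * (2 * k * 2 ^ k * (2 ^ d * q)) ^ k := by
    rw [← mul_pow]
    congr 1
    ring
  rw [h6]
  linarith

/-- the covering from the core inequality -/
theorem cover_of_core (hd : 1 ≤ d) (hK : Convex ℝ K) (hKc : IsCompact K) (hK0 : K ∈ nhds 0)
    {k : ℕ} (hk : 1 ≤ k) {c ρ : ℝ} (hc : 0 < c) (hρ : 0 < ρ)
    (hcore : ∀ A : Finset (EuclideanSpace ℝ (Fin d)), A.Nonempty → (∀ a ∈ A, a ∈ K) →
      ∀ q : ℝ, 0 < q → (∀ t : EuclideanSpace ℝ (Fin d), (open Classical in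
      ((A.filter fun x => x - t ∈ (1 - 1 / (2 * d) / 2 ^ k : ℝ) • K).card : ℝ)) ≤ q * A.card) →
      1 ≤ (c * (2 ^ d * q)) ^ k * (4 * ρ ^ d)) :
    ∃ T : Finset (EuclideanSpace ℝ (Fin d)), K ⊆ ⋃ t ∈ T, (fun x => t + x) '' interior K ∧
      (T.card : ℝ) ≤ 1 + d * Real.log (1 + 2 ^ (k + 2) * d * (d + 1)) *
        (c * 2 ^ d * (5 * ρ ^ d) ^ (1 / k : ℝ)) := by
  classical
  have hd' : (1 : ℝ) ≤ d := by exact_mod_cast hd
  have hd0 : (0 : ℝ) < d := by linarith
  have hk' : (1 : ℝ) ≤ k := by exact_mod_cast hk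
  have hfr : finrank ℝ (EuclideanSpace ℝ (Fin d)) = d := finrank_euclideanSpace_fin
  set R : ℝ := (5 * ρ ^ d) ^ (1 / k : ℝ) with hR
  have hR0 : 0 < R := Real.rpow_pos_of_pos (by positivity) _
  have hRp : R ^ k = 5 * ρ ^ d := by
    rw [hR, ← Real.rpow_natCast, ← Real.rpow_mul (by positivity)]
    have : (1 / k : ℝ) * (k : ℝ) = 1 := by field_simp
    rw [this, Real.rpow_one]
  set θ : ℝ := (c * 2 ^ d * R)⁻¹ with hθ
  have hθ0 : 0 < θ := by positivity
  have hKi : (interior K).Nonempty := ⟨0, mem_interior_iff_mem_nhds.2 hK0⟩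
  obtain ⟨T, hT, hTc⟩ := cover_of_share K hK hKc hKi (by rw [hfr]; omega)
    (1 - 1 / (2 * d) / 2 ^ k) (1 / (2 ^ (k + 2) * d * (d + 1))) θ
    (by
      have h1 : 1 / (2 * (d : ℝ)) / 2 ^ k ≤ 1 / 2 := by
        rw [div_div, div_le_div_iff₀ (by positivity) (by norm_num)]
        have : (1 : ℝ) ≤ 2 ^ k := one_le_pow₀ (by norm_num)
        nlinarith
      linarith)
    (by positivity)
    (by
      rw [hfr]
      have h1 : 1 / (2 ^ (k + 2) * (d : ℝ) * (d + 1)) + 1 / (2 ^ (k + 2) * (d : ℝ) * (d + 1)) * d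
          = 1 / (2 ^ (k + 2) * d) := by
        field_simp
        ring
      have h2 : 1 / (2 * (d : ℝ)) / 2 ^ k = 1 / (2 ^ (k + 1) * d) := by
        rw [div_div, pow_succ]
        congr 1
        ring
      have h3 : 1 / (2 ^ (k + 2) * (d : ℝ)) < 1 / (2 ^ (k + 1) * d) := by
        apply div_lt_div_of_pos_left one_pos (by positivity)
        have : (2 : ℝ) ^ (k + 2) = 2 * 2 ^ (k + 1) := by ring
        rw [this]
        have : 0 < (2 : ℝ) ^ (k + 1) * d := by positivity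
        nlinarith
      rw [h2]
      linarith)
    hθ0
    (by
      intro A hA hAK
      by_contra hcon
      push Not at hcon
      have h1 := hcore A hA hAK θ hθ0 (fun t => (hcon t).le)
      have e1 : c * (2 ^ d * θ) = R⁻¹ := by rw [hθ]; field_simp
      rw [e1, inv_pow, hRp] at h1
      have e2 : (5 * ρ ^ d)⁻¹ * (4 * ρ ^ d) = 4 / 5 := by
        have h5 : (0 : ℝ) < ρ ^ d := by positivity
        generalize ρ ^ d = y at h5 ⊢
        field_simp
      rw [e2] at h1
      norm_num at h1)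
  refine ⟨T, hT, hTc.trans (le_of_eq ?_)⟩
  rw [hfr, one_div_one_div, hθ, div_inv_eq_mul]

end Core

theorem num_gen {d k : ℕ} (hd : 1 ≤ d) (hk : 1 ≤ k) {c t : ℝ} (hc : 4 * (k : ℝ) ≤ c)
    (ht : t ≤ 1 / 2) :
    1 + d * Real.log (1 + 2 ^ (k + 2) * d * (d + 1)) *
        (c * 2 ^ d * (5 * (1 - t) ^ d) ^ (1 / k : ℝ))
      ≤ 26 * c * k * d * Real.log (d + 1) * 2 ^ d * Real.exp (-(t * d / k)) := by
  have hd' : (1 : ℝ) ≤ d := by exact_mod_cast hd
  have hk' : (1 : ℝ) ≤ k := by exact_mod_cast hk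
  have hc0 : 0 < c := by linarith
  have hp : (1 : ℝ) ≤ 2 ^ k := one_le_pow₀ (by norm_num)
  have hp2 : (2 : ℝ) ^ (k + 2) = 4 * 2 ^ k := by ring
  have hρ : (0 : ℝ) < 1 - t := by linarith
  set e : ℝ := Real.exp (-(t * d / k)) with he
  have he0 : 0 < e := Real.exp_pos _
  -- the root
  have h1 : (5 * (1 - t) ^ d : ℝ) ^ (1 / k : ℝ) ≤ 5 * e := by
    rw [Real.mul_rpow (by norm_num) (by positivity)]
    have a1 : (5 : ℝ) ^ (1 / k : ℝ) ≤ 5 := by
      calc (5 : ℝ) ^ (1 / k : ℝ) ≤ (5 : ℝ) ^ (1 : ℝ) := by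
            apply Real.rpow_le_rpow_of_exponent_le (by norm_num)
            rw [div_le_one (by linarith)]
            exact hk'
        _ = 5 := Real.rpow_one _
    have a2 : ((1 - t) ^ d : ℝ) ≤ Real.exp (-(t * d)) := by
      calc ((1 - t) ^ d : ℝ) ≤ (Real.exp (-t)) ^ d := by
            refine pow_le_pow_left₀ hρ.le ?_ d
            have := Real.add_one_le_exp (-t)
            linarith
        _ = Real.exp (-(t * d)) := by
            rw [← Real.exp_nat_mul]
            congr 1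
            ring
    have a3 : ((1 - t) ^ d : ℝ) ^ (1 / k : ℝ) ≤ e := by
      calc ((1 - t) ^ d : ℝ) ^ (1 / k : ℝ)
          ≤ (Real.exp (-(t * d))) ^ (1 / k : ℝ) :=
            Real.rpow_le_rpow (by positivity) a2 (by positivity)
        _ = e := by
            rw [he, ← Real.exp_mul]
            congr 1
            field_simp
    exact mul_le_mul a1 a3 (by positivity) (by norm_num)
  -- the logarithm
  have hl2 : Real.log 2 ≤ Real.log ((d : ℝ) + 1) := Real.log_le_log (by norm_num) (by linarith)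
  have hl2' : (1 / 2 : ℝ) ≤ Real.log 2 := by
    have := Real.log_two_gt_d9
    linarith
  set lg : ℝ := Real.log ((d : ℝ) + 1) with hlg
  have h2 : Real.log (1 + 2 ^ (k + 2) * d * (d + 1)) ≤ (k + 4) * lg := by
    have b1 : (1 + 2 ^ (k + 2) * d * (d + 1) : ℝ) ≤ 2 ^ (k + 2) * (d + 1) ^ 2 := by
      have : (1 : ℝ) ≤ 2 ^ (k + 2) * (d + 1) := by
        rw [hp2]
        nlinarith
      nlinarith
    calc Real.log (1 + 2 ^ (k + 2) * d * (d + 1)) ≤ Real.log (2 ^ (k + 2) * (d + 1) ^ 2) :=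
          Real.log_le_log (by positivity) b1
      _ = (k + 2) * Real.log 2 + 2 * lg := by
          rw [Real.log_mul (by positivity) (by positivity), Real.log_pow, Real.log_pow]
          push_cast
          ring
      _ ≤ (k + 4) * lg := by nlinarith
  -- the main term
  set X : ℝ := d * lg * 2 ^ d * e with hX
  have hlg0 : 1 / 2 ≤ lg := by linarith
  have hpe : 1 ≤ 2 ^ d * e := by
    have c1 : Real.exp (-(d / 2)) ≤ e := by
      rw [he]
      apply Real.exp_le_exp.2
      apply neg_le_neg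
      rw [div_le_div_iff₀ (by linarith) (by norm_num)]
      nlinarith
    have c2 : (1 : ℝ) ≤ 2 ^ d * Real.exp (-(d / 2)) := by
      have c3 : Real.exp (-((d : ℝ) / 2)) = Real.exp (-(1 / 2)) ^ d := by
        rw [← Real.exp_nat_mul]
        congr 1
        ring
      rw [c3, ← mul_pow]
      apply one_le_pow₀
      have := Real.add_one_le_exp (-(1 / 2) : ℝ)
      linarith
    calc (1 : ℝ) ≤ 2 ^ d * Real.exp (-(d / 2)) := c2
      _ ≤ 2 ^ d * e := by gcongr
  have hX1 : 1 / 2 ≤ X := by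
    have : (1 : ℝ) / 2 ≤ d * lg := by nlinarith
    rw [hX, mul_assoc]
    nlinarith
  have h3 : d * Real.log (1 + 2 ^ (k + 2) * d * (d + 1)) *
        (c * 2 ^ d * (5 * (1 - t) ^ d) ^ (1 / k : ℝ))
      ≤ 5 * c * (k + 4) * X := by
    calc d * Real.log (1 + 2 ^ (k + 2) * d * (d + 1)) *
        (c * 2 ^ d * (5 * (1 - t) ^ d) ^ (1 / k : ℝ))
        ≤ d * ((k + 4) * lg) * (c * 2 ^ d * (5 * e)) := by
          gcongr
      _ = 5 * c * (k + 4) * X := by rw [hX]; ring
  have h4 : 1 + 5 * c * (k + 4) * X ≤ 26 * c * k * X := by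
    have c1 : (k : ℝ) + 4 ≤ 5 * k := by linarith
    have c2 : 5 * c * (k + 4) * X ≤ 5 * c * (5 * k) * X := by gcongr
    have c3 : (1 : ℝ) ≤ c * k * X := by
      have c4 : (4 : ℝ) ≤ c := by linarith
      have c5 : (4 : ℝ) ≤ c * k := by nlinarith
      nlinarith
    nlinarith
  calc 1 + d * Real.log (1 + 2 ^ (k + 2) * d * (d + 1)) *
        (c * 2 ^ d * (5 * (1 - t) ^ d) ^ (1 / k : ℝ))
      ≤ 1 + 5 * c * (k + 4) * X := by linarith
    _ ≤ 26 * c * k * X := h4
    _ = 26 * c * k * d * lg * 2 ^ d * e := by rw [hX]; ring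

end Pool.Agent.Run7.h533.AC
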