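import Mathlib
import Pool.Agent.Run7.h533.AC.Lln3
import Pool.Agent.TH591.Ns.Cover

set_option autoImplicit false

/-!
# Small signed sums: bodies between balls, and between multiples of a body without `ℓ₁ⁿ`
-/

open Module Finset Metric
open scoped Pointwise

namespace Pool.Agent.Run7.h533.AC

section Euclid

variable {E : Type*} [NormedAddCommGroup E] [InnerProductSpace ℝ E]

theorem signs_euclid (N : ℕ) : ∀ v : Fin N → E, ∃ b : Fin N → Bool,
    ‖∑ i, sg (b i) • v i‖ ^ 2 ≤ ∑ i, ‖v i‖ ^ 2 := by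
  induction N with
  | zero => intro v; exact ⟨fun _ => true, by simp⟩
  | succ N ih =>
    intro v
    obtain ⟨b, hb⟩ := ih (fun i => v i.succ)
    set S := ∑ i : Fin N, sg (b i) • v i.succ with hS
    rcases le_total (inner ℝ (v 0) S) 0 with h | h
    · refine ⟨Fin.cons true b, ?_⟩
      rw [Fin.sum_univ_succ, Fin.sum_univ_succ]
      simp only [Fin.cons_zero, Fin.cons_succ, sg_true, one_smul]
      rw [← hS, norm_add_sq_real]
      linarith
    · refine ⟨Fin.cons false b, ?_⟩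
      rw [Fin.sum_univ_succ, Fin.sum_univ_succ]
      simp only [Fin.cons_zero, Fin.cons_succ, sg_false, neg_smul, one_smul]
      rw [← hS, norm_add_sq_real, norm_neg, inner_neg_left]
      linarith

theorem signs_ball {K : Set E} {o c : E} {r R θ : ℝ} (hr : 0 < r) (hθ : 0 < θ)
    (h1 : closedBall o r ⊆ K) (h2 : K ⊆ closedBall c R) {N : ℕ} (hN : 1 ≤ N)
    (hNR : 4 * R ^ 2 ≤ θ ^ 2 * N * r ^ 2) (x y : Fin N → E) (hx : ∀ i, x i ∈ K)
    (hy : ∀ i, y i ∈ K) : ∃ b : Fin N → Bool, ∃ v ∈ K,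
      ∑ i, sg (b i) • (x i - y i) = (θ * N) • (v - o) := by
  have hN' : (1 : ℝ) ≤ N := by exact_mod_cast hN
  obtain ⟨b, hb⟩ := signs_euclid N (fun i => x i - y i)
  set S := ∑ i, sg (b i) • (x i - y i) with hS
  have h3 : ∀ i, ‖x i - y i‖ ^ 2 ≤ 4 * R ^ 2 := by
    intro i
    have a1 := h2 (hx i)
    have a2 := h2 (hy i)
    rw [mem_closedBall, dist_eq_norm] at a1 a2
    have a3 : ‖x i - y i‖ ≤ 2 * R := by
      calc ‖x i - y i‖ = ‖(x i - c) - (y i - c)‖ := by congr 1; abel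
        _ ≤ ‖x i - c‖ + ‖y i - c‖ := norm_sub_le _ _
        _ ≤ 2 * R := by linarith
    calc ‖x i - y i‖ ^ 2 ≤ (2 * R) ^ 2 := pow_le_pow_left₀ (norm_nonneg _) a3 2
      _ = 4 * R ^ 2 := by ring
  have h4 : ‖S‖ ^ 2 ≤ (θ * N * r) ^ 2 := by
    calc ‖S‖ ^ 2 ≤ ∑ i, ‖x i - y i‖ ^ 2 := hb
      _ ≤ ∑ _i : Fin N, 4 * R ^ 2 := Finset.sum_le_sum fun i _ => h3 i
      _ = N * (4 * R ^ 2) := by simp
      _ ≤ N * (θ ^ 2 * N * r ^ 2) := by gcongr
      _ = (θ * N * r) ^ 2 := by ring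
  have h5 : ‖S‖ ≤ θ * N * r := le_of_sq_le_sq h4 (by positivity)
  have hθN : 0 < θ * N := by positivity
  refine ⟨b, (θ * N)⁻¹ • S + o, h1 ?_, ?_⟩
  · rw [mem_closedBall, dist_eq_norm, add_sub_cancel_right, norm_smul,
      Real.norm_of_nonneg (by positivity), inv_mul_le_iff₀ hθN]
    exact h5
  · rw [add_sub_cancel_right, smul_smul, mul_inv_cancel₀ hθN.ne', one_smul]

end Euclid

section Block

variable {E : Type*} [AddCommGroup E] [Module ℝ E]

/-- signed sums of vectors of length `≤ c` of length `≤ r c` -/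
def SB (p : Seminorm ℝ E) (ι : Type) [Fintype ι] (r : ℝ) : Prop :=
  ∀ c : ℝ, ∀ v : ι → E, (∀ i, p (v i) ≤ c) → ∃ b : ι → Bool, p (∑ i, sg (b i) • v i) ≤ r * c

theorem SB.equiv {p : Seminorm ℝ E} {ι ι' : Type} [Fintype ι] [Fintype ι'] (e : ι ≃ ι') {r : ℝ}
    (h : SB p ι r) : SB p ι' r := by
  intro c v hv
  obtain ⟨b, hb⟩ := h c (fun i => v (e i)) (fun i => hv _)
  refine ⟨fun i => b (e.symm i), ?_⟩
  rw [← e.sum_comp]
  simpa using hb

theorem SB.of_bc {p : Seminorm ℝ E} {n : ℕ} (hn : 1 ≤ n) {δ : ℝ} (h : BC p n δ) :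
    SB p (Fin n) ((1 - δ) * n) := by
  intro c v hv
  have hc : 0 ≤ c := (apply_nonneg p _).trans (hv ⟨0, by omega⟩)
  rcases eq_or_lt_of_le hc with hc | hc
  · refine ⟨fun _ => true, ?_⟩
    rw [← hc, mul_zero]
    refine (p_sum_sg p _ v).trans (Finset.sum_nonpos fun i _ => ?_)
    exact (hv i).trans hc.symm.le
  · obtain ⟨b, hb⟩ := h (fun i => c⁻¹ • v i) (fun i => by
      rw [map_smul_eq_mul, Real.norm_of_nonneg (by positivity), inv_mul_le_iff₀ hc, mul_one]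
      exact hv i)
    refine ⟨b, ?_⟩
    have e : ∑ i, sg (b i) • v i = c • ∑ i, sg (b i) • (c⁻¹ • v i) := by
      rw [Finset.smul_sum]
      refine Finset.sum_congr rfl fun i _ => ?_
      rw [smul_smul, smul_smul]
      congr 1
      field_simp
    rw [e, map_smul_eq_mul, Real.norm_of_nonneg hc.le]
    calc c * p (∑ i, sg (b i) • (c⁻¹ • v i)) ≤ c * ((1 - δ) * n) := by gcongr
      _ = _ := by ring

theorem SB.prod {p : Seminorm ℝ E} {ι κ : Type} [Fintype ι] [Fintype κ] {r s : ℝ}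
    (h1 : SB p ι r) (h2 : SB p κ s) : SB p (κ × ι) (s * r) := by
  intro c v hv
  choose b hb using fun j : κ => h1 c (fun i => v (j, i)) (fun i => hv _)
  obtain ⟨a, ha⟩ := h2 (r * c) (fun j => ∑ i, sg (b j i) • v (j, i)) hb
  refine ⟨fun q => (a q.1 == b q.1 q.2), ?_⟩
  rw [Fintype.sum_prod_type]
  have e : ∀ j : κ, ∑ i, sg (a j == b j i) • v (j, i) = sg (a j) • ∑ i, sg (b j i) • v (j, i) := by
    intro j
    rw [Finset.smul_sum]
    refine Finset.sum_congr rfl fun i _ => ?_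
    rw [smul_smul]
    congr 1
    cases a j <;> cases b j i <;> simp [sg]
  simp only [e]
  refine ha.trans (le_of_eq ?_)
  ring

theorem SB.pow {p : Seminorm ℝ E} {n : ℕ} (hn : 1 ≤ n) {δ : ℝ} (h : BC p n δ) (j : ℕ) :
    SB p (Fin (n ^ j)) (((1 - δ) * n) ^ j) := by
  induction j with
  | zero =>
    intro c v hv
    refine ⟨fun _ => true, ?_⟩
    refine (p_sum_sg p _ v).trans ?_
    have : ∑ i, p (v i) ≤ ∑ _i : Fin (n ^ 0), c := Finset.sum_le_sum fun i _ => hv i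
    simpa using this
  | succ j ih =>
    have h1 := (SB.prod ih (SB.of_bc hn h)).equiv
      (finProdFinEquiv.trans (finCongr (by rw [pow_succ, mul_comm])) :
        Fin n × Fin (n ^ j) ≃ Fin (n ^ (j + 1)))
    have e : ((1 - δ) * (n : ℝ)) ^ (j + 1) = (1 - δ) * n * ((1 - δ) * n) ^ j := pow_succ' _ _
    rw [e]
    exact h1

end Block

section Bodies

variable {d : ℕ}

open Pool.Agent.TH591.Ns (mem_smul_iff)

theorem balanced_of_symm' {C : Set (EuclideanSpace ℝ (Fin d))}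
    (hC : Convex ℝ C) (hs : ∀ x ∈ C, -x ∈ C) : Balanced ℝ C := by
  rw [balanced_iff_smul_mem]
  intro a ha x hx
  have ha' := abs_le.mp (by simpa using ha : |a| ≤ 1)
  have h := hC hx (hs x hx) (show (0 : ℝ) ≤ (1 + a) / 2 by linarith [ha'.1])
    (show (0 : ℝ) ≤ (1 - a) / 2 by linarith [ha'.2]) (by ring)
  have e : ((1 + a) / 2) • x + ((1 - a) / 2) • (-x) = a • x := by
    rw [smul_neg, ← sub_eq_add_neg, ← sub_smul]
    congr 1
    ring
  rwa [e] at h

theorem zero_int {C : Set (EuclideanSpace ℝ (Fin d))} (hC : Convex ℝ C)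
    (hCi : (interior C).Nonempty) (hs : ∀ x ∈ C, -x ∈ C) : C ∈ nhds 0 := by
  obtain ⟨z, hz⟩ := hCi
  have hneg : -C = C := by
    ext x
    rw [Set.mem_neg]
    exact ⟨fun h => by simpa using hs _ h, fun h => hs x h⟩
  have hz' : -z ∈ interior C := by
    have h1 : -z ∈ -(interior C) := by simpa using hz
    have h2 : -(interior C) = interior (-C) := by
      rw [← Set.image_neg_eq_neg, ← Set.image_neg_eq_neg]
      exact (Homeomorph.neg _).image_interior C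
    rw [h2, hneg] at h1
    exact h1
  have h := hC.interior hz hz' (show (0 : ℝ) ≤ 1 / 2 by norm_num)
    (show (0 : ℝ) ≤ 1 / 2 by norm_num) (by norm_num)
  have e : (1 / 2 : ℝ) • z + (1 / 2 : ℝ) • (-z) = 0 := by
    rw [smul_neg, add_neg_cancel]
  rw [e] at h
  exact mem_interior_iff_mem_nhds.1 h

theorem bool_of_sign {n : ℕ} (s : Fin n → ℝ) (hs : ∀ i, s i = 1 ∨ s i = -1) :
    ∃ b : Fin n → Bool, ∀ i, sg (b i) = s i := by
  classical
  refine ⟨fun i => decide (s i = 1), fun i => ?_⟩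
  rcases hs i with h | h
  · simp [h, sg]
  · have : s i ≠ 1 := by rw [h]; norm_num
    simp [h, sg]
    norm_num

/-- small signed sums for a body `K` between `C + o` and `D C + c` -/
theorem signs_body {C K : Set (EuclideanSpace ℝ (Fin d))} (hC : Convex ℝ C) (hCc : IsCompact C)
    (hCi : (interior C).Nonempty) (hs : ∀ x ∈ C, -x ∈ C) {n : ℕ} (hn : 1 ≤ n) {δ : ℝ}
    (hδ1 : δ ≤ 1)
    (H : ∀ x : Fin n → EuclideanSpace ℝ (Fin d), (∀ i, x i ∈ C) →
      ∃ s : Fin n → ℝ, (∀ i, s i = 1 ∨ s i = -1) ∧ ∑ i, s i • x i ∈ ((1 - δ) * n) • C)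
    {o c : EuclideanSpace ℝ (Fin d)} {D θ : ℝ} (hD : 0 ≤ D) (hθ : 0 < θ)
    (h1 : ∀ u ∈ C, o + u ∈ K) (h2 : ∀ x ∈ K, ∃ u ∈ C, x = c + D • u) {j : ℕ}
    (hj : (1 - δ) ^ j * (2 * D) ≤ θ) (x y : Fin (n ^ j) → EuclideanSpace ℝ (Fin d))
    (hx : ∀ i, x i ∈ K) (hy : ∀ i, y i ∈ K) : ∃ b : Fin (n ^ j) → Bool, ∃ v ∈ K,
      ∑ i, sg (b i) • (x i - y i) = (θ * (n ^ j : ℕ)) • (v - o) := by
  have hC0 := zero_int hC hCi hs
  have hn' : (1 : ℝ) ≤ n := by exact_mod_cast hn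
  let p : Seminorm ℝ (EuclideanSpace ℝ (Fin d)) :=
    gaugeSeminorm (balanced_of_symm' hC hs) hC (absorbent_nhds_zero hC0)
  have hp : ∀ x, p x = gauge C x := fun x => rfl
  have hmem : ∀ y, p y ≤ 1 → y ∈ C := by
    intro y hy
    have := (mem_smul_iff hC hCc hC0 1 one_pos y).2 (by rw [← hp]; exact hy)
    rwa [one_smul] at this
  have hbc : BC p n δ := by
    intro x hx
    obtain ⟨s, hs1, hs2⟩ := H x (fun i => hmem _ (hx i))
    obtain ⟨b, hb⟩ := bool_of_sign s hs1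
    refine ⟨b, ?_⟩
    simp only [hb]
    rw [hp]
    exact gauge_le_of_mem (mul_nonneg (by linarith) (by linarith)) hs2
  obtain ⟨b, hb⟩ := SB.pow hn hbc j (2 * D) (fun i => x i - y i) (by
    intro i
    obtain ⟨u, hu, hxu⟩ := h2 _ (hx i)
    obtain ⟨v, hv, hyv⟩ := h2 _ (hy i)
    have e : x i - y i = D • (u - v) := by
      rw [hxu, hyv, smul_sub]
      abel
    have h3 : p (u - v) ≤ 2 := by
      have a1 : p u ≤ 1 := gauge_le_one_of_mem hu
      have a2 : p v ≤ 1 := gauge_le_one_of_mem hv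
      exact (map_sub_le_add p u v).trans (by linarith)
    rw [e, map_smul_eq_mul, Real.norm_of_nonneg hD]
    nlinarith)
  set S := ∑ i, sg (b i) • (x i - y i) with hS
  have hNpos : (0 : ℝ) < ((n ^ j : ℕ) : ℝ) := by
    have : 0 < n ^ j := Nat.pow_pos (by omega)
    exact_mod_cast this
  have hθN : 0 < θ * ((n ^ j : ℕ) : ℝ) := by positivity
  have h3 : gauge C S ≤ θ * ((n ^ j : ℕ) : ℝ) := by
    rw [← hp]
    refine hb.trans ?_
    rw [mul_pow]
    push_cast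
    calc (1 - δ) ^ j * (n : ℝ) ^ j * (2 * D) = ((1 - δ) ^ j * (2 * D)) * (n : ℝ) ^ j := by ring
      _ ≤ θ * (n : ℝ) ^ j := by gcongr
  obtain ⟨u, hu, huS⟩ := (mem_smul_iff hC hCc hC0 _ hθN S).2 h3
  refine ⟨b, o + u, h1 u hu, ?_⟩
  rw [add_sub_cancel_left]
  exact huS.symm

end Bodies

end Pool.Agent.Run7.h533.AC
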