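import Mathlib
import Pool.Agent.Run7.h533.AC.Sgn
import Pool.Agent.Run7.h533.AC.Sgn2
import Pool.Agent.Run7.h533.AC.Num
import Pool.Agent.Run7.h533.AC.Apps

set_option autoImplicit false

/-!
# Covering theorems: approximate simplices and signed sums
-/

open MeasureTheory Module Finset Metric Filter Topology
open scoped Pointwise

namespace Pool.Agent.Run7.h533.AC

/-- `104 k² (k+1) d log(d+1) 2^d exp(-ε d/(k 2^k))` -/
noncomputable def simplexBound (d k : ℕ) (ε : ℝ) : ℝ :=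
  104 * k ^ 2 * (k + 1) * d * Real.log (d + 1) * 2 ^ d * Real.exp (-(ε * d / (k * 2 ^ k)))

/-- `104 k² 2^k d log(d+1) 2^d exp(-(1-θ) d/(k 2^k))` -/
noncomputable def signBound (d k : ℕ) (θ : ℝ) : ℝ :=
  104 * k ^ 2 * 2 ^ k * d * Real.log (d + 1) * 2 ^ d * Real.exp (-((1 - θ) * d / (k * 2 ^ k)))

section All

variable {d : ℕ} {K : Set (EuclideanSpace ℝ (Fin d))}

theorem translate_body (hK : Convex ℝ K) (hKc : IsCompact K) {o : EuclideanSpace ℝ (Fin d)}
    (ho : o ∈ interior K) : Convex ℝ ((fun x => -o + x) '' K) ∧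
      IsCompact ((fun x => -o + x) '' K) ∧ (fun x => -o + x) '' K ∈ nhds 0 := by
  refine ⟨hK.translate (-o), hKc.image (by fun_prop), ?_⟩
  have hint : interior ((fun x => -o + x) '' K) = (fun x => -o + x) '' interior K :=
    ((Homeomorph.addLeft (-o)).image_interior K).symm
  rw [← mem_interior_iff_mem_nhds, hint]
  exact ⟨o, ho, by simp⟩

theorem translate_sum (o : EuclideanSpace ℝ (Fin d)) (B : Set (EuclideanSpace ℝ (Fin d))) :
    (fun x => -o + x) '' K + (fun x => o + x) '' B = K + B := by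
  ext y
  constructor
  · rintro ⟨_, ⟨w, hw, rfl⟩, _, ⟨v, hv, rfl⟩, rfl⟩
    exact ⟨w, hw, v, hv, by simp only; abel⟩
  · rintro ⟨w, hw, v, hv, rfl⟩
    exact ⟨-o + w, ⟨w, hw, rfl⟩, o + v, ⟨v, hv, rfl⟩, by simp only; abel⟩

/-- **Bodies without approximate simplices.** -/
theorem simplex_all (hd : 1 ≤ d) (hK : Convex ℝ K) (hKc : IsCompact K)
    {o : EuclideanSpace ℝ (Fin d)} (ho : o ∈ interior K) {k : ℕ} (hk : 1 ≤ k) {ε θ : ℝ}
    (hε0 : 0 < ε) (hε1 : ε ≤ 1) (hθ0 : 0 ≤ θ)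
    (hS : ¬ ApproxSimplex (k + 1) ε θ o K) (B : Set (EuclideanSpace ℝ (Fin d))) :
    ∃ T : Finset (EuclideanSpace ℝ (Fin d)),
      K + B ⊆ ⋃ t ∈ T, (fun x => t + x) '' interior (K + B) ∧
      (T.card : ℝ) ≤ simplexBound d k (ε * (1 - θ)) := by
  obtain ⟨h1, h2, h3⟩ := translate_body hK hKc ho
  have hk' : (1 : ℝ) ≤ k := by exact_mod_cast hk
  have hp1 : (2 : ℝ) ≤ 2 ^ k := by
    calc (2 : ℝ) = 2 ^ 1 := by norm_num
      _ ≤ 2 ^ k := pow_le_pow_right₀ (by norm_num) hk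
  have ht : ε * (1 - θ) / 2 ^ k ≤ 1 / 2 := by
    rw [div_le_div_iff₀ (by positivity) (by norm_num)]
    nlinarith
  have hS' : ¬ ApproxSimplex (k + 1) ε θ 0 ((fun x => -o + x) '' K) := by
    rintro ⟨x, hx, hφ⟩
    apply hS
    choose y hy hyx using hx
    refine ⟨y, hy, fun j => ?_⟩
    obtain ⟨φ, h, a1, a2, a3, a4⟩ := hφ j
    have e : ∀ z, h - φ (-o + z) = h + φ o - φ z := by
      intro z
      rw [map_add, map_neg]
      ring
    refine ⟨φ, h + φ o, ?_, ?_, ?_, ?_⟩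
    · intro z hz
      have := a1 (-o + z) ⟨z, hz, rfl⟩
      rwa [e] at this
    · rw [← hyx j] at a2
      simp only at a2
      rwa [e] at a2
    · intro i hi
      have := a3 i hi
      rw [← hyx i] at this
      simp only at this
      rwa [e] at this
    · rw [map_zero, sub_zero] at a4
      rw [add_sub_cancel_right]
      exact a4
  obtain ⟨T, hT, hTc⟩ := cover_of_core hd h1 h2 h3 hk (c := 4 * k * (k + 1))
    (ρ := 1 - ε * (1 - θ) / 2 ^ k) (by positivity) (by linarith)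
    (fun A hA hAK q hq0 hq => simplex_core hd h1 h2 h3 hk hε0 hε1 hθ0 hS' A hA hAK hq0 hq)
  have hc : 4 * (k : ℝ) ≤ 4 * k * (k + 1) := by nlinarith
  refine ⟨T, ?_, hTc.trans ((num_gen hd hk hc ht).trans (le_of_eq ?_))⟩
  · rw [← translate_sum o B]
    exact cover_add hT
  · unfold simplexBound
    have e : ε * (1 - θ) / 2 ^ k * d / k = ε * (1 - θ) * d / (k * 2 ^ k) := by field_simp
    rw [e]
    ring

/-- **Bodies with small signed sums.** -/
theorem sign_all (hd : 1 ≤ d) (hK : Convex ℝ K) (hKc : IsCompact K)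
    {o : EuclideanSpace ℝ (Fin d)} (ho : o ∈ interior K) {k : ℕ} (hk : 1 ≤ k) {θ : ℝ}
    (hθ0 : 0 ≤ θ)
    (hS : ∀ x y : Fin k → EuclideanSpace ℝ (Fin d), (∀ i, x i ∈ K) → (∀ i, y i ∈ K) →
      ∃ b : Fin k → Bool, ∃ v ∈ K, ∑ i, sg (b i) • (x i - y i) = (θ * k) • (v - o))
    (B : Set (EuclideanSpace ℝ (Fin d))) :
    ∃ T : Finset (EuclideanSpace ℝ (Fin d)),
      K + B ⊆ ⋃ t ∈ T, (fun x => t + x) '' interior (K + B) ∧
      (T.card : ℝ) ≤ signBound d k θ := by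
  obtain ⟨h1, h2, h3⟩ := translate_body hK hKc ho
  have hk' : (1 : ℝ) ≤ k := by exact_mod_cast hk
  have hp1 : (2 : ℝ) ≤ 2 ^ k := by
    calc (2 : ℝ) = 2 ^ 1 := by norm_num
      _ ≤ 2 ^ k := pow_le_pow_right₀ (by norm_num) hk
  have ht : (1 - θ) / 2 ^ k ≤ 1 / 2 := by
    rw [div_le_div_iff₀ (by positivity) (by norm_num)]
    linarith
  have hS' : SignSums k θ ((fun x => -o + x) '' K) := by
    intro x y hx hy
    choose x' hx' hxx using hx
    choose y' hy' hyy using hy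
    obtain ⟨b, v, hv, hbv⟩ := hS x' y' hx' hy'
    refine ⟨b, -o + v, ⟨v, hv, rfl⟩, ?_⟩
    simp only
    have e : ∑ i, sg (b i) • (x i - y i) = ∑ i, sg (b i) • (x' i - y' i) := by
      refine Finset.sum_congr rfl fun i _ => ?_
      rw [← hxx i, ← hyy i]
      simp
    rw [e, hbv]
    congr 1
    abel
  obtain ⟨T, hT, hTc⟩ := cover_of_core hd h1 h2 h3 hk (c := 4 * k * 2 ^ k)
    (ρ := 1 - (1 - θ) / 2 ^ k) (by positivity) (by linarith)
    (fun A hA hAK q hq0 hq => sign_core hd h1 h2 h3 hk hθ0 hS' A hA hAK hq0 hq)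
  have hc : 4 * (k : ℝ) ≤ 4 * k * 2 ^ k := by nlinarith
  refine ⟨T, ?_, hTc.trans ((num_gen hd hk hc ht).trans (le_of_eq ?_))⟩
  · rw [← translate_sum o B]
    exact cover_add hT
  · unfold signBound
    have e : (1 - θ) / 2 ^ k * d / k = (1 - θ) * d / (k * 2 ^ k) := by field_simp
    rw [e]
    ring

end All

/-- exponentially small compared with `2^d` -/
theorem size_exp {C c : ℝ} (hC : 0 < C) (hc : 0 < c) :
    ∃ q : ℝ, 0 < q ∧ q < 2 ∧ ∃ N : ℕ, ∀ d : ℕ, N ≤ d →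
      C * d * Real.log (d + 1) * 2 ^ d * Real.exp (-(c * d)) ≤ q ^ d := by
  obtain ⟨q, hq0, hq2, N, hN⟩ := num_exp hC hc one_pos (le_refl (0 : ℝ)) one_pos
  refine ⟨q, hq0, hq2, N + 1, fun d hd => ?_⟩
  refine le_trans (le_of_eq ?_) (hN d (by omega))
  congr 1
  have h1 : (0 : ℝ) ^ d = 0 := zero_pow (by omega)
  rw [h1, max_eq_right (Real.exp_pos _).le, ← Real.exp_mul]
  congr 1
  ring

/-- the size of the bounds for `k ≤ α log₂ d + 2` -/
theorem size_log {α β c : ℝ} (hβ : 0 ≤ β) (hαβ : α + β < 1) (hc : 0 < c) :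
    ∃ d₀ : ℕ, ∀ d : ℕ, d₀ ≤ d → ∀ k : ℕ, 1 ≤ k → (k : ℝ) ≤ α * Real.logb 2 d + 2 →
      ∀ ε : ℝ, c * (d : ℝ) ^ (-β) ≤ ε →
      104 * (k : ℝ) ^ 2 * (k + 1) * 2 ^ k * d * Real.log (d + 1)
        * Real.exp (-(ε * d / (k * 2 ^ k))) < 1 := by
  set γ : ℝ := 1 - α - β with hγ
  have hγ0 : 0 < γ := by rw [hγ]; linarith
  have hα1 : α < 1 := by linarith
  -- asymptotics
  have hlit := (isLittleO_log_rpow_rpow_atTop (2 : ℝ) hγ0).comp_tendsto tendsto_natCast_atTop_atTop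
  have hev1 := hlit.bound (show (0 : ℝ) < c / 85 by positivity)
  have hlog : Tendsto (fun d : ℕ => Real.log (d : ℝ)) atTop atTop :=
    Real.tendsto_log_atTop.comp tendsto_natCast_atTop_atTop
  have hev2 : ∀ᶠ d : ℕ in atTop, (7 : ℝ) ≤ Real.log (d : ℝ) := hlog.eventually_ge_atTop 7
  have hlit2 := (Real.isLittleO_log_id_atTop).comp_tendsto
    (tendsto_natCast_atTop_atTop (R := ℝ))
  have hev3 := hlit2.bound (show (0 : ℝ) < 1 / 4 by positivity)
  obtain ⟨d₀, hd₀⟩ := eventually_atTop.1 (hev1.and (hev2.and hev3))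
  refine ⟨d₀ + 1, fun d hd k hk hkd ε hε => ?_⟩
  obtain ⟨e1, e2, e3⟩ := hd₀ d (by omega)
  simp only [Function.comp_apply, id_eq] at e1 e3
  have hd1 : (1 : ℝ) ≤ d := by
    have : 1 ≤ d := by omega
    exact_mod_cast this
  have hd0 : (0 : ℝ) < d := by linarith
  set L := Real.log (d : ℝ) with hL
  have hL0 : 0 < L := by linarith
  rw [Real.norm_of_nonneg (by positivity), Real.norm_of_nonneg (by positivity)] at e1 e3
  have hL2 : 84 * L ^ 2 < c * (d : ℝ) ^ γ := by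
    have h1 : L ^ (2 : ℝ) = L ^ 2 := by norm_cast
    rw [h1] at e1
    have h2 : 85 * L ^ 2 ≤ c * (d : ℝ) ^ γ := by linarith
    have : 0 < L ^ 2 := by positivity
    linarith
  have hk' : (1 : ℝ) ≤ k := by exact_mod_cast hk
  -- `k ≤ 3 log d`
  have hl2 : (0.69 : ℝ) < Real.log 2 := by
    have := Real.log_two_gt_d9
    linarith
  have hlogb : Real.logb 2 d = L / Real.log 2 := rfl
  have hlogb0 : 0 ≤ Real.logb 2 d := by rw [hlogb]; positivity
  have hk3 : (k : ℝ) ≤ 3 * L := by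
    have h1 : L / Real.log 2 ≤ 1.5 * L := by
      rw [div_le_iff₀ (by linarith)]
      nlinarith
    have h2 : α * Real.logb 2 d ≤ 1 * Real.logb 2 d := by gcongr
    rw [hlogb] at h2 hkd
    linarith
  -- `2^k ≤ 4 d^α`
  have h2k : (2 : ℝ) ^ k ≤ 4 * (d : ℝ) ^ α := by
    calc (2 : ℝ) ^ k = (2 : ℝ) ^ (k : ℝ) := (Real.rpow_natCast _ _).symm
      _ ≤ (2 : ℝ) ^ (α * Real.logb 2 d + 2) :=
          Real.rpow_le_rpow_of_exponent_le (by norm_num) hkd
      _ = 4 * (d : ℝ) ^ α := by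
          rw [Real.rpow_add (by norm_num), mul_comm α, Real.rpow_mul (by norm_num),
            Real.rpow_logb (by norm_num) (by norm_num) hd0]
          norm_num
          ring
  have hdα : (d : ℝ) ^ α ≤ d := by
    calc (d : ℝ) ^ α ≤ (d : ℝ) ^ (1 : ℝ) := Real.rpow_le_rpow_of_exponent_le hd1 hα1.le
      _ = d := Real.rpow_one _
  have hlogd : Real.log ((d : ℝ) + 1) ≤ d := log_le_self' d
  have hlogd0 : 0 ≤ Real.log ((d : ℝ) + 1) := Real.log_nonneg (by linarith)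
  have hkd1 : (k : ℝ) + 1 ≤ d := by linarith
  have hkd2 : (k : ℝ) ≤ d := by linarith
  -- the prefactor
  have hpre : 104 * (k : ℝ) ^ 2 * (k + 1) * 2 ^ k * d * Real.log (d + 1) ≤ 416 * (d : ℝ) ^ 6 := by
    calc 104 * (k : ℝ) ^ 2 * (k + 1) * 2 ^ k * d * Real.log (d + 1)
        ≤ 104 * (d : ℝ) ^ 2 * d * (4 * d) * d * d := by
          have : (2 : ℝ) ^ k ≤ 4 * d := by linarith
          gcongr
      _ = 416 * (d : ℝ) ^ 6 := by ring
  -- the exponent
  have hexp : 7 * L < ε * d / (k * 2 ^ k) := by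
    rw [lt_div_iff₀ (by positivity)]
    have h1 : 7 * L * (k * 2 ^ k) ≤ 7 * L * (3 * L * (4 * (d : ℝ) ^ α)) := by gcongr
    have h2 : 7 * L * (3 * L * (4 * (d : ℝ) ^ α)) = (84 * L ^ 2) * (d : ℝ) ^ α := by ring
    have h3 : (84 * L ^ 2) * (d : ℝ) ^ α < (c * (d : ℝ) ^ γ) * (d : ℝ) ^ α := by
      apply mul_lt_mul_of_pos_right hL2
      positivity
    have h4 : (c * (d : ℝ) ^ γ) * (d : ℝ) ^ α = c * (d : ℝ) ^ (-β) * d := by
      have e : (d : ℝ) ^ (-β) * d = (d : ℝ) ^ (1 - β) := by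
        rw [sub_eq_add_neg, Real.rpow_add hd0, Real.rpow_one]
        ring
      rw [mul_assoc c, mul_assoc c, e, ← Real.rpow_add hd0]
      congr 2
      rw [hγ]
      ring
    have h5 : c * (d : ℝ) ^ (-β) * d ≤ ε * d := by gcongr
    linarith
  have hfin : Real.exp (-(ε * d / (k * 2 ^ k))) < Real.exp (-(7 * L)) := by
    apply Real.exp_lt_exp.2
    linarith
  have h7 : Real.exp (-(7 * L)) = ((d : ℝ) ^ 7)⁻¹ := by
    rw [Real.exp_neg]
    congr 1
    rw [hL, show (7 : ℝ) * Real.log d = ((7 : ℕ) : ℝ) * Real.log d by norm_num, Real.exp_nat_mul,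
      Real.exp_log hd0]
  have h416 : (416 : ℝ) ≤ d := by
    have h1 : Real.exp 7 ≤ d := by
      rw [← Real.exp_log hd0]
      exact Real.exp_le_exp.2 e2
    have h2 : (416 : ℝ) ≤ Real.exp 7 := by
      have h3 : (2.7 : ℝ) ≤ Real.exp 1 := by
        have := Real.exp_one_gt_d9
        linarith
      have h4 : Real.exp 7 = Real.exp 1 ^ 7 := by
        rw [← Real.exp_nat_mul]
        norm_num
      rw [h4]
      calc (416 : ℝ) ≤ 2.7 ^ 7 := by norm_num
        _ ≤ Real.exp 1 ^ 7 := pow_le_pow_left₀ (by norm_num) h3 7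
    linarith
  calc 104 * (k : ℝ) ^ 2 * (k + 1) * 2 ^ k * d * Real.log (d + 1)
        * Real.exp (-(ε * d / (k * 2 ^ k)))
      ≤ 416 * (d : ℝ) ^ 6 * Real.exp (-(ε * d / (k * 2 ^ k))) := by gcongr
    _ < 416 * (d : ℝ) ^ 6 * Real.exp (-(7 * L)) := by
        apply mul_lt_mul_of_pos_left hfin
        positivity
    _ = 416 / d := by
        rw [h7]
        field_simp
    _ ≤ 1 := by rw [div_le_one hd0]; exact h416

end Pool.Agent.Run7.h533.AC
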