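import Mathlib
import Pool.Agent.H985.Sep
import Pool.Agent.Run7.h533.AC.Sgn3

set_option autoImplicit false

/-!
# The polar body: bodies between balls, approximate simplices
-/

open MeasureTheory Module Finset Metric
open scoped Pointwise RealInnerProductSpace

namespace Pool.Agent.Run7.h533.AC

open Pool.Agent.H985.Sep (polar convex_polar isCompact_polar interior_polar_nonempty
  norm_le_of_mem_polar)

variable {d : ℕ} {K : Set (EuclideanSpace ℝ (Fin d))}

/-- `0` is an interior point of the polar body -/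
theorem zero_int_polar (hKc : IsCompact K) (o : EuclideanSpace ℝ (Fin d)) :
    (0 : EuclideanSpace ℝ (Fin d)) ∈ interior (polar K o) := by
  obtain ⟨R, hR⟩ := hKc.isBounded.subset_closedBall o
  rw [mem_interior_iff_mem_nhds]
  refine Filter.mem_of_superset (closedBall_mem_nhds 0
    (show (0 : ℝ) < 1 / (|R| + 1) by positivity)) ?_
  intro v hv y hy
  rw [mem_closedBall, dist_zero_right] at hv
  have h1 := hR hy
  rw [mem_closedBall, dist_eq_norm] at h1
  have h2 : ‖y - o‖ ≤ |R| + 1 := by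
    have := le_abs_self R
    linarith
  calc ⟪v, y - o⟫ ≤ ‖v‖ * ‖y - o‖ := real_inner_le_norm _ _
    _ ≤ 1 / (|R| + 1) * (|R| + 1) := by gcongr
    _ = 1 := by field_simp

/-- the bipolar theorem -/
theorem bipolar (hK : Convex ℝ K) (hKc : IsCompact K) {o : EuclideanSpace ℝ (Fin d)} (ho : o ∈ K)
    (w : EuclideanSpace ℝ (Fin d)) {h : ℝ} (hh : 0 < h) (hw : ∀ v ∈ polar K o, ⟪w, v⟫ ≤ h) :
    ∃ y ∈ K, ∀ v, ⟪w, v⟫ = h * ⟪v, y - o⟫ := by
  by_cases hmem : o + h⁻¹ • w ∈ K
  · refine ⟨o + h⁻¹ • w, hmem, fun v => ?_⟩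
    rw [add_sub_cancel_left, real_inner_smul_right, real_inner_comm]
    field_simp
  · exfalso
    obtain ⟨f, u, hf, hu⟩ := geometric_hahn_banach_closed_point hK hKc.isClosed hmem
    set g : EuclideanSpace ℝ (Fin d) :=
      (InnerProductSpace.toDual ℝ (EuclideanSpace ℝ (Fin d))).symm f with hg
    have hgf : ∀ x, ⟪g, x⟫ = f x := fun x => by
      rw [hg, InnerProductSpace.toDual_symm_apply]
    have h0 : 0 < u - f o := by
      have := hf o ho
      linarith
    have hv : (u - f o)⁻¹ • g ∈ polar K o := by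
      intro y hy
      rw [real_inner_smul_left, hgf, map_sub, inv_mul_le_iff₀ h0, mul_one]
      have := hf y hy
      linarith
    have h1 := hw _ hv
    rw [real_inner_smul_right, real_inner_comm, hgf, inv_mul_le_iff₀ h0] at h1
    rw [map_add, map_smul, smul_eq_mul] at hu
    have h2 : u - f o < h⁻¹ * f w := by linarith
    rw [lt_inv_mul_iff₀ hh] at h2
    linarith

/-- approximate simplices in the polar body -/
theorem dual_simplex (hK : Convex ℝ K) (hKc : IsCompact K) {o : EuclideanSpace ℝ (Fin d)}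
    (ho : o ∈ K) {n : ℕ} {ε θ : ℝ} (hS : ApproxSimplex n ε θ 0 (polar K o)) :
    ∃ u y : Fin n → EuclideanSpace ℝ (Fin d), (∀ j, u j ∈ polar K o) ∧ (∀ j, y j ∈ K) ∧
      ∀ j, 0 < 1 - ⟪u j, y j - o⟫ ∧ θ ≤ 1 - ⟪u j, y j - o⟫ ∧
        ∀ i, i ≠ j → 1 - ⟪u i, y j - o⟫ ≤ ε * (1 - ⟪u j, y j - o⟫) := by
  obtain ⟨u, hu, hφ⟩ := hS
  have key : ∀ j, ∃ y ∈ K, 0 < 1 - ⟪u j, y - o⟫ ∧ θ ≤ 1 - ⟪u j, y - o⟫ ∧
        ∀ i, i ≠ j → 1 - ⟪u i, y - o⟫ ≤ ε * (1 - ⟪u j, y - o⟫) := by
    intro j
    obtain ⟨φ, h, h1, h2, h3, h4⟩ := hφ j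
    set w : EuclideanSpace ℝ (Fin d) :=
      (InnerProductSpace.toDual ℝ (EuclideanSpace ℝ (Fin d))).symm φ with hw
    have hwφ : ∀ x, ⟪w, x⟫ = φ x := fun x => by
      rw [hw, InnerProductSpace.toDual_symm_apply]
    rw [map_zero, sub_zero] at h4
    -- `h > 0`
    have hh : 0 < h := by
      have h0 : 0 ≤ h := by
        have := h1 0 (interior_subset (zero_int_polar hKc o))
        rwa [map_zero, sub_zero] at this
      rcases eq_or_lt_of_le h0 with h0 | h0
      · exfalso
        -- then `φ ≤ 0` near `0`, so `φ = 0`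
        have hball := mem_interior_iff_mem_nhds.1 (zero_int_polar hKc o)
        obtain ⟨r, hr, hrP⟩ := Metric.nhds_basis_closedBall.mem_iff.1 hball
        have hw0 : w = 0 := by
          by_contra hne
          have hn : 0 < ‖w‖ := norm_pos_iff.2 hne
          have h5 : (r / ‖w‖) • w ∈ polar K o := hrP (by
            rw [mem_closedBall, dist_zero_right, norm_smul, Real.norm_of_nonneg (by positivity)]
            apply le_of_eq
            field_simp)
          have h6 := h1 _ h5
          rw [← hwφ, real_inner_smul_right, real_inner_self_eq_norm_sq, ← h0] at h6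
          have : 0 < r / ‖w‖ * ‖w‖ ^ 2 := by positivity
          linarith
        have h5 : φ (u j) = 0 := by rw [← hwφ, hw0, inner_zero_left]
        rw [h5, ← h0] at h2
        norm_num at h2
      · exact h0
    obtain ⟨y, hy, hyw⟩ := bipolar hK hKc ho w hh (fun v hv => by
      have := h1 v hv
      rw [hwφ]
      linarith)
    have e : ∀ v, h - φ v = h * (1 - ⟪v, y - o⟫) := by
      intro v
      rw [← hwφ, hyw]
      ring
    rw [e] at h2
    have h5 : 1 - ⟪u j, y - o⟫ = h⁻¹ := by
      field_simp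
      linarith
    refine ⟨y, hy, ?_, ?_, ?_⟩
    · rw [h5]; positivity
    · rw [h5, ← one_div, le_div_iff₀ hh]
      exact h4
    · intro i hi
      have h6 := h3 i hi
      rw [e] at h6
      rw [h5, ← div_eq_mul_inv, le_div_iff₀ hh, mul_comm]
      exact h6
  choose y hy1 hy2 using key
  exact ⟨u, y, hu, hy1, hy2⟩

/-- polars of bodies between balls -/
theorem polar_ball {o : EuclideanSpace ℝ (Fin d)} {r D : ℝ} (hr : 0 < r) (hD : 0 < D)
    (h1 : closedBall o r ⊆ K) (h2 : K ⊆ closedBall o (D * r)) :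
    closedBall (0 : EuclideanSpace ℝ (Fin d)) (1 / (D * r)) ⊆ polar K o ∧
      polar K o ⊆ closedBall 0 (D * (1 / (D * r))) := by
  constructor
  · intro v hv y hy
    rw [mem_closedBall, dist_zero_right] at hv
    have h3 := h2 hy
    rw [mem_closedBall, dist_eq_norm] at h3
    calc ⟪v, y - o⟫ ≤ ‖v‖ * ‖y - o‖ := real_inner_le_norm _ _
      _ ≤ 1 / (D * r) * (D * r) := by gcongr
      _ = 1 := by field_simp
  · intro v hv
    have h3 := norm_le_of_mem_polar hr h1 v hv
    rw [mem_closedBall, dist_zero_right]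
    have e : D * (1 / (D * r)) = 1 / r := by field_simp
    rw [e]
    exact h3

end Pool.Agent.Run7.h533.AC
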