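import Mathlib
import Pool.Agent.Run7.h533.AC.Sgn3

set_option autoImplicit false

/-!
# From translates of the interior to directions of illumination; bounds below `2^(d-1)`
-/

open Metric Set

namespace Pool.Agent.Run7.h533.AC

/-- If `K` is covered by the translates of its interior by the vectors `t` in `T` then the
directions `-t` illuminate all boundary points of `K`. -/
theorem ill_of_cover {d : ℕ} {K : Set (EuclideanSpace ℝ (Fin d))} (hKc : IsCompact K)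
    {T : Finset (EuclideanSpace ℝ (Fin d))} (hT : K ⊆ ⋃ t ∈ T, (fun x => t + x) '' interior K) :
    ∃ L : Finset (EuclideanSpace ℝ (Fin d)), L.card ≤ T.card ∧ (∀ v ∈ L, v ≠ 0) ∧
      ∀ x ∈ frontier K, ∃ v ∈ L, ∃ t : ℝ, 0 < t ∧ x + t • v ∈ interior K := by
  classical
  refine ⟨(T.filter fun t => t ≠ 0).image fun t => -t, ?_, ?_, ?_⟩
  · exact Finset.card_image_le.trans (Finset.card_filter_le _ _)
  · intro v hv
    obtain ⟨t, ht, rfl⟩ := Finset.mem_image.1 hv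
    exact neg_ne_zero.2 (Finset.mem_filter.1 ht).2
  · intro x hx
    have hxK : x ∈ K := hKc.isClosed.frontier_subset hx
    obtain ⟨t, ht, y, hy, hyx⟩ := Set.mem_iUnion₂.1 (hT hxK)
    have hyx' : t + y = x := hyx
    have ht0 : t ≠ 0 := by
      rintro rfl
      rw [zero_add] at hyx'
      rw [hyx'] at hy
      exact hx.2 hy
    refine ⟨-t, Finset.mem_image.2 ⟨t, Finset.mem_filter.2 ⟨ht, ht0⟩, rfl⟩, 1, one_pos, ?_⟩
    rw [one_smul, ← hyx']
    have : t + y + -t = y := by abel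
    rwa [this]

/-- the factor of `2^d` in the bounds, with a half -/
theorem factor_half {d k : ℕ} (hd : 1 ≤ d) (hk : 1 ≤ k) {ε : ℝ}
    (h : 104 * (k : ℝ) ^ 2 * (k + 1) * 2 ^ k * d * Real.log (d + 1)
        * Real.exp (-(ε / 2 * d / (k * 2 ^ k))) < 1) :
    104 * (k : ℝ) ^ 2 * (k + 1) * 2 ^ k * d * Real.log (d + 1)
        * Real.exp (-(ε * d / (k * 2 ^ k))) < 1 / 2 := by
  have hd' : (1 : ℝ) ≤ d := by exact_mod_cast hd
  have hk' : (1 : ℝ) ≤ k := by exact_mod_cast hk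
  set A : ℝ := 104 * (k : ℝ) ^ 2 * (k + 1) * 2 ^ k * d * Real.log (d + 1) with hA
  set E : ℝ := Real.exp (-(ε / 2 * d / (k * 2 ^ k))) with hE
  have hE0 : 0 < E := Real.exp_pos _
  have hlog : (0.69 : ℝ) ≤ Real.log (d + 1) := by
    have h1 : Real.log 2 ≤ Real.log (d + 1) := Real.log_le_log (by norm_num) (by linarith)
    have h2 := Real.log_two_gt_d9
    linarith
  have hA2 : 2 ≤ A := by
    have h2k : (1 : ℝ) ≤ 2 ^ k := one_le_pow₀ (by norm_num)
    have hk2 : (1 : ℝ) ≤ (k : ℝ) ^ 2 := one_le_pow₀ hk'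
    calc (2 : ℝ) ≤ 104 * 1 * (1 + 1) * 1 * 1 * 0.69 := by norm_num
      _ ≤ 104 * (k : ℝ) ^ 2 * (k + 1) * 2 ^ k * d * Real.log (d + 1) := by gcongr
  have hEE : Real.exp (-(ε * d / (k * 2 ^ k))) = E * E := by
    rw [hE, ← Real.exp_add]
    congr 1
    ring
  rw [hEE, ← mul_assoc]
  have hE2 : E < 1 / 2 := by nlinarith
  calc A * E * E ≤ 1 * E := by gcongr
    _ < 1 / 2 := by rw [one_mul]; exact hE2

theorem signBound_half {d k : ℕ} (hd : 1 ≤ d) (hk : 1 ≤ k) {θ : ℝ}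
    (h : 104 * (k : ℝ) ^ 2 * (k + 1) * 2 ^ k * d * Real.log (d + 1)
        * Real.exp (-((1 - θ) / 2 * d / (k * 2 ^ k))) < 1) : signBound d k θ < 2 ^ d / 2 := by
  have h' := factor_half hd hk h
  have h0 : 0 ≤ Real.log ((d : ℝ) + 1) := Real.log_nonneg (by
    have : (0 : ℝ) ≤ d := Nat.cast_nonneg d
    linarith)
  have hk : (0 : ℝ) ≤ k := Nat.cast_nonneg k
  unfold signBound
  calc 104 * (k : ℝ) ^ 2 * 2 ^ k * d * Real.log (d + 1) * 2 ^ d
        * Real.exp (-((1 - θ) * d / (k * 2 ^ k)))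
      = (104 * (k : ℝ) ^ 2 * 1 * 2 ^ k * d * Real.log (d + 1)
        * Real.exp (-((1 - θ) * d / (k * 2 ^ k)))) * 2 ^ d := by ring
    _ ≤ (104 * (k : ℝ) ^ 2 * (k + 1) * 2 ^ k * d * Real.log (d + 1)
        * Real.exp (-((1 - θ) * d / (k * 2 ^ k)))) * 2 ^ d := by
        gcongr
        linarith
    _ < 1 / 2 * 2 ^ d := by
        apply mul_lt_mul_of_pos_right h'
        positivity
    _ = 2 ^ d / 2 := by ring

theorem simplexBound_half {d k : ℕ} (hd : 1 ≤ d) (hk : 1 ≤ k) {ε : ℝ}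
    (h : 104 * (k : ℝ) ^ 2 * (k + 1) * 2 ^ k * d * Real.log (d + 1)
        * Real.exp (-(ε / 2 * d / (k * 2 ^ k))) < 1) : simplexBound d k ε < 2 ^ d / 2 := by
  have h' := factor_half hd hk h
  have h0 : 0 ≤ Real.log ((d : ℝ) + 1) := Real.log_nonneg (by
    have : (0 : ℝ) ≤ d := Nat.cast_nonneg d
    linarith)
  have hk : (0 : ℝ) ≤ k := Nat.cast_nonneg k
  unfold simplexBound
  calc 104 * (k : ℝ) ^ 2 * (k + 1) * d * Real.log (d + 1) * 2 ^ d
        * Real.exp (-(ε * d / (k * 2 ^ k)))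
      = (104 * (k : ℝ) ^ 2 * (k + 1) * 1 * d * Real.log (d + 1)
        * Real.exp (-(ε * d / (k * 2 ^ k)))) * 2 ^ d := by ring
    _ ≤ (104 * (k : ℝ) ^ 2 * (k + 1) * 2 ^ k * d * Real.log (d + 1)
        * Real.exp (-(ε * d / (k * 2 ^ k)))) * 2 ^ d := by
        gcongr
        exact one_le_pow₀ (by norm_num)
    _ < 1 / 2 * 2 ^ d := by
        apply mul_lt_mul_of_pos_right h'
        positivity
    _ = 2 ^ d / 2 := by ring

/-- `2^(d-1) ≤ 2^d - 2^(d-h)` for `1 ≤ h ≤ d` -/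
theorem half_le {d h : ℕ} (h1 : 1 ≤ h) (h2 : h ≤ d) :
    (2 : ℝ) ^ d / 2 ≤ 2 ^ d - 2 ^ (d - h) := by
  have h3 : (2 : ℝ) ^ (d - h) ≤ 2 ^ (d - 1) := pow_le_pow_right₀ (by norm_num) (by omega)
  have h4 : (2 : ℝ) ^ d = 2 * 2 ^ (d - 1) := by
    rw [← pow_succ']
    congr 1
    omega
  linarith

/-- `q^d ≤ 2^(d-1)` for large `d` -/
theorem q_half {q : ℝ} (hq0 : 0 < q) (hq2 : q < 2) :
    ∃ N : ℕ, ∀ d : ℕ, N ≤ d → q ^ d ≤ 2 ^ d / 2 := by
  obtain ⟨N, hN⟩ := exists_pow_lt_of_lt_one (show (0 : ℝ) < 1 / 2 by norm_num)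
    (show q / 2 < 1 by linarith)
  refine ⟨N, fun d hd => ?_⟩
  have h1 : (q / 2) ^ d ≤ (q / 2) ^ N :=
    pow_le_pow_of_le_one (by positivity) (by linarith) hd
  have h2 : (q / 2) ^ d ≤ 1 / 2 := h1.trans hN.le
  rw [div_pow, div_le_iff₀ (by positivity)] at h2
  linarith

end Pool.Agent.Run7.h533.AC
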