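import Mathlib

set_option autoImplicit false

/-!
# Volume estimates in the cube
-/

open MeasureTheory Finset
open scoped ENNReal

namespace Pool.Agent.Run7.h533.AC

theorem chernoff {d : ℕ} (g : Fin d → ℝ → ℝ) (hg0 : ∀ i t, 0 ≤ g i t)
    (hgi : ∀ i, Integrable (g i)) (S : Set (EuclideanSpace ℝ (Fin d))) (hSm : MeasurableSet S)
    {c : ℝ} (hc : 0 ≤ c) (hS : ∀ y ∈ S, 1 ≤ c * ∏ i, g i (y i)) :
    volume S ≤ ENNReal.ofReal (c * ∏ i, ∫ t, g i t) := by
  have h0 := (PiLp.volume_preserving_toLp (Fin d)).measure_preimage hSm.nullMeasurableSet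
  rw [← h0]
  have hint : Integrable (fun y : Fin d → ℝ => c * ∏ i, g i (y i)) :=
    (Integrable.fintype_prod hgi).const_mul c
  have h1 : ∫ y : Fin d → ℝ, c * ∏ i, g i (y i) = c * ∏ i, ∫ t, g i t := by
    rw [integral_const_mul, integral_fintype_prod_volume_eq_prod]
  have hnn : ∀ y : Fin d → ℝ, 0 ≤ c * ∏ i, g i (y i) := fun y =>
    mul_nonneg hc (Finset.prod_nonneg fun i _ => hg0 i _)
  rw [← h1, ofReal_integral_eq_lintegral_ofReal hint (Filter.Eventually.of_forall hnn)]
  have h2 := mul_meas_ge_le_lintegral₀ (μ := volume)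
    (f := fun y : Fin d → ℝ => ENNReal.ofReal (c * ∏ i, g i (y i)))
    hint.aestronglyMeasurable.aemeasurable.ennreal_ofReal 1
  rw [one_mul] at h2
  refine le_trans (measure_mono ?_) h2
  intro y hy
  have h3 := hS _ hy
  rw [Set.mem_ofPred_eq, ← ENNReal.ofReal_one]
  exact ENNReal.ofReal_le_ofReal h3

/-- the density `e^(-λ t²)` on `[-1,1]` -/
noncomputable def gq (l : ℝ) (t : ℝ) : ℝ :=
  (Set.Icc (-1 : ℝ) 1).indicator (fun t => Real.exp (-(l * t ^ 2))) t

/-- the density `e^(a t)` on `[-1,1]` -/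
noncomputable def gl (a : ℝ) (t : ℝ) : ℝ :=
  (Set.Icc (-1 : ℝ) 1).indicator (fun t => Real.exp (a * t)) t

theorem gq_int (l : ℝ) : Integrable (gq l) := by
  unfold gq
  rw [integrable_indicator_iff measurableSet_Icc]
  exact (by fun_prop : Continuous fun t : ℝ => Real.exp (-(l * t ^ 2))).continuousOn.integrableOn_compact
    isCompact_Icc

theorem gl_int (a : ℝ) : Integrable (gl a) := by
  unfold gl
  rw [integrable_indicator_iff measurableSet_Icc]
  exact (by fun_prop : Continuous fun t : ℝ => Real.exp (a * t)).continuousOn.integrableOn_compact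
    isCompact_Icc

theorem exp_neg_le {u : ℝ} (hu : 0 ≤ u) : Real.exp (-u) ≤ 1 - u + u ^ 2 := by
  have h1 : 1 + u ≤ Real.exp u := by
    have := Real.add_one_le_exp u
    linarith
  rw [Real.exp_neg]
  have h2 : (Real.exp u)⁻¹ ≤ (1 + u)⁻¹ := inv_anti₀ (by linarith) h1
  refine h2.trans ?_
  rw [inv_le_iff_one_le_mul₀ (by linarith)]
  nlinarith [pow_nonneg hu 3]

theorem gq_le {l : ℝ} (hl : 0 ≤ l) : ∫ t, gq l t ≤ 2 * Real.exp (-(l / 3) + l ^ 2 / 5) := by
  unfold gq
  rw [integral_indicator measurableSet_Icc, integral_Icc_eq_integral_Ioc,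
    ← intervalIntegral.integral_of_le (by norm_num)]
  have h1 : ∫ t in (-1 : ℝ)..1, Real.exp (-(l * t ^ 2))
      ≤ ∫ t in (-1 : ℝ)..1, (1 - l * t ^ 2 + l ^ 2 * t ^ 4) := by
    refine intervalIntegral.integral_mono_on (by norm_num) ?_ ?_ ?_
    · exact (by fun_prop : Continuous fun t : ℝ => Real.exp (-(l * t ^ 2))).intervalIntegrable _ _
    · exact (by fun_prop : Continuous fun t : ℝ =>
        1 - l * t ^ 2 + l ^ 2 * t ^ 4).intervalIntegrable _ _
    · intro t _
      have := exp_neg_le (u := l * t ^ 2) (by positivity)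
      calc Real.exp (-(l * t ^ 2)) ≤ 1 - l * t ^ 2 + (l * t ^ 2) ^ 2 := this
        _ = _ := by ring
  have h2 : ∫ t in (-1 : ℝ)..1, (1 - l * t ^ 2 + l ^ 2 * t ^ 4) = 2 * (1 - l / 3 + l ^ 2 / 5) := by
    rw [intervalIntegral.integral_add, intervalIntegral.integral_sub,
      intervalIntegral.integral_const_mul, intervalIntegral.integral_const_mul, integral_pow,
      integral_pow]
    · norm_num
      ring
    · exact continuous_const.intervalIntegrable _ _
    · exact (by fun_prop : Continuous fun t : ℝ => l * t ^ 2).intervalIntegrable _ _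
    · exact (by fun_prop : Continuous fun t : ℝ => 1 - l * t ^ 2).intervalIntegrable _ _
    · exact (by fun_prop : Continuous fun t : ℝ => l ^ 2 * t ^ 4).intervalIntegrable _ _
  rw [h2] at h1
  refine h1.trans ?_
  have h3 := Real.add_one_le_exp (-(l / 3) + l ^ 2 / 5)
  linarith

theorem gl_le (a : ℝ) : ∫ t, gl a t ≤ 2 * Real.exp (a ^ 2 / 2) := by
  unfold gl
  rw [integral_indicator measurableSet_Icc, integral_Icc_eq_integral_Ioc,
    ← intervalIntegral.integral_of_le (by norm_num)]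
  have hi : ∀ b : ℝ, IntervalIntegrable (fun t : ℝ => Real.exp (b * t)) volume (-1) 1 := fun b =>
    (by fun_prop : Continuous fun t : ℝ => Real.exp (b * t)).intervalIntegrable _ _
  have h1 : ∫ t in (-1 : ℝ)..1, Real.exp (-a * t) = ∫ t in (-1 : ℝ)..1, Real.exp (a * t) := by
    have := intervalIntegral.integral_comp_neg (a := (-1 : ℝ)) (b := 1)
      (fun t => Real.exp (a * t))
    simp only [neg_neg] at this
    rw [← this]
    congr 1
    funext t
    congr 1
    ring
  have h2 : ∫ t in (-1 : ℝ)..1, (Real.exp (a * t) + Real.exp (-a * t))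
      ≤ ∫ _t in (-1 : ℝ)..1, 2 * Real.exp (a ^ 2 / 2) := by
    refine intervalIntegral.integral_mono_on (by norm_num) ((hi a).add (hi (-a)))
      (continuous_const.intervalIntegrable _ _) ?_
    intro t ht
    have h3 := Real.cosh_le_exp_half_sq (a * t)
    rw [Real.cosh_eq] at h3
    have h4 : (a * t) ^ 2 / 2 ≤ a ^ 2 / 2 := by
      have : t ^ 2 ≤ 1 := by
        have := ht.1
        have := ht.2
        nlinarith
      have : a ^ 2 * t ^ 2 ≤ a ^ 2 * 1 := by gcongr
      nlinarith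
    have h5 := Real.exp_le_exp.2 h4
    have h6 : Real.exp (-(a * t)) = Real.exp (-a * t) := by
      congr 1
      ring
    rw [h6] at h3
    linarith
  rw [intervalIntegral.integral_add (hi a) (hi (-a)), h1, intervalIntegral.integral_const] at h2
  norm_num at h2
  linarith

section Cube

variable {d : ℕ}

/-- small vectors of the cube -/
theorem cube_norm {η : ℝ} (hη : 0 ≤ η) :
    volume {x : EuclideanSpace ℝ (Fin d) | (∀ i, |x i| ≤ 1) ∧ ‖x‖ ^ 2 ≤ (1 / 3 - η) * d}
      ≤ ENNReal.ofReal (2 ^ d * Real.exp (-(5 / 4 * η ^ 2 * d))) := by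
  set l : ℝ := 5 / 2 * η with hl
  have hl0 : 0 ≤ l := by positivity
  have hm : MeasurableSet
      {x : EuclideanSpace ℝ (Fin d) | (∀ i, |x i| ≤ 1) ∧ ‖x‖ ^ 2 ≤ (1 / 3 - η) * d} := by
    refine IsClosed.measurableSet ?_
    refine IsClosed.inter ?_ (isClosed_le (continuous_norm.pow 2) continuous_const)
    have : {x : EuclideanSpace ℝ (Fin d) | ∀ i, |x i| ≤ 1}
        = ⋂ i, {x : EuclideanSpace ℝ (Fin d) | |x i| ≤ 1} := by ext; simp
    change IsClosed {x : EuclideanSpace ℝ (Fin d) | ∀ i, |x i| ≤ 1}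
    rw [this]
    exact isClosed_iInter fun i => isClosed_le (by fun_prop) continuous_const
  have h := chernoff (d := d) (fun _ => gq l)
    (fun _ t => Set.indicator_nonneg (fun _ _ => (Real.exp_pos _).le) t) (fun _ => gq_int l) _ hm
    (c := Real.exp (l * ((1 / 3 - η) * d))) (Real.exp_pos _).le (by
      rintro x ⟨hx1, hx2⟩
      have e1 : ∏ i, gq l (x i) = Real.exp (-(l * ‖x‖ ^ 2)) := by
        rw [EuclideanSpace.norm_sq_eq, Finset.mul_sum, ← Finset.sum_neg_distrib, Real.exp_sum]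
        refine Finset.prod_congr rfl fun i _ => ?_
        unfold gq
        rw [Set.indicator_of_mem (show x i ∈ Set.Icc (-1 : ℝ) 1 from abs_le.1 (hx1 i)),
          Real.norm_eq_abs, sq_abs]
      rw [e1, ← Real.exp_add]
      apply Real.one_le_exp
      nlinarith)
  refine h.trans (ENNReal.ofReal_le_ofReal ?_)
  rw [Finset.prod_const, Finset.card_univ, Fintype.card_fin]
  have h1 : (∫ t, gq l t) ^ d ≤ (2 * Real.exp (-(l / 3) + l ^ 2 / 5)) ^ d := by
    refine pow_le_pow_left₀ ?_ (gq_le hl0) d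
    exact integral_nonneg fun t => Set.indicator_nonneg (fun _ _ => (Real.exp_pos _).le) t
  calc Real.exp (l * ((1 / 3 - η) * d)) * (∫ t, gq l t) ^ d
      ≤ Real.exp (l * ((1 / 3 - η) * d)) * (2 * Real.exp (-(l / 3) + l ^ 2 / 5)) ^ d := by gcongr
    _ = 2 ^ d * (Real.exp (l * ((1 / 3 - η) * d)) * Real.exp (d * (-(l / 3) + l ^ 2 / 5))) := by
        rw [mul_pow, ← Real.exp_nat_mul]
        ring
    _ = 2 ^ d * Real.exp (-(5 / 4 * η ^ 2 * d)) := by
        rw [← Real.exp_add]
        congr 2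
        rw [hl]
        ring
    _ ≤ _ := le_rfl

/-- caps of the cube -/
theorem cube_cap (u : EuclideanSpace ℝ (Fin d)) (hu : ‖u‖ = 1) {s : ℝ} (hs : 0 ≤ s) :
    volume {x : EuclideanSpace ℝ (Fin d) | (∀ i, |x i| ≤ 1) ∧ s ≤ inner ℝ x u}
      ≤ ENNReal.ofReal (2 ^ d * Real.exp (-(s ^ 2 / 2))) := by
  have hm : MeasurableSet
      {x : EuclideanSpace ℝ (Fin d) | (∀ i, |x i| ≤ 1) ∧ s ≤ inner ℝ x u} := by
    refine IsClosed.measurableSet ?_
    have hcx : Continuous (fun x : EuclideanSpace ℝ (Fin d) => (inner ℝ x u : ℝ)) :=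
      continuous_id.inner continuous_const
    refine IsClosed.inter ?_ (isClosed_le continuous_const hcx)
    have : {x : EuclideanSpace ℝ (Fin d) | ∀ i, |x i| ≤ 1}
        = ⋂ i, {x : EuclideanSpace ℝ (Fin d) | |x i| ≤ 1} := by ext; simp
    change IsClosed {x : EuclideanSpace ℝ (Fin d) | ∀ i, |x i| ≤ 1}
    rw [this]
    exact isClosed_iInter fun i => isClosed_le (by fun_prop) continuous_const
  have h := chernoff (d := d) (fun i => gl (s * u i))
    (fun _ t => Set.indicator_nonneg (fun _ _ => (Real.exp_pos _).le) t) (fun i => gl_int _) _ hm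
    (c := Real.exp (-(s * s))) (Real.exp_pos _).le (by
      rintro x ⟨hx1, hx2⟩
      have e1 : ∏ i, gl (s * u i) (x i) = Real.exp (s * inner ℝ x u) := by
        rw [PiLp.inner_apply, Finset.mul_sum, Real.exp_sum]
        refine Finset.prod_congr rfl fun i _ => ?_
        unfold gl
        rw [Set.indicator_of_mem (show x i ∈ Set.Icc (-1 : ℝ) 1 from abs_le.1 (hx1 i))]
        congr 1
        simp only [RCLike.inner_apply, conj_trivial]
        ring
      rw [e1, ← Real.exp_add]
      apply Real.one_le_exp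
      nlinarith)
  refine h.trans (ENNReal.ofReal_le_ofReal ?_)
  have h1 : ∏ i, ∫ t, gl (s * u i) t ≤ ∏ i, (2 * Real.exp ((s * u i) ^ 2 / 2)) := by
    refine Finset.prod_le_prod (fun i _ => ?_) (fun i _ => gl_le _)
    exact integral_nonneg fun t => Set.indicator_nonneg (fun _ _ => (Real.exp_pos _).le) t
  have h2 : ∏ i, (2 * Real.exp ((s * u i) ^ 2 / 2)) = 2 ^ d * Real.exp (s ^ 2 / 2) := by
    rw [Finset.prod_mul_distrib, Finset.prod_const, Finset.card_univ, Fintype.card_fin,
      ← Real.exp_sum]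
    congr 2
    have h3 : ∑ i, (u i) ^ 2 = 1 := by
      have := EuclideanSpace.norm_sq_eq u
      rw [hu] at this
      simp only [Real.norm_eq_abs, sq_abs] at this
      linarith
    calc ∑ i, (s * u i) ^ 2 / 2 = s ^ 2 / 2 * ∑ i, (u i) ^ 2 := by
          rw [Finset.mul_sum]
          refine Finset.sum_congr rfl fun i _ => ?_
          ring
      _ = s ^ 2 / 2 := by rw [h3, mul_one]
  calc Real.exp (-(s * s)) * ∏ i, ∫ t, gl (s * u i) t
      ≤ Real.exp (-(s * s)) * (2 ^ d * Real.exp (s ^ 2 / 2)) := by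
        rw [← h2]
        gcongr
    _ = 2 ^ d * (Real.exp (-(s * s)) * Real.exp (s ^ 2 / 2)) := by ring
    _ = 2 ^ d * Real.exp (-(s ^ 2 / 2)) := by
        rw [← Real.exp_add]
        congr 2
        ring
    _ ≤ _ := le_rfl

end Cube

end Pool.Agent.Run7.h533.AC
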