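import Mathlib
import Pool.Agent.Run7.h533.AC.Sgn3

set_option autoImplicit false

/-!
# The second moment criterion
-/

open MeasureTheory Module Finset Metric
open scoped Pointwise ENNReal

namespace Pool.Agent.Run7.h533.AC

section Core

variable {d : ℕ} {K : Set (EuclideanSpace ℝ (Fin d))}

/-- few dyadic sums stay in a set of small volume -/
theorem count_T (hd : 1 ≤ d) (hK : Convex ℝ K) (hKc : IsCompact K) (hK0 : K ∈ nhds 0)
    (k : ℕ) (A : Finset (EuclideanSpace ℝ (Fin d))) (hA : A.Nonempty) (hAK : ∀ a ∈ A, a ∈ K)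
    {q : ℝ} (hq0 : 0 < q)
    (hq : ∀ t : EuclideanSpace ℝ (Fin d), (open Classical in
      ((A.filter fun x => x - t ∈ (1 - 1 / (2 * d) / 2 ^ k : ℝ) • K).card : ℝ)) ≤ q * A.card)
    {C τ : ℝ} (hC : 0 < C) (hτ : 0 ≤ τ) (T : Set (EuclideanSpace ℝ (Fin d)))
    (hT : MeasurableSet T) (hvol : volume (T ∩ K) ≤ ENNReal.ofReal τ * volume K) :
    ((open Classical in (univ.filter fun x : Fin k → A => ∀ z ∈ K,
      dy k (fun i => (x i : EuclideanSpace ℝ (Fin d))) + (1 / 2 : ℝ) ^ k • z ∈ T).card : ℝ))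
      ≤ (A.card : ℝ) ^ k * ((C * (2 ^ d * q)) ^ k * (2 * τ) + k / C) := by
  classical
  have hd' : (1 : ℝ) ≤ d := by exact_mod_cast hd
  have hd0 : (0 : ℝ) < d := by linarith
  have hfr : finrank ℝ (EuclideanSpace ℝ (Fin d)) = d := finrank_euclideanSpace_fin
  have h0K : (0 : EuclideanSpace ℝ (Fin d)) ∈ K := mem_of_mem_nhds hK0
  have hV0 : volume K ≠ 0 := (Measure.measure_pos_of_mem_nhds volume hK0).ne'
  have hAc : 0 < (A.card : ℝ) := by exact_mod_cast hA.card_pos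
  set l : ℝ := 1 - 1 / (2 * d) with hl
  have hl0 : 0 < l := by
    rw [hl]
    have : 1 / (2 * (d : ℝ)) ≤ 1 / 2 := by
      apply div_le_div_of_nonneg_left (by norm_num) (by norm_num); linarith
    linarith
  have hl1 : l ≤ 1 := by
    rw [hl]
    have : 0 ≤ 1 / (2 * (d : ℝ)) := by positivity
    linarith
  have hLm : MeasurableSet (l • K) := (hKc.smul l).isClosed.measurableSet
  have hLt : volume (l • K) ≠ ⊤ := (hKc.smul l).measure_lt_top.ne
  have hL0 : volume (l • K) ≠ 0 := by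
    rw [Measure.addHaar_smul]
    refine mul_ne_zero ?_ hV0
    simp only [ne_eq, ENNReal.ofReal_eq_zero, not_le]
    positivity
  have hLK : l • K ⊆ K := by
    have := smul_mono hK h0K hl0.le hl1
    rwa [one_smul] at this
  have h1 := dom_prob hd hK hKc h0K hV0 A hA hAK k hq0 hq C hC T hT τ hτ hvol
  rw [itn_apply A _ k _ hT] at h1
  set F : Finset (Fin k → A) := univ.filter fun x : Fin k → A => ∀ z ∈ K,
      dy k (fun i => (x i : EuclideanSpace ℝ (Fin d))) + (1 / 2 : ℝ) ^ k • z ∈ T with hF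
  have h3 : ∀ x : Fin k → A, (if x ∈ F then (1 : ℝ≥0∞) else 0) ≤ un volume (l • K)
      ((fun s => dy k (fun i => (x i : EuclideanSpace ℝ (Fin d))) + (1 / 2 : ℝ) ^ k • s) ⁻¹' T) := by
    intro x
    split_ifs with h
    · rw [hF, Finset.mem_filter] at h
      have hm : Measurable (fun s : EuclideanSpace ℝ (Fin d) =>
          dy k (fun i => (x i : EuclideanSpace ℝ (Fin d))) + (1 / 2 : ℝ) ^ k • s) :=
        (by fun_prop : Continuous fun s : EuclideanSpace ℝ (Fin d) =>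
          dy k (fun i => (x i : EuclideanSpace ℝ (Fin d))) + (1 / 2 : ℝ) ^ k • s).measurable
      rw [un_apply volume _ _ (hm hT)]
      have hall : ((fun s => dy k (fun i => (x i : EuclideanSpace ℝ (Fin d)))
          + (1 / 2 : ℝ) ^ k • s) ⁻¹' T) ∩ (l • K) = l • K := by
        rw [Set.inter_eq_right]
        intro s hs
        exact h.2 s (hLK hs)
      rw [hall, ENNReal.inv_mul_cancel hL0 hLt]
    · exact zero_le
  have h4 : ((A.card : ℝ≥0∞)⁻¹) ^ k * (F.card : ℝ≥0∞)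
      ≤ ENNReal.ofReal ((C * (2 ^ d * q)) ^ k * (2 * τ) + k / C) := by
    refine le_trans ?_ h1
    gcongr
    calc (F.card : ℝ≥0∞) = ∑ x : Fin k → A, (if x ∈ F then (1 : ℝ≥0∞) else 0) := by
          rw [Finset.sum_boole]
          simp
      _ ≤ _ := Finset.sum_le_sum fun x _ => h3 x
  have h5 : ((A.card : ℝ≥0∞)⁻¹) ^ k * (F.card : ℝ≥0∞)
      = ENNReal.ofReal (((A.card : ℝ) ^ k)⁻¹ * F.card) := by
    rw [← inv_pow, ENNReal.ofReal_mul (by positivity), ENNReal.ofReal_natCast,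
      ENNReal.ofReal_pow (by positivity), ENNReal.ofReal_inv_of_pos hAc, ENNReal.ofReal_natCast]
  rw [h5, ENNReal.ofReal_le_ofReal_iff (by positivity), inv_mul_le_iff₀ (by positivity)] at h4
  exact h4

end Core

section Moments

variable {E F : Type*} [NormedAddCommGroup F] [InnerProductSpace ℝ F]

theorem dy_mean (A : Finset E) (f : E → F) (u : F) (hu : (A.card : ℝ) • u = ∑ a ∈ A, f a)
    (k : ℕ) : ∑ x : Fin k → A, dy k (fun i => f (x i))
      = ((A.card : ℝ) ^ k * (1 - (1 / 2 : ℝ) ^ k)) • u := by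
  classical
  induction k with
  | zero => simp [dy]
  | succ k ih =>
    rw [← (Fin.consEquiv (fun _ : Fin (k + 1) => A)).sum_comp, Fintype.sum_prod_type]
    have h1 : ∀ (a : A) (x : Fin k → A),
        dy (k + 1) (fun i => f (((Fin.consEquiv (fun _ : Fin (k + 1) => A)) (a, x) i : A) : E))
        = (1 / 2 : ℝ) • f a + (1 / 2 : ℝ) • dy k (fun i => f (x i)) := by
      intro a x
      simp only [dy, Fin.consEquiv_apply, Fin.cons_zero, Fin.cons_succ, smul_add]
    simp only [h1, Finset.sum_add_distrib, ← Finset.smul_sum, ih, Finset.sum_const,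
      Finset.card_univ, Fintype.card_fun, Fintype.card_coe, Fintype.card_fin]
    have h2 : ∑ a : A, f (a : E) = (A.card : ℝ) • u := by
      rw [hu, ← Finset.sum_coe_sort A (fun a => f a)]
    rw [h2]
    simp only [← Nat.cast_smul_eq_nsmul ℝ, smul_smul, ← add_smul]
    congr 1
    push_cast
    rw [pow_succ, pow_succ]
    ring

theorem dy_second (A : Finset E) (f : E → F) (u : F) (hu : (A.card : ℝ) • u = ∑ a ∈ A, f a)
    {R : ℝ} (hR : ∀ a ∈ A, ‖f a‖ ≤ R) (k : ℕ) :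
    ∑ x : Fin k → A, ‖dy k (fun i => f (x i))‖ ^ 2
      ≤ (A.card : ℝ) ^ k * (R ^ 2 / 3 + 2 / 3 * ‖u‖ ^ 2) := by
  classical
  induction k with
  | zero =>
    simp only [dy]
    have : 0 ≤ R ^ 2 / 3 + 2 / 3 * ‖u‖ ^ 2 := by positivity
    simpa using this
  | succ k ih =>
    have hm := dy_mean A f u hu k
    rw [← (Fin.consEquiv (fun _ : Fin (k + 1) => A)).sum_comp, Fintype.sum_prod_type]
    have h1 : ∀ (a : A) (x : Fin k → A),
        ‖dy (k + 1) (fun i => f (((Fin.consEquiv (fun _ : Fin (k + 1) => A)) (a, x) i : A) : E))‖ ^ 2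
        = 1 / 4 * ‖f a‖ ^ 2 + 1 / 2 * inner ℝ (f a) (dy k (fun i => f (x i)))
          + 1 / 4 * ‖dy k (fun i => f (x i))‖ ^ 2 := by
      intro a x
      simp only [dy, Fin.consEquiv_apply, Fin.cons_zero, Fin.cons_succ]
      rw [norm_smul, mul_pow, norm_add_sq_real]
      norm_num
      ring
    simp only [h1, Finset.sum_add_distrib, ← Finset.mul_sum, Finset.sum_const,
      Finset.card_univ, Fintype.card_fun, Fintype.card_coe, Fintype.card_fin]
    have h2 : ∑ a : A, ∑ x : Fin k → A, inner ℝ (f (a : E)) (dy k (fun i => f (x i)))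
        = (A.card : ℝ) * ((A.card : ℝ) ^ k * (1 - (1 / 2 : ℝ) ^ k)) * ‖u‖ ^ 2 := by
      have e1 : ∀ a : A, ∑ x : Fin k → A, inner ℝ (f (a : E)) (dy k (fun i => f (x i)))
          = inner ℝ (f (a : E)) (((A.card : ℝ) ^ k * (1 - (1 / 2 : ℝ) ^ k)) • u) := by
        intro a
        rw [← inner_sum, hm]
      rw [Finset.sum_congr rfl fun a _ => e1 a, ← sum_inner,
        Finset.sum_coe_sort A (fun a => f a), ← hu, real_inner_smul_left, real_inner_smul_right,
        real_inner_self_eq_norm_sq]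
      ring
    have h3 : ∑ a : A, ‖f (a : E)‖ ^ 2 ≤ (A.card : ℝ) * R ^ 2 := by
      rw [Finset.sum_coe_sort A (fun a => ‖f a‖ ^ 2)]
      calc ∑ a ∈ A, ‖f a‖ ^ 2 ≤ ∑ _a ∈ A, R ^ 2 :=
            Finset.sum_le_sum fun a ha => pow_le_pow_left₀ (norm_nonneg _) (hR a ha) 2
        _ = _ := by rw [Finset.sum_const, nsmul_eq_mul]
    have h4 : 0 ≤ (1 / 2 : ℝ) ^ k := by positivity
    have h5 : 1 / 4 * ∑ a : A, (A.card ^ k) • (‖f (a : E)‖ ^ 2)
        = 1 / 4 * (A.card : ℝ) ^ k * ∑ a : A, ‖f (a : E)‖ ^ 2 := by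
      rw [← Finset.smul_sum, nsmul_eq_mul]
      push_cast
      ring
    rw [h5, h2, nsmul_eq_mul]
    have h6 : 1 / 4 * (A.card : ℝ) ^ k * ∑ a : A, ‖f (a : E)‖ ^ 2
        ≤ 1 / 4 * (A.card : ℝ) ^ k * ((A.card : ℝ) * R ^ 2) := by gcongr
    have h7 : 1 / 4 * ((A.card : ℝ) * ∑ x : Fin k → A, ‖dy k (fun i => f (x i))‖ ^ 2)
        ≤ 1 / 4 * ((A.card : ℝ) * ((A.card : ℝ) ^ k * (R ^ 2 / 3 + 2 / 3 * ‖u‖ ^ 2))) := by gcongr
    have h8 : 1 / 2 * ((A.card : ℝ) * ((A.card : ℝ) ^ k * (1 - (1 / 2 : ℝ) ^ k)) * ‖u‖ ^ 2)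
        ≤ 1 / 2 * ((A.card : ℝ) * ((A.card : ℝ) ^ k * 1) * ‖u‖ ^ 2) := by
      gcongr
      linarith
    have e : (A.card : ℝ) ^ (k + 1) * (R ^ 2 / 3 + 2 / 3 * ‖u‖ ^ 2)
        = 1 / 4 * (A.card : ℝ) ^ k * ((A.card : ℝ) * R ^ 2)
          + 1 / 2 * ((A.card : ℝ) * ((A.card : ℝ) ^ k * 1) * ‖u‖ ^ 2)
          + 1 / 4 * ((A.card : ℝ) * ((A.card : ℝ) ^ k * (R ^ 2 / 3 + 2 / 3 * ‖u‖ ^ 2))) := by
      rw [pow_succ]
      ring
    rw [e]
    linarith

theorem dy_norm_le {R : ℝ} (hR : 0 ≤ R) (k : ℕ) : ∀ a : Fin k → F, (∀ i, ‖a i‖ ≤ R) →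
    ‖dy k a‖ ≤ R := by
  induction k with
  | zero => intro a _; simpa [dy] using hR
  | succ k ih =>
    intro a ha
    have h1 := ih (fun i => a i.succ) (fun i => ha _)
    simp only [dy]
    rw [norm_smul]
    have h2 := norm_add_le (a 0) (dy k fun i => a i.succ)
    have h3 := ha 0
    norm_num
    linarith

end Moments

section Affine

variable {E F : Type*} [NormedAddCommGroup E] [NormedSpace ℝ E] [NormedAddCommGroup F]
  [NormedSpace ℝ F]

theorem dy_affine (L : E →L[ℝ] F) (c : F) (k : ℕ) : ∀ (x : Fin k → E) (z : E),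
    L (dy k x + (1 / 2 : ℝ) ^ k • z) - c
      = dy k (fun i => L (x i) - c) + (1 / 2 : ℝ) ^ k • (L z - c) := by
  induction k with
  | zero => intro x z; simp [dy]
  | succ k ih =>
    intro x z
    have h1 := ih (fun i => x i.succ) z
    have e1 : dy (k + 1) x + (1 / 2 : ℝ) ^ (k + 1) • z
        = (1 / 2 : ℝ) • (x 0 + (dy k (fun i => x i.succ) + (1 / 2 : ℝ) ^ k • z)) := by
      simp only [dy, pow_succ', smul_add, ← smul_smul, add_assoc]
    have e2 : dy (k + 1) (fun i => L (x i) - c) + (1 / 2 : ℝ) ^ (k + 1) • (L z - c)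
        = (1 / 2 : ℝ) • ((L (x 0) - c)
          + (dy k (fun i => L (x i.succ) - c) + (1 / 2 : ℝ) ^ k • (L z - c))) := by
      simp only [dy, pow_succ', smul_add, ← smul_smul, add_assoc]
    rw [e1, e2, ← h1, map_smul, map_add]
    have e3 : c = (1 / 2 : ℝ) • (c + c) := by
      rw [← two_smul ℝ c, smul_smul]
      norm_num
    calc (1 / 2 : ℝ) • (L (x 0) + L (dy k (fun i => x i.succ) + (1 / 2 : ℝ) ^ k • z)) - c
        = (1 / 2 : ℝ) • (L (x 0) + L (dy k (fun i => x i.succ) + (1 / 2 : ℝ) ^ k • z))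
          - (1 / 2 : ℝ) • (c + c) := by rw [← e3]
      _ = _ := by
          rw [← smul_sub]
          congr 1
          abel

end Affine

end Pool.Agent.Run7.h533.AC
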