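import Mathlib
import Pool.Agent.Run7.h533.AC.Mom

set_option autoImplicit false

/-!
# The second moment criterion, part 2
-/

open MeasureTheory Module Finset Metric
open scoped Pointwise ENNReal

namespace Pool.Agent.Run7.h533.AC

/-- the numerical contradiction -/
theorem mom_num {R r s u e : ℝ} (hR : 0 < R) (hr0 : 0 ≤ r) (hrR : r ≤ R) (hs0 : 0 ≤ s) (hsR : s ≤ R)
    (hu : 0 ≤ u) (he0 : 0 < e) (he1 : e ≤ 1 / 42)
    (h1 : (1 - e) * (r - e * R) ^ 2 ≤ R ^ 2 / 3 + 2 / 3 * u ^ 2)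
    (h2 : (1 - e) * u ≤ s + e * R) (h3 : R ^ 2 + 2 * s ^ 2 + 42 * e * R ^ 2 ≤ 3 * r ^ 2) : False := by
  have a1 : u ≤ s + 3 * e * R := by
    by_contra hcon
    push Not at hcon
    have b1 : (1 - e) * (s + 3 * e * R) < (1 - e) * u := by
      apply mul_lt_mul_of_pos_left hcon
      linarith
    have b2 : s + e * R ≤ (1 - e) * (s + 3 * e * R) := by
      have c1 : e * s ≤ e * R := by gcongr
      have c2 : 0 ≤ e * R := by positivity
      have c3 : e * (e * R) ≤ 1 / 42 * (e * R) := by gcongr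
      nlinarith
    linarith
  have a2 : u ^ 2 ≤ s ^ 2 + 7 * e * R ^ 2 := by
    have b1 : u ^ 2 ≤ (s + 3 * e * R) ^ 2 := pow_le_pow_left₀ hu a1 2
    have b2 : (s + 3 * e * R) ^ 2 = s ^ 2 + 6 * e * (s * R) + 9 * e * (e * R ^ 2) := by ring
    have b3 : e * (s * R) ≤ e * (R * R) := by gcongr
    have b4 : e * (e * R ^ 2) ≤ e * (1 / 42 * R ^ 2) := by gcongr
    have b5 : 0 ≤ e * R ^ 2 := by positivity
    nlinarith
  have a3 : r ^ 2 - 3 * e * R ^ 2 ≤ (1 - e) * (r - e * R) ^ 2 := by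
    have b1 : (1 - e) * (r - e * R) ^ 2
        = r ^ 2 - e * r ^ 2 - 2 * e * (1 - e) * (r * R) + (1 - e) * (e ^ 2 * R ^ 2) := by ring
    have b2 : e * r ^ 2 ≤ e * R ^ 2 := by gcongr
    have b3 : r * R ≤ R * R := by gcongr
    have b4 : 0 ≤ (1 - e) * (e ^ 2 * R ^ 2) := mul_nonneg (by linarith) (by positivity)
    have b5 : 2 * e * (1 - e) * (r * R) ≤ 2 * e * 1 * (R * R) := by
      have : 0 ≤ 2 * e * (1 - e) := mul_nonneg (by linarith) (by linarith)
      have c1 : 2 * e * (1 - e) * (r * R) ≤ 2 * e * (1 - e) * (R * R) := by gcongr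
      have c2 : 2 * e * (1 - e) * (R * R) ≤ 2 * e * 1 * (R * R) := by
        gcongr
        linarith
      linarith
    nlinarith
  have a4 : 0 < e * R ^ 2 := by positivity
  nlinarith

section Core

variable {d : ℕ} {K : Set (EuclideanSpace ℝ (Fin d))}

/-- **Core inequality of the second moment criterion** -/
theorem mom_core (hd : 1 ≤ d) (hK : Convex ℝ K) (hKc : IsCompact K) (hK0 : K ∈ nhds 0)
    {F : Type*} [NormedAddCommGroup F] [InnerProductSpace ℝ F]
    (L : EuclideanSpace ℝ (Fin d) →L[ℝ] F) (c : F) {R r s τ δ : ℝ} (hR : 0 < R) (hr0 : 0 ≤ r)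
    (hs0 : 0 ≤ s) (hsR : s ≤ R) (hτ0 : 0 ≤ τ) (hδ0 : 0 < δ) (hδ1 : δ ≤ 1)
    (hRK : ∀ x ∈ K, ‖L x - c‖ ≤ R)
    (hrK : volume ({x | ‖L x - c‖ ≤ r} ∩ K) ≤ ENNReal.ofReal τ * volume K)
    (hsK : ∀ u : F, ‖u‖ = 1 →
      volume ({x | s ≤ inner ℝ (L x - c) u} ∩ K) ≤ ENNReal.ofReal τ * volume K)
    (hδ : R ^ 2 + 2 * s ^ 2 + δ * R ^ 2 ≤ 3 * r ^ 2)
    {k : ℕ} (hk : 1 ≤ k) (hkδ : 84 ≤ δ * 2 ^ k)
    (A : Finset (EuclideanSpace ℝ (Fin d))) (hA : A.Nonempty) (hAK : ∀ a ∈ A, a ∈ K)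
    {q : ℝ} (hq0 : 0 < q)
    (hq : ∀ t : EuclideanSpace ℝ (Fin d), (open Classical in
      ((A.filter fun x => x - t ∈ (1 - 1 / (2 * d) / 2 ^ k : ℝ) • K).card : ℝ)) ≤ q * A.card) :
    1 ≤ (168 * k / δ * (2 ^ d * q)) ^ k * (672 * τ / δ) := by
  classical
  by_contra hcon
  push Not at hcon
  have hk' : (1 : ℝ) ≤ k := by exact_mod_cast hk
  set N : ℝ := (A.card : ℝ) with hN
  have hN0 : 0 < N := by rw [hN]; exact_mod_cast hA.card_pos
  have hC0 : 0 < 168 * k / δ := by positivity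
  set G : ℝ := (168 * k / δ * (2 ^ d * q)) ^ k * (2 * (2 * τ)) + k / (168 * k / δ) with hG
  have hG0 : 0 ≤ G := by positivity
  have hG1 : G ≤ δ / 84 := by
    have e1 : (k : ℝ) / (168 * k / δ) = δ / 168 := by field_simp
    have e2 : (168 * k / δ * (2 ^ d * q)) ^ k * (2 * (2 * τ)) ≤ δ / 168 := by
      have e3 : (168 * k / δ * (2 ^ d * q)) ^ k * (2 * (2 * τ))
          = (168 * k / δ * (2 ^ d * q)) ^ k * (672 * τ / δ) * (δ / 168) := by
        field_simp
        ring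
      rw [e3]
      have : 0 < δ / 168 := by positivity
      nlinarith
    rw [hG, e1]
    linarith
  set h : ℝ := (1 / 2 : ℝ) ^ k with hh
  have hh0 : 0 < h := by positivity
  have hh1 : h ≤ δ / 84 := by
    have e1 : h * 2 ^ k = 1 := by rw [hh, ← mul_pow]; norm_num
    have e2 : 84 * h ≤ δ := by
      calc 84 * h ≤ (δ * 2 ^ k) * h := by gcongr
        _ = δ * (h * 2 ^ k) := by ring
        _ = δ := by rw [e1, mul_one]
    linarith
  -- the mean
  set f : EuclideanSpace ℝ (Fin d) → F := fun x => L x - c with hf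
  set u : F := N⁻¹ • ∑ a ∈ A, f a with hu
  have hu' : (A.card : ℝ) • u = ∑ a ∈ A, f a := by
    rw [hu, smul_smul, ← hN, mul_inv_cancel₀ hN0.ne', one_smul]
  -- the small set
  set T : Set (EuclideanSpace ℝ (Fin d)) :=
    {x | ‖L x - c‖ ≤ r} ∪ {x | s * ‖u‖ < inner ℝ (L x - c) u} with hT
  have hfc : Continuous fun x : EuclideanSpace ℝ (Fin d) => L x - c := L.continuous.sub
    continuous_const
  have hTm : MeasurableSet T := by
    refine MeasurableSet.union ?_ ?_
    · exact (isClosed_le hfc.norm continuous_const).measurableSet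
    · exact (isOpen_lt continuous_const (hfc.inner continuous_const)).measurableSet
  have hTv : volume (T ∩ K) ≤ ENNReal.ofReal (2 * τ) * volume K := by
    have e1 : volume ({x | s * ‖u‖ < inner ℝ (L x - c) u} ∩ K)
        ≤ ENNReal.ofReal τ * volume K := by
      by_cases hu0 : u = 0
      · have : {x : EuclideanSpace ℝ (Fin d) | s * ‖u‖ < inner ℝ (L x - c) u} ∩ K = ∅ := by
          rw [Set.eq_empty_iff_forall_notMem]
          rintro x ⟨hx, -⟩
          rw [Set.mem_ofPred_eq, hu0, norm_zero, mul_zero, inner_zero_right] at hx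
          exact lt_irrefl _ hx
        rw [this, measure_empty]
        exact zero_le
      · have hun : 0 < ‖u‖ := norm_pos_iff.2 hu0
        refine le_trans (measure_mono ?_) (hsK (‖u‖⁻¹ • u) (by
          rw [norm_smul, Real.norm_of_nonneg (by positivity), inv_mul_cancel₀ hun.ne']))
        rintro x ⟨hx, hxK⟩
        refine ⟨?_, hxK⟩
        rw [Set.mem_ofPred_eq] at hx ⊢
        rw [real_inner_smul_right, ← div_eq_inv_mul, le_div_iff₀ hun]
        exact hx.le
    have e2 : ENNReal.ofReal (2 * τ) * volume K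
        = ENNReal.ofReal τ * volume K + ENNReal.ofReal τ * volume K := by
      rw [← add_mul, ← ENNReal.ofReal_add hτ0 hτ0]
      congr 2
      ring
    rw [hT, Set.union_inter_distrib_right, e2]
    exact (measure_union_le _ _).trans (add_le_add hrK e1)
  have hbad := count_T hd hK hKc hK0 k A hA hAK hq0 hq hC0 (by positivity : 0 ≤ 2 * τ) T hTm hTv
  set Bd : Finset (Fin k → A) := univ.filter fun x : Fin k → A => ∀ z ∈ K,
      dy k (fun i => (x i : EuclideanSpace ℝ (Fin d))) + (1 / 2 : ℝ) ^ k • z ∈ T with hBd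
  rw [← hG] at hbad
  -- the good tuples
  have hgood : ∀ x : Fin k → A, x ∉ Bd → r - h * R ≤ ‖dy k (fun i => f (x i))‖ ∧
      inner ℝ (dy k (fun i => f (x i))) u ≤ (s + h * R) * ‖u‖ ∧ r ≤ R := by
    intro x hx
    rw [hBd, Finset.mem_filter, not_and] at hx
    have h1 := hx (Finset.mem_univ _)
    push Not at h1
    obtain ⟨z, hz, hzT⟩ := h1
    rw [hT, Set.mem_union, not_or] at hzT
    simp only [Set.mem_ofPred_eq, not_le, not_lt] at hzT
    have e1 := dy_affine L c k (fun i => (x i : EuclideanSpace ℝ (Fin d))) z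
    obtain ⟨g1, g2⟩ := hzT
    have hfx : (fun i => L (x i : EuclideanSpace ℝ (Fin d)) - c) = fun i => f (x i) := rfl
    rw [hfx] at e1
    rw [e1] at g1 g2
    have hzR : ‖(1 / 2 : ℝ) ^ k • (L z - c)‖ ≤ h * R := by
      rw [norm_smul, Real.norm_of_nonneg (by positivity)]
      have := hRK z hz
      gcongr
    set V := dy k (fun i => f (x i)) with hV
    have hVR : ‖V‖ ≤ (1 - h) * R ∨ True := Or.inr trivial
    refine ⟨?_, ?_, ?_⟩
    · have := norm_add_le V ((1 / 2 : ℝ) ^ k • (L z - c))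
      linarith
    · rw [inner_add_left] at g2
      have g3 : -(h * R * ‖u‖) ≤ inner ℝ ((1 / 2 : ℝ) ^ k • (L z - c)) u := by
        have g4 := abs_real_inner_le_norm ((1 / 2 : ℝ) ^ k • (L z - c)) u
        have g5 : ‖(1 / 2 : ℝ) ^ k • (L z - c)‖ * ‖u‖ ≤ h * R * ‖u‖ := by gcongr
        have g6 := (abs_le.1 g4).1
        linarith
      have : (s + h * R) * ‖u‖ = s * ‖u‖ + h * R * ‖u‖ := by ring
      rw [this]
      linarith
    · have hw : dy k (fun i => (x i : EuclideanSpace ℝ (Fin d))) + (1 / 2 : ℝ) ^ k • z ∈ K := by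
        have h0K := mem_of_mem_nhds hK0
        have a1 := dy_mem hK ⟨0, h0K⟩ k (fun i => (x i : EuclideanSpace ℝ (Fin d)))
          (fun i => hAK _ (x i).2)
        obtain ⟨y, hy, hyx⟩ := a1
        simp only at hyx
        rw [← hyx]
        have hh1' : (1 / 2 : ℝ) ^ k ≤ 1 := pow_le_one₀ (by norm_num) (by norm_num)
        exact hK hy hz (by linarith) (by positivity) (by ring)
      have := hRK _ hw
      rw [e1] at this
      linarith
  have hcard : ((univ : Finset (Fin k → A)).card : ℝ) = N ^ k := by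
    rw [Finset.card_univ, Fintype.card_fun, Fintype.card_coe, Fintype.card_fin]
    push_cast
    rfl
  have hNk : 0 < N ^ k := by positivity
  have hBdc : ((Bdᶜ).card : ℝ) = N ^ k - Bd.card := by
    have := Finset.card_add_card_compl Bd
    have h2 : ((Bd.card + (Bdᶜ).card : ℕ) : ℝ) = N ^ k := by
      rw [this]
      rw [← hcard, Finset.card_univ]
    push_cast at h2
    linarith
  have hgc : N ^ k * (1 - G) ≤ ((Bdᶜ).card : ℝ) := by
    rw [hBdc]
    linarith
  have hBdN : ((Bdᶜ).card : ℝ) ≤ N ^ k := by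
    rw [hBdc]
    have : (0 : ℝ) ≤ Bd.card := Nat.cast_nonneg _
    linarith
  have hne : 0 < ((Bdᶜ).card : ℝ) := by
    have : 0 < N ^ k * (1 - G) := by
      apply mul_pos hNk
      linarith
    linarith
  have hne' : (Bdᶜ).Nonempty := by
    rw [← Finset.card_pos]
    exact_mod_cast hne
  obtain ⟨x₀, hx₀⟩ := hne'
  have hrR : r ≤ R := (hgood x₀ (Finset.mem_compl.1 hx₀)).2.2
  have hfA : ∀ a ∈ A, ‖f a‖ ≤ R := fun a ha => hRK a (hAK a ha)
  have hrpos : 0 ≤ r - h * R := by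
    have e1 : (R / 2) ^ 2 ≤ r ^ 2 := by nlinarith [sq_nonneg s]
    have e2 : R / 2 ≤ r := le_of_sq_le_sq e1 hr0
    have e3 : h ≤ 1 / 2 := by linarith
    have e4 : h * R ≤ 1 / 2 * R := by gcongr
    linarith
  -- second moment
  have h2 := dy_second A f u hu' hfA k
  have h3 : N ^ k * (1 - G) * (r - h * R) ^ 2 ≤ N ^ k * (R ^ 2 / 3 + 2 / 3 * ‖u‖ ^ 2) := by
    calc N ^ k * (1 - G) * (r - h * R) ^ 2 ≤ ((Bdᶜ).card : ℝ) * (r - h * R) ^ 2 := by gcongr
      _ = ∑ _x ∈ Bdᶜ, (r - h * R) ^ 2 := by rw [Finset.sum_const, nsmul_eq_mul]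
      _ ≤ ∑ x ∈ Bdᶜ, ‖dy k (fun i => f (x i))‖ ^ 2 :=
          Finset.sum_le_sum fun x hx =>
            pow_le_pow_left₀ hrpos (hgood x (Finset.mem_compl.1 hx)).1 2
      _ ≤ ∑ x : Fin k → A, ‖dy k (fun i => f (x i))‖ ^ 2 :=
          Finset.sum_le_univ_sum_of_nonneg fun x => by positivity
      _ ≤ _ := h2
  have h3' : (1 - G) * (r - h * R) ^ 2 ≤ R ^ 2 / 3 + 2 / 3 * ‖u‖ ^ 2 := by
    rw [mul_assoc] at h3
    exact le_of_mul_le_mul_left h3 hNk
  -- the mean
  have h4 := dy_mean A f u hu' k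
  have h5 : N ^ k * (1 - h) * ‖u‖ ^ 2 ≤ N ^ k * ((s + h * R) * ‖u‖) + N ^ k * (G * (R * ‖u‖)) := by
    have e1 : ∑ x : Fin k → A, inner ℝ (dy k (fun i => f (x i))) u = N ^ k * (1 - h) * ‖u‖ ^ 2 := by
      rw [← sum_inner, h4, real_inner_smul_left, real_inner_self_eq_norm_sq]
    rw [← e1, ← Finset.sum_add_sum_compl Bd, add_comm]
    apply add_le_add
    · calc ∑ x ∈ Bdᶜ, inner ℝ (dy k (fun i => f (x i))) u ≤ ∑ _x ∈ Bdᶜ, (s + h * R) * ‖u‖ :=
            Finset.sum_le_sum fun x hx => (hgood x (Finset.mem_compl.1 hx)).2.1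
        _ = ((Bdᶜ).card : ℝ) * ((s + h * R) * ‖u‖) := by rw [Finset.sum_const, nsmul_eq_mul]
        _ ≤ N ^ k * ((s + h * R) * ‖u‖) := by gcongr
    · calc ∑ x ∈ Bd, inner ℝ (dy k (fun i => f (x i))) u ≤ ∑ _x ∈ Bd, R * ‖u‖ :=
            Finset.sum_le_sum fun x _ => by
              refine (real_inner_le_norm _ _).trans ?_
              have := dy_norm_le hR.le k (fun i => f (x i)) (fun i => hfA _ (x i).2)
              gcongr
        _ = (Bd.card : ℝ) * (R * ‖u‖) := by rw [Finset.sum_const, nsmul_eq_mul]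
        _ ≤ N ^ k * G * (R * ‖u‖) := by gcongr
        _ = _ := by ring
  have h6 : (1 - h) * ‖u‖ ^ 2 ≤ (s + h * R + G * R) * ‖u‖ := by
    have e1 : N ^ k * ((1 - h) * ‖u‖ ^ 2) ≤ N ^ k * ((s + h * R + G * R) * ‖u‖) := by
      calc N ^ k * ((1 - h) * ‖u‖ ^ 2) = N ^ k * (1 - h) * ‖u‖ ^ 2 := by ring
        _ ≤ _ := h5
        _ = _ := by ring
    exact le_of_mul_le_mul_left e1 hNk
  have h7 : (1 - h) * ‖u‖ ≤ s + h * R + G * R := by
    rcases eq_or_lt_of_le (norm_nonneg u) with h0 | h0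
    · rw [← h0, mul_zero]
      positivity
    · have e1 : ((1 - h) * ‖u‖) * ‖u‖ ≤ (s + h * R + G * R) * ‖u‖ := by
        calc ((1 - h) * ‖u‖) * ‖u‖ = (1 - h) * ‖u‖ ^ 2 := by ring
          _ ≤ _ := h6
      exact le_of_mul_le_mul_right e1 h0
  -- numerical contradiction with `e = δ / 42`
  have hun := norm_nonneg u
  refine mom_num (R := R) (r := r) (s := s) (u := ‖u‖) (e := δ / 42) hR hr0 hrR hs0 hsR hun
    (by positivity) (by linarith) ?_ ?_ (by linarith)
  · have e1 : r - δ / 42 * R ≤ r - h * R := by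
      have : h * R ≤ δ / 42 * R := by gcongr; linarith
      linarith
    have e2 : 0 ≤ r - δ / 42 * R := by
      have e1 : (R / 2) ^ 2 ≤ r ^ 2 := by nlinarith [sq_nonneg s]
      have e2 : R / 2 ≤ r := le_of_sq_le_sq e1 hr0
      have e4 : δ / 42 * R ≤ 1 / 2 * R := by gcongr; linarith
      linarith
    calc (1 - δ / 42) * (r - δ / 42 * R) ^ 2 ≤ (1 - G) * (r - h * R) ^ 2 := by
          apply mul_le_mul _ (pow_le_pow_left₀ e2 e1 2) (by positivity) (by linarith)
          linarith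
      _ ≤ _ := h3'
  · have e1 : (1 - δ / 42) * ‖u‖ ≤ (1 - h) * ‖u‖ := by
      gcongr
      linarith
    have e2 : (h + G) * R ≤ δ / 42 * R := by
      gcongr
      linarith
    linarith

/-- the covering from the core inequality, general constant -/
theorem cover_of_core' (hd : 1 ≤ d) (hK : Convex ℝ K) (hKc : IsCompact K) (hK0 : K ∈ nhds 0)
    {k : ℕ} (hk : 1 ≤ k) {c X : ℝ} (hc : 0 < c) (hX : 0 < X)
    (hcore : ∀ A : Finset (EuclideanSpace ℝ (Fin d)), A.Nonempty → (∀ a ∈ A, a ∈ K) →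
      ∀ q : ℝ, 0 < q → (∀ t : EuclideanSpace ℝ (Fin d), (open Classical in
      ((A.filter fun x => x - t ∈ (1 - 1 / (2 * d) / 2 ^ k : ℝ) • K).card : ℝ)) ≤ q * A.card) →
      1 ≤ (c * (2 ^ d * q)) ^ k * X) :
    ∃ T : Finset (EuclideanSpace ℝ (Fin d)), K ⊆ ⋃ t ∈ T, (fun x => t + x) '' interior K ∧
      (T.card : ℝ) ≤ 1 + d * Real.log (1 + 2 ^ (k + 2) * d * (d + 1)) *
        (c * 2 ^ d * (2 * X) ^ (1 / k : ℝ)) := by
  classical
  have hd' : (1 : ℝ) ≤ d := by exact_mod_cast hd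
  have hd0 : (0 : ℝ) < d := by linarith
  have hk' : (1 : ℝ) ≤ k := by exact_mod_cast hk
  have hfr : finrank ℝ (EuclideanSpace ℝ (Fin d)) = d := finrank_euclideanSpace_fin
  set R : ℝ := (2 * X) ^ (1 / k : ℝ) with hR
  have hR0 : 0 < R := Real.rpow_pos_of_pos (by positivity) _
  have hRp : R ^ k = 2 * X := by
    rw [hR, ← Real.rpow_natCast, ← Real.rpow_mul (by positivity)]
    have : (1 / k : ℝ) * (k : ℝ) = 1 := by field_simp
    rw [this, Real.rpow_one]
  set θ : ℝ := (c * 2 ^ d * R)⁻¹ with hθ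
  have hθ0 : 0 < θ := by positivity
  have hKi : (interior K).Nonempty := ⟨0, mem_interior_iff_mem_nhds.2 hK0⟩
  obtain ⟨T, hT, hTc⟩ := cover_of_share K hK hKc hKi (by rw [hfr]; omega)
    (1 - 1 / (2 * d) / 2 ^ k) (1 / (2 ^ (k + 2) * d * (d + 1))) θ
    (by
      have h1 : 1 / (2 * (d : ℝ)) / 2 ^ k ≤ 1 / 2 := by
        rw [div_div, div_le_div_iff₀ (by positivity) (by norm_num)]
        have : (1 : ℝ) ≤ 2 ^ k := one_le_pow₀ (by norm_num)
        nlinarith
      linarith)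
    (by positivity)
    (by
      rw [hfr]
      have h1 : 1 / (2 ^ (k + 2) * (d : ℝ) * (d + 1)) + 1 / (2 ^ (k + 2) * (d : ℝ) * (d + 1)) * d
          = 1 / (2 ^ (k + 2) * d) := by
        field_simp
        ring
      have h2 : 1 / (2 * (d : ℝ)) / 2 ^ k = 1 / (2 ^ (k + 1) * d) := by
        rw [div_div, pow_succ]
        congr 1
        ring
      have h3 : 1 / (2 ^ (k + 2) * (d : ℝ)) < 1 / (2 ^ (k + 1) * d) := by
        apply div_lt_div_of_pos_left one_pos (by positivity)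
        have : (2 : ℝ) ^ (k + 2) = 2 * 2 ^ (k + 1) := by ring
        rw [this]
        have : 0 < (2 : ℝ) ^ (k + 1) * d := by positivity
        nlinarith
      rw [h2]
      linarith)
    hθ0
    (by
      intro A hA hAK
      by_contra hcon
      push Not at hcon
      have h1 := hcore A hA hAK θ hθ0 (fun t => (hcon t).le)
      have e1 : c * (2 ^ d * θ) = R⁻¹ := by rw [hθ]; field_simp
      rw [e1, inv_pow, hRp] at h1
      have e2 : (2 * X)⁻¹ * X = 1 / 2 := by field_simp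
      rw [e2] at h1
      norm_num at h1)
  refine ⟨T, hT, hTc.trans (le_of_eq ?_)⟩
  rw [hfr, one_div_one_div, hθ, div_inv_eq_mul]

end Core

end Pool.Agent.Run7.h533.AC
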