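import Mathlib
import Pool.Agent.Run7.h533.AC.Mom2

set_option autoImplicit false

/-!
# The second moment criterion, the covering theorem
-/

open MeasureTheory Module Finset Metric
open scoped Pointwise ENNReal

namespace Pool.Agent.Run7.h533.AC

/-- `11000 L² / δ d log(d+1) 2^d max(τ, e^(-d))^(1/L)` with `L = log₂ (168/δ)` -/
noncomputable def momentBound (d : ℕ) (δ τ : ℝ) : ℝ :=
  11000 * Real.logb 2 (168 / δ) ^ 2 / δ * d * Real.log (d + 1) * 2 ^ d
    * (max τ (Real.exp (-d))) ^ (1 / Real.logb 2 (168 / δ))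

theorem moment_num {d : ℕ} (hd : 1 ≤ d) {δ m : ℝ} (hδ0 : 0 < δ) (hδ1 : δ ≤ 1)
    (hm0 : Real.exp (-(d : ℝ)) ≤ m) (hm1 : m ≤ 1) :
    ∃ k : ℕ, 1 ≤ k ∧ 84 ≤ δ * 2 ^ k ∧ 1 + d * Real.log (1 + 2 ^ (k + 2) * d * (d + 1)) *
        (168 * k / δ * 2 ^ d * (2 * (672 * m / δ)) ^ (1 / k : ℝ))
      ≤ 11000 * Real.logb 2 (168 / δ) ^ 2 / δ * d * Real.log (d + 1) * 2 ^ d
        * m ^ (1 / Real.logb 2 (168 / δ)) := by
  have hd' : (1 : ℝ) ≤ d := by exact_mod_cast hd
  have hmpos : 0 < m := lt_of_lt_of_le (Real.exp_pos _) hm0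
  set k : ℕ := ⌈Real.logb 2 (84 / δ)⌉₊ with hk
  have h84 : (84 : ℝ) ≤ 84 / δ := by
    rw [le_div_iff₀ hδ0]; nlinarith
  have hlog0 : 0 ≤ Real.logb 2 (84 / δ) := Real.logb_nonneg (by norm_num) (by linarith)
  have hk1 : 84 / δ ≤ 2 ^ k := by
    have h1 : Real.logb 2 (84 / δ) ≤ k := Nat.le_ceil _
    have h2 := (Real.logb_le_iff_le_rpow (by norm_num) (by positivity)).1 h1
    rwa [Real.rpow_natCast] at h2
  have hk2 : (k : ℝ) ≤ Real.logb 2 (168 / δ) := by
    have h1 : (k : ℝ) < Real.logb 2 (84 / δ) + 1 := Nat.ceil_lt_add_one hlog0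
    have h2 : Real.logb 2 (168 / δ) = Real.logb 2 (84 / δ) + 1 := by
      have e : 168 / δ = 84 / δ * 2 := by ring
      rw [e, Real.logb_mul (by positivity) (by norm_num), Real.logb_self_eq_one (by norm_num)]
    linarith
  have hk7 : 7 ≤ k := by
    by_contra hcon
    push Not at hcon
    have h1 : (2 : ℝ) ^ k ≤ 2 ^ 6 := pow_le_pow_right₀ (by norm_num) (by omega)
    norm_num at h1
    linarith
  have hk' : (7 : ℝ) ≤ k := by exact_mod_cast hk7
  set Lg := Real.logb 2 (168 / δ) with hLg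
  have hp : (1 : ℝ) ≤ 2 ^ k := one_le_pow₀ (by norm_num)
  have hp2 : (2 : ℝ) ^ (k + 2) = 4 * 2 ^ k := by ring
  refine ⟨k, by omega, ?_, ?_⟩
  · rw [div_le_iff₀ hδ0] at hk1
    linarith
  -- the root
  have h1 : (2 * (672 * m / δ)) ^ (1 / k : ℝ) ≤ 32 * m ^ (1 / k : ℝ) := by
    have a0 : 2 * (672 * m / δ) ≤ (16 * 2 ^ k) * m := by
      have : 2 * (672 * m / δ) = 16 * (84 / δ) * m := by ring
      rw [this]
      gcongr
    calc (2 * (672 * m / δ)) ^ (1 / k : ℝ) ≤ ((16 * 2 ^ k) * m) ^ (1 / k : ℝ) :=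
          Real.rpow_le_rpow (by positivity) a0 (by positivity)
      _ = (16 : ℝ) ^ (1 / k : ℝ) * ((2 : ℝ) ^ k) ^ (1 / k : ℝ) * m ^ (1 / k : ℝ) := by
          rw [Real.mul_rpow (by positivity) hmpos.le, Real.mul_rpow (by norm_num) (by positivity)]
      _ ≤ 16 * 2 * m ^ (1 / k : ℝ) := by
          have a1 : (16 : ℝ) ^ (1 / k : ℝ) ≤ 16 := by
            calc (16 : ℝ) ^ (1 / k : ℝ) ≤ (16 : ℝ) ^ (1 : ℝ) := by
                  apply Real.rpow_le_rpow_of_exponent_le (by norm_num)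
                  rw [div_le_one (by linarith)]
                  linarith
              _ = 16 := Real.rpow_one _
          have a2 : ((2 : ℝ) ^ k) ^ (1 / k : ℝ) = 2 := by
            rw [← Real.rpow_natCast, ← Real.rpow_mul (by norm_num)]
            have : (k : ℝ) * (1 / k : ℝ) = 1 := by field_simp
            rw [this, Real.rpow_one]
          rw [a2]
          gcongr
      _ = 32 * m ^ (1 / k : ℝ) := by ring
  -- the logarithm
  have hl2 : Real.log 2 ≤ Real.log ((d : ℝ) + 1) := Real.log_le_log (by norm_num) (by linarith)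
  have hl2' : (1 / 2 : ℝ) ≤ Real.log 2 := by
    have := Real.log_two_gt_d9
    linarith
  set lg : ℝ := Real.log ((d : ℝ) + 1) with hlg
  have h2 : Real.log (1 + 2 ^ (k + 2) * d * (d + 1)) ≤ (k + 4) * lg := by
    have b1 : (1 + 2 ^ (k + 2) * d * (d + 1) : ℝ) ≤ 2 ^ (k + 2) * (d + 1) ^ 2 := by
      have : (1 : ℝ) ≤ 2 ^ (k + 2) * (d + 1) := by
        rw [hp2]
        nlinarith
      nlinarith
    calc Real.log (1 + 2 ^ (k + 2) * d * (d + 1)) ≤ Real.log (2 ^ (k + 2) * (d + 1) ^ 2) :=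
          Real.log_le_log (by positivity) b1
      _ = (k + 2) * Real.log 2 + 2 * lg := by
          rw [Real.log_mul (by positivity) (by positivity), Real.log_pow, Real.log_pow]
          push_cast
          ring
      _ ≤ (k + 4) * lg := by nlinarith
  -- the main term
  set e : ℝ := m ^ (1 / k : ℝ) with he
  have he0 : 0 < e := Real.rpow_pos_of_pos hmpos _
  set X : ℝ := d * lg * 2 ^ d * e with hX
  have hlg0 : 1 / 2 ≤ lg := by linarith
  have hpe : 1 ≤ 2 ^ d * e := by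
    have c1 : Real.exp (-(d / 2)) ≤ e := by
      calc Real.exp (-(d / 2)) ≤ Real.exp (-(d / k)) := by
            apply Real.exp_le_exp.2
            apply neg_le_neg
            apply div_le_div_of_nonneg_left (by linarith) (by norm_num)
            linarith
        _ = (Real.exp (-(d : ℝ))) ^ (1 / k : ℝ) := by
            rw [← Real.exp_mul]
            congr 1
            ring
        _ ≤ m ^ (1 / k : ℝ) := Real.rpow_le_rpow (Real.exp_pos _).le hm0 (by positivity)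
    have c2 : (1 : ℝ) ≤ 2 ^ d * Real.exp (-(d / 2)) := by
      have c3 : Real.exp (-((d : ℝ) / 2)) = Real.exp (-(1 / 2)) ^ d := by
        rw [← Real.exp_nat_mul]
        congr 1
        ring
      rw [c3, ← mul_pow]
      apply one_le_pow₀
      have := Real.add_one_le_exp (-(1 / 2) : ℝ)
      linarith
    calc (1 : ℝ) ≤ 2 ^ d * Real.exp (-(d / 2)) := c2
      _ ≤ 2 ^ d * e := by gcongr
  have hX1 : 1 / 2 ≤ X := by
    have : (1 : ℝ) / 2 ≤ d * lg := by nlinarith
    rw [hX, mul_assoc]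
    nlinarith
  have hX0 : 0 < X := by linarith
  have h3 : d * Real.log (1 + 2 ^ (k + 2) * d * (d + 1)) *
        (168 * k / δ * 2 ^ d * (2 * (672 * m / δ)) ^ (1 / k : ℝ))
      ≤ 5376 * k * (k + 4) / δ * X := by
    calc d * Real.log (1 + 2 ^ (k + 2) * d * (d + 1)) *
        (168 * k / δ * 2 ^ d * (2 * (672 * m / δ)) ^ (1 / k : ℝ))
        ≤ d * ((k + 4) * lg) * (168 * k / δ * 2 ^ d * (32 * e)) := by
          gcongr
      _ = 5376 * k * (k + 4) / δ * X := by rw [hX]; ring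
  have h4 : 1 + 5376 * k * (k + 4) / δ * X ≤ 11000 * k ^ 2 / δ * X := by
    have hδi : 1 ≤ 1 / δ := by
      rw [le_div_iff₀ hδ0]; linarith
    have c1 : 5376 * (k : ℝ) * (k + 4) / δ * X ≤ 5376 * k * (2 * k) / δ * X := by
      gcongr
      linarith
    have c3 : (1 : ℝ) ≤ 248 * k ^ 2 / δ * X := by
      have c4 : (49 : ℝ) ≤ k ^ 2 := by nlinarith
      have c5 : 248 * (k : ℝ) ^ 2 / δ * X = (248 * k ^ 2 * X) * (1 / δ) := by ring
      rw [c5]
      have c6 : (1 : ℝ) ≤ 248 * k ^ 2 * X := by nlinarith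
      nlinarith
    have c4 : 11000 * (k : ℝ) ^ 2 / δ * X = 5376 * k * (2 * k) / δ * X + 248 * k ^ 2 / δ * X := by
      ring
    rw [c4]
    linarith
  have hLg0 : 0 < Lg := by linarith
  have h5 : e ≤ m ^ (1 / Lg) := by
    rw [he]
    apply Real.rpow_le_rpow_of_exponent_ge hmpos hm1
    apply one_div_le_one_div_of_le (by linarith) hk2
  calc 1 + d * Real.log (1 + 2 ^ (k + 2) * d * (d + 1)) *
        (168 * k / δ * 2 ^ d * (2 * (672 * m / δ)) ^ (1 / k : ℝ))
      ≤ 11000 * k ^ 2 / δ * X := by linarith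
    _ = 11000 * k ^ 2 / δ * d * lg * 2 ^ d * e := by rw [hX]; ring
    _ ≤ 11000 * Lg ^ 2 / δ * d * lg * 2 ^ d * m ^ (1 / Lg) := by gcongr

/-- **The second moment criterion.** -/
theorem moment_all {d : ℕ} {K : Set (EuclideanSpace ℝ (Fin d))} (hd : 1 ≤ d) (hK : Convex ℝ K)
    (hKc : IsCompact K) (hKi : (interior K).Nonempty)
    {F : Type*} [NormedAddCommGroup F] [InnerProductSpace ℝ F]
    (L : EuclideanSpace ℝ (Fin d) →L[ℝ] F) (c : F) {R r s τ δ : ℝ} (hR : 0 < R) (hr0 : 0 ≤ r)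
    (hs0 : 0 ≤ s) (hsR : s ≤ R) (hτ1 : τ ≤ 1) (hδ0 : 0 < δ) (hδ1 : δ ≤ 1)
    (hRK : ∀ x ∈ K, ‖L x - c‖ ≤ R)
    (hrK : volume ({x | ‖L x - c‖ ≤ r} ∩ K) ≤ ENNReal.ofReal τ * volume K)
    (hsK : ∀ u : F, ‖u‖ = 1 →
      volume ({x | s ≤ inner ℝ (L x - c) u} ∩ K) ≤ ENNReal.ofReal τ * volume K)
    (hδ : R ^ 2 + 2 * s ^ 2 + δ * R ^ 2 ≤ 3 * r ^ 2) (B : Set (EuclideanSpace ℝ (Fin d))) :
    ∃ T : Finset (EuclideanSpace ℝ (Fin d)),
      K + B ⊆ ⋃ t ∈ T, (fun x => t + x) '' interior (K + B) ∧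
      (T.card : ℝ) ≤ momentBound d δ τ := by
  obtain ⟨o, ho⟩ := hKi
  obtain ⟨h1, h2, h3⟩ := translate_body hK hKc ho
  set m : ℝ := max τ (Real.exp (-(d : ℝ))) with hm
  have hm0 : Real.exp (-(d : ℝ)) ≤ m := le_max_right _ _
  have hmpos : 0 < m := lt_of_lt_of_le (Real.exp_pos _) hm0
  have hm1 : m ≤ 1 := by
    refine max_le hτ1 ?_
    rw [Real.exp_le_one_iff]
    have : (0 : ℝ) ≤ d := Nat.cast_nonneg d
    linarith
  obtain ⟨k, hk1, hk2, hk3⟩ := moment_num hd hδ0 hδ1 hm0 hm1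
  have hk0 : (0 : ℝ) < k := by exact_mod_cast hk1
  -- volumes of the translated body
  have hvol : ∀ S : Set (EuclideanSpace ℝ (Fin d)),
      volume (S ∩ ((fun x => -o + x) '' K)) = volume (((fun x => -o + x) ⁻¹' S) ∩ K) := by
    intro S
    have e : S ∩ ((fun x => -o + x) '' K)
        = (fun x => -o + x) '' (((fun x => -o + x) ⁻¹' S) ∩ K) := by
      ext y
      constructor
      · rintro ⟨hy, x, hx, rfl⟩
        exact ⟨x, ⟨hy, hx⟩, rfl⟩
      · rintro ⟨x, ⟨hx1, hx2⟩, rfl⟩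
        exact ⟨hx1, x, hx2, rfl⟩
    rw [e, Set.image_add_left, measure_preimage_add]
  have hvolK : volume ((fun x => -o + x) '' K) = volume K := by
    rw [Set.image_add_left, measure_preimage_add]
  have hLe : ∀ x, L (-o + x) - (c - L o) = L x - c := by
    intro x
    rw [map_add, map_neg]
    abel
  obtain ⟨T, hT, hTc⟩ := cover_of_core' hd h1 h2 h3 hk1 (c := 168 * k / δ)
    (X := 672 * m / δ) (by positivity) (by positivity)
    (fun A hA hAK q hq0 hq => mom_core hd h1 h2 h3 L (c - L o) hR hr0 hs0 hsR hmpos.le hδ0 hδ1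
      (by
        rintro _ ⟨x, hx, rfl⟩
        simp only [hLe]
        exact hRK x hx)
      (by
        rw [hvol, hvolK]
        have e : ((fun x => -o + x) ⁻¹' {x : EuclideanSpace ℝ (Fin d) | ‖L x - (c - L o)‖ ≤ r})
            = {x | ‖L x - c‖ ≤ r} := by
          ext x
          simp only [Set.mem_preimage, Set.mem_ofPred_eq, hLe]
        rw [e]
        refine hrK.trans ?_
        gcongr
        exact le_max_left _ _)
      (by
        intro u hu
        rw [hvol, hvolK]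
        have e : ((fun x => -o + x) ⁻¹' {x : EuclideanSpace ℝ (Fin d) |
            s ≤ inner ℝ (L x - (c - L o)) u}) = {x | s ≤ inner ℝ (L x - c) u} := by
          ext x
          simp only [Set.mem_preimage, Set.mem_ofPred_eq, hLe]
        rw [e]
        refine (hsK u hu).trans ?_
        gcongr
        exact le_max_left _ _)
      hδ hk1 hk2 A hA hAK hq0 hq)
  refine ⟨T, ?_, hTc.trans hk3⟩
  rw [← translate_sum o B]
  exact cover_add hT

end Pool.Agent.Run7.h533.AC
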