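import Mathlib
import Pool.Agent.Run7.h533.AC.Apps

set_option autoImplicit false

/-!
# The covering results in their final form
-/

open MeasureTheory Module Finset Metric
open scoped Pointwise ENNReal RealInnerProductSpace

namespace Pool.Agent.Run7.h533.AC

variable {d : ℕ} {K : Set (EuclideanSpace ℝ (Fin d))}

theorem centred_nhds (hK : Convex ℝ K) (hKc : IsCompact K) (hKi : (interior K).Nonempty)
    (hbar : ∫ x in K, x = 0) : K ∈ nhds 0 := by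
  have h := bary_mem hK hKc hKi
  rw [setAverage_eq, hbar, smul_zero] at h
  exact mem_interior_iff_mem_nhds.1 h

/-- thin caps -/
theorem cap_all (hd : 2 ≤ d) (hK : Convex ℝ K) (hKc : IsCompact K) (hKi : (interior K).Nonempty)
    (hbar : ∫ x in K, x = 0) {δ τ β : ℝ} (hδ0 : 0 < δ) (hδ1 : δ ≤ 1)
    (hτ1 : τ ≤ 1) (hβ0 : 0 < β) (hβ1 : β ≤ 1)
    (hS : ENNReal.ofReal β * volume K ≤ volume {z : EuclideanSpace ℝ (Fin d) | z ∈ K ∧
      ∃ φ : EuclideanSpace ℝ (Fin d) →L[ℝ] ℝ, ((∀ x ∈ K, φ x ≤ 1) ∧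
        volume ({y | 1 - δ ≤ φ y} ∩ K) ≤ ENNReal.ofReal τ * volume K) ∧ φ z = gauge K z})
    (B : Set (EuclideanSpace ℝ (Fin d))) :
    ∃ T : Finset (EuclideanSpace ℝ (Fin d)),
      K + B ⊆ ⋃ t ∈ T, (fun x => t + x) '' interior (K + B) ∧
      (T.card : ℝ) ≤ 300 * Real.logb 2 (16 / δ) ^ 2 * d * Real.log (d + 1) * 2 ^ d
        * (max τ (Real.exp (-d))) ^ (β * δ ^ 2 / (72 * Real.logb 2 (16 / δ) ^ 2)) := by
  have h1 : Real.exp (-(d : ℝ)) ≤ 1 := by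
    rw [Real.exp_le_one_iff]
    have : (0 : ℝ) ≤ d := Nat.cast_nonneg d
    linarith
  obtain ⟨T, hT, hTc⟩ := cap_final hd hK hKc (centred_nhds hK hKc hKi hbar) hbar hδ0 hδ1
    (le_max_right τ (Real.exp (-d))) (max_le hτ1 h1) hβ0 hβ1 (hS.trans (measure_mono (by
      rintro z ⟨hz, φ, ⟨hφ, hφv⟩, hφz⟩
      refine ⟨hz, φ, ⟨hφ, hφv.trans ?_⟩, hφz⟩
      gcongr
      exact le_max_left _ _)))
  exact ⟨T, cover_add hT, hTc⟩

/-- rotund points -/
theorem rotund_all (hd : 2 ≤ d) (hK : Convex ℝ K) (hKc : IsCompact K)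
    (hKi : (interior K).Nonempty)
    (hbar : ∫ x in K, x = 0) {δ τ β : ℝ} (hδ0 : 0 < δ) (hδ1 : δ ≤ 1)
    (hτ1 : τ ≤ 1) (hβ0 : 0 < β) (hβ1 : β ≤ 1)
    (hS : ENNReal.ofReal β * volume K ≤ volume {z : EuclideanSpace ℝ (Fin d) | z ∈ K ∧ z ≠ 0 ∧
      volume {y | y ∈ K ∧ (1 / 2 : ℝ) • ((gauge K z)⁻¹ • z + y) ∉ (1 - δ) • K}
        ≤ ENNReal.ofReal τ * volume K})
    (B : Set (EuclideanSpace ℝ (Fin d))) :
    ∃ T : Finset (EuclideanSpace ℝ (Fin d)),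
      K + B ⊆ ⋃ t ∈ T, (fun x => t + x) '' interior (K + B) ∧
      (T.card : ℝ) ≤ 300 * Real.logb 2 (16 / δ) ^ 2 * d * Real.log (d + 1) * 2 ^ d
        * (max τ (Real.exp (-d))) ^ (β * δ ^ 2 / (72 * Real.logb 2 (16 / δ) ^ 2)) := by
  have hK0 := centred_nhds hK hKc hKi hbar
  refine cap_all hd hK hKc hKi hbar hδ0 hδ1 hτ1 hβ0 hβ1 (hS.trans (measure_mono ?_)) B
  rintro z ⟨hzK, hz, hzv⟩
  obtain ⟨φ, hφ, hφz⟩ := rotund_thin hK hKc hK0 hδ0 hδ1 hz hzv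
  exact ⟨hzK, φ, hφ, hφz⟩

/-- curved points -/
theorem curved_all (hd : 2 ≤ d) (hK : Convex ℝ K) (hKc : IsCompact K)
    (hKi : (interior K).Nonempty)
    (hbar : ∫ x in K, x = 0) {κ R β : ℝ} (hκ0 : 0 < κ) (hκ1 : κ ≤ 1) (hR : 0 < R)
    (hβ0 : 0 < β) (hβ1 : β ≤ 1) {o : EuclideanSpace ℝ (Fin d)} (ho : closedBall o (κ * R) ⊆ K)
    (hS : ENNReal.ofReal β * volume K ≤ volume {z : EuclideanSpace ℝ (Fin d) | z ∈ K ∧ z ≠ 0 ∧
      ∃ c, K ⊆ closedBall c R ∧ ‖(gauge K z)⁻¹ • z - c‖ = R})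
    (B : Set (EuclideanSpace ℝ (Fin d))) :
    ∃ T : Finset (EuclideanSpace ℝ (Fin d)),
      K + B ⊆ ⋃ t ∈ T, (fun x => t + x) '' interior (K + B) ∧
      (T.card : ℝ) ≤ 300 * Real.logb 2 (16 / (κ ^ 2 / 16)) ^ 2 * d * Real.log (d + 1) * 2 ^ d
        * (max ((1 / 2) ^ d) (Real.exp (-d))) ^
          (β * (κ ^ 2 / 16) ^ 2 / (72 * Real.logb 2 (16 / (κ ^ 2 / 16)) ^ 2)) := by
  have hK0 := centred_nhds hK hKc hKi hbar
  refine cap_all hd hK hKc hKi hbar (by positivity) (by nlinarith)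
    (pow_le_one₀ (by norm_num) (by norm_num)) hβ0 hβ1 (hS.trans (measure_mono ?_)) B
  rintro z ⟨hzK, hz, c, hKR, hzc⟩
  obtain ⟨φ, hφ, hφz⟩ := curved_thin hK hKc hK0 hκ0 hR ho hz hKR hzc
  exact ⟨hzK, φ, hφ, hφz⟩

open Pool.Agent.Run7.h533.CW (ballBody mem_ballBody ballBody_convex ballBody_compact
  closure_facts interior_of_lt ballBody_interior)

/-- a point of an intersection of balls which is not in the interior is on the sphere of a ball
containing it -/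
theorem ball_bd {X : Set (EuclideanSpace ℝ (Fin d))} {R : ℝ} (hX : X.Nonempty)
    {p : EuclideanSpace ℝ (Fin d)} (hp : p ∈ ballBody X R) (hpi : p ∉ interior (ballBody X R)) :
    ∃ c, ballBody X R ⊆ closedBall c R ∧ ‖p - c‖ = R := by
  have hX2 : ∀ c ∈ X, ∀ c' ∈ X, ‖c - c'‖ ≤ 2 * R := by
    intro c hc c' hc'
    have h1 := mem_ballBody.1 hp c hc
    have h2 := mem_ballBody.1 hp c' hc'
    calc ‖c - c'‖ = ‖(p - c') - (p - c)‖ := by congr 1; abel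
      _ ≤ ‖p - c'‖ + ‖p - c‖ := norm_sub_le _ _
      _ ≤ 2 * R := by linarith
  obtain ⟨hpc, -, hcomp⟩ := closure_facts hX hX2 hp
  obtain ⟨c, hc, hmax⟩ := hcomp.exists_isMaxOn (hX.mono subset_closure)
    (f := fun c => ‖p - c‖) (by fun_prop)
  refine ⟨c, fun y hy => ?_, ?_⟩
  · rw [mem_closedBall, dist_eq_norm]
    exact (closure_facts hX hX2 hy).1 c hc
  · refine le_antisymm (hpc c hc) ?_
    by_contra hlt
    push Not at hlt
    exact hpi (interior_of_lt hlt fun c' hc' => hmax (subset_closure hc'))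

/-- intersections of balls -/
theorem balls_all (hd : 2 ≤ d) {X : Set (EuclideanSpace ℝ (Fin d))} (hX : X.Nonempty)
    {κ R : ℝ} (hκ0 : 0 < κ) (hκ1 : κ ≤ 1) (hR : 0 < R)
    {o : EuclideanSpace ℝ (Fin d)} (ho : closedBall o (κ * R) ⊆ ⋂ c ∈ X, closedBall c R)
    (B : Set (EuclideanSpace ℝ (Fin d))) :
    ∃ T : Finset (EuclideanSpace ℝ (Fin d)),
      (⋂ c ∈ X, closedBall c R) + B ⊆
        ⋃ t ∈ T, (fun x => t + x) '' interior ((⋂ c ∈ X, closedBall c R) + B) ∧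
      (T.card : ℝ) ≤ 300 * Real.logb 2 (16 / (κ ^ 2 / 16)) ^ 2 * d * Real.log (d + 1) * 2 ^ d
        * (max ((1 / 2) ^ d) (Real.exp (-d))) ^
          (1 * (κ ^ 2 / 16) ^ 2 / (72 * Real.logb 2 (16 / (κ ^ 2 / 16)) ^ 2)) := by
  set W : Set (EuclideanSpace ℝ (Fin d)) := ⋂ c ∈ X, closedBall c R with hW
  have hWb : W = ballBody X R := rfl
  have hWconv : Convex ℝ W := ballBody_convex X R
  have hWc : IsCompact W := ballBody_compact hX R
  have hWi : (interior W).Nonempty := by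
    refine ⟨o, ?_⟩
    rw [mem_interior_iff_mem_nhds]
    exact Filter.mem_of_superset (closedBall_mem_nhds o (by positivity)) ho
  set b : EuclideanSpace ℝ (Fin d) := ⨍ x in W, x with hb
  set K : Set (EuclideanSpace ℝ (Fin d)) := (fun x => -b + x) '' W with hKdef
  have hKconv : Convex ℝ K := hWconv.translate (-b)
  have hKc : IsCompact K := hWc.image (by fun_prop)
  have hint : interior K = (fun x => -b + x) '' interior W :=
    ((Homeomorph.addLeft (-b)).image_interior W).symm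
  have hKi : (interior K).Nonempty := by
    rw [hint]
    exact hWi.image _
  have hbar : ∫ x in K, x = 0 := bary_zero hWc hWi hb
  have hK0 := centred_nhds hKconv hKc hKi hbar
  have hoK : closedBall (-b + o) (κ * R) ⊆ K := by
    intro y hy
    refine ⟨b + y, ho ?_, by simp⟩
    rw [mem_closedBall, dist_eq_norm] at hy ⊢
    calc ‖b + y - o‖ = ‖y - (-b + o)‖ := by congr 1; abel
      _ ≤ κ * R := hy
  have hvol : volume K ≤ volume {z : EuclideanSpace ℝ (Fin d) | z ∈ K ∧ z ≠ 0 ∧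
      ∃ c, K ⊆ closedBall c R ∧ ‖(gauge K z)⁻¹ • z - c‖ = R} := by
    have hne : Nonempty (Fin d) := ⟨⟨0, by omega⟩⟩
    have hsub : K ⊆ {z : EuclideanSpace ℝ (Fin d) | z ∈ K ∧ z ≠ 0 ∧
      ∃ c, K ⊆ closedBall c R ∧ ‖(gauge K z)⁻¹ • z - c‖ = R} ∪ {0} := by
      intro z hzK
      by_cases hz : z = 0
      · exact Or.inr hz
      left
      obtain ⟨hpos, -, hxK, hxi⟩ := bd_point hKconv hKc hK0 hz
      refine ⟨hzK, hz, ?_⟩
      obtain ⟨p, hp, hpx⟩ := hxK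
      simp only at hpx
      have hpi : p ∉ interior W := by
        intro h
        apply hxi
        rw [hint, ← hpx]
        exact ⟨p, h, rfl⟩
      obtain ⟨c, hc1, hc2⟩ := ball_bd hX (by rw [← hWb]; exact hp) (by rw [← hWb]; exact hpi)
      refine ⟨-b + c, ?_, ?_⟩
      · rintro _ ⟨y, hy, rfl⟩
        simp only
        have h1 := hc1 hy
        rw [mem_closedBall, dist_eq_norm] at h1 ⊢
        calc ‖-b + y - (-b + c)‖ = ‖y - c‖ := by congr 1; abel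
          _ ≤ R := h1
      · rw [← hpx, ← hc2]
        congr 1
        abel
    refine (measure_mono hsub).trans ((measure_union_le _ _).trans ?_)
    have hnt : Nontrivial (EuclideanSpace ℝ (Fin d)) := inferInstance
    rw [measure_singleton, add_zero]
  obtain ⟨T, hT, hTc⟩ := curved_all hd hKconv hKc hKi hbar hκ0 hκ1 hR one_pos le_rfl hoK
    (by rw [ENNReal.ofReal_one, one_mul]; exact hvol) ((fun x => b + x) '' B)
  have hsum : K + (fun x => b + x) '' B = W + B := by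
    ext y
    constructor
    · rintro ⟨_, ⟨w, hw, rfl⟩, _, ⟨v, hv, rfl⟩, rfl⟩
      exact ⟨w, hw, v, hv, by simp only; abel⟩
    · rintro ⟨w, hw, v, hv, rfl⟩
      exact ⟨-b + w, ⟨w, hw, rfl⟩, b + v, ⟨v, hv, rfl⟩, by simp only; abel⟩
  rw [hsum] at hT
  exact ⟨T, hT, hTc⟩

/-- an intersection of balls of radius `R` whose centres have distances of at most `D R` from each
other, `D < √2`, contains a ball -/
theorem ball_inside {X : Set (EuclideanSpace ℝ (Fin d))} (hX : X.Nonempty)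
    {D R : ℝ} (hR : 0 < R) (hD0 : 0 ≤ D) (hD : D < Real.sqrt 2)
    (hX2 : ∀ c ∈ X, ∀ c' ∈ X, ‖c - c'‖ ≤ D * R) :
    ∃ o, closedBall o ((1 - D / Real.sqrt 2) / 2 * R) ⊆ ⋂ c ∈ X, closedBall c R := by
  have hs : 0 < Real.sqrt 2 := by positivity
  have hs2 : Real.sqrt 2 ^ 2 = 2 := Real.sq_sqrt (by norm_num)
  have hq : D / Real.sqrt 2 < 1 := by rw [div_lt_one hs]; exact hD
  have hq0 : 0 ≤ D / Real.sqrt 2 := by positivity
  set ρ : ℝ := R * (1 + D / Real.sqrt 2) / 2 with hρ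
  have hρ0 : 0 < ρ := by positivity
  have hX3 : ∀ c ∈ X, ∀ c' ∈ X, ‖c - c'‖ ≤ D * R / ρ * ρ := by
    intro c hc c' hc'
    rw [div_mul_cancel₀ _ hρ0.ne']
    exact hX2 c hc c' hc'
  have hD2 : (D * R / ρ) ^ 2 < 2 := by
    have h1 : D * R / ρ < Real.sqrt 2 := by
      rw [div_lt_iff₀ hρ0, hρ]
      have h2 : Real.sqrt 2 * (R * (1 + D / Real.sqrt 2) / 2) = R * (Real.sqrt 2 + D) / 2 := by
        field_simp
      rw [h2]
      nlinarith
    have h3 : 0 ≤ D * R / ρ := by positivity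
    rw [← hs2]
    exact pow_lt_pow_left₀ h1 h3 (by norm_num)
  obtain ⟨o, ho⟩ := ballBody_interior hρ0 hX (by positivity) hX3 hD2
  have hoρ := mem_ballBody.1 (interior_subset ho)
  refine ⟨o, fun y hy => ?_⟩
  rw [mem_closedBall, dist_eq_norm] at hy
  refine Set.mem_iInter₂.2 fun c hc => ?_
  rw [mem_closedBall, dist_eq_norm]
  calc ‖y - c‖ = ‖(y - o) + (o - c)‖ := by rw [sub_add_sub_cancel]
    _ ≤ ‖y - o‖ + ‖o - c‖ := norm_add_le _ _
    _ ≤ (1 - D / Real.sqrt 2) / 2 * R + ρ := add_le_add hy (hoρ c hc)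
    _ = R := by rw [hρ]; ring

/-- pairs -/
theorem pair_all (hd : 2 ≤ d) (hK : Convex ℝ K) (hKc : IsCompact K)
    (hKi : (interior K).Nonempty) (h0 : (0 : EuclideanSpace ℝ (Fin d)) ∈ K)
    (t : EuclideanSpace ℝ (Fin d)) {δ ε : ℝ} (hδ0 : 0 < δ) (hδ1 : δ ≤ 1) (hε0 : 0 ≤ ε)
    (hε1 : ε ≤ 1)
    (hbad : ((volume : Measure (EuclideanSpace ℝ (Fin d))).prod volume)
      {p | p.1 ∈ K ∧ p.2 ∈ K ∧ (1 / 2 : ℝ) • (p.1 + p.2) ∉ (fun z => t + z) '' ((1 - δ) • K)}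
        ≤ ENNReal.ofReal ε * volume K ^ 2)
    (B : Set (EuclideanSpace ℝ (Fin d))) :
    ∃ T : Finset (EuclideanSpace ℝ (Fin d)),
      K + B ⊆ ⋃ t ∈ T, (fun x => t + x) '' interior (K + B) ∧
      (T.card : ℝ) ≤ 250 * Real.logb 2 (2 / δ) ^ 2 * d * Real.log (d + 1) * 2 ^ d
        * (max ε (Real.exp (-(δ ^ 2 * d / 2)))) ^ (1 / (2 * Real.logb 2 (2 / δ))) := by
  have hKt : volume K ≠ ⊤ := hKc.measure_lt_top.ne
  have h1 : ((volume : Measure (EuclideanSpace ℝ (Fin d))).prod volume).real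
      (bad ((fun z => t + z) '' ((1 - δ) • K)) ∩ K ×ˢ K) ≤ ε * volume.real K ^ 2 := by
    have e1 : bad ((fun z => t + z) '' ((1 - δ) • K)) ∩ K ×ˢ K
        = {p | p.1 ∈ K ∧ p.2 ∈ K ∧
          (1 / 2 : ℝ) • (p.1 + p.2) ∉ (fun z => t + z) '' ((1 - δ) • K)} := by
      ext p
      constructor
      · rintro ⟨hp1, hp2⟩
        exact ⟨hp2.1, hp2.2, hp1⟩
      · rintro ⟨hp1, hp2, hp3⟩
        exact ⟨hp3, hp1, hp2⟩
    rw [e1, Measure.real]
    have h2 := ENNReal.toReal_mono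
      (ENNReal.mul_ne_top ENNReal.ofReal_ne_top (ENNReal.pow_ne_top hKt)) hbad
    rw [ENNReal.toReal_mul, ENNReal.toReal_ofReal hε0, ENNReal.toReal_pow] at h2
    exact h2
  obtain ⟨T, hT, hTc⟩ := pair_final hd hK hKc hKi h0 t hδ0 hδ1 hε1 h1
  exact ⟨T, cover_add hT, hTc⟩

end Pool.Agent.Run7.h533.AC
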