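import Mathlib
import Pool.Agent.Run7.h533.AC.Apps2

set_option autoImplicit false

/-!
# Uniform convexity
-/

open MeasureTheory Module Finset Metric
open scoped Pointwise ENNReal RealInnerProductSpace

namespace Pool.Agent.Run7.h533.AC

variable {d : ℕ} {K : Set (EuclideanSpace ℝ (Fin d))}

theorem vol_reflect (hKc : IsCompact K) {θ : ℝ} (hθ : 0 ≤ θ) (x : EuclideanSpace ℝ (Fin d)) :
    volume {y | x - y ∈ θ • K} = ENNReal.ofReal (θ ^ d) * volume K := by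
  have hfr : finrank ℝ (EuclideanSpace ℝ (Fin d)) = d := finrank_euclideanSpace_fin
  have h1 : volume {y | x - y ∈ θ • K} = volume (θ • K) :=
    (Measure.measurePreserving_sub_left (volume : Measure (EuclideanSpace ℝ (Fin d)))
      x).measure_preimage (hKc.smul θ).isClosed.measurableSet.nullMeasurableSet
  rw [h1, Measure.addHaar_smul, hfr, abs_of_nonneg (by positivity)]

/-- local uniform convexity at a share of the boundary points -/
theorem uniform_share (hd : 2 ≤ d) (hK : Convex ℝ K) (hKc : IsCompact K)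
    (hKi : (interior K).Nonempty)
    (hbar : ∫ x in K, x = 0) {δ θ β : ℝ} (hδ0 : 0 < δ) (hδ1 : δ ≤ 1)
    (hθ0 : 0 ≤ θ) (hθ1 : θ ≤ 1) (hβ0 : 0 < β) (hβ1 : β ≤ 1)
    (hS : ENNReal.ofReal β * volume K ≤ volume {z : EuclideanSpace ℝ (Fin d) | z ∈ K ∧ z ≠ 0 ∧
      ∀ y ∈ K, (gauge K z)⁻¹ • z - y ∉ θ • K →
        (1 / 2 : ℝ) • ((gauge K z)⁻¹ • z + y) ∈ (1 - δ) • K})
    (B : Set (EuclideanSpace ℝ (Fin d))) :
    ∃ T : Finset (EuclideanSpace ℝ (Fin d)),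
      K + B ⊆ ⋃ t ∈ T, (fun x => t + x) '' interior (K + B) ∧
      (T.card : ℝ) ≤ 300 * Real.logb 2 (16 / δ) ^ 2 * d * Real.log (d + 1) * 2 ^ d
        * (max (θ ^ d) (Real.exp (-d))) ^ (β * δ ^ 2 / (72 * Real.logb 2 (16 / δ) ^ 2)) := by
  refine rotund_all hd hK hKc hKi hbar hδ0 hδ1 (pow_le_one₀ hθ0 hθ1) hβ0 hβ1
    (hS.trans (measure_mono ?_)) B
  rintro z ⟨hzK, hz, h⟩
  refine ⟨hzK, hz, ?_⟩
  rw [← vol_reflect hKc hθ0 ((gauge K z)⁻¹ • z)]
  refine measure_mono ?_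
  rintro y ⟨hy1, hy2⟩
  by_contra hcon
  exact hy2 (h y hy1 hcon)

/-- uniform convexity -/
theorem uniform_all (hd : 2 ≤ d) (hK : Convex ℝ K) (hKc : IsCompact K)
    (hKi : (interior K).Nonempty) (h0 : (0 : EuclideanSpace ℝ (Fin d)) ∈ K)
    {δ θ : ℝ} (hδ0 : 0 < δ) (hδ1 : δ ≤ 1) (hθ0 : 0 ≤ θ) (hθ1 : θ ≤ 1)
    (h : ∀ x ∈ K, ∀ y ∈ K, x - y ∉ θ • K → (1 / 2 : ℝ) • (x + y) ∈ (1 - δ) • K)
    (B : Set (EuclideanSpace ℝ (Fin d))) :
    ∃ T : Finset (EuclideanSpace ℝ (Fin d)),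
      K + B ⊆ ⋃ t ∈ T, (fun x => t + x) '' interior (K + B) ∧
      (T.card : ℝ) ≤ 250 * Real.logb 2 (2 / δ) ^ 2 * d * Real.log (d + 1) * 2 ^ d
        * (max (θ ^ d) (Real.exp (-(δ ^ 2 * d / 2)))) ^ (1 / (2 * Real.logb 2 (2 / δ))) := by
  refine pair_all hd hK hKc hKi h0 0 hδ0 hδ1 (by positivity) (pow_le_one₀ hθ0 hθ1) ?_ B
  have hLc : IsClosed (θ • K) := (hKc.smul θ).isClosed
  set S : Set (EuclideanSpace ℝ (Fin d) × EuclideanSpace ℝ (Fin d)) :=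
    {p | p.1 ∈ K ∧ p.1 - p.2 ∈ θ • K} with hSdef
  have hSm : MeasurableSet S := by
    have h1 : IsClosed {p : EuclideanSpace ℝ (Fin d) × EuclideanSpace ℝ (Fin d) | p.1 ∈ K} :=
      hKc.isClosed.preimage continuous_fst
    have h2 : IsClosed {p : EuclideanSpace ℝ (Fin d) × EuclideanSpace ℝ (Fin d) |
        p.1 - p.2 ∈ θ • K} := hLc.preimage (by fun_prop)
    exact (h1.inter h2).measurableSet
  have hsub : {p : EuclideanSpace ℝ (Fin d) × EuclideanSpace ℝ (Fin d) | p.1 ∈ K ∧ p.2 ∈ K ∧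
      (1 / 2 : ℝ) • (p.1 + p.2) ∉ (fun z => (0 : EuclideanSpace ℝ (Fin d)) + z) ''
        ((1 - δ) • K)} ⊆ S := by
    rintro p ⟨hp1, hp2, hp3⟩
    refine ⟨hp1, ?_⟩
    by_contra hcon
    exact hp3 ⟨_, h p.1 hp1 p.2 hp2 hcon, zero_add _⟩
  refine (measure_mono hsub).trans (le_of_eq ?_)
  rw [Measure.prod_apply hSm]
  have h1 : ∀ x, volume (Prod.mk x ⁻¹' S)
      = K.indicator (fun _ => ENNReal.ofReal (θ ^ d) * volume K) x := by
    intro x
    by_cases hx : x ∈ K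
    · rw [Set.indicator_of_mem hx, ← vol_reflect hKc hθ0 x]
      congr 1
      ext y
      simp [hSdef, hx]
    · rw [Set.indicator_of_notMem hx]
      have : Prod.mk x ⁻¹' S = ∅ := by
        ext y
        simp [hSdef, hx]
      rw [this, measure_empty]
  simp only [h1]
  rw [lintegral_indicator_const hKc.isClosed.measurableSet]
  ring

end Pool.Agent.Run7.h533.AC
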