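import Mathlib
import Pool.Agent.Run7.h533.AC.Apps2

set_option autoImplicit false

/-!
# Pairs of points of a centred body
-/

open MeasureTheory Module Finset Metric
open scoped Pointwise ENNReal RealInnerProductSpace

namespace Pool.Agent.Run7.h533.AC

open Pool.Agent.TH591.Ns (IsG IsP isG_gauge ball_eq mem_smul_iff isP_sup drop)

variable {d : ℕ} {K : Set (EuclideanSpace ℝ (Fin d))}

/-- if the midpoints of most pairs are in `(1-δ) K`, then most points are rotund -/
theorem pairs_rotund (hK : Convex ℝ K) (hKc : IsCompact K) (hK0 : K ∈ nhds 0)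
    {δ ε : ℝ} (hδ0 : 0 < δ) (hδ1 : δ ≤ 1) (hε0 : 0 < ε) (hdδ : 2 ≤ δ * d)
    (hbad : ((volume : Measure (EuclideanSpace ℝ (Fin d))).prod volume)
      {p | p.1 ∈ K ∧ p.2 ∈ K ∧ (1 / 2 : ℝ) • (p.1 + p.2) ∉ (1 - δ) • K}
        ≤ ENNReal.ofReal ε * volume K ^ 2) :
    ENNReal.ofReal (1 / 2) * volume K ≤ volume {z : EuclideanSpace ℝ (Fin d) | z ∈ K ∧ z ≠ 0 ∧
      volume {y | y ∈ K ∧ (1 / 2 : ℝ) • ((gauge K z)⁻¹ • z + y) ∉ (1 - δ / 2) • K}
        ≤ ENNReal.ofReal (4 * ε) * volume K} := by
  have hfr : finrank ℝ (EuclideanSpace ℝ (Fin d)) = d := finrank_euclideanSpace_fin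
  have hg := isG_gauge hK hK0
  have hball := ball_eq hK hKc hK0
  have hV0 : volume K ≠ 0 := (Measure.measure_pos_of_mem_nhds volume hK0).ne'
  have hVt : volume K ≠ ⊤ := hKc.measure_lt_top.ne
  have hKm : MeasurableSet K := hKc.isClosed.measurableSet
  have h0K : (0 : EuclideanSpace ℝ (Fin d)) ∈ K := mem_of_mem_nhds hK0
  set f : EuclideanSpace ℝ (Fin d) → ℝ≥0∞ := fun z =>
    volume {y | y ∈ K ∧ (1 / 2 : ℝ) • (z + y) ∉ (1 - δ) • K} with hf
  set S : Set (EuclideanSpace ℝ (Fin d) × EuclideanSpace ℝ (Fin d)) :=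
    {p | p.1 ∈ K ∧ p.2 ∈ K ∧ (1 / 2 : ℝ) • (p.1 + p.2) ∉ (1 - δ) • K} with hS
  have hLc : IsClosed ((1 - δ) • K) := (hKc.smul _).isClosed
  have hSm : MeasurableSet S := by
    have h1 : IsClosed {p : EuclideanSpace ℝ (Fin d) × EuclideanSpace ℝ (Fin d) | p.1 ∈ K} :=
      hKc.isClosed.preimage continuous_fst
    have h2 : IsClosed {p : EuclideanSpace ℝ (Fin d) × EuclideanSpace ℝ (Fin d) | p.2 ∈ K} :=
      hKc.isClosed.preimage continuous_snd
    have h3 : IsClosed {p : EuclideanSpace ℝ (Fin d) × EuclideanSpace ℝ (Fin d) |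
        (1 / 2 : ℝ) • (p.1 + p.2) ∈ (1 - δ) • K} := hLc.preimage (by fun_prop)
    exact h1.measurableSet.inter (h2.measurableSet.inter h3.measurableSet.compl)
  have hprod : (volume.prod volume) S = ∫⁻ z, K.indicator f z := by
    rw [Measure.prod_apply hSm]
    refine lintegral_congr fun z => ?_
    by_cases hz : z ∈ K
    · rw [Set.indicator_of_mem hz]
      rw [hf]
      congr 1
      ext y
      simp [hS, hz]
    · rw [Set.indicator_of_notMem hz]
      have : Prod.mk z ⁻¹' S = ∅ := by
        ext y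
        simp [hS, hz]
      rw [this, measure_empty]
  have hmeas : AEMeasurable (K.indicator f) volume := by
    have h1 : Measurable fun z => volume (Prod.mk z ⁻¹' S) := measurable_measure_prodMk_left hSm
    have h2 : (fun z => volume (Prod.mk z ⁻¹' S)) = K.indicator f := by
      funext z
      by_cases hz : z ∈ K
      · rw [Set.indicator_of_mem hz, hf]
        congr 1
        ext y
        simp [hS, hz]
      · rw [Set.indicator_of_notMem hz]
        have : Prod.mk z ⁻¹' S = ∅ := by
          ext y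
          simp [hS, hz]
        rw [this, measure_empty]
    rw [← h2]
    exact h1.aemeasurable
  -- Markov
  set B1 : Set (EuclideanSpace ℝ (Fin d)) :=
    {z | ENNReal.ofReal (4 * ε) * volume K ≤ K.indicator f z} with hB1
  have hmarkov : volume B1 ≤ ENNReal.ofReal (1 / 4) * volume K := by
    have h1 := mul_meas_ge_le_lintegral₀ hmeas (ENNReal.ofReal (4 * ε) * volume K)
    rw [← hprod] at h1
    have h2 := h1.trans hbad
    have h3 : ENNReal.ofReal (4 * ε) * volume K ≠ 0 :=
      mul_ne_zero (ENNReal.ofReal_pos.2 (by positivity)).ne' hV0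
    have h4 : ENNReal.ofReal (4 * ε) * volume K ≠ ⊤ := ENNReal.mul_ne_top ENNReal.ofReal_ne_top hVt
    have h5 : ENNReal.ofReal ε * volume K ^ 2
        = ENNReal.ofReal (4 * ε) * volume K * (ENNReal.ofReal (1 / 4) * volume K) := by
      have : ENNReal.ofReal ε = ENNReal.ofReal (4 * ε) * ENNReal.ofReal (1 / 4) := by
        rw [← ENNReal.ofReal_mul (by positivity)]
        congr 1
        ring
      rw [this]
      ring
    rw [h5] at h2
    exact (ENNReal.mul_le_mul_iff_right h3 h4).1 h2
  -- the inner part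
  have hinner : volume ((1 - δ) • K) ≤ ENNReal.ofReal (1 / 4) * volume K := by
    rw [Measure.addHaar_smul, hfr, abs_of_nonneg (pow_nonneg (by linarith) _)]
    gcongr
    calc (1 - δ) ^ d ≤ Real.exp (-δ) ^ d := by
          apply pow_le_pow_left₀ (by linarith)
          have := Real.add_one_le_exp (-δ)
          linarith
      _ = Real.exp (-(δ * d)) := by
          rw [← Real.exp_nat_mul]
          congr 1
          ring
      _ ≤ Real.exp (-2) := Real.exp_le_exp.2 (by linarith)
      _ ≤ 1 / 4 := by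
          have h1 : Real.exp (-2) = (Real.exp 1)⁻¹ * (Real.exp 1)⁻¹ := by
            rw [← Real.exp_neg, ← Real.exp_add]
            norm_num
          have h2 : (Real.exp 1)⁻¹ ≤ 1 / 2 := by
            rw [inv_le_comm₀ (Real.exp_pos _) (by norm_num)]
            have := Real.add_one_le_exp (1 : ℝ)
            norm_num at this ⊢
            linarith
          have h3 : 0 < (Real.exp 1)⁻¹ := by positivity
          rw [h1]
          nlinarith
  set G : Set (EuclideanSpace ℝ (Fin d)) := {z : EuclideanSpace ℝ (Fin d) | z ∈ K ∧ z ≠ 0 ∧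
      volume {y | y ∈ K ∧ (1 / 2 : ℝ) • ((gauge K z)⁻¹ • z + y) ∉ (1 - δ / 2) • K}
        ≤ ENNReal.ofReal (4 * ε) * volume K} with hG
  have hcover : K ⊆ G ∪ (B1 ∪ (1 - δ) • K) := by
    intro z hz
    by_cases h1 : z ∈ B1
    · exact Or.inr (Or.inl h1)
    by_cases h2 : z ∈ (1 - δ) • K
    · exact Or.inr (Or.inr h2)
    left
    have hz0 : z ≠ 0 := by
      rintro rfl
      exact h2 ⟨0, h0K, by simp⟩
    obtain ⟨hpos, -, hxK, -⟩ := bd_point hK hKc hK0 hz0
    have hgz1 : gauge K z ≤ 1 := gauge_le_one_of_mem hz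
    have hgz : 1 - δ < gauge K z := by
      by_contra hcon
      push Not at hcon
      apply h2
      refine ⟨(gauge K z / (1 - δ)) • ((gauge K z)⁻¹ • z), ?_, ?_⟩
      · have h3 : 0 < 1 - δ := hpos.trans_le hcon
        have h4 := hK h0K hxK (show 0 ≤ 1 - gauge K z / (1 - δ) by
          rw [sub_nonneg, div_le_one h3]; exact hcon)
          (show 0 ≤ gauge K z / (1 - δ) by positivity) (by ring)
        simpa using h4
      · have h3 : 0 < 1 - δ := hpos.trans_le hcon
        simp only [smul_smul]
        have : (1 - δ) * (gauge K z / (1 - δ) * (gauge K z)⁻¹) = 1 := by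
          field_simp
        rw [this, one_smul]
    refine ⟨hz, hz0, ?_⟩
    have h3 : f z < ENNReal.ofReal (4 * ε) * volume K := by
      have h4 : ¬ (ENNReal.ofReal (4 * ε) * volume K ≤ K.indicator f z) := h1
      rw [Set.indicator_of_mem hz, not_le] at h4
      exact h4
    refine (measure_mono ?_).trans h3.le
    rintro y ⟨hy1, hy2⟩
    refine ⟨hy1, fun hin => hy2 ?_⟩
    -- the gauge of the midpoint
    by_cases hδ2 : δ = 1
    · exfalso
      subst hδ2
      -- the midpoint of `z` and `y` is `0`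
      obtain ⟨k, -, hk⟩ := hin
      simp only [sub_self, zero_smul] at hk
      have hy : y = -z := by
        have h5 : (1 / 2 : ℝ) • (z + y) = 0 := hk.symm
        have h6 : z + y = 0 := by
          rcases smul_eq_zero.1 h5 with h | h
          · norm_num at h
          · exact h
        exact (neg_eq_of_add_eq_zero_right h6).symm
      apply hy2
      rw [hy]
      refine ⟨((gauge K z)⁻¹ - 1) • z, ?_, ?_⟩
      · have h7 : 1 ≤ (gauge K z)⁻¹ := by
          rw [one_le_inv₀ hpos]; exact hgz1
        have h4 := hK h0K hxK (show 0 ≤ 1 - (1 - gauge K z) by linarith [hpos.le])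
          (show 0 ≤ 1 - gauge K z by linarith) (by ring)
        have e : (1 - (1 - gauge K z)) • (0 : EuclideanSpace ℝ (Fin d)) +
            (1 - gauge K z) • ((gauge K z)⁻¹ • z) = ((gauge K z)⁻¹ - 1) • z := by
          rw [smul_zero, zero_add, smul_smul]
          congr 1
          field_simp
        rw [e] at h4
        exact h4
      · simp only
        module
    · have hδ3 : 0 < 1 - δ := by
        have : δ < 1 := lt_of_le_of_ne hδ1 hδ2
        linarith
      have h4 : gauge K ((1 / 2 : ℝ) • (z + y)) ≤ 1 - δ := (mem_smul_iff hK hKc hK0 _ hδ3 _).1 hin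
      rw [mem_smul_iff hK hKc hK0 (1 - δ / 2) (by linarith)]
      have e : (1 / 2 : ℝ) • ((gauge K z)⁻¹ • z + y)
          = (1 / 2 : ℝ) • (z + y) + ((1 - gauge K z) / 2) • ((gauge K z)⁻¹ • z) := by
        have h5 : ((1 - gauge K z) / 2) • ((gauge K z)⁻¹ • z)
            = (1 / 2 : ℝ) • ((gauge K z)⁻¹ • z) - (1 / 2 : ℝ) • z := by
          rw [smul_smul, smul_smul, ← sub_smul]
          congr 1
          field_simp
        rw [h5]
        module
      rw [e]
      refine (hg.add _ _).trans ?_
      rw [hg.smul _ (show (0 : ℝ) ≤ (1 - gauge K z) / 2 by linarith)]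
      have h6 : gauge K ((gauge K z)⁻¹ • z) ≤ 1 := gauge_le_one_of_mem hxK
      have h7 : (1 - gauge K z) / 2 * gauge K ((gauge K z)⁻¹ • z) ≤ (1 - gauge K z) / 2 * 1 :=
        mul_le_mul_of_nonneg_left h6 (by linarith)
      linarith
  have h1 : volume K ≤ volume G + (ENNReal.ofReal (1 / 4) * volume K
      + ENNReal.ofReal (1 / 4) * volume K) := by
    calc volume K ≤ volume (G ∪ (B1 ∪ (1 - δ) • K)) := measure_mono hcover
      _ ≤ volume G + (volume B1 + volume ((1 - δ) • K)) := by
          refine (measure_union_le _ _).trans ?_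
          gcongr
          exact measure_union_le _ _
      _ ≤ _ := by gcongr
  have h2 : ENNReal.ofReal (1 / 4) * volume K + ENNReal.ofReal (1 / 4) * volume K
      = ENNReal.ofReal (1 / 2) * volume K := by
    rw [← add_mul, ← ENNReal.ofReal_add (by norm_num) (by norm_num)]
    norm_num
  have h3 : volume K = ENNReal.ofReal (1 / 2) * volume K + ENNReal.ofReal (1 / 2) * volume K := by
    rw [← add_mul, ← ENNReal.ofReal_add (by norm_num) (by norm_num)]
    norm_num
  rw [h2] at h1
  have h4 : ENNReal.ofReal (1 / 2) * volume K ≠ ⊤ := ENNReal.mul_ne_top ENNReal.ofReal_ne_top hVt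
  have h5 : ENNReal.ofReal (1 / 2) * volume K + ENNReal.ofReal (1 / 2) * volume K
      ≤ volume G + ENNReal.ofReal (1 / 2) * volume K := h3 ▸ h1
  exact (ENNReal.add_le_add_iff_right h4).1 h5

end Pool.Agent.Run7.h533.AC
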