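import Mathlib
import Pool.Agent.H985.Sep
import Pool.Agent.Run7.h533.AC.Apps2

set_option autoImplicit false

/-!
# The polar body: pairs of functionals, and bodies in which a ball rolls freely
-/

open MeasureTheory Module Finset Metric
open scoped Pointwise ENNReal RealInnerProductSpace

namespace Pool.Agent.Run7.h533.AC

open Pool.Agent.H985.Sep (polar convex_polar isCompact_polar interior_polar_nonempty
  norm_le_of_mem_polar)

variable {d : ℕ} {K : Set (EuclideanSpace ℝ (Fin d))}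

/-- covering of the polar body by the pairs criterion -/
theorem dual_pairs (hd : 2 ≤ d) (hKc : IsCompact K) {o : EuclideanSpace ℝ (Fin d)}
    (ho : o ∈ interior K) (t : EuclideanSpace ℝ (Fin d)) {δ ε : ℝ} (hδ0 : 0 < δ) (hδ1 : δ < 1)
    (hε0 : 0 ≤ ε) (hε1 : ε ≤ 1)
    (hbad : ((volume : Measure (EuclideanSpace ℝ (Fin d))).prod volume)
      {p | p.1 ∈ polar K o ∧ p.2 ∈ polar K o ∧
        ∃ y ∈ K, 1 - δ < ⟪(1 / 2 : ℝ) • (p.1 + p.2) - t, y - o⟫}
        ≤ ENNReal.ofReal ε * volume (polar K o) ^ 2) :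
    ∃ T : Finset (EuclideanSpace ℝ (Fin d)),
      polar K o ⊆ ⋃ t ∈ T, (fun x => t + x) '' interior (polar K o) ∧
      (T.card : ℝ) ≤ 250 * Real.logb 2 (2 / δ) ^ 2 * d * Real.log (d + 1) * 2 ^ d
        * (max ε (Real.exp (-(δ ^ 2 * d / 2)))) ^ (1 / (2 * Real.logb 2 (2 / δ))) := by
  have h0 : (0 : EuclideanSpace ℝ (Fin d)) ∈ polar K o := fun y _ => by
    rw [inner_zero_left]; exact zero_le_one
  have hsub : {p : EuclideanSpace ℝ (Fin d) × EuclideanSpace ℝ (Fin d) |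
      p.1 ∈ polar K o ∧ p.2 ∈ polar K o ∧
        (1 / 2 : ℝ) • (p.1 + p.2) ∉ (fun z => t + z) '' ((1 - δ) • polar K o)}
      ⊆ {p | p.1 ∈ polar K o ∧ p.2 ∈ polar K o ∧
        ∃ y ∈ K, 1 - δ < ⟪(1 / 2 : ℝ) • (p.1 + p.2) - t, y - o⟫} := by
    rintro p ⟨hp1, hp2, hp3⟩
    refine ⟨hp1, hp2, ?_⟩
    by_contra hcon
    push Not at hcon
    have hδ2 : 0 < 1 - δ := by linarith
    refine hp3 ⟨(1 / 2 : ℝ) • (p.1 + p.2) - t,
      ⟨(1 - δ)⁻¹ • ((1 / 2 : ℝ) • (p.1 + p.2) - t), fun y hy => ?_, ?_⟩, ?_⟩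
    · rw [real_inner_smul_left, inv_mul_le_iff₀ hδ2, mul_one]
      exact hcon y hy
    · simp only
      rw [smul_smul, mul_inv_cancel₀ hδ2.ne', one_smul]
    · simp only
      abel
  obtain ⟨T, hT, hTc⟩ := pair_all hd (convex_polar K o) (isCompact_polar ho)
    (interior_polar_nonempty hKc ho) h0 t hδ0 hδ1.le hε0 hε1
    ((measure_mono hsub).trans hbad) {0}
  rw [add_zero_singleton] at hT
  exact ⟨T, hT, hTc⟩
where
  add_zero_singleton : polar K o + {(0 : EuclideanSpace ℝ (Fin d))} = polar K o := by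
    rw [Set.add_singleton]
    simp

/-- two functionals which are large at a point of a ball of radius `κ R` in `K` are close -/
theorem rolling {o : EuclideanSpace ℝ (Fin d)} {κ R : ℝ} (hκ0 : 0 < κ) (hκ1 : κ ≤ 1) (hR : 0 < R)
    (hin : closedBall o (κ * R) ⊆ K) (hout : K ⊆ closedBall o R)
    {u v y a : EuclideanSpace ℝ (Fin d)} (hu : u ∈ polar K o) (hv : v ∈ polar K o)
    (hy : y ∈ K) (hya : y ∈ closedBall a (κ * R)) (haK : closedBall a (κ * R) ⊆ K)
    (h : 1 - κ ^ 4 / 256 < ⟪(1 / 2 : ℝ) • (u + v), y - o⟫) : ‖u - v‖ ≤ 1 / (2 * R) := by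
  -- the general estimate with `‖v‖ ≤ ‖u‖`
  have key : ∀ u v : EuclideanSpace ℝ (Fin d), u ∈ polar K o → v ∈ polar K o → ‖v‖ ≤ ‖u‖ →
      1 - κ ^ 4 / 256 < ⟪(1 / 2 : ℝ) • (u + v), y - o⟫ → ‖u - v‖ ≤ 1 / (2 * R) := by
    intro u v hu hv hvu h
    set ρ : ℝ := κ * R with hρ
    have hρ0 : 0 < ρ := by positivity
    set s : ℝ := κ ^ 2 / 16 with hs
    have hs0 : 0 < s := by positivity
    have hs2 : κ ^ 4 / 256 = s ^ 2 := by rw [hs]; ring
    have hsκ : s ≤ κ / 16 := by rw [hs]; nlinarith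
    rw [hs2, real_inner_smul_left, inner_add_left] at h
    have hnu : ‖u‖ ≤ 1 / ρ := norm_le_of_mem_polar hρ0 hin u hu
    have hnv : ‖v‖ ≤ 1 / ρ := norm_le_of_mem_polar hρ0 hin v hv
    -- the ball
    have hball : ∀ w ∈ polar K o, ⟪w, a - o⟫ + ρ * ‖w‖ ≤ 1 := by
      intro w hw
      rcases eq_or_ne w 0 with rfl | hw0
      · simp
      have hn : 0 < ‖w‖ := norm_pos_iff.2 hw0
      have h1 : a + (ρ / ‖w‖) • w ∈ K := by
        apply haK
        rw [mem_closedBall, dist_eq_norm, add_sub_cancel_left, norm_smul, Real.norm_eq_abs,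
          abs_of_pos (by positivity), div_mul_cancel₀ _ hn.ne']
      have h2 := hw _ h1
      have h3 : a + (ρ / ‖w‖) • w - o = (a - o) + (ρ / ‖w‖) • w := by abel
      rw [h3, inner_add_right, real_inner_smul_right, real_inner_self_eq_norm_sq] at h2
      have h4 : ρ / ‖w‖ * ‖w‖ ^ 2 = ρ * ‖w‖ := by field_simp
      linarith
    have h1 := hball u hu
    have h2 := hball v hv
    have h3 : ⟪u + v, y - a⟫ ≤ ‖u + v‖ * ρ := by
      refine (real_inner_le_norm _ _).trans ?_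
      gcongr
      rw [← dist_eq_norm]
      exact hya
    have h4 : ⟪u, y - o⟫ + ⟪v, y - o⟫ = ⟪u, a - o⟫ + ⟪v, a - o⟫ + ⟪u + v, y - a⟫ := by
      have e : y - o = (a - o) + (y - a) := by abel
      rw [e, inner_add_right, inner_add_right, inner_add_left]
      ring
    have h5 : ρ * (‖u‖ + ‖v‖ - ‖u + v‖) ≤ 2 * s ^ 2 := by nlinarith
    have h6 : ‖u + v‖ ≤ ‖u‖ + ‖v‖ := norm_add_le _ _
    -- the inner product
    have h7 : ‖u‖ * ‖v‖ - ⟪u, v⟫ ≤ 4 * s ^ 2 / ρ ^ 2 := by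
      have e : 2 * (‖u‖ * ‖v‖ - ⟪u, v⟫) = (‖u‖ + ‖v‖ - ‖u + v‖) * (‖u‖ + ‖v‖ + ‖u + v‖) := by
        have := norm_add_sq_real u v
        nlinarith
      have h8 : ‖u‖ + ‖v‖ + ‖u + v‖ ≤ 4 / ρ := by
        have : 4 / ρ = 1 / ρ + 1 / ρ + (1 / ρ + 1 / ρ) := by ring
        rw [this]
        linarith
      have h9 : ‖u‖ + ‖v‖ - ‖u + v‖ ≤ 2 * s ^ 2 / ρ := by
        rw [le_div_iff₀ hρ0]; linarith
      have h10 : 0 ≤ ‖u‖ + ‖v‖ - ‖u + v‖ := by linarith
      have h11 : (‖u‖ + ‖v‖ - ‖u + v‖) * (‖u‖ + ‖v‖ + ‖u + v‖) ≤ 2 * s ^ 2 / ρ * (4 / ρ) := by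
        apply mul_le_mul h9 h8 (by positivity) (by positivity)
      have h12 : 2 * s ^ 2 / ρ * (4 / ρ) = 2 * (4 * s ^ 2 / ρ ^ 2) := by
        field_simp
      linarith
    -- both functionals are large
    have hu1 : ⟪u, y - o⟫ ≤ 1 := hu y hy
    have hv1 : ⟪v, y - o⟫ ≤ 1 := hv y hy
    have hv2 : 1 - 2 * s ^ 2 < ⟪v, y - o⟫ := by linarith
    have hyR : ‖y - o‖ ≤ R := by
      have := hout hy
      rwa [mem_closedBall, dist_eq_norm] at this
    have hs1 : s ≤ 1 / 16 := hsκ.trans (by linarith)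
    have hv0 : 0 < ‖v‖ := by
      rw [norm_pos_iff]
      rintro rfl
      rw [inner_zero_left] at hv2
      nlinarith
    have hu0 : 0 < ‖u‖ := hv0.trans_le hvu
    set l : ℝ := ‖v‖ / ‖u‖ with hl
    have hl0 : 0 < l := by positivity
    have hl1 : l ≤ 1 := by rw [hl, div_le_one hu0]; exact hvu
    have hlu : l * ‖u‖ = ‖v‖ := by rw [hl, div_mul_cancel₀ _ hu0.ne']
    have h13 : ‖v - l • u‖ ^ 2 ≤ (3 * s / ρ) ^ 2 := by
      have e : ‖v - l • u‖ ^ 2 = 2 * l * (‖u‖ * ‖v‖ - ⟪u, v⟫) := by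
        rw [norm_sub_sq_real, norm_smul, real_inner_smul_right, Real.norm_of_nonneg hl0.le, hlu,
          real_inner_comm]
        nlinarith
      have h14 : 0 ≤ ‖u‖ * ‖v‖ - ⟪u, v⟫ := by
        have := real_inner_le_norm u v
        linarith
      rw [e]
      calc 2 * l * (‖u‖ * ‖v‖ - ⟪u, v⟫) ≤ 2 * 1 * (4 * s ^ 2 / ρ ^ 2) := by gcongr
        _ ≤ (3 * s / ρ) ^ 2 := by
            have e3 : (3 * s / ρ) ^ 2 = 9 * (s ^ 2 / ρ ^ 2) := by rw [div_pow]; ring
            have e4 : 2 * 1 * (4 * s ^ 2 / ρ ^ 2) = 8 * (s ^ 2 / ρ ^ 2) := by ring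
            have e5 : 0 ≤ s ^ 2 / ρ ^ 2 := by positivity
            rw [e3, e4]
            linarith
    have h15 : ‖v - l • u‖ ≤ 3 * s / ρ := le_of_sq_le_sq h13 (by positivity)
    -- the lengths
    have h16 : 1 - l ≤ 5 * s / κ := by
      have e : ⟪v, y - o⟫ = l * ⟪u, y - o⟫ + ⟪v - l • u, y - o⟫ := by
        rw [inner_sub_left, real_inner_smul_left]
        ring
      have h17 : ⟪v - l • u, y - o⟫ ≤ 3 * s / ρ * R :=
        (real_inner_le_norm _ _).trans (mul_le_mul h15 hyR (norm_nonneg _) (by positivity))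
      have h18 : 3 * s / ρ * R = 3 * s / κ := by rw [hρ]; field_simp
      have h19 : l * ⟪u, y - o⟫ ≤ l * 1 := mul_le_mul_of_nonneg_left hu1 hl0.le
      have h20 : 2 * s ^ 2 ≤ 2 * s / κ := by
        rw [le_div_iff₀ hκ0]
        nlinarith
      have h21 : 5 * s / κ = 2 * s / κ + 3 * s / κ := by ring
      rw [h21]
      linarith
    have h22 : ‖u - v‖ ≤ (1 - l) * ‖u‖ + ‖v - l • u‖ := by
      have e : u - v = (1 - l) • u - (v - l • u) := by module
      calc ‖u - v‖ = ‖(1 - l) • u - (v - l • u)‖ := by rw [← e]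
        _ ≤ ‖(1 - l) • u‖ + ‖v - l • u‖ := norm_sub_le _ _
        _ = (1 - l) * ‖u‖ + ‖v - l • u‖ := by
            rw [norm_smul, Real.norm_of_nonneg (by linarith)]
    have h23 : (1 - l) * ‖u‖ ≤ 5 * s / κ * (1 / ρ) :=
      mul_le_mul h16 hnu (norm_nonneg _) (by positivity)
    have h24 : 5 * s / κ * (1 / ρ) + 3 * s / ρ ≤ 1 / (2 * R) := by
      have h25 : 3 * s / ρ ≤ 3 * s / κ * (1 / ρ) := by
        have : 3 * s / ρ = 3 * s * (1 / ρ) := by ring
        rw [this]
        have h26 : 3 * s ≤ 3 * s / κ := by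
          rw [le_div_iff₀ hκ0]
          nlinarith
        gcongr
      have h27 : 5 * s / κ * (1 / ρ) + 3 * s / κ * (1 / ρ) = 1 / (2 * R) := by
        rw [hρ, hs]
        field_simp
        norm_num
      linarith
    linarith
  rcases le_total ‖v‖ ‖u‖ with hvu | hvu
  · exact key u v hu hv hvu h
  · rw [norm_sub_rev]
    exact key v u hv hu hvu (by rw [add_comm]; exact h)

/-- the pairs of linked functionals of a body which is, up to a small share of the functionals, a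
union of balls of radius `κ R` -/
theorem rolling_pairs {o : EuclideanSpace ℝ (Fin d)} {κ R ε : ℝ} (hκ0 : 0 < κ) (hκ1 : κ ≤ 1)
    (hR : 0 < R) (hε0 : 0 ≤ ε)
    (hin : closedBall o (κ * R) ⊆ K) (hout : K ⊆ closedBall o R)
    (hrough : volume {u | u ∈ polar K o ∧ ∃ y ∈ K,
        (∀ a, y ∈ closedBall a (κ * R) → ¬ closedBall a (κ * R) ⊆ K) ∧
          1 - κ ^ 4 / 128 < ⟪u, y - o⟫} ≤ ENNReal.ofReal ε * volume (polar K o)) :
    ((volume : Measure (EuclideanSpace ℝ (Fin d))).prod volume)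
      {p | p.1 ∈ polar K o ∧ p.2 ∈ polar K o ∧
        ∃ y ∈ K, 1 - κ ^ 4 / 256 < ⟪(1 / 2 : ℝ) • (p.1 + p.2) - 0, y - o⟫}
        ≤ ENNReal.ofReal (ε + (1 / 2) ^ d) * volume (polar K o) ^ 2 := by
  have hfr : finrank ℝ (EuclideanSpace ℝ (Fin d)) = d := finrank_euclideanSpace_fin
  have ho : o ∈ interior K := by
    rw [mem_interior_iff_mem_nhds]
    exact Filter.mem_of_superset (closedBall_mem_nhds o (by positivity)) hin
  have hPc := isCompact_polar (K := K) ho
  set P := polar K o with hP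
  set G : Set (EuclideanSpace ℝ (Fin d)) := {u | u ∈ P ∧ ∃ y ∈ K,
        (∀ a, y ∈ closedBall a (κ * R) → ¬ closedBall a (κ * R) ⊆ K) ∧
          1 - κ ^ 4 / 128 < ⟪u, y - o⟫} with hG
  set S : Set (EuclideanSpace ℝ (Fin d) × EuclideanSpace ℝ (Fin d)) :=
    {p | p.1 ∈ P ∧ ‖p.1 - p.2‖ ≤ 1 / (2 * R)} with hS
  have hsub : {p : EuclideanSpace ℝ (Fin d) × EuclideanSpace ℝ (Fin d) | p.1 ∈ P ∧ p.2 ∈ P ∧
        ∃ y ∈ K, 1 - κ ^ 4 / 256 < ⟪(1 / 2 : ℝ) • (p.1 + p.2) - 0, y - o⟫} ⊆ G ×ˢ P ∪ S := by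
    rintro p ⟨hp1, hp2, y, hy, h⟩
    rw [sub_zero] at h
    by_cases hgood : ∀ a, y ∈ closedBall a (κ * R) → ¬ closedBall a (κ * R) ⊆ K
    · left
      refine ⟨⟨hp1, y, hy, hgood, ?_⟩, hp2⟩
      rw [real_inner_smul_left, inner_add_left] at h
      have := hp2 y hy
      linarith
    · right
      push Not at hgood
      obtain ⟨a, hya, haK⟩ := hgood
      exact ⟨hp1, rolling hκ0 hκ1 hR hin hout hp1 hp2 hy hya haK h⟩
  have hSm : MeasurableSet S := by
    have h1 : IsClosed {p : EuclideanSpace ℝ (Fin d) × EuclideanSpace ℝ (Fin d) | p.1 ∈ P} :=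
      hPc.isClosed.preimage continuous_fst
    have h2 : IsClosed {p : EuclideanSpace ℝ (Fin d) × EuclideanSpace ℝ (Fin d) |
        ‖p.1 - p.2‖ ≤ 1 / (2 * R)} := isClosed_le (by fun_prop) continuous_const
    exact (h1.inter h2).measurableSet
  have hballP : closedBall (0 : EuclideanSpace ℝ (Fin d)) (1 / R) ⊆ P := by
    intro v hv y hy
    rw [mem_closedBall, dist_zero_right] at hv
    have hyR : ‖y - o‖ ≤ R := by
      have := hout hy
      rwa [mem_closedBall, dist_eq_norm] at this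
    calc ⟪v, y - o⟫ ≤ ‖v‖ * ‖y - o‖ := real_inner_le_norm _ _
      _ ≤ 1 / R * R := by gcongr
      _ = 1 := by field_simp
  have hSv : (volume.prod volume) S ≤ ENNReal.ofReal ((1 / 2) ^ d) * volume P ^ 2 := by
    rw [Measure.prod_apply hSm]
    have h1 : ∀ x, volume (Prod.mk x ⁻¹' S)
        ≤ P.indicator (fun _ => ENNReal.ofReal ((1 / 2) ^ d) * volume P) x := by
      intro x
      by_cases hx : x ∈ P
      · rw [Set.indicator_of_mem hx]
        have e1 : Prod.mk x ⁻¹' S ⊆ closedBall x (1 / (2 * R)) := by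
          rintro y ⟨-, hy⟩
          rw [mem_closedBall, dist_eq_norm, norm_sub_rev]
          exact hy
        refine (measure_mono e1).trans ?_
        have e2 : volume (closedBall x (1 / (2 * R))) = ENNReal.ofReal ((1 / 2) ^ d) *
            volume (closedBall (0 : EuclideanSpace ℝ (Fin d)) (1 / R)) := by
          rw [Measure.addHaar_closedBall _ _ (by positivity),
            Measure.addHaar_closedBall _ _ (by positivity), hfr, ← mul_assoc,
            ← ENNReal.ofReal_mul (by positivity)]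
          congr 2
          rw [← mul_pow]
          congr 1
          field_simp
        rw [e2]
        gcongr
      · rw [Set.indicator_of_notMem hx]
        have : Prod.mk x ⁻¹' S = ∅ := by
          ext y
          simp [hS, hx]
        rw [this, measure_empty]
    refine (lintegral_mono h1).trans (le_of_eq ?_)
    rw [lintegral_indicator_const hPc.isClosed.measurableSet]
    ring
  calc (volume.prod volume) _ ≤ (volume.prod volume) (G ×ˢ P ∪ S) := measure_mono hsub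
    _ ≤ (volume.prod volume) (G ×ˢ P) + (volume.prod volume) S := measure_union_le _ _
    _ ≤ ENNReal.ofReal ε * volume P ^ 2 + ENNReal.ofReal ((1 / 2) ^ d) * volume P ^ 2 := by
        gcongr
        rw [Measure.prod_prod]
        calc volume G * volume P ≤ ENNReal.ofReal ε * volume P * volume P := by gcongr
          _ = ENNReal.ofReal ε * volume P ^ 2 := by ring
    _ = ENNReal.ofReal (ε + (1 / 2) ^ d) * volume P ^ 2 := by
        rw [ENNReal.ofReal_add hε0 (by positivity), add_mul]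

/-- uniform smoothness -/
theorem smooth_pairs {o : EuclideanSpace ℝ (Fin d)} (ho : o ∈ interior K) {δ θ : ℝ} (hθ0 : 0 ≤ θ)
    (h : ∀ u ∈ polar K o, ∀ v ∈ polar K o,
      (∃ y ∈ K, 1 - δ < ⟪(1 / 2 : ℝ) • (u + v) - 0, y - o⟫) → u - v ∈ θ • polar K o) :
    ((volume : Measure (EuclideanSpace ℝ (Fin d))).prod volume)
      {p | p.1 ∈ polar K o ∧ p.2 ∈ polar K o ∧
        ∃ y ∈ K, 1 - δ < ⟪(1 / 2 : ℝ) • (p.1 + p.2) - 0, y - o⟫}
        ≤ ENNReal.ofReal (θ ^ d) * volume (polar K o) ^ 2 := by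
  have hfr : finrank ℝ (EuclideanSpace ℝ (Fin d)) = d := finrank_euclideanSpace_fin
  have hPc := isCompact_polar (K := K) ho
  set P := polar K o with hP
  set S : Set (EuclideanSpace ℝ (Fin d) × EuclideanSpace ℝ (Fin d)) :=
    {p | p.1 ∈ P ∧ p.1 - p.2 ∈ θ • P} with hS
  have hSm : MeasurableSet S := by
    have h1 : IsClosed {p : EuclideanSpace ℝ (Fin d) × EuclideanSpace ℝ (Fin d) | p.1 ∈ P} :=
      hPc.isClosed.preimage continuous_fst
    have h2 : IsClosed {p : EuclideanSpace ℝ (Fin d) × EuclideanSpace ℝ (Fin d) |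
        p.1 - p.2 ∈ θ • P} := (hPc.smul θ).isClosed.preimage (by fun_prop)
    exact (h1.inter h2).measurableSet
  refine (measure_mono (show _ ⊆ S from fun p hp =>
    ⟨hp.1, h p.1 hp.1 p.2 hp.2.1 hp.2.2⟩)).trans (le_of_eq ?_)
  rw [Measure.prod_apply hSm]
  have h1 : ∀ x, volume (Prod.mk x ⁻¹' S)
      = P.indicator (fun _ => ENNReal.ofReal (θ ^ d) * volume P) x := by
    intro x
    by_cases hx : x ∈ P
    · rw [Set.indicator_of_mem hx]
      have e1 : Prod.mk x ⁻¹' S = {y | x - y ∈ θ • P} := by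
        ext y
        simp [hS, hx]
      have e2 : volume {y | x - y ∈ θ • P} = volume (θ • P) :=
        (Measure.measurePreserving_sub_left (volume : Measure (EuclideanSpace ℝ (Fin d)))
          x).measure_preimage (hPc.smul θ).isClosed.measurableSet.nullMeasurableSet
      rw [e1, e2, Measure.addHaar_smul, hfr, abs_of_nonneg (by positivity)]
    · rw [Set.indicator_of_notMem hx]
      have : Prod.mk x ⁻¹' S = ∅ := by
        ext y
        simp [hS, hx]
      rw [this, measure_empty]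
  simp only [h1]
  rw [lintegral_indicator_const hPc.isClosed.measurableSet]
  ring

end Pool.Agent.Run7.h533.AC
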